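import Pool.Agent.H999.LimCC.Engine

/-! Kernel-evaluable checks combining certificates over all gap indices. -/

set_option autoImplicit false

namespace Pool.Agent.H999.LimCC

/-- upper bound of `2^44 / π` -/
def VU : ℤ := 5599766737523

/-- lower bound of `2^44 / π` -/
def VL : ℤ := 5599766737522

namespace QC

/-- `b1 * (Q 2^22)` -/
def bI (C : QC) : ℤ := (C.bP : ℤ) - C.bM

/-- `c * (Q 2^66)` -/
def cI (C : QC) : ℤ := (C.cP : ℤ) - C.cM

/-- `g * 2^44` -/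
def gI (C : QC) : ℤ := (C.gP : ℤ) - C.gM

end QC

/-- certificates for all `k` (in the order `k = 1, …, N/2`) for one number `N` of bodies and
`t` in `[Tl/2^20, Th/2^20]` -/
structure FD where
  N : ℕ
  Tl : ℕ
  Th : ℕ
  ds : List QD

/-- shape of the list: the `j`-th certificate belongs to `k = k0 + j` -/
def FD.shape (N : ℕ) : ℕ → List QD → Bool
  | _, [] => true
  | k, D :: l => Nat.beq D.C.Q N && Nat.beq D.C.A (k * 4194304) && FD.shape N (k + 1) l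

/-- weighted sum of `b1` -/
def FD.sumB (N : ℕ) : ℕ → List QD → ℤ
  | _, [] => 0
  | k, D :: l => (if 2 * k = N then 1 else 2) * D.C.bI + FD.sumB N (k + 1) l

/-- weighted sum of `c` -/
def FD.sumC (N : ℕ) : ℕ → List QD → ℤ
  | _, [] => 0
  | k, D :: l => (if 2 * k = N then 1 else 2) * D.C.cI + FD.sumC N (k + 1) l

/-- strict inequality at `t = Tt / 2^20` -/
def FD.ineq (N Tt : ℕ) (B S : ℤ) : Bool :=
  decide ((N : ℤ) * N * (Tt * Tt) * VU - N * VL * 2 ^ 40 + S * 2 ^ 18 - Tt * B * 2 ^ 42 < 0)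

def FD.chk (T : Tr) (F : FD) : Bool :=
  Nat.ble 2 F.N && Nat.beq F.ds.length (F.N / 2) && FD.shape F.N 1 F.ds &&
  F.ds.all (fun D => D.chk T) &&
  FD.ineq F.N F.Tl (FD.sumB F.N 1 F.ds) (FD.sumC F.N 1 F.ds) &&
  FD.ineq F.N F.Th (FD.sumB F.N 1 F.ds) (FD.sumC F.N 1 F.ds)

/-- universal certificates: `N1 ≤ N ≤ N2`, `t` in `[Tl/2^20, Th/2^20]`, gaps `k ≤ K0`,
profiles `C/r - D` with `C = Cl/2^44`, `D = Dl/2^44` at the lower end of the `t`-range and
`C = Ch/2^44`, `D = Dh/2^44` at the upper end -/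
structure UD where
  N1 : ℕ
  N2 : ℕ
  K0 : ℕ
  Tl : ℕ
  Th : ℕ
  Cl : ℕ
  Dl : ℕ
  Ch : ℕ
  Dh : ℕ
  ds : List QD

/-- `∑_{k ≤ K} ⌊2^30/k⌋` -/
def harm : ℕ → ℕ
  | 0 => 0
  | k + 1 => 1073741824 / (k + 1) + harm k

/-- profile inequality at a node (`R` is the row at `p = A`), with interpolation loss `loss/2^66` -/
def UD.node (Tt Cn Dn : ℕ) (loss : ℤ) (C : QC) (R : Row) : Bool :=
  Nat.beq R.p C.A &&
  decide ((Cn : ℤ) * 17592186044416 ≤ C.A * (C.bI * Tt * 16777216 - C.cI - loss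
    - ((R.qP : ℤ) - R.qM + 16) * 4194304 + Dn * 4194304))

/-- conditions for two neighbouring nodes -/
def UD.pair (U : UD) (T : Tr) (P Q : QC) : Bool :=
  let d : ℤ := (Q.A : ℤ) - P.A
  let loss : ℤ := (d * max (P.gI - Q.gI) 0) / 4 + 1 + 6588500 * (d * d)
  Nat.beq P.Q 1 && Nat.beq Q.Q 1 && Nat.ble (P.A + 1) Q.A &&
  UD.node U.Tl U.Cl U.Dl loss P (T.get P.A) && UD.node U.Tl U.Cl U.Dl loss Q (T.get Q.A) &&
  UD.node U.Th U.Ch U.Dh loss P (T.get P.A) && UD.node U.Th U.Ch U.Dh loss Q (T.get Q.A)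

/-- chain of nodes; the last one is at least `K0/N1` -/
def UD.chain (U : UD) (T : Tr) : QD → List QD → Bool
  | P, [] => Nat.ble (U.K0 * 4194304) (P.C.A * U.N1)
  | P, Q :: l => UD.pair U T P.C Q.C && Q.chk T && UD.chain U T Q l

/-- final inequality -/
def UD.fin (N1 K0 Tt Cn Dn : ℕ) : Bool :=
  Nat.ble (N1 * (Tt * Tt) * 5599766737523 + 2 * K0 * Dn * 1099511627776 + 1)
    (N1 * (2 * Cn * harm K0) * 1024)

def UD.chk (T : Tr) (U : UD) : Bool :=
  match U.ds with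
  | [] => false
  | P :: l =>
    Nat.ble 1 U.K0 && Nat.ble (2 * U.K0 + 1) U.N1 && Nat.ble (P.C.A * U.N2) 4194304 &&
    Nat.ble 1 P.C.A && P.chk T && UD.chain U T P l &&
    UD.fin U.N1 U.K0 U.Tl U.Cl U.Dl && UD.fin U.N1 U.K0 U.Th U.Ch U.Dh

end Pool.Agent.H999.LimCC
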