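import Pool.Agent.H999.LimCC.EngineG
import Pool.Agent.H999.LimCC.Assembly

/-! Combination of general certificates over all gap indices. -/

set_option autoImplicit false

namespace Pool.Agent.H999.LimCC

/-- general certificates for all `k` (in the order `k = 1, …, N/2`) for one number `N` of bodies
and `t` in `[Tl/2^20, Th/2^20]` -/
structure FG where
  N : ℕ
  Tl : ℕ
  Th : ℕ
  ds : List GD

/-- shape of the list, with the common multipliers `n`, `r1`, `r2`, `r3` -/
def FG.shape (N : ℕ) (n r1 r2 r3 : ℤ) : ℕ → List GD → Bool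
  | _, [] => true
  | k, D :: l => Nat.beq D.C.Q N && Nat.beq D.C.A (k * 4194304) && decide (D.C.n = n) &&
      decide (D.C.r1 = r1) && decide (D.C.r2 = r2) && decide (D.C.r3 = r3) &&
      FG.shape N n r1 r2 r3 (k + 1) l

/-- weighted sum of an integer multiplier -/
def FG.sum (N : ℕ) (F : GC → ℤ) : ℕ → List GD → ℤ
  | _, [] => 0
  | k, D :: l => (if 2 * k = N then 1 else 2) * F D.C + FG.sum N F (k + 1) l

/-- strict inequality at `t = Tt / 2^20` -/
def FG.ineq (N Tt : ℕ) (n B S : ℤ) : Bool :=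
  decide (n * N * (Tt * Tt) * VU - n * VL * 2 ^ 40 + S * 2 ^ 40 - Tt * B * 2 ^ 64 < 0)

def FG.chk (T : TrG) (F : FG) : Bool :=
  match F.ds with
  | [] => false
  | D :: _ =>
    Nat.ble 2 F.N && Nat.beq F.ds.length (F.N / 2) && decide (0 ≤ D.C.n) &&
    FG.shape F.N D.C.n D.C.r1 D.C.r2 D.C.r3 1 F.ds &&
    F.ds.all (fun D => D.chk T) &&
    decide (FG.sum F.N GC.b2 1 F.ds = 0) && decide (FG.sum F.N GC.b3 1 F.ds = 0) &&
    FG.ineq F.N F.Tl D.C.n (FG.sum F.N GC.b1 1 F.ds) (FG.sum F.N GC.c 1 F.ds) &&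
    FG.ineq F.N F.Th D.C.n (FG.sum F.N GC.b1 1 F.ds) (FG.sum F.N GC.c 1 F.ds)

end Pool.Agent.H999.LimCC
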