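import Mathlib

/-! Limiting central configurations of the planar 1+N body problem: cyclic configurations,
sums over pairs and the basic identities. -/

set_option autoImplicit false

namespace Pool.Agent.H999.LimCC

open Finset

/-- derivative of the pair potential, as a function of the angular gap in `(0, 2π)` -/
noncomputable def fp (x : ℝ) : ℝ := Real.sin x - Real.cos (x / 2) / (4 * Real.sin (x / 2) ^ 2)

/-- the repulsive force -/
noncomputable def G (x : ℝ) : ℝ := Real.cos (x / 2) / (4 * Real.sin (x / 2) ^ 2)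

lemma fp_eq (x : ℝ) : fp x = Real.sin x - G x := rfl

lemma G_refl (x : ℝ) : G (2 * Real.pi - x) = - G x := by
  unfold G
  have h : (2 * Real.pi - x) / 2 = Real.pi - x / 2 := by ring
  rw [h, Real.cos_pi_sub, Real.sin_pi_sub]
  ring

lemma fp_refl (x : ℝ) : fp (2 * Real.pi - x) = - fp x := by
  rw [fp_eq, fp_eq, G_refl, Real.sin_two_pi_sub]
  ring

/-- equilibrium configurations on the circle, lifted to the line -/
structure Cfg (N : ℕ) where
  th : ℤ → ℝ
  mono : StrictMono th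
  per : ∀ j : ℤ, th (j + N) = th j + 2 * Real.pi
  eqn : ∀ i : ℤ, ∑ k ∈ Finset.Ico 1 N, fp (th (i + (k : ℤ)) - th i) = 0
  t : ℝ
  t_nonneg : 0 ≤ t
  sum_cos : ∑ j ∈ range N, Real.cos (th (j : ℤ)) = N * t
  sum_sin : ∑ j ∈ range N, Real.sin (th (j : ℤ)) = 0

lemma sum_shift_nat (N : ℕ) (F : ℤ → ℝ) (hF : ∀ j, F (j + N) = F j) (k : ℕ) :
    ∑ j ∈ range N, F ((j : ℤ) + (k : ℤ)) = ∑ j ∈ range N, F (j : ℤ) := by
  induction k with
  | zero => simp
  | succ k ih =>
    rw [← ih]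
    have h1 := Finset.sum_range_succ (fun j : ℕ => F ((j : ℤ) + (k : ℤ))) N
    have h2 := Finset.sum_range_succ' (fun j : ℕ => F ((j : ℤ) + (k : ℤ))) N
    rw [h1] at h2
    have h3 : F ((N : ℤ) + (k : ℤ)) = F ((0 : ℕ) + (k : ℤ)) := by
      have := hF (k : ℤ)
      rw [add_comm] at this
      simpa using this
    rw [h3] at h2
    have h4 : ∑ j ∈ range N, F ((j : ℤ) + (k : ℤ))
        = ∑ j ∈ range N, F (((j + 1 : ℕ) : ℤ) + (k : ℤ)) := by linarith
    rw [h4]
    apply Finset.sum_congr rfl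
    intro j _
    congr 1
    push_cast
    ring

lemma per_sub {N : ℕ} {F : ℤ → ℝ} (hF : ∀ j, F (j + N) = F j) (j : ℤ) : F (j - N) = F j := by
  have := hF (j - N)
  simpa using this.symm

lemma sum_shift (N : ℕ) (F : ℤ → ℝ) (hF : ∀ j, F (j + N) = F j) (k : ℤ) :
    ∑ j ∈ range N, F ((j : ℤ) + k) = ∑ j ∈ range N, F (j : ℤ) := by
  obtain ⟨n, rfl | rfl⟩ := k.eq_nat_or_neg
  · exact sum_shift_nat N F hF n
  · have := sum_shift_nat N (fun j => F (j + -(n : ℤ)))
      (fun j => by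
        have := hF (j + -(n : ℤ))
        rw [← this]; congr 1; ring) n
    rw [← this]
    apply Finset.sum_congr rfl
    intro j _
    congr 1
    ring

/-- reflection of sums over `Ico 1 N` -/
lemma sum_Ico_refl (N : ℕ) (F : ℕ → ℝ) :
    ∑ k ∈ Finset.Ico 1 N, F (N - k) = ∑ k ∈ Finset.Ico 1 N, F k := by
  apply Finset.sum_nbij' (fun k => N - k) (fun k => N - k)
  · intro k hk; simp only [Finset.mem_Ico] at *; omega
  · intro k hk; simp only [Finset.mem_Ico] at *; omega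
  · intro k hk; simp only [Finset.mem_Ico] at *; omega
  · intro k hk; simp only [Finset.mem_Ico] at *; omega
  · intro k hk; rfl

namespace Cfg

variable {N : ℕ} (c : Cfg N)

/-- the `k`-gap at `j` -/
noncomputable def gap (k : ℕ) (j : ℤ) : ℝ := c.th (j + (k : ℤ)) - c.th j

/-- the midpoint of the `k`-gap at `j` -/
noncomputable def mid (k : ℕ) (j : ℤ) : ℝ := (c.th (j + (k : ℤ)) + c.th j) / 2

lemma gap_per (k : ℕ) (j : ℤ) : c.gap k (j + N) = c.gap k j := by
  unfold gap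
  have h : j + (N : ℤ) + (k : ℤ) = (j + (k : ℤ)) + N := by ring
  rw [h, c.per, c.per]; ring

lemma mid_per (k : ℕ) (j : ℤ) : c.mid k (j + N) = c.mid k j + 2 * Real.pi := by
  unfold mid
  have h : j + (N : ℤ) + (k : ℤ) = (j + (k : ℤ)) + N := by ring
  rw [h, c.per, c.per]; ring

lemma gap_pos {k : ℕ} (hk : 1 ≤ k) (j : ℤ) : 0 < c.gap k j := by
  unfold gap
  have : c.th j < c.th (j + (k : ℤ)) := c.mono (by omega)
  linarith

lemma gap_lt {k : ℕ} (hk : k < N) (j : ℤ) : c.gap k j < 2 * Real.pi := by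
  unfold gap
  have h1 : c.th (j + (k : ℤ)) < c.th (j + (N : ℤ)) := c.mono (by omega)
  rw [c.per] at h1
  linarith

lemma gap_compl {k : ℕ} (hk : k ≤ N) (j : ℤ) :
    c.gap (N - k) (j + (k : ℤ)) = 2 * Real.pi - c.gap k j := by
  unfold gap
  have h : j + (k : ℤ) + ((N - k : ℕ) : ℤ) = j + N := by
    rw [Nat.cast_sub hk]; ring
  rw [h, c.per]; ring

lemma mid_compl {k : ℕ} (hk : k ≤ N) (j : ℤ) :
    c.mid (N - k) (j + (k : ℤ)) = c.mid k j + Real.pi := by
  unfold mid
  have h : j + (k : ℤ) + ((N - k : ℕ) : ℤ) = j + N := by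
    rw [Nat.cast_sub hk]; ring
  rw [h, c.per]; ring

/-- the pair sum with test sequence `v` vanishes -/
lemma pair_identity (v : ℤ → ℝ) (hv : ∀ j, v (j + N) = v j) :
    ∑ k ∈ Finset.Ico 1 N, ∑ j ∈ range N, (v ((j : ℤ) + (k : ℤ)) - v (j : ℤ)) * fp (c.gap k (j : ℤ))
      = 0 := by
  have hA : ∑ k ∈ Finset.Ico 1 N, ∑ j ∈ range N, v (j : ℤ) * fp (c.gap k (j : ℤ)) = 0 := by
    rw [Finset.sum_comm]
    apply Finset.sum_eq_zero
    intro j _
    rw [← Finset.mul_sum]
    have := c.eqn (j : ℤ)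
    unfold gap
    rw [this, mul_zero]
  have hB : ∑ k ∈ Finset.Ico 1 N, ∑ j ∈ range N,
      v ((j : ℤ) + (k : ℤ)) * fp (c.gap k (j : ℤ)) = 0 := by
    have h1 : ∀ k ∈ Finset.Ico 1 N, ∑ j ∈ range N,
        v ((j : ℤ) + (k : ℤ)) * fp (c.gap k (j : ℤ))
        = ∑ j ∈ range N, v (j : ℤ) * (- fp (c.gap (N - k) (j : ℤ))) := by
      intro k hk
      simp only [Finset.mem_Ico] at hk
      have h2 := sum_shift N (fun j => v j * (- fp (c.gap (N - k) j)))
        (fun j => by simp only [c.gap_per, hv]) (k : ℤ)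
      rw [← h2]
      apply Finset.sum_congr rfl
      intro j _
      rw [c.gap_compl (by omega), fp_refl]
      ring
    rw [Finset.sum_congr rfl h1]
    rw [sum_Ico_refl N (fun k => ∑ j ∈ range N, v (j : ℤ) * (- fp (c.gap k (j : ℤ))))]
    rw [Finset.sum_comm]
    apply Finset.sum_eq_zero
    intro j _
    rw [← Finset.mul_sum, Finset.sum_neg_distrib]
    have := c.eqn (j : ℤ)
    unfold gap
    rw [this]; ring
  have : ∀ k ∈ Finset.Ico 1 N, ∑ j ∈ range N,
      (v ((j : ℤ) + (k : ℤ)) - v (j : ℤ)) * fp (c.gap k (j : ℤ))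
      = ∑ j ∈ range N, v ((j : ℤ) + (k : ℤ)) * fp (c.gap k (j : ℤ))
        - ∑ j ∈ range N, v (j : ℤ) * fp (c.gap k (j : ℤ)) := by
    intro k _
    rw [← Finset.sum_sub_distrib]
    apply Finset.sum_congr rfl
    intro j _
    ring
  rw [Finset.sum_congr rfl this, Finset.sum_sub_distrib, hA, hB, sub_zero]

/-- sum of sines of differences -/
lemma sum_sin_diff (j : ℤ) :
    ∑ k ∈ Finset.Ico 1 N, Real.sin (c.gap k j) = - (N * c.t * Real.sin (c.th j)) := by
  by_cases hN : N = 0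
  · subst hN; simp
  have h0 : ∑ k ∈ range N, Real.sin (c.gap k j) = ∑ k ∈ Finset.Ico 1 N, Real.sin (c.gap k j) := by
    rw [Finset.range_eq_Ico, ← Finset.sum_Ico_consecutive _ (Nat.zero_le 1) (by omega)]
    simp [gap]
  rw [← h0]
  have h1 := sum_shift N (fun l => Real.sin (c.th l - c.th j))
    (fun l => by
      simp only [c.per]
      rw [show c.th l + 2 * Real.pi - c.th j = (c.th l - c.th j) + 2 * Real.pi by ring,
        Real.sin_add_two_pi]) j
  have h2 : ∑ k ∈ range N, Real.sin (c.gap k j)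
      = ∑ l ∈ range N, Real.sin (c.th (l : ℤ) - c.th j) := by
    rw [← h1]
    apply Finset.sum_congr rfl
    intro k _
    simp only [gap]
    rw [add_comm j]
  rw [h2]
  have h3 : ∀ l ∈ range N, Real.sin (c.th (l : ℤ) - c.th j)
      = Real.sin (c.th (l : ℤ)) * Real.cos (c.th j) - Real.cos (c.th (l : ℤ)) * Real.sin (c.th j) := by
    intro l _
    rw [Real.sin_sub]
  rw [Finset.sum_congr rfl h3, Finset.sum_sub_distrib, ← Finset.sum_mul, ← Finset.sum_mul,
    c.sum_cos, c.sum_sin]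
  ring

/-- sum of cosines of differences -/
lemma sum_cos_diff (j : ℤ) (hN : 1 ≤ N) :
    ∑ k ∈ Finset.Ico 1 N, Real.cos (c.gap k j) = N * c.t * Real.cos (c.th j) - 1 := by
  have h0 : ∑ k ∈ range N, Real.cos (c.gap k j)
      = 1 + ∑ k ∈ Finset.Ico 1 N, Real.cos (c.gap k j) := by
    rw [Finset.range_eq_Ico, ← Finset.sum_Ico_consecutive _ (Nat.zero_le 1) (by omega)]
    simp [gap]
  have h1 := sum_shift N (fun l => Real.cos (c.th l - c.th j))
    (fun l => by
      simp only [c.per]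
      rw [show c.th l + 2 * Real.pi - c.th j = (c.th l - c.th j) + 2 * Real.pi by ring,
        Real.cos_add_two_pi]) j
  have h2 : ∑ k ∈ range N, Real.cos (c.gap k j)
      = ∑ l ∈ range N, Real.cos (c.th (l : ℤ) - c.th j) := by
    rw [← h1]
    apply Finset.sum_congr rfl
    intro k _
    simp only [gap]
    rw [add_comm j]
  have h3 : ∀ l ∈ range N, Real.cos (c.th (l : ℤ) - c.th j)
      = Real.cos (c.th (l : ℤ)) * Real.cos (c.th j) + Real.sin (c.th (l : ℤ)) * Real.sin (c.th j) := by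
    intro l _
    rw [Real.cos_sub]
  rw [Finset.sum_congr rfl h3, Finset.sum_add_distrib, ← Finset.sum_mul, ← Finset.sum_mul,
    c.sum_cos, c.sum_sin] at h2
  linarith

/-- the double cosine sum -/
lemma sum_cos_gap (hN : 1 ≤ N) :
    ∑ k ∈ Finset.Ico 1 N, ∑ j ∈ range N, Real.cos (c.gap k (j : ℤ)) = N ^ 2 * c.t ^ 2 - N := by
  rw [Finset.sum_comm]
  have : ∀ j ∈ range N, ∑ k ∈ Finset.Ico 1 N, Real.cos (c.gap k (j : ℤ))
      = N * c.t * Real.cos (c.th (j : ℤ)) - 1 := fun j _ => c.sum_cos_diff j hN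
  rw [Finset.sum_congr rfl this, Finset.sum_sub_distrib, ← Finset.mul_sum, c.sum_cos]
  simp
  ring

/-- `Σ cos (n m) sin (n x / 2) = 0` -/
lemma sum_cos_mid_sin (n : ℕ) (k : ℕ) :
    ∑ j ∈ range N, Real.cos (n * c.mid k (j : ℤ)) * Real.sin (n * (c.gap k (j : ℤ) / 2)) = 0 := by
  have h1 := sum_shift N (fun l => Real.sin (n * c.th l))
    (fun l => by
      simp only [c.per]
      rw [show (n : ℝ) * (c.th l + 2 * Real.pi) = n * c.th l + n * (2 * Real.pi) by ring,
        Real.sin_add_nat_mul_two_pi]) (k : ℤ)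
  have h2 : ∀ j ∈ range N,
      Real.cos (n * c.mid k (j : ℤ)) * Real.sin (n * (c.gap k (j : ℤ) / 2))
      = (Real.sin (n * c.th ((j : ℤ) + k)) - Real.sin (n * c.th (j : ℤ))) / 2 := by
    intro j _
    rw [Real.sin_sub_sin]
    unfold mid gap
    ring_nf
  rw [Finset.sum_congr rfl h2, ← Finset.sum_div, Finset.sum_sub_distrib, h1]
  simp

/-- `Σ cos (n m) cos (n x / 2) = Σ cos (n θ)` -/
lemma sum_cos_mid_cos (n : ℕ) (k : ℕ) :
    ∑ j ∈ range N, Real.cos (n * c.mid k (j : ℤ)) * Real.cos (n * (c.gap k (j : ℤ) / 2))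
      = ∑ j ∈ range N, Real.cos (n * c.th (j : ℤ)) := by
  have h1 := sum_shift N (fun l => Real.cos (n * c.th l))
    (fun l => by
      simp only [c.per]
      rw [show (n : ℝ) * (c.th l + 2 * Real.pi) = n * c.th l + n * (2 * Real.pi) by ring,
        Real.cos_add_nat_mul_two_pi]) (k : ℤ)
  have h2 : ∀ j ∈ range N,
      Real.cos (n * c.mid k (j : ℤ)) * Real.cos (n * (c.gap k (j : ℤ) / 2))
      = (Real.cos (n * c.th ((j : ℤ) + k)) + Real.cos (n * c.th (j : ℤ))) / 2 := by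
    intro j _
    rw [Real.cos_add_cos]
    unfold mid gap
    ring_nf
  rw [Finset.sum_congr rfl h2, ← Finset.sum_div, Finset.sum_add_distrib, h1]
  ring

/-- the deviation from the regular polygon -/
noncomputable def dev (j : ℤ) : ℝ := c.th j - 2 * Real.pi * j / N

lemma dev_per (hN : 1 ≤ N) (j : ℤ) : c.dev (j + N) = c.dev j := by
  unfold dev
  rw [c.per]
  have : (N : ℝ) ≠ 0 := by positivity
  push_cast
  field_simp
  ring

lemma dev_diff (k : ℕ) (j : ℤ) :
    c.dev (j + k) - c.dev j = c.gap k j - 2 * Real.pi * k / N := by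
  unfold dev gap
  push_cast
  ring

lemma sum_gap_sub (hN : 1 ≤ N) (k : ℕ) :
    ∑ j ∈ range N, (c.gap k (j : ℤ) - 2 * Real.pi * k / N) = 0 := by
  have h1 := sum_shift N c.dev (c.dev_per hN) (k : ℤ)
  have h2 : ∀ j ∈ range N, (c.gap k (j : ℤ) - 2 * Real.pi * k / N)
      = c.dev ((j : ℤ) + k) - c.dev (j : ℤ) := fun j _ => (c.dev_diff k j).symm
  rw [Finset.sum_congr rfl h2, Finset.sum_sub_distrib, h1, sub_self]

/-- the basic identity with the test sequence `dev` -/
lemma gap_identity (hN : 1 ≤ N) :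
    ∑ k ∈ Finset.Ico 1 N, ∑ j ∈ range N,
      (c.gap k (j : ℤ) - 2 * Real.pi * k / N) * fp (c.gap k (j : ℤ)) = 0 := by
  rw [← c.pair_identity c.dev (c.dev_per hN)]
  apply Finset.sum_congr rfl
  intro k _
  apply Finset.sum_congr rfl
  intro j _
  rw [c.dev_diff]

/-- the identity with the test sequence `sin (n θ)` -/
lemma sin_identity (n : ℕ) :
    ∑ k ∈ Finset.Ico 1 N, ∑ j ∈ range N,
      Real.cos (n * c.mid k (j : ℤ)) * Real.sin (n * (c.gap k (j : ℤ) / 2)) * fp (c.gap k (j : ℤ))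
      = 0 := by
  have h := c.pair_identity (fun l => Real.sin (n * c.th l))
    (fun l => by
      simp only [c.per]
      rw [show (n : ℝ) * (c.th l + 2 * Real.pi) = n * c.th l + n * (2 * Real.pi) by ring,
        Real.sin_add_nat_mul_two_pi])
  have h2 : ∀ k ∈ Finset.Ico 1 N, ∀ j ∈ range N,
      Real.cos (n * c.mid k (j : ℤ)) * Real.sin (n * (c.gap k (j : ℤ) / 2)) * fp (c.gap k (j : ℤ))
      = (1 / 2) * ((Real.sin (n * c.th ((j : ℤ) + (k : ℤ))) - Real.sin (n * c.th (j : ℤ)))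
        * fp (c.gap k (j : ℤ))) := by
    intro k _ j _
    rw [Real.sin_sub_sin]
    unfold mid gap
    ring_nf
  have h3 : ∑ k ∈ Finset.Ico 1 N, ∑ j ∈ range N,
      Real.cos (n * c.mid k (j : ℤ)) * Real.sin (n * (c.gap k (j : ℤ) / 2)) * fp (c.gap k (j : ℤ))
      = (1 / 2) * ∑ k ∈ Finset.Ico 1 N, ∑ j ∈ range N,
        ((Real.sin (n * c.th ((j : ℤ) + (k : ℤ))) - Real.sin (n * c.th (j : ℤ)))
        * fp (c.gap k (j : ℤ))) := by
    rw [Finset.mul_sum]
    apply Finset.sum_congr rfl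
    intro k hk
    rw [Finset.mul_sum]
    apply Finset.sum_congr rfl
    intro j hj
    exact h2 k hk j hj
  rw [h3, h, mul_zero]

end Cfg

end Pool.Agent.H999.LimCC
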