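import Pool.Agent.H999.LimCC.Psi

set_option autoImplicit false

namespace Pool.Agent.H999.LimCC

open Real

/-- a function with second derivative at most `S` which is at least `S (x1 - x0)^2 / 8` at both
ends is nonnegative in between -/
theorem cell_aux {f f' f'' : ℝ → ℝ} {x0 x1 S e : ℝ} (hS : 0 ≤ S)
    (hf : ∀ x, x0 ≤ x → x ≤ x1 → HasDerivAt f (f' x) x)
    (hf' : ∀ x, x0 ≤ x → x ≤ x1 → HasDerivAt f' (f'' x) x)
    (hb : ∀ x, x0 ≤ x → x ≤ x1 → f'' x ≤ S)
    (he : S * (x1 - x0) ^ 2 / 8 ≤ e) (h2 : e ≤ f x0) (h3 : e ≤ f x1) :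
    ∀ x, x0 ≤ x → x ≤ x1 → 0 ≤ f x := by
  intro x hx0 hx1
  have hcc : ConcaveOn ℝ (Set.Icc x0 x1) (fun x => f x - S / 2 * ((x - x0) * (x - x1))) := by
    apply concaveOn_of_hasDerivWithinAt2_nonpos (convex_Icc x0 x1)
      (f' := fun x => f' x - S / 2 * ((x - x1) + (x - x0))) (f'' := fun x => f'' x - S)
    · intro y hy
      refine ContinuousAt.continuousWithinAt ?_
      exact ((hf y hy.1 hy.2).continuousAt).sub (by fun_prop)
    · intro y hy
      rw [interior_Icc] at hy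
      have h := hf y hy.1.le hy.2.le
      have h1 : HasDerivAt (fun x : ℝ => S / 2 * ((x - x0) * (x - x1)))
          (S / 2 * ((y - x1) + (y - x0))) y := by
        have ha : HasDerivAt (fun x : ℝ => x - x0) 1 y := (hasDerivAt_id y).sub_const x0
        have hb' : HasDerivAt (fun x : ℝ => x - x1) 1 y := (hasDerivAt_id y).sub_const x1
        have hc := (ha.mul hb').const_mul (S / 2)
        refine hc.congr_deriv ?_
        ring
      exact (h.sub h1).hasDerivWithinAt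
    · intro y hy
      rw [interior_Icc] at hy
      have h := hf' y hy.1.le hy.2.le
      have h1 : HasDerivAt (fun x : ℝ => S / 2 * ((x - x1) + (x - x0))) S y := by
        have ha : HasDerivAt (fun x : ℝ => x - x0) 1 y := (hasDerivAt_id y).sub_const x0
        have hb' : HasDerivAt (fun x : ℝ => x - x1) 1 y := (hasDerivAt_id y).sub_const x1
        have hc := (hb'.add ha).const_mul (S / 2)
        refine hc.congr_deriv ?_
        ring
      exact (h.sub h1).hasDerivWithinAt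
    · intro y hy
      rw [interior_Icc] at hy
      have := hb y hy.1.le hy.2.le
      linarith
  have hmem : x ∈ Set.Icc x0 x1 := ⟨hx0, hx1⟩
  have h01 : x0 ≤ x1 := hx0.trans hx1
  have hm := hcc.min_le_of_mem_Icc (Set.left_mem_Icc.2 h01) (Set.right_mem_Icc.2 h01) hmem
  have hmin : e ≤ min (f x0 - S / 2 * ((x0 - x0) * (x0 - x1)))
      (f x1 - S / 2 * ((x1 - x0) * (x1 - x1))) := by
    apply le_min
    · simpa using h2
    · simpa using h3
  have hq : (x - x0) * (x - x1) ≥ -((x1 - x0) ^ 2 / 4) := by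
    nlinarith [sq_nonneg (2 * x - x0 - x1)]
  have hfin : e ≤ f x - S / 2 * ((x - x0) * (x - x1)) := hmin.trans hm
  have : S / 2 * ((x - x0) * (x - x1)) ≥ -(S * (x1 - x0) ^ 2 / 8) := by
    have := mul_le_mul_of_nonneg_left hq (by linarith : 0 ≤ S / 2)
    linarith
  linarith

theorem sin_half_pos {x : ℝ} (h0 : 0 < x) (h1 : x ≤ π) : 0 < sin (x / 2) :=
  sin_pos_of_pos_of_lt_pi (by linarith) (by linarith [pi_pos])

theorem cos_half_nonneg {x : ℝ} (h0 : 0 < x) (h1 : x ≤ π) : 0 ≤ cos (x / 2) :=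
  cos_nonneg_of_mem_Icc ⟨by linarith [pi_pos], by linarith⟩

theorem hasDerivAt_sin_half (x : ℝ) : HasDerivAt (fun x => sin (x / 2)) (cos (x / 2) / 2) x := by
  have h := ((hasDerivAt_id x).div_const 2).sin
  refine h.congr_deriv ?_
  simp [div_eq_mul_inv]

theorem hasDerivAt_cos_half (x : ℝ) : HasDerivAt (fun x => cos (x / 2)) (-sin (x / 2) / 2) x := by
  have h := ((hasDerivAt_id x).div_const 2).cos
  refine h.congr_deriv ?_
  simp [div_eq_mul_inv]

theorem hasDerivAt_sin_three (x : ℝ) :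
    HasDerivAt (fun x => sin (3 * (x / 2))) (3 / 2 * cos (3 * (x / 2))) x := by
  have h := (((hasDerivAt_id x).div_const 2).const_mul 3).sin
  refine h.congr_deriv ?_
  simp only [id]
  ring

theorem hasDerivAt_cos_three (x : ℝ) :
    HasDerivAt (fun x => cos (3 * (x / 2))) (-(3 / 2 * sin (3 * (x / 2)))) x := by
  have h := (((hasDerivAt_id x).div_const 2).const_mul 3).cos
  refine h.congr_deriv ?_
  simp only [id]
  ring

theorem hasDerivAt_G {x : ℝ} (h : 0 < sin (x / 2)) : HasDerivAt G (-kap x) x := by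
  have hs : sin (x / 2) ≠ 0 := h.ne'
  have hne : 4 * sin (x / 2) ^ 2 ≠ 0 := by positivity
  have h1 := (hasDerivAt_cos_half x).fun_div (((hasDerivAt_sin_half x).fun_pow 2).const_mul 4) hne
  have h2 : HasDerivAt G _ x := h1
  refine h2.congr_deriv ?_
  have hc2 : sin (x / 2) ^ 2 = 1 - cos (x / 2) ^ 2 := by
    have := sin_sq_add_cos_sq (x / 2); linarith
  unfold kap
  generalize sin (x / 2) = s at *
  generalize cos (x / 2) = c at *
  have e1 : (-s / 2 * (4 * s ^ 2) - c * (4 * (((2 : ℕ) : ℝ) * s ^ (2 - 1) * (c / 2))))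
      = -s * (1 + c ^ 2) * 2 := by
    have : s ^ (2 - 1) = s := by norm_num
    rw [this, hc2]
    push_cast
    ring
  rw [e1]
  field_simp
  ring

theorem hasDerivAt_kap {x : ℝ} (h : 0 < sin (x / 2)) : HasDerivAt kap (-kap3 x) x := by
  have hs : sin (x / 2) ≠ 0 := h.ne'
  have hne : 8 * sin (x / 2) ^ 3 ≠ 0 := by positivity
  have h1 := ((((hasDerivAt_cos_half x).fun_pow 2).const_add 1).fun_div
    (((hasDerivAt_sin_half x).fun_pow 3).const_mul 8) hne)
  have h2 : HasDerivAt kap _ x := h1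
  refine h2.congr_deriv ?_
  have hc2 : sin (x / 2) ^ 2 = 1 - cos (x / 2) ^ 2 := by
    have := sin_sq_add_cos_sq (x / 2); linarith
  unfold kap3
  generalize sin (x / 2) = s at *
  generalize cos (x / 2) = c at *
  rw [div_eq_iff (by positivity), neg_mul, div_mul_eq_mul_div, eq_comm, neg_eq_iff_eq_neg,
    div_eq_iff (by positivity)]
  have e1 : s ^ (3 - 1) = s ^ 2 := by norm_num
  have e2 : c ^ (2 - 1) = c := by norm_num
  rw [e1, e2]
  push_cast
  linear_combination (-128 * c * s ^ 6) * hc2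

theorem hasDerivAt_fp {x : ℝ} (h : 0 < sin (x / 2)) : HasDerivAt fp (cos x + kap x) x := by
  have h1 := (hasDerivAt_sin x).fun_sub (hasDerivAt_G h)
  have h2 : HasDerivAt fp _ x := h1
  refine h2.congr_deriv ?_
  ring

theorem hasDerivAt_fp' {x : ℝ} (h : 0 < sin (x / 2)) :
    HasDerivAt (fun x => cos x + kap x) (-sin x - kap3 x) x := by
  have h1 := (hasDerivAt_cos x).fun_add (hasDerivAt_kap h)
  refine h1.congr_deriv ?_
  ring

theorem hasDerivAt_lin (r x : ℝ) : HasDerivAt (fun x => x / (2 * π) - r) (1 / (2 * π)) x :=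
  ((hasDerivAt_id x).div_const (2 * π)).sub_const r

/-- the first derivative of `Psi P · z` -/
noncomputable def Psi1 (P : Par) (x z : ℝ) : ℝ :=
  1 / (2 * π) * (fp x + P.g) + (x / (2 * π) - P.r) * (cos x + kap x) - P.nu * sin x
  + z * (P.r1 * (cos x + kap x) * sin (x / 2) + (P.r1 * fp x + P.a1) * (cos (x / 2) / 2)
      + P.b1 * (sin (x / 2) / 2))
  + (2 * z ^ 2 - 1) * (P.r2 * (cos x + kap x) * sin x + (P.r2 * fp x + P.a2) * cos x
      + P.b2 * sin x)
  + (4 * z ^ 3 - 3 * z) * (P.r3 * (cos x + kap x) * sin (3 * (x / 2))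
      + (P.r3 * fp x + P.a3) * (3 / 2 * cos (3 * (x / 2))) + P.b3 * (3 / 2 * sin (3 * (x / 2))))

/-- the second derivative of `Psi P · z` -/
noncomputable def Psi2 (P : Par) (x z : ℝ) : ℝ :=
  1 / π * (cos x + kap x) + (x / (2 * π) - P.r) * (-sin x - kap3 x) - P.nu * cos x
  + z * (P.r1 * ((-sin x - kap3 x) * sin (x / 2) + (cos x + kap x) * cos (x / 2)
        - fp x * sin (x / 2) / 4) - P.a1 * sin (x / 2) / 4 + P.b1 * cos (x / 2) / 4)
  + (2 * z ^ 2 - 1) * (P.r2 * ((-sin x - kap3 x) * sin x + 2 * ((cos x + kap x) * cos x)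
        - fp x * sin x) - P.a2 * sin x + P.b2 * cos x)
  + (4 * z ^ 3 - 3 * z) * (P.r3 * ((-sin x - kap3 x) * sin (3 * (x / 2))
        + 3 * ((cos x + kap x) * cos (3 * (x / 2))) - 9 / 4 * (fp x * sin (3 * (x / 2))))
        - 9 / 4 * (P.a3 * sin (3 * (x / 2))) + 9 / 4 * (P.b3 * cos (3 * (x / 2))))

theorem hasDerivAt_Psi (P : Par) (z : ℝ) {x : ℝ} (h : 0 < sin (x / 2)) :
    HasDerivAt (fun x => Psi P x z) (Psi1 P x z) x := by
  have hf := hasDerivAt_fp h
  have t1 := (hasDerivAt_lin P.r x).fun_mul (hf.add_const P.g)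
  have t2 := (hasDerivAt_cos x).const_mul P.nu
  have t3 := ((((hf.const_mul P.r1).add_const P.a1).fun_mul (hasDerivAt_sin_half x)).fun_sub
    ((hasDerivAt_cos_half x).const_mul P.b1)).const_mul z
  have t4 := ((((hf.const_mul P.r2).add_const P.a2).fun_mul (hasDerivAt_sin x)).fun_sub
    ((hasDerivAt_cos x).const_mul P.b2)).const_mul (2 * z ^ 2 - 1)
  have t5 := ((((hf.const_mul P.r3).add_const P.a3).fun_mul (hasDerivAt_sin_three x)).fun_sub
    ((hasDerivAt_cos_three x).const_mul P.b3)).const_mul (4 * z ^ 3 - 3 * z)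
  have t := ((((t1.fun_add t2).add_const P.c).fun_add t3).fun_add t4).fun_add t5
  refine HasDerivAt.congr_deriv (f := fun x => Psi P x z) t ?_
  unfold Psi1
  ring

theorem hasDerivAt_Psi1 (P : Par) (z : ℝ) {x : ℝ} (h : 0 < sin (x / 2)) :
    HasDerivAt (fun x => Psi1 P x z) (Psi2 P x z) x := by
  have hf := hasDerivAt_fp h
  have hg := hasDerivAt_fp' h
  have t1 := ((hf.add_const P.g).const_mul (1 / (2 * π))).fun_add
    ((hasDerivAt_lin P.r x).fun_mul hg)
  have t2 := (hasDerivAt_sin x).const_mul P.nu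
  have t3 := (((((hg.const_mul P.r1).fun_mul (hasDerivAt_sin_half x)).fun_add
    (((hf.const_mul P.r1).add_const P.a1).fun_mul ((hasDerivAt_cos_half x).div_const 2))).fun_add
    (((hasDerivAt_sin_half x).div_const 2).const_mul P.b1))).const_mul z
  have t4 := (((((hg.const_mul P.r2).fun_mul (hasDerivAt_sin x)).fun_add
    (((hf.const_mul P.r2).add_const P.a2).fun_mul (hasDerivAt_cos x))).fun_add
    ((hasDerivAt_sin x).const_mul P.b2))).const_mul (2 * z ^ 2 - 1)
  have t5 := (((((hg.const_mul P.r3).fun_mul (hasDerivAt_sin_three x)).fun_add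
    (((hf.const_mul P.r3).add_const P.a3).fun_mul
      ((hasDerivAt_cos_three x).const_mul (3 / 2)))).fun_add
    (((hasDerivAt_sin_three x).const_mul (3 / 2)).const_mul P.b3))).const_mul (4 * z ^ 3 - 3 * z)
  have t := (((t1.fun_sub t2).fun_add t3).fun_add t4).fun_add t5
  refine HasDerivAt.congr_deriv (f := fun x => Psi1 P x z) t ?_
  unfold Psi2
  have hpi : (1 : ℝ) / π = 2 * (1 / (2 * π)) := by field_simp
  rw [hpi]
  ring

theorem mono_aux {x0 x : ℝ} (h0 : 0 < x0) (hx : x0 ≤ x) (h1 : x ≤ π) :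
    sin (x0 / 2) ≤ sin (x / 2) ∧ cos (x / 2) ≤ cos (x0 / 2) := by
  constructor
  · exact sin_le_sin_of_le_of_le_pi_div_two (by linarith [pi_pos]) (by linarith) (by linarith)
  · exact cos_le_cos_of_nonneg_of_le_pi (by linarith) (by linarith [pi_pos]) (by linarith)

theorem G_nonneg {x : ℝ} (h0 : 0 < x) (h1 : x ≤ π) : 0 ≤ G x := by
  have := cos_half_nonneg h0 h1
  unfold G
  positivity

theorem kap_nonneg {x : ℝ} (h0 : 0 < x) (h1 : x ≤ π) : 0 ≤ kap x := by
  have := sin_half_pos h0 h1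
  unfold kap
  positivity

theorem kap3_nonneg {x : ℝ} (h0 : 0 < x) (h1 : x ≤ π) : 0 ≤ kap3 x := by
  have := cos_half_nonneg h0 h1
  unfold kap3
  positivity

theorem G_anti {x0 x : ℝ} (h0 : 0 < x0) (hx : x0 ≤ x) (h1 : x ≤ π) : G x ≤ G x0 := by
  have hs := sin_half_pos h0 (hx.trans h1)
  have hc := cos_half_nonneg (h0.trans_le hx) h1
  obtain ⟨ha, hb⟩ := mono_aux h0 hx h1
  have hc0 := hc.trans hb
  unfold G
  gcongr

theorem kap_anti {x0 x : ℝ} (h0 : 0 < x0) (hx : x0 ≤ x) (h1 : x ≤ π) : kap x ≤ kap x0 := by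
  have hs := sin_half_pos h0 (hx.trans h1)
  have hc := cos_half_nonneg (h0.trans_le hx) h1
  obtain ⟨ha, hb⟩ := mono_aux h0 hx h1
  unfold kap
  gcongr

theorem kap3_anti {x0 x : ℝ} (h0 : 0 < x0) (hx : x0 ≤ x) (h1 : x ≤ π) : kap3 x ≤ kap3 x0 := by
  have hs := sin_half_pos h0 (hx.trans h1)
  have hc := cos_half_nonneg (h0.trans_le hx) h1
  obtain ⟨ha, hb⟩ := mono_aux h0 hx h1
  have hc0 := hc.trans hb
  have hc1 : 0 ≤ cos (x0 / 2) * (5 + cos (x0 / 2) ^ 2) := by positivity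
  unfold kap3
  gcongr

theorem abs_mul_le_one {a t : ℝ} (ht : |t| ≤ 1) : |a * t| ≤ |a| := by
  rw [abs_mul]
  exact mul_le_of_le_one_right (abs_nonneg a) ht

theorem abs_mul_le_of {a t b : ℝ} (ha : |a| ≤ b) (ht : |t| ≤ 1) : |a * t| ≤ b :=
  (abs_mul_le_one ht).trans ha

theorem Psi2_le (P : Par) {x0 x z : ℝ} (h0 : 0 < x0) (hx : x0 ≤ x) (h1 : x ≤ π)
    (hz0 : -1 ≤ z) (hz1 : z ≤ 1) : Psi2 P x z ≤ secB P x0 := by
  have hG0 := G_nonneg (h0.trans_le hx) h1
  have hk0 := kap_nonneg (h0.trans_le hx) h1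
  have hk30 := kap3_nonneg (h0.trans_le hx) h1
  have hG := G_anti h0 hx h1
  have hk := kap_anti h0 hx h1
  have hk3 := kap3_anti h0 hx h1
  have hsx : 0 ≤ sin x := sin_nonneg_of_nonneg_of_le_pi (by linarith) h1
  have hfp : |fp x| ≤ 1 + G x0 := by
    rw [fp_eq, abs_le]
    constructor
    · linarith
    · linarith [sin_le_one x]
  have hfp1 : |cos x + kap x| ≤ 1 + kap x0 := by
    rw [abs_le]
    constructor
    · linarith [neg_one_le_cos x]
    · linarith [cos_le_one x]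
  have hfp2 : |-sin x - kap3 x| ≤ 1 + kap3 x0 := by
    rw [abs_le]
    constructor
    · linarith [sin_le_one x]
    · linarith
  have b1 := abs_sin_le_one (x / 2)
  have b2 := abs_cos_le_one (x / 2)
  have b3 := abs_sin_le_one x
  have b4 := abs_cos_le_one x
  have b5 := abs_sin_le_one (3 * (x / 2))
  have b6 := abs_cos_le_one (3 * (x / 2))
  have z1 : |z| ≤ 1 := abs_le.2 ⟨hz0, hz1⟩
  have z2 : |2 * z ^ 2 - 1| ≤ 1 := by
    rw [abs_le]; constructor <;> nlinarith
  have z3 : |4 * z ^ 3 - 3 * z| ≤ 1 := by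
    rw [abs_le]
    constructor
    · nlinarith [mul_nonneg (by linarith : 0 ≤ 1 + z) (sq_nonneg (2 * z - 1))]
    · nlinarith [mul_nonneg (by linarith : 0 ≤ 1 - z) (sq_nonneg (2 * z + 1))]
  -- first group
  have hpi := pi_pos
  have g1 : 1 / π * (cos x + kap x) - P.nu * cos x ≤ kap x0 / π + |P.nu - 1 / π| := by
    have e : 1 / π * (cos x + kap x) - P.nu * cos x
        = kap x / π - (P.nu - 1 / π) * cos x := by ring
    rw [e]
    have u1 : kap x / π ≤ kap x0 / π := by gcongr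
    have u2 := neg_abs_le ((P.nu - 1 / π) * cos x)
    have u3 := abs_mul_le_one (a := P.nu - 1 / π) b4
    linarith
  have g2 : (x / (2 * π) - P.r) * (-sin x - kap3 x)
      ≤ max (P.r - x0 / (2 * π)) 0 * (1 + kap3 x0) := by
    have e : (x / (2 * π) - P.r) * (-sin x - kap3 x)
        = (P.r - x / (2 * π)) * (sin x + kap3 x) := by ring
    rw [e]
    have u1 : P.r - x / (2 * π) ≤ max (P.r - x0 / (2 * π)) 0 := by
      refine le_trans ?_ (le_max_left _ _)
      have : x0 / (2 * π) ≤ x / (2 * π) := by gcongr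
      linarith
    have u2 : 0 ≤ max (P.r - x0 / (2 * π)) 0 := le_max_right _ _
    calc (P.r - x / (2 * π)) * (sin x + kap3 x)
        ≤ max (P.r - x0 / (2 * π)) 0 * (sin x + kap3 x) :=
          mul_le_mul_of_nonneg_right u1 (by linarith)
      _ ≤ _ := mul_le_mul_of_nonneg_left (by linarith [sin_le_one x]) u2
  have key : ∀ (u U t : ℝ), |t| ≤ 1 → |u| ≤ U → t * u ≤ U := by
    intro u U t ht hu
    calc t * u ≤ |t * u| := le_abs_self _
      _ = |t| * |u| := abs_mul _ _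
      _ ≤ 1 * |u| := mul_le_mul_of_nonneg_right ht (abs_nonneg _)
      _ ≤ U := by linarith
  have g3 : z * (P.r1 * ((-sin x - kap3 x) * sin (x / 2) + (cos x + kap x) * cos (x / 2)
        - fp x * sin (x / 2) / 4) - P.a1 * sin (x / 2) / 4 + P.b1 * cos (x / 2) / 4)
      ≤ (|P.a1| + |P.b1|) / 4 + |P.r1| * ((1 + G x0) / 4 + (1 + kap x0) + (1 + kap3 x0)) := by
    apply key _ _ _ z1
    have v1 := abs_mul_le_of hfp2 b1
    have v2 := abs_mul_le_of hfp1 b2
    have v3 := abs_mul_le_of hfp b1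
    have v4 := abs_mul_le_one (a := P.a1) b1
    have v5 := abs_mul_le_one (a := P.b1) b2
    have v6 : |P.r1 * ((-sin x - kap3 x) * sin (x / 2) + (cos x + kap x) * cos (x / 2)
        - fp x * sin (x / 2) / 4)| ≤ |P.r1| * ((1 + G x0) / 4 + (1 + kap x0) + (1 + kap3 x0)) := by
      rw [abs_mul]
      apply mul_le_mul_of_nonneg_left _ (abs_nonneg _)
      rw [abs_le] at *
      constructor <;> linarith
    rw [abs_le] at v4 v5 v6 ⊢
    constructor <;> linarith
  have g4 : (2 * z ^ 2 - 1) * (P.r2 * ((-sin x - kap3 x) * sin x + 2 * ((cos x + kap x) * cos x)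
        - fp x * sin x) - P.a2 * sin x + P.b2 * cos x)
      ≤ (|P.a2| + |P.b2|) + |P.r2| * ((1 + G x0) + 2 * (1 + kap x0) + (1 + kap3 x0)) := by
    apply key _ _ _ z2
    have v1 := abs_mul_le_of hfp2 b3
    have v2 := abs_mul_le_of hfp1 b4
    have v3 := abs_mul_le_of hfp b3
    have v4 := abs_mul_le_one (a := P.a2) b3
    have v5 := abs_mul_le_one (a := P.b2) b4
    have v6 : |P.r2 * ((-sin x - kap3 x) * sin x + 2 * ((cos x + kap x) * cos x)
        - fp x * sin x)| ≤ |P.r2| * ((1 + G x0) + 2 * (1 + kap x0) + (1 + kap3 x0)) := by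
      rw [abs_mul]
      apply mul_le_mul_of_nonneg_left _ (abs_nonneg _)
      rw [abs_le] at *
      constructor <;> linarith
    rw [abs_le] at v4 v5 v6 ⊢
    constructor <;> linarith
  have g5 : (4 * z ^ 3 - 3 * z) * (P.r3 * ((-sin x - kap3 x) * sin (3 * (x / 2))
        + 3 * ((cos x + kap x) * cos (3 * (x / 2))) - 9 / 4 * (fp x * sin (3 * (x / 2))))
        - 9 / 4 * (P.a3 * sin (3 * (x / 2))) + 9 / 4 * (P.b3 * cos (3 * (x / 2))))
      ≤ 9 / 4 * (|P.a3| + |P.b3|)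
        + |P.r3| * (9 / 4 * (1 + G x0) + 3 * (1 + kap x0) + (1 + kap3 x0)) := by
    apply key _ _ _ z3
    have v1 := abs_mul_le_of hfp2 b5
    have v2 := abs_mul_le_of hfp1 b6
    have v3 := abs_mul_le_of hfp b5
    have v4 := abs_mul_le_one (a := P.a3) b5
    have v5 := abs_mul_le_one (a := P.b3) b6
    have v6 : |P.r3 * ((-sin x - kap3 x) * sin (3 * (x / 2))
        + 3 * ((cos x + kap x) * cos (3 * (x / 2))) - 9 / 4 * (fp x * sin (3 * (x / 2))))|
        ≤ |P.r3| * (9 / 4 * (1 + G x0) + 3 * (1 + kap x0) + (1 + kap3 x0)) := by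
      rw [abs_mul]
      apply mul_le_mul_of_nonneg_left _ (abs_nonneg _)
      rw [abs_le] at *
      constructor <;> linarith
    rw [abs_le] at v4 v5 v6 ⊢
    constructor <;> linarith
  unfold Psi2 secB
  linarith

theorem secB_nonneg (P : Par) {x0 : ℝ} (h0 : 0 < x0) (h1 : x0 ≤ π) : 0 ≤ secB P x0 := by
  have := G_nonneg h0 h1
  have := kap_nonneg h0 h1
  have := kap3_nonneg h0 h1
  have : 0 ≤ max (P.r - x0 / (2 * π)) 0 := le_max_right _ _
  unfold secB
  positivity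

/-- SUBTASK G: the cell lemma. -/
theorem cell (P : Par) {x0 x1 e z : ℝ} (h0 : 0 < x0) (h01 : x0 ≤ x1) (h1 : x1 ≤ π)
    (hz0 : -1 ≤ z) (hz1 : z ≤ 1) (he : secB P x0 * (x1 - x0) ^ 2 / 8 ≤ e)
    (h2 : e ≤ Psi P x0 z) (h3 : e ≤ Psi P x1 z) :
    ∀ x, x0 ≤ x → x ≤ x1 → 0 ≤ Psi P x z :=
  cell_aux (secB_nonneg P h0 (h01.trans h1))
    (fun _ hx hx' => hasDerivAt_Psi P z (sin_half_pos (h0.trans_le hx) (hx'.trans h1)))
    (fun _ hx hx' => hasDerivAt_Psi1 P z (sin_half_pos (h0.trans_le hx) (hx'.trans h1)))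
    (fun _ hx hx' => Psi2_le P h0 hx (hx'.trans h1) hz0 hz1) he h2 h3

end Pool.Agent.H999.LimCC
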