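import Pool.Agent.H999.LimCC.Basic

set_option autoImplicit false

namespace Pool.Agent.H999.LimCC

open Real Finset

namespace CfgEx

/-- the interaction term -/
noncomputable def HH (ρ : ℝ) (a b : ℂ) : ℝ :=
  ((starRingEnd ℂ) a * b).im * (1 / ρ ^ 3 - 1 / ‖a - b‖ ^ 3)

theorem HH_self (ρ : ℝ) (a : ℂ) : HH ρ a a = 0 := by
  unfold HH
  have : ((starRingEnd ℂ) a * a).im = 0 := by
    rw [← Complex.normSq_eq_conj_mul_self]
    exact Complex.ofReal_im _
  rw [this, zero_mul]

/-- a point of the circle -/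
noncomputable def ee (w : ℂ) (s : ℝ) : ℂ := w * Complex.exp (Complex.I * (s : ℝ))

theorem exp_I (s : ℝ) : Complex.exp (Complex.I * (s : ℝ)) = (cos s : ℂ) + (sin s : ℂ) * Complex.I := by
  rw [mul_comm, Complex.exp_mul_I, ← Complex.ofReal_cos, ← Complex.ofReal_sin]

theorem exp_I_re (s : ℝ) : (Complex.exp (Complex.I * (s : ℝ))).re = cos s := by
  rw [exp_I]; simp [Complex.cos_ofReal_re]

theorem exp_I_im (s : ℝ) : (Complex.exp (Complex.I * (s : ℝ))).im = sin s := by
  rw [exp_I]; simp [Complex.sin_ofReal_re, Complex.cos_ofReal_im]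

theorem ee_per (w : ℂ) (s : ℝ) : ee w (s + 2 * π) = ee w s := by
  unfold ee
  congr 1
  push_cast
  rw [mul_add, Complex.exp_add, show Complex.I * (2 * (π : ℂ)) = 2 * π * Complex.I by ring,
    Complex.exp_two_pi_mul_I, mul_one]

/-- the interaction term in terms of the angle -/
theorem HH_exp (ρ : ℝ) (hρ : 0 < ρ) (w : ℂ) (hw : ‖w‖ = ρ) (a b : ℝ) (h0 : 0 < b - a)
    (h1 : b - a < 2 * π) : HH ρ (ee w a) (ee w b) = 1 / ρ * fp (b - a) := by
  obtain ⟨x, hx⟩ : ∃ x, x = b - a := ⟨_, rfl⟩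
  have hb : b = a + x := by rw [hx]; ring
  rw [← hx] at h0 h1 ⊢
  have hs : 0 < sin (x / 2) := sin_pos_of_pos_of_lt_pi (by linarith) (by linarith)
  have hww : (starRingEnd ℂ) w * w = ((ρ ^ 2 : ℝ) : ℂ) := by
    rw [← Complex.normSq_eq_conj_mul_self, Complex.normSq_eq_norm_sq, hw]
  have hn1 : ‖Complex.exp (Complex.I * (a : ℝ))‖ = 1 := by
    rw [mul_comm]; exact Complex.norm_exp_ofReal_mul_I a
  have hcc : (starRingEnd ℂ) (Complex.exp (Complex.I * (a : ℝ))) * Complex.exp (Complex.I * (a : ℝ)) = 1 := by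
    rw [← Complex.normSq_eq_conj_mul_self, Complex.normSq_eq_norm_sq, hn1]; norm_num
  have hab : Complex.exp (Complex.I * (b : ℝ)) =
      Complex.exp (Complex.I * (a : ℝ)) * Complex.exp (Complex.I * (x : ℝ)) := by
    rw [hb, ← Complex.exp_add]; push_cast; congr 1; ring
  have e1 : ((starRingEnd ℂ) (ee w a) * (ee w b)).im = ρ ^ 2 * sin x := by
    have : (starRingEnd ℂ) (ee w a) * (ee w b) =
        ((ρ ^ 2 : ℝ) : ℂ) * Complex.exp (Complex.I * (x : ℝ)) := by
      unfold ee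
      rw [hab, map_mul]
      calc _ = ((starRingEnd ℂ) w * w) * ((starRingEnd ℂ) (Complex.exp (Complex.I * (a : ℝ))) *
          Complex.exp (Complex.I * (a : ℝ))) * Complex.exp (Complex.I * (x : ℝ)) := by ring
        _ = _ := by rw [hww, hcc, mul_one]
    rw [this, Complex.im_ofReal_mul, exp_I_im]
  have e2 : ‖ee w a - ee w b‖ = 2 * ρ * sin (x / 2) := by
    have : ee w a - ee w b = -(w * Complex.exp (Complex.I * (a : ℝ)) *
        (Complex.exp (Complex.I * (x : ℝ)) - 1)) := by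
      unfold ee
      rw [hab]; ring
    rw [this, norm_neg, norm_mul, norm_mul, hw, hn1, Complex.norm_exp_I_mul_ofReal_sub_one,
      Real.norm_of_nonneg (by positivity)]
    ring
  unfold HH fp
  rw [e1, e2]
  have e3 : sin x = 2 * sin (x / 2) * cos (x / 2) := by
    rw [← sin_two_mul]; congr 1; ring
  rw [e3]
  field_simp
  ring

/-- the index of an integer -/
def idx (N : ℕ) (hN : 0 < N) (j : ℤ) : Fin N :=
  ⟨(j % N).toNat, by
    have h1 := Int.emod_nonneg j (show (N : ℤ) ≠ 0 by omega)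
    have h2 := Int.emod_lt_of_pos j (show (0 : ℤ) < N by omega)
    omega⟩

theorem idx_nat (N : ℕ) (hN : 0 < N) (k : Fin N) : idx N hN ((k : ℕ) : ℤ) = k := by
  apply Fin.ext
  unfold idx
  have h2 : ((k : ℕ) : ℤ) % (N : ℤ) = (k : ℕ) := Int.emod_eq_of_lt (by omega) (by omega)
  simp only [h2]
  omega

theorem idx_add (N : ℕ) (hN : 0 < N) (j : ℤ) : idx N hN (j + N) = idx N hN j := by
  apply Fin.ext
  unfold idx
  simp only [Int.add_emod_right]

/-- the lifted angles -/
noncomputable def tt (N : ℕ) (hN : 0 < N) (g : Fin N → ℝ) (j : ℤ) : ℝ :=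
  g (idx N hN j) + 2 * π * ((j / (N : ℤ) : ℤ) : ℝ)

theorem tt_per (N : ℕ) (hN : 0 < N) (g : Fin N → ℝ) (j : ℤ) :
    tt N hN g (j + N) = tt N hN g j + 2 * π := by
  unfold tt
  have h : (j + (N : ℤ)) / (N : ℤ) = j / N + 1 := by
    have := Int.add_mul_ediv_left j 1 (show (N : ℤ) ≠ 0 by omega)
    rw [mul_one] at this
    exact this
  rw [idx_add, h]
  push_cast
  ring

theorem tt_nat (N : ℕ) (hN : 0 < N) (g : Fin N → ℝ) (k : Fin N) :
    tt N hN g ((k : ℕ) : ℤ) = g k := by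
  unfold tt
  rw [idx_nat]
  have : ((k : ℕ) : ℤ) / (N : ℤ) = 0 := Int.ediv_eq_zero_of_lt (by omega) (by omega)
  rw [this]
  simp

theorem tt_mono (N : ℕ) (hN : 0 < N) (g : Fin N → ℝ) (hg : StrictMono g)
    (h1 : ∀ i, -π < g i) (h2 : ∀ i, g i ≤ π) : StrictMono (tt N hN g) := by
  apply strictMono_int_of_lt_succ
  intro j
  have hN' : (0 : ℤ) < N := by omega
  have e0 := Int.emod_nonneg j hN'.ne'
  have e1 := Int.emod_lt_of_pos j hN'
  have e2 := Int.emod_add_mul_ediv j (N : ℤ)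
  by_cases h : j % (N : ℤ) + 1 < N
  · have k1 : (j + 1) % (N : ℤ) = j % N + 1 := by
      rw [← Int.emod_eq_of_lt (show 0 ≤ j % (N : ℤ) + 1 by omega) h]
      conv_lhs => rw [← e2]
      rw [add_right_comm, Int.add_mul_emod_self_left]
    have k2 : (j + 1) / (N : ℤ) = j / N := by
      conv_lhs => rw [← e2]
      rw [add_right_comm, Int.add_mul_ediv_left _ _ hN'.ne', Int.ediv_eq_zero_of_lt (by omega) h,
        zero_add]
    unfold tt
    rw [k2]
    have : g (idx N hN j) < g (idx N hN (j + 1)) := by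
      apply hg
      rw [Fin.lt_def]
      unfold idx
      simp only [k1]
      omega
    linarith
  · have h' : j % (N : ℤ) + 1 = N := by omega
    have k2 : (j + 1) / (N : ℤ) = j / N + 1 := by
      conv_lhs => rw [← e2]
      rw [add_right_comm, h', Int.add_mul_ediv_left _ _ hN'.ne', Int.ediv_self hN'.ne']
      ring
    unfold tt
    rw [k2]
    have a1 := h1 (idx N hN (j + 1))
    have a2 := h2 (idx N hN j)
    push_cast
    linarith

end CfgEx

open CfgEx in
/-- SUBTASK F: sorting points of a circle into a `Cfg`. -/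
theorem exists_cfg (N : ℕ) (hN : 2 ≤ N) (z : Fin N → ℂ) (hz : Function.Injective z) (ρ : ℝ)
    (hρ : 0 < ρ) (hn : ∀ i, ‖z i‖ = ρ)
    (heq : ∀ i : Fin N, ∑ j ∈ Finset.univ.erase i,
        ((starRingEnd ℂ) (z i) * z j).im * (1 / ρ ^ 3 - 1 / ‖z i - z j‖ ^ 3) = 0) :
    ∃ c : Cfg N, ∃ w : ℂ, w ≠ 0 ∧ ∃ σ : Equiv.Perm (Fin N), ∀ k : Fin N,
      z (σ k) = w * Complex.exp (Complex.I * (c.th ((k : ℕ) : ℤ) : ℝ)) := by
  have hN0 : 0 < N := by omega
  have hNr : (0 : ℝ) < N := by exact_mod_cast hN0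
  obtain ⟨w, t, hw, ht, hS⟩ : ∃ (w : ℂ) (t : ℝ), ‖w‖ = ρ ∧ 0 ≤ t ∧ ∑ i, z i = w * ((N * t : ℝ) : ℂ) := by
    by_cases h : ∑ i, z i = 0
    · refine ⟨(ρ : ℂ), 0, ?_, le_rfl, ?_⟩
      · rw [Complex.norm_real, Real.norm_of_nonneg hρ.le]
      · rw [h]; simp
    · set S := ∑ i, z i with hSdef
      have hS0 : 0 < ‖S‖ := norm_pos_iff.2 h
      have hS0' : (‖S‖ : ℂ) ≠ 0 := by exact_mod_cast hS0.ne'
      refine ⟨(ρ : ℂ) * (S / (‖S‖ : ℂ)), ‖S‖ / (N * ρ), ?_, by positivity, ?_⟩
      · rw [norm_mul, norm_div, Complex.norm_real, Complex.norm_real, Real.norm_of_nonneg hρ.le,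
          norm_norm, div_self hS0.ne', mul_one]
      · have hρ' : (ρ : ℂ) ≠ 0 := by exact_mod_cast hρ.ne'
        have hN' : (N : ℂ) ≠ 0 := by exact_mod_cast hNr.ne'
        push_cast
        field_simp
  have hw0 : w ≠ 0 := by
    rw [← norm_pos_iff, hw]; exact hρ
  set φ : Fin N → ℝ := fun i => Complex.arg (z i / w) with hφ
  have hzφ : ∀ i, z i = ee w (φ i) := by
    intro i
    have h1 : ‖z i / w‖ = 1 := by rw [norm_div, hn, hw, div_self hρ.ne']
    have h2 := Complex.norm_mul_exp_arg_mul_I (z i / w)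
    rw [h1, Complex.ofReal_one, one_mul] at h2
    unfold ee
    rw [mul_comm Complex.I, h2]
    field_simp
  have hφi : Function.Injective φ := by
    intro i j hij
    apply hz
    rw [hzφ i, hzφ j, hij]
  set σ := Tuple.sort φ with hσ
  set g : Fin N → ℝ := fun k => φ (σ k) with hg
  have hgm : StrictMono g :=
    (Tuple.monotone_sort φ).strictMono_of_injective (hφi.comp σ.injective)
  have hg1 : ∀ i, -π < g i := fun i => Complex.neg_pi_lt_arg _
  have hg2 : ∀ i, g i ≤ π := fun i => Complex.arg_le_pi _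
  set th : ℤ → ℝ := tt N hN0 g with hth
  have hmono : StrictMono th := tt_mono N hN0 g hgm hg1 hg2
  have hper : ∀ j : ℤ, th (j + N) = th j + 2 * π := tt_per N hN0 g
  have hzk : ∀ k : Fin N, z (σ k) = ee w (th ((k : ℕ) : ℤ)) := by
    intro k
    rw [hth, tt_nat, hzφ]
  -- the periodic family of points
  set E : ℤ → ℂ := fun j => ee w (th j) with hE
  have hEper : ∀ j, E (j + N) = E j := by
    intro j
    simp only [hE]
    rw [hper, ee_per]
  have hEidx : ∀ i : ℤ, ∃ i' : Fin N, E i = z i' := by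
    intro i
    refine ⟨σ (idx N hN0 i), ?_⟩
    rw [hzφ]
    simp only [hE, hth, tt]
    have : ∀ (m : ℤ) (s : ℝ), ee w (s + 2 * π * (m : ℝ)) = ee w s := by
      intro m s
      unfold ee
      congr 1
      push_cast
      rw [mul_add, Complex.exp_add, show Complex.I * (2 * (π : ℂ) * (m : ℂ)) = (m : ℂ) * (2 * π * Complex.I) by ring,
        Complex.exp_int_mul_two_pi_mul_I, mul_one]
    rw [this]
  have hsum0 : ∀ i : Fin N, ∑ j, HH ρ (z i) (z j) = 0 := by
    intro i
    rw [← Finset.add_sum_erase _ _ (Finset.mem_univ i), HH_self, zero_add]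
    exact heq i
  have hsumE : ∀ i : ℤ, ∑ k ∈ range N, HH ρ (E i) (E (k : ℤ)) = 0 := by
    intro i
    obtain ⟨i', hi'⟩ := hEidx i
    rw [hi', Finset.sum_range (fun k => HH ρ (z i') (E ((k : ℕ) : ℤ)))]
    rw [← hsum0 i', ← Equiv.sum_comp σ (fun j => HH ρ (z i') (z j))]
    refine Finset.sum_congr rfl fun k _ => ?_
    rw [hzk k]
  have hsumE2 : ∀ i : ℤ, ∑ k ∈ Finset.Ico 1 N, HH ρ (E i) (E (i + (k : ℤ))) = 0 := by
    intro i
    have h1 := sum_shift N (fun j => HH ρ (E i) (E j)) (fun j => by simp only [hEper]) i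
    rw [hsumE i] at h1
    rw [Finset.range_eq_Ico, ← Finset.sum_Ico_consecutive _ (Nat.zero_le 1) (by omega)] at h1
    simp only [Nat.Ico_zero_eq_range, Finset.sum_range_one, Nat.cast_zero, zero_add, HH_self] at h1
    rw [← h1]
    refine Finset.sum_congr rfl fun k _ => ?_
    rw [add_comm]
  have hcs : ∑ j ∈ range N, Complex.exp (Complex.I * (th (j : ℤ) : ℝ)) = ((N * t : ℝ) : ℂ) := by
    have h1 : w * ∑ j ∈ range N, Complex.exp (Complex.I * (th (j : ℤ) : ℝ)) = w * ((N * t : ℝ) : ℂ) := by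
      rw [← hS, Finset.mul_sum, Finset.sum_range, ← Equiv.sum_comp σ z]
      refine Finset.sum_congr rfl fun k _ => ?_
      rw [hzk k]
      rfl
    exact mul_left_cancel₀ hw0 h1
  refine ⟨⟨th, hmono, hper, ?_, t, ht, ?_, ?_⟩, w, hw0, σ, ?_⟩
  · intro i
    have h1 := hsumE2 i
    have h2 : ∀ k ∈ Finset.Ico 1 N, HH ρ (E i) (E (i + (k : ℤ))) = 1 / ρ * fp (th (i + (k : ℤ)) - th i) := by
      intro k hk
      rw [Finset.mem_Ico] at hk
      apply HH_exp ρ hρ w hw
      · have : th i < th (i + (k : ℤ)) := hmono (by omega)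
        linarith
      · have : th (i + (k : ℤ)) < th (i + N) := hmono (by omega)
        rw [hper] at this
        linarith
    rw [Finset.sum_congr rfl h2, ← Finset.mul_sum] at h1
    have hρ' : (1 / ρ) ≠ 0 := by positivity
    exact (mul_eq_zero.1 h1).resolve_left hρ'
  · have h1 := congrArg Complex.re hcs
    rw [Complex.re_sum, Complex.ofReal_re] at h1
    simp only [exp_I_re] at h1
    exact h1
  · have h1 := congrArg Complex.im hcs
    rw [Complex.im_sum, Complex.ofReal_im] at h1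
    simp only [exp_I_im] at h1
    exact h1
  · intro k
    exact hzk k

end Pool.Agent.H999.LimCC
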