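import Pool.Agent.H999.LimCC.Basic

set_option autoImplicit false

namespace Pool.Agent.H999.LimCC

open Real Finset

lemma per_rep {N : ℕ} (hN : 0 < N) {F : ℤ → ℝ} (hF : ∀ j, F (j + N) = F j) (j : ℤ) :
    ∃ i ∈ range N, F j = F (i : ℤ) := by
  have hN' : (0 : ℤ) < N := by exact_mod_cast hN
  have h1 : ∀ n : ℕ, ∀ j, F (j + n * N) = F j := by
    intro n
    induction n with
    | zero => intro j; simp
    | succ n ih =>
      intro j
      have : j + ((n + 1 : ℕ) : ℤ) * N = (j + n * N) + N := by push_cast; ring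
      rw [this, hF, ih]
  have h2 : ∀ n : ℤ, ∀ j, F (j + n * N) = F j := by
    intro n j
    obtain ⟨m, rfl | rfl⟩ := n.eq_nat_or_neg
    · exact h1 m j
    · have := h1 m (j + -(m:ℤ) * N)
      rw [← this]; congr 1; ring
  refine ⟨(j % N).toNat, ?_, ?_⟩
  · rw [mem_range]
    have h3 := Int.emod_nonneg j hN'.ne'
    have h4 := Int.emod_lt_of_pos j hN'
    omega
  · rw [Int.toNat_of_nonneg (Int.emod_nonneg j hN'.ne')]
    have h5 := h2 (j / N) (j % N)
    rw [← h5]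
    congr 1
    have := Int.emod_add_mul_ediv j N
    linarith

lemma G_hasDeriv8 {x : ℝ} (hx : Real.sin (x / 2) ≠ 0) :
    HasDerivAt G (-(1 + Real.cos (x / 2) ^ 2) / (8 * Real.sin (x / 2) ^ 3)) x := by
  unfold G
  have hh : HasDerivAt (fun x : ℝ => x / 2) (1 / 2) x := (hasDerivAt_id x).div_const 2
  have h1 := hh.cos
  have h2 : HasDerivAt (fun x : ℝ => 4 * Real.sin (x / 2) ^ 2) (4 * (2 * Real.sin (x / 2) * (Real.cos (x / 2) * (1 / 2)))) x := by
    have := (hh.sin.pow 2).const_mul 4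
    refine this.congr_deriv ?_
    norm_num
  have h3 := h1.div h2 (mul_ne_zero (by norm_num) (pow_ne_zero 2 hx))
  refine h3.congr_deriv ?_
  have h4 := Real.sin_sq_add_cos_sq (x / 2)
  rw [div_eq_div_iff (pow_ne_zero 2 (mul_ne_zero (by norm_num) (pow_ne_zero 2 hx)))
    (mul_ne_zero (by norm_num) (pow_ne_zero 3 hx))]
  linear_combination (-16 * Real.sin (x / 2) ^ 4) * h4

lemma G_anti8 {x y : ℝ} (hx : 0 < x) (hxy : x ≤ y) (hy : y < 2 * π) : G y - G x ≤ -(1 / 8) * (y - x) := by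
  have hanti : AntitoneOn (fun x => G x + 1 / 8 * x) (Set.Ioo 0 (2 * π)) := by
    have hsin : ∀ x ∈ Set.Ioo 0 (2 * π), 0 < Real.sin (x / 2) := fun x hx =>
      Real.sin_pos_of_pos_of_lt_pi (by linarith [hx.1]) (by linarith [hx.2])
    have hd : ∀ x ∈ Set.Ioo 0 (2 * π), HasDerivAt (fun x => G x + 1 / 8 * x)
        (-(1 + Real.cos (x / 2) ^ 2) / (8 * Real.sin (x / 2) ^ 3) + 1 / 8) x := by
      intro x hx
      have h2 := (G_hasDeriv8 (hsin x hx).ne').add ((hasDerivAt_id x).const_mul (1 / 8 : ℝ))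
      simp only [mul_one] at h2
      exact h2
    apply antitoneOn_of_deriv_nonpos (convex_Ioo _ _)
    · exact fun x hx => (hd x hx).continuousAt.continuousWithinAt
    · rw [interior_Ioo]
      exact fun x hx => (hd x hx).differentiableAt.differentiableWithinAt
    · rw [interior_Ioo]
      intro x hx
      rw [(hd x hx).deriv]
      have hs := hsin x hx
      have hs1 : Real.sin (x / 2) ^ 3 ≤ 1 := pow_le_one₀ hs.le (Real.sin_le_one _)
      have hs3 : 0 < Real.sin (x / 2) ^ 3 := by positivity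
      have : (1:ℝ) / 8 ≤ (1 + Real.cos (x / 2) ^ 2) / (8 * Real.sin (x / 2) ^ 3) := by
        rw [div_le_div_iff₀ (by norm_num) (by positivity)]
        nlinarith [sq_nonneg (Real.cos (x / 2))]
      rw [neg_div]
      linarith
  have h := hanti ⟨hx, lt_of_le_of_lt hxy hy⟩ ⟨hx.trans_le hxy, hy⟩ hxy
  simp only at h
  linarith

lemma sum_G {N : ℕ} (c : Cfg N) (i : ℤ) : ∑ l ∈ Finset.Ico 1 N, G (c.gap l i) = - (N * c.t * Real.sin (c.th i)) := by
  rw [← c.sum_sin_diff i]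
  have h := c.eqn i
  have h2 : ∀ l ∈ Finset.Ico 1 N, fp (c.th (i + (l : ℤ)) - c.th i) = Real.sin (c.gap l i) - G (c.gap l i) := by
    intro l _
    rfl
  rw [sum_congr rfl h2, sum_sub_distrib] at h
  linarith

lemma gap_swap {N : ℕ} (c : Cfg N) (k l : ℕ) (i : ℤ) : c.gap l (i + k) - c.gap l i = c.gap k (i + l) - c.gap k i := by
  unfold Cfg.gap
  rw [show i + (k : ℤ) + (l : ℤ) = i + l + k by ring]
  ring

/-- SUBTASK C1: confinement of the gaps when `t` is small. -/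
theorem gap_confine {N : ℕ} (c : Cfg N) (hN : 2 ≤ N) (ht : c.t ≤ 1 / 16) {k : ℕ}
    (hk1 : 1 ≤ k) (_hk2 : k < N) (j : ℤ) :
    (1 - 8 * c.t) * (2 * π * k / N) ≤ c.gap k j ∧ (1 - 8 * c.t) * c.gap k j ≤ 2 * π * k / N := by
  have hN0 : 0 < N := by omega
  have hNr : (0:ℝ) < N := by exact_mod_cast hN0
  have hper : ∀ j, c.gap k (j + N) = c.gap k j := c.gap_per k
  have hsum : ∀ i : ℤ, ∑ l ∈ Finset.Ico 1 N, (c.gap k (i + l) - c.gap k i) = 2 * π * k - N * c.gap k i := by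
    intro i
    have h1 : ∑ l ∈ range N, (c.gap k (i + l) - c.gap k i) = 2 * π * k - N * c.gap k i := by
      rw [sum_sub_distrib, sum_const, card_range, nsmul_eq_mul]
      congr 1
      have h2 := sum_shift N (c.gap k) hper i
      have h3 : ∑ l ∈ range N, c.gap k (i + l) = ∑ l ∈ range N, c.gap k ((l : ℤ) + i) :=
        sum_congr rfl fun l _ => by rw [add_comm]
      rw [h3, h2]
      have h4 := c.sum_gap_sub (by omega) k
      rw [sum_sub_distrib, sum_const, card_range, nsmul_eq_mul] at h4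
      have : (N : ℝ) * (2 * π * k / N) = 2 * π * k := by field_simp
      linarith
    rw [← h1, range_eq_Ico, sum_eq_sum_Ico_succ_bot hN0]
    simp
  have hF : ∀ i, ∑ l ∈ Finset.Ico 1 N, (G (c.gap l (i + k)) - G (c.gap l i)) =
      - (N * c.t * (Real.sin (c.th (i + k)) - Real.sin (c.th i))) := by
    intro i
    rw [sum_sub_distrib, sum_G, sum_G]; ring
  have hsin : ∀ i, |Real.sin (c.th (i + k)) - Real.sin (c.th i)| ≤ c.gap k i := by
    intro i
    have h := Real.abs_sin_sub_sin_le (c.th (i + k)) (c.th i)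
    have hp := c.gap_pos hk1 i
    unfold Cfg.gap at hp ⊢
    rwa [abs_of_pos hp] at h
  have ht0 := c.t_nonneg
  obtain ⟨i0, hi0, hmax⟩ := exists_max_image (range N) (fun j : ℕ => c.gap k (j : ℤ)) ⟨0, mem_range.2 hN0⟩
  obtain ⟨i1, hi1, hmin⟩ := exists_min_image (range N) (fun j : ℕ => c.gap k (j : ℤ)) ⟨0, mem_range.2 hN0⟩
  have hmax' : ∀ j : ℤ, c.gap k j ≤ c.gap k i0 := by
    intro j
    obtain ⟨i, hi, he⟩ := per_rep hN0 hper j
    rw [he]; exact hmax i hi
  have hmin' : ∀ j : ℤ, c.gap k i1 ≤ c.gap k j := by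
    intro j
    obtain ⟨i, hi, he⟩ := per_rep hN0 hper j
    rw [he]; exact hmin i hi
  -- upper bound
  have hup : (1 - 8 * c.t) * c.gap k i0 ≤ 2 * π * k / N := by
    have h1 : ∑ l ∈ Finset.Ico 1 N, (-(1 / 8) * (c.gap k ((i0:ℤ) + l) - c.gap k i0)) ≤
        ∑ l ∈ Finset.Ico 1 N, (G (c.gap l (i0 + k)) - G (c.gap l i0)) := by
      refine sum_le_sum fun l hl => ?_
      rw [mem_Ico] at hl
      have h2 := gap_swap c k l i0
      have h3 : c.gap l (i0 + k) ≤ c.gap l i0 := by have := hmax' (i0 + l); linarith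
      have h4 := G_anti8 (c.gap_pos hl.1 (i0 + k)) h3 (c.gap_lt hl.2 i0)
      linarith
    rw [← mul_sum, hsum, hF] at h1
    have h5 := (abs_le.1 (hsin i0)).1
    have h6 : (N:ℝ) * c.t * (-c.gap k i0) ≤ N * c.t * (Real.sin (c.th (i0 + k)) - Real.sin (c.th i0)) :=
      mul_le_mul_of_nonneg_left h5 (by positivity)
    rw [le_div_iff₀ hNr]
    linarith
  have hlo : (1 - 8 * c.t) * (2 * π * k / N) ≤ c.gap k i1 := by
    have h1 : ∑ l ∈ Finset.Ico 1 N, (G (c.gap l (i1 + k)) - G (c.gap l i1)) ≤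
        ∑ l ∈ Finset.Ico 1 N, (-(1 / 8) * (c.gap k ((i1:ℤ) + l) - c.gap k i1)) := by
      refine sum_le_sum fun l hl => ?_
      rw [mem_Ico] at hl
      have h2 := gap_swap c k l i1
      have h3 : c.gap l i1 ≤ c.gap l (i1 + k) := by have := hmin' (i1 + l); linarith
      have h4 := G_anti8 (c.gap_pos hl.1 i1) h3 (c.gap_lt hl.2 (i1 + k))
      linarith
    rw [← mul_sum, hsum, hF] at h1
    have h5 := (abs_le.1 (hsin i1)).2
    have h6 : (N:ℝ) * c.t * (Real.sin (c.th (i1 + k)) - Real.sin (c.th i1)) ≤ N * c.t * c.gap k i1 :=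
      mul_le_mul_of_nonneg_left h5 (by positivity)
    have h7 : 2 * π * k ≤ N * ((1 + 8 * c.t) * c.gap k i1) := by linarith
    have h8 : 2 * π * k / N ≤ (1 + 8 * c.t) * c.gap k i1 := by
      rw [div_le_iff₀ hNr]; linarith
    have h9 := c.gap_pos hk1 i1
    calc (1 - 8 * c.t) * (2 * π * k / N) ≤ (1 - 8 * c.t) * ((1 + 8 * c.t) * c.gap k i1) :=
          mul_le_mul_of_nonneg_left h8 (by linarith)
      _ ≤ c.gap k i1 := by nlinarith [mul_nonneg (sq_nonneg c.t) h9.le]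
  exact ⟨hlo.trans (hmin' j), (mul_le_mul_of_nonneg_left (hmax' j) (by linarith)).trans hup⟩

lemma sum_cexp {N m : ℕ} (hN : 0 < N) (hm : ¬ N ∣ m) :
    ∑ j ∈ range N, Complex.exp (((2 * π * m * j / N : ℝ) : ℂ) * Complex.I) = 0 := by
  have hNc : (N : ℂ) ≠ 0 := by exact_mod_cast hN.ne'
  set x : ℂ := Complex.exp (2 * π * Complex.I * (m / N)) with hx
  have h1 : ∀ j ∈ range N, Complex.exp (((2 * π * m * j / N : ℝ) : ℂ) * Complex.I) = x ^ j := by
    intro j _
    rw [hx, ← Complex.exp_nat_mul]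
    congr 1
    push_cast
    ring
  rw [sum_congr rfl h1]
  have hxN : x ^ N = 1 := by
    rw [hx, ← Complex.exp_nat_mul, Complex.exp_eq_one_iff]
    exact ⟨m, by push_cast; field_simp⟩
  have hx1 : x ≠ 1 := by
    rw [hx, Ne, Complex.exp_eq_one_iff]
    rintro ⟨n, hn⟩
    apply hm
    have hpi : (2 * (π : ℂ) * Complex.I) ≠ 0 := by
      simp [Real.pi_ne_zero]
    have h2 : (m : ℂ) / N = n := by
      have : 2 * (π : ℂ) * Complex.I * (m / N) = 2 * (π : ℂ) * Complex.I * n := by rw [hn]; ring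
      exact mul_left_cancel₀ hpi this
    have h3 : (m : ℂ) = n * N := by rw [← h2]; field_simp
    have h4 : (m : ℤ) = n * N := by exact_mod_cast h3
    have h5 : (N : ℤ) ∣ m := ⟨n, by rw [h4]; ring⟩
    exact_mod_cast h5
  rw [geom_sum_eq hx1, hxN]
  simp

lemma sum_cos_root {N m : ℕ} (hN : 0 < N) (hm : ¬ N ∣ m) : ∑ j ∈ range N, Real.cos (2 * π * m * j / N) = 0 := by
  have h := congrArg Complex.re (sum_cexp hN hm)
  rw [Complex.re_sum] at h
  simp only [Complex.exp_ofReal_mul_I_re, Complex.zero_re] at h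
  exact h

lemma sum_sin_root {N m : ℕ} (hN : 0 < N) (hm : ¬ N ∣ m) : ∑ j ∈ range N, Real.sin (2 * π * m * j / N) = 0 := by
  have h := congrArg Complex.im (sum_cexp hN hm)
  rw [Complex.im_sum] at h
  simp only [Complex.exp_ofReal_mul_I_im, Complex.zero_im] at h
  exact h

/-- angles of the regular polygon -/
noncomputable def pp (N : ℕ) (j : ℤ) : ℝ := 2 * π * j / N

lemma pp_add (N : ℕ) (i j : ℤ) : pp N (i + j) = pp N i + pp N j := by
  unfold pp; push_cast; ring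

lemma pp_N {N : ℕ} (hN : 0 < N) : pp N N = 2 * π := by
  unfold pp
  have : (N : ℝ) ≠ 0 := by positivity
  push_cast
  field_simp

section four

variable {N : ℕ} (hN : 3 ≤ N) (u : ℤ → ℝ) (hu : ∀ j, u (j + N) = u j)

/-- cosine coefficient -/
noncomputable def CC (N : ℕ) (u : ℤ → ℝ) : ℝ := ∑ j ∈ range N, u j * Real.cos (pp N j)
/-- sine coefficient -/
noncomputable def SS (N : ℕ) (u : ℤ → ℝ) : ℝ := ∑ j ∈ range N, u j * Real.sin (pp N j)

include hN hu in
lemma shift_cos (k a : ℤ) : ∑ j ∈ range N, u ((j : ℤ) + k) * Real.cos (pp N j + pp N k - pp N a) =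
    CC N u * Real.cos (pp N a) + SS N u * Real.sin (pp N a) := by
  have h := sum_shift N (fun j => u j * Real.cos (pp N j - pp N a)) (fun j => by
    simp only [hu, pp_add, pp_N (by omega : 0 < N)]
    rw [show pp N j + 2 * π - pp N a = (pp N j - pp N a) + 2 * π by ring, Real.cos_add_two_pi]) k
  simp only [pp_add] at h
  rw [h]
  unfold CC SS
  rw [sum_mul, sum_mul, ← sum_add_distrib]
  refine sum_congr rfl fun j _ => ?_
  rw [Real.cos_sub]; ring

include hN hu in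
lemma shift_sin (k a : ℤ) : ∑ j ∈ range N, u ((j : ℤ) + k) * Real.sin (pp N j + pp N k - pp N a) =
    SS N u * Real.cos (pp N a) - CC N u * Real.sin (pp N a) := by
  have h := sum_shift N (fun j => u j * Real.sin (pp N j - pp N a)) (fun j => by
    simp only [hu, pp_add, pp_N (by omega : 0 < N)]
    rw [show pp N j + 2 * π - pp N a = (pp N j - pp N a) + 2 * π by ring, Real.sin_add_two_pi]) k
  simp only [pp_add] at h
  rw [h]
  unfold CC SS
  rw [sum_mul, sum_mul, ← sum_sub_distrib]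
  refine sum_congr rfl fun j _ => ?_
  rw [Real.sin_sub]; ring

include hN in
lemma cos_two_pp : ∑ j ∈ range N, Real.cos (2 * pp N j) = 0 := by
  have h := sum_cos_root (N := N) (m := 2) (by omega) (fun h => by have := Nat.le_of_dvd (by norm_num) h; omega)
  rw [← h]
  refine sum_congr rfl fun j _ => ?_
  congr 1
  unfold pp; push_cast; ring

include hN in
lemma sin_two_pp : ∑ j ∈ range N, Real.sin (2 * pp N j) = 0 := by
  have h := sum_sin_root (N := N) (m := 2) (by omega) (fun h => by have := Nat.le_of_dvd (by norm_num) h; omega)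
  rw [← h]
  refine sum_congr rfl fun j _ => ?_
  congr 1
  unfold pp; push_cast; ring

include hN in
lemma cos_pp : ∑ j ∈ range N, Real.cos (pp N j) = 0 := by
  have h := sum_cos_root (N := N) (m := 1) (by omega) (fun h => by have := Nat.le_of_dvd (by norm_num) h; omega)
  rw [← h]
  refine sum_congr rfl fun j _ => ?_
  congr 1
  unfold pp; push_cast; ring

include hN in
lemma sq_sum (X Y : ℝ) : ∑ j ∈ range N, (X * Real.cos (pp N j) + Y * Real.sin (pp N j)) ^ 2 = N / 2 * (X ^ 2 + Y ^ 2) := by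
  have e : ∀ j ∈ range N, (X * Real.cos (pp N j) + Y * Real.sin (pp N j)) ^ 2 =
      (X ^ 2 + Y ^ 2) / 2 + (X ^ 2 - Y ^ 2) / 2 * Real.cos (2 * pp N j) + X * Y * Real.sin (2 * pp N j) := by
    intro j _
    rw [Real.cos_two_mul, Real.sin_two_mul]
    have := Real.sin_sq_add_cos_sq (pp N j)
    linear_combination (Y ^ 2) * this
  rw [sum_congr rfl e, sum_add_distrib, sum_add_distrib, ← mul_sum, ← mul_sum, cos_two_pp hN, sin_two_pp hN,
    sum_const, card_range, nsmul_eq_mul]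
  ring

include hN in
/-- Bessel's inequality for one character -/
lemma bes (v : ℕ → ℝ) : (2 / N) * ((∑ j ∈ range N, v j * Real.cos (pp N j)) ^ 2 + (∑ j ∈ range N, v j * Real.sin (pp N j)) ^ 2) ≤
    ∑ j ∈ range N, v j ^ 2 := by
  have hNr : (0:ℝ) < N := by exact_mod_cast (by omega : 0 < N)
  set X := ∑ j ∈ range N, v j * Real.cos (pp N j) with hX
  set Y := ∑ j ∈ range N, v j * Real.sin (pp N j) with hY
  have h0 : 0 ≤ ∑ j ∈ range N, (v j - (2 / N) * (X * Real.cos (pp N j) + Y * Real.sin (pp N j))) ^ 2 :=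
    sum_nonneg fun j _ => sq_nonneg _
  have e : ∀ j ∈ range N, (v j - (2 / N) * (X * Real.cos (pp N j) + Y * Real.sin (pp N j))) ^ 2 =
      v j ^ 2 - (4 / N) * X * (v j * Real.cos (pp N j)) - (4 / N) * Y * (v j * Real.sin (pp N j)) +
      (2 / N) ^ 2 * (X * Real.cos (pp N j) + Y * Real.sin (pp N j)) ^ 2 := by
    intro j _; ring
  rw [sum_congr rfl e, sum_add_distrib, sum_sub_distrib, sum_sub_distrib, ← mul_sum, ← mul_sum, ← mul_sum, ← hX, ← hY,
    sq_sum hN] at h0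
  have h1 : (2 / (N:ℝ)) ^ 2 * (N / 2 * (X ^ 2 + Y ^ 2)) = (2 / N) * (X ^ 2 + Y ^ 2) := by field_simp
  rw [h1] at h0
  have h2 : 4 / (N:ℝ) * X * X = 2 * ((2 / N) * X ^ 2) := by ring
  have h3 : 4 / (N:ℝ) * Y * Y = 2 * ((2 / N) * Y ^ 2) := by ring
  rw [h2, h3] at h0
  linarith

include hN hu in
lemma V_ge (k : ℤ) : (8 / N) * Real.sin (pp N k / 2) ^ 2 * (CC N u ^ 2 + SS N u ^ 2) ≤
    ∑ j ∈ range N, (u ((j : ℤ) + k) - u j) ^ 2 := by
  have h := bes hN (fun j => u ((j : ℤ) + k) - u j)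
  have hX : ∑ j ∈ range N, (u ((j : ℤ) + k) - u j) * Real.cos (pp N j) =
      CC N u * Real.cos (pp N k) + SS N u * Real.sin (pp N k) - CC N u := by
    have h1 := shift_cos hN u hu k k
    simp only [add_sub_cancel_right] at h1
    simp_rw [sub_mul]
    rw [sum_sub_distrib, h1]
    rfl
  have hY : ∑ j ∈ range N, (u ((j : ℤ) + k) - u j) * Real.sin (pp N j) =
      SS N u * Real.cos (pp N k) - CC N u * Real.sin (pp N k) - SS N u := by
    have h1 := shift_sin hN u hu k k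
    simp only [add_sub_cancel_right] at h1
    simp_rw [sub_mul]
    rw [sum_sub_distrib, h1]
    rfl
  rw [hX, hY] at h
  refine le_trans (le_of_eq ?_) h
  have h2 : Real.cos (pp N k) = 1 - 2 * Real.sin (pp N k / 2) ^ 2 := by
    have := Real.cos_two_mul (pp N k / 2)
    rw [show 2 * (pp N k / 2) = pp N k by ring] at this
    have h3 := Real.sin_sq_add_cos_sq (pp N k / 2)
    linarith
  have h4 := Real.sin_sq_add_cos_sq (pp N k)
  have h5 : Real.sin (pp N k) ^ 2 = 1 - (1 - 2 * Real.sin (pp N k / 2) ^ 2) ^ 2 := by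
    rw [← h2]; linarith
  have h6 : (CC N u * Real.cos (pp N k) + SS N u * Real.sin (pp N k) - CC N u) ^ 2 +
      (SS N u * Real.cos (pp N k) - CC N u * Real.sin (pp N k) - SS N u) ^ 2 =
      (CC N u ^ 2 + SS N u ^ 2) * (Real.cos (pp N k) ^ 2 - 2 * Real.cos (pp N k) + 1 + Real.sin (pp N k) ^ 2) := by ring
  rw [h6, h5, h2]
  ring

include hN hu in
lemma cosV : ∑ k ∈ Finset.Ico 1 N, Real.cos (pp N k) * ∑ j ∈ range N, (u ((j : ℤ) + (k:ℤ)) - u j) ^ 2 =
    -2 * (CC N u ^ 2 + SS N u ^ 2) := by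
  have h1 : ∑ k ∈ range N, Real.cos (pp N k) * ∑ j ∈ range N, (u ((j : ℤ) + (k:ℤ)) - u j) ^ 2 =
      ∑ k ∈ Finset.Ico 1 N, Real.cos (pp N k) * ∑ j ∈ range N, (u ((j : ℤ) + (k:ℤ)) - u j) ^ 2 := by
    rw [range_eq_Ico, sum_eq_sum_Ico_succ_bot (by omega : 0 < N)]
    simp
  rw [← h1]
  have h2 : ∀ k ∈ range N, Real.cos (pp N k) * ∑ j ∈ range N, (u ((j : ℤ) + (k:ℤ)) - u j) ^ 2 =
      2 * (∑ j ∈ range N, u j ^ 2) * Real.cos (pp N k) - 2 * ∑ j ∈ range N, u j * (u ((j : ℤ) + (k:ℤ)) * Real.cos (pp N k)) := by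
    intro k _
    have h3 : ∑ j ∈ range N, (u ((j : ℤ) + (k:ℤ)) - u j) ^ 2 = 2 * (∑ j ∈ range N, u j ^ 2) - 2 * ∑ j ∈ range N, u j * u ((j : ℤ) + (k:ℤ)) := by
      have e : ∀ j ∈ range N, (u ((j : ℤ) + (k:ℤ)) - u j) ^ 2 = u ((j : ℤ) + (k:ℤ)) ^ 2 + u j ^ 2 - 2 * (u j * u ((j : ℤ) + (k:ℤ))) := by
        intro j _; ring
      rw [sum_congr rfl e, sum_sub_distrib, sum_add_distrib, ← mul_sum,
        sum_shift N (fun j => u j ^ 2) (fun j => by simp only [hu]) k]
      ring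
    rw [h3, mul_sub]
    have h4 : ∑ j ∈ range N, u j * (u ((j : ℤ) + (k:ℤ)) * Real.cos (pp N k)) = Real.cos (pp N k) * ∑ j ∈ range N, u j * u ((j : ℤ) + (k:ℤ)) := by
      rw [mul_sum]
      refine sum_congr rfl fun j _ => by ring
    rw [h4]; ring
  rw [sum_congr rfl h2, sum_sub_distrib, ← mul_sum, ← mul_sum, cos_pp hN, mul_zero, zero_sub]
  rw [sum_comm]
  have h5 : ∀ j ∈ range N, ∑ k ∈ range N, u j * (u ((j : ℤ) + (k:ℤ)) * Real.cos (pp N k)) =
      u j * (CC N u * Real.cos (pp N j) + SS N u * Real.sin (pp N j)) := by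
    intro j _
    rw [← mul_sum]
    congr 1
    rw [← shift_cos hN u hu j j]
    refine sum_congr rfl fun k _ => ?_
    rw [add_comm (j : ℤ) (k : ℤ), add_sub_cancel_right]
  rw [sum_congr rfl h5]
  have h6 : ∑ j ∈ range N, u j * (CC N u * Real.cos (pp N j) + SS N u * Real.sin (pp N j)) = CC N u ^ 2 + SS N u ^ 2 := by
    have e : ∀ j ∈ range N, u j * (CC N u * Real.cos (pp N j) + SS N u * Real.sin (pp N j)) =
      CC N u * (u j * Real.cos (pp N j)) + SS N u * (u j * Real.sin (pp N j)) := by intro j _; ring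
    rw [sum_congr rfl e, sum_add_distrib, ← mul_sum, ← mul_sum]
    change CC N u * CC N u + SS N u * SS N u = _
    ring
  rw [h6]; ring

end four

/-- SUBTASK C2: the Fourier argument. -/
theorem regular_of_sum {N : ℕ} (c : Cfg N) (hN : 3 ≤ N) (b : ℕ → ℝ)
    (hb : ∀ k ∈ Finset.Ico 1 N, 0 < b k)
    (hloc : ∀ k ∈ Finset.Ico 1 N, ∀ j : ℤ,
      (b k + cos (2 * π * k / N)) * (c.gap k j - 2 * π * k / N) ^ 2
        ≤ (c.gap k j - 2 * π * k / N) * (fp (c.gap k j) - fp (2 * π * k / N)))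
    (hsum : (N : ℝ) / 4 < ∑ k ∈ Finset.Ico 1 N, b k * sin (π * k / N) ^ 2) (j : ℤ) :
    c.gap 1 j = 2 * π / N := by
  have hN0 : 0 < N := by omega
  have hNr : (0:ℝ) < N := by exact_mod_cast hN0
  set u : ℤ → ℝ := c.dev with hu'
  have hu : ∀ j, u (j + N) = u j := c.dev_per (by omega)
  set E := CC N u ^ 2 + SS N u ^ 2 with hE
  have hE0 : 0 ≤ E := by positivity
  set V : ℕ → ℝ := fun k => ∑ j ∈ range N, (u ((j : ℤ) + (k:ℤ)) - u j) ^ 2 with hV
  have hV0 : ∀ k, 0 ≤ V k := fun k => sum_nonneg fun j _ => sq_nonneg _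
  have hgap : ∀ (k : ℕ) (j : ℤ), u (j + k) - u j = c.gap k j - 2 * π * k / N := fun k j => c.dev_diff k j
  have hVge : ∀ k : ℕ, (8 / N) * Real.sin (π * k / N) ^ 2 * E ≤ V k := by
    intro k
    have h := V_ge hN u hu k
    have h2 : pp N k / 2 = π * k / N := by unfold pp; push_cast; ring
    rwa [h2] at h
  have hcosV := cosV hN u hu
  have h1 : ∑ k ∈ Finset.Ico 1 N, (b k + cos (2 * π * k / N)) * V k ≤ 0 := by
    have h2 : ∑ k ∈ Finset.Ico 1 N, ∑ j ∈ range N,
        (c.gap k (j : ℤ) - 2 * π * k / N) * (fp (c.gap k (j : ℤ)) - fp (2 * π * k / N)) = 0 := by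
      have h3 := c.gap_identity (by omega)
      rw [← h3]
      refine sum_congr rfl fun k _ => ?_
      simp_rw [mul_sub]
      rw [sum_sub_distrib, ← sum_mul, c.sum_gap_sub (by omega), zero_mul, sub_zero]
    rw [← h2]
    refine sum_le_sum fun k hk => ?_
    rw [hV]
    simp only
    rw [mul_sum]
    refine sum_le_sum fun j _ => ?_
    rw [hgap]
    exact hloc k hk j
  have h2 : ∑ k ∈ Finset.Ico 1 N, (b k + cos (2 * π * k / N)) * V k = ∑ k ∈ Finset.Ico 1 N, b k * V k - 2 * E := by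
    simp_rw [add_mul]
    rw [sum_add_distrib]
    have h3 : ∑ k ∈ Finset.Ico 1 N, cos (2 * π * k / N) * V k = -2 * E := by
      rw [← hcosV]
      refine sum_congr rfl fun k _ => ?_
      rw [hV]
      congr 1
    rw [h3]; ring
  rw [h2] at h1
  have h3 : (8 / N) * E * ∑ k ∈ Finset.Ico 1 N, b k * sin (π * k / N) ^ 2 ≤ ∑ k ∈ Finset.Ico 1 N, b k * V k := by
    rw [mul_sum]
    refine sum_le_sum fun k hk => ?_
    have := mul_le_mul_of_nonneg_left (hVge k) (hb k hk).le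
    linarith
  have hEz : E = 0 := by
    by_contra hne
    have hpos : 0 < E := lt_of_le_of_ne hE0 (Ne.symm hne)
    have h4 : (8 / N) * E * ((N:ℝ) / 4) < (8 / N) * E * ∑ k ∈ Finset.Ico 1 N, b k * sin (π * k / N) ^ 2 :=
      mul_lt_mul_of_pos_left hsum (by positivity)
    have h5 : (8 / (N:ℝ)) * E * ((N:ℝ) / 4) = 2 * E := by field_simp; ring
    linarith
  have h6 : ∑ k ∈ Finset.Ico 1 N, b k * V k ≤ 0 := by rw [hEz] at h1; linarith
  have h7 : ∀ k ∈ Finset.Ico 1 N, 0 ≤ b k * V k := fun k hk => mul_nonneg (hb k hk).le (hV0 k)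
  have h8 : ∑ k ∈ Finset.Ico 1 N, b k * V k = 0 := le_antisymm h6 (sum_nonneg h7)
  have h9 := (sum_eq_zero_iff_of_nonneg h7).1 h8 1 (by rw [mem_Ico]; omega)
  have hb1 := hb 1 (by rw [mem_Ico]; omega)
  have hV1 : V 1 = 0 := by
    rcases mul_eq_zero.1 h9 with h | h
    · exact absurd h hb1.ne'
    · exact h
  have h10 := (sum_eq_zero_iff_of_nonneg (fun j _ => sq_nonneg _)).1 hV1
  obtain ⟨i, hi, he⟩ := per_rep hN0 (c.gap_per 1) j
  have h11 := h10 i hi
  rw [hgap] at h11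
  rw [he]
  have h12 : c.gap 1 (i : ℤ) - 2 * π * ((1 : ℕ) : ℝ) / N = 0 := by
    exact pow_eq_zero_iff (two_ne_zero) |>.1 h11
  push_cast at h12
  rw [mul_one] at h12
  linarith

end Pool.Agent.H999.LimCC
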