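import Pool.Agent.H999.LimCC.Basic

set_option autoImplicit false

namespace Pool.Agent.H999.LimCC

open Real

/-- `u cos u ≤ sin u` on `[0, π]` -/
lemma mul_cos_le_sin {u : ℝ} (h0 : 0 ≤ u) (h1 : u ≤ π) : u * cos u ≤ sin u := by
  have hmono : MonotoneOn (fun x : ℝ => sin x - x * cos x) (Set.Icc 0 π) := by
    apply monotoneOn_of_deriv_nonneg (convex_Icc 0 π)
    · fun_prop
    · fun_prop
    · intro x hx
      rw [interior_Icc] at hx
      have : HasDerivAt (fun x : ℝ => sin x - x * cos x) (cos x - (1 * cos x + x * (-sin x))) x := by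
        exact (Real.hasDerivAt_sin x).sub ((hasDerivAt_id x).mul (Real.hasDerivAt_cos x))
      rw [this.deriv]
      have h := sin_pos_of_pos_of_lt_pi hx.1 hx.2
      nlinarith [hx.1]
  have := hmono (Set.left_mem_Icc.mpr Real.pi_pos.le) ⟨h0, h1⟩ h0
  simp at this
  linarith

/-- Cusa's inequality -/
lemma cusa {u : ℝ} (h0 : 0 ≤ u) (h1 : u ≤ π) : 3 * sin u ≤ u * (2 + cos u) := by
  have hmono : MonotoneOn (fun x : ℝ => x * (2 + cos x) - 3 * sin x) (Set.Icc 0 π) := by
    apply monotoneOn_of_deriv_nonneg (convex_Icc 0 π)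
    · fun_prop
    · fun_prop
    · intro x hx
      rw [interior_Icc] at hx
      have : HasDerivAt (fun x : ℝ => x * (2 + cos x) - 3 * sin x)
          ((1 * (2 + cos x) + x * (-sin x)) - 3 * cos x) x := by
        exact ((hasDerivAt_id x).mul ((Real.hasDerivAt_cos x).const_add 2)).sub
          ((Real.hasDerivAt_sin x).const_mul 3)
      rw [this.deriv]
      have hs : 0 < sin (x / 2) := sin_pos_of_pos_of_lt_pi (by linarith [hx.1]) (by linarith [hx.2, hx.1])
      have h2 := mul_cos_le_sin (u := x / 2) (by linarith [hx.1]) (by linarith [hx.2, hx.1])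
      have e1 : cos x = 1 - 2 * sin (x / 2) ^ 2 := by
        have := Real.cos_two_mul (x / 2)
        rw [show 2 * (x / 2) = x by ring] at this
        rw [this]
        nlinarith [Real.sin_sq_add_cos_sq (x / 2)]
      have e2 : sin x = 2 * sin (x / 2) * cos (x / 2) := by
        have := Real.sin_two_mul (x / 2)
        rw [show 2 * (x / 2) = x by ring] at this
        exact this
      rw [e1, e2]
      nlinarith
  have := hmono (Set.left_mem_Icc.mpr Real.pi_pos.le) ⟨h0, h1⟩ h0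
  simp at this
  linarith

/-- the normalised cost of a gap `2y` compared with `2η` -/
noncomputable def cost (η y : ℝ) : ℝ :=
  2 * (y - η) * (fp (2 * y) - fp (2 * η)) + 2 * (cos (2 * y) - cos (2 * η))
    + 4 * (y - η) * sin (2 * η)

lemma cost_formula {η y : ℝ} (hη : sin η ≠ 0) (hy : sin y ≠ 0) :
    cost η y = (y - η) * (sin ((y + η) / 2) * sin ((y - η) / 2) * (1 + cos η * cos y))
      / (sin η ^ 2 * sin y ^ 2)
      - 4 * sin (y + η) * (sin (y - η) - (y - η) * cos (y - η)) := by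
  have h1 : cos η - cos y = 2 * (sin ((y + η) / 2) * sin ((y - η) / 2)) := by
    rw [Real.cos_sub_cos, show (η + y) / 2 = (y + η) / 2 by ring,
      show (η - y) / 2 = -((y - η) / 2) by ring, Real.sin_neg]
    ring
  have h2 : sin ((y + η) / 2) * sin ((y - η) / 2) = (cos η - cos y) / 2 := by linarith
  have h3 : sin (2 * y) + sin (2 * η) = 2 * sin (y + η) * cos (y - η) := by
    have := Real.sin_add_sin (2 * y) (2 * η)
    rw [this]; congr 2 <;> ring_nf
  have h4 : cos (2 * y) - cos (2 * η) = -2 * sin (y + η) * sin (y - η) := by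
    have := Real.cos_sub_cos (2 * y) (2 * η)
    rw [this]; congr 2 <;> ring_nf
  have e1 : 2 * y / 2 = y := by ring
  have e2 : 2 * η / 2 = η := by ring
  have h5 : cos η / (4 * sin η ^ 2) - cos y / (4 * sin y ^ 2)
      = (cos η - cos y) * (1 + cos η * cos y) / (4 * (sin η ^ 2 * sin y ^ 2)) := by
    have s1 : sin y ^ 2 = 1 - cos y ^ 2 := by nlinarith [Real.sin_sq_add_cos_sq y]
    have s2 : sin η ^ 2 = 1 - cos η ^ 2 := by nlinarith [Real.sin_sq_add_cos_sq η]
    have n1 : (1 - cos y ^ 2) ≠ 0 := by rw [← s1]; positivity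
    have n2 : (1 - cos η ^ 2) ≠ 0 := by rw [← s2]; positivity
    rw [s1, s2]
    field_simp
    ring
  unfold cost
  rw [h4, fp_eq, fp_eq]
  unfold G
  rw [e1, e2, h2]
  have h6 : 2 * (y - η) * (sin (2 * y) - cos y / (4 * sin y ^ 2) - (sin (2 * η) - cos η / (4 * sin η ^ 2)))
      = 2 * (y - η) * (sin (2 * y) + sin (2 * η)) - 4 * (y - η) * sin (2 * η)
        + 2 * (y - η) * (cos η / (4 * sin η ^ 2) - cos y / (4 * sin y ^ 2)) := by ring
  rw [h6, h5, h3]
  field_simp
  ring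

/-- the polynomial inequality behind the positivity of `cost` -/
lemma poly_ineq {b c : ℝ} (hb : 0 ≤ b) (hc : 0 ≤ c) (h : b ^ 2 + c ^ 2 ≤ 1) :
    (32 / 3) * c * b * (1 - c ^ 2 - b ^ 2) ^ 2 ≤ 1 + c ^ 2 - b ^ 2 := by
  -- r = b^2+c^2, m = c^2-b^2
  set r := b ^ 2 + c ^ 2 with hr
  set m := c ^ 2 - b ^ 2 with hm
  have hr0 : 0 ≤ r := by positivity
  have hm1 : -r ≤ m := by simp only [hr, hm]; nlinarith [sq_nonneg c]
  have hm2 : m ≤ r := by simp only [hr, hm]; nlinarith [sq_nonneg b]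
  have h1 : 0 ≤ 1 + m := by linarith
  have h2 : ((32 / 3) * c * b * (1 - c ^ 2 - b ^ 2) ^ 2) ^ 2 ≤ (1 + m) ^ 2 := by
    have e : ((32 / 3) * c * b * (1 - c ^ 2 - b ^ 2) ^ 2) ^ 2
        = (256 / 9) * (r ^ 2 - m ^ 2) * (1 - r) ^ 4 := by
      simp only [hr, hm]; ring
    rw [e]
    set K := (256 / 9) * (1 - r) ^ 4 with hK
    have hK0 : 0 ≤ K := by positivity
    have key : r ^ 2 * (1 + K) ≤ 1 := by
      simp only [hK]
      -- r^2 + (256/9) r^2 (1-r)^4 ≤ 1
      have f1 : r * (1 - r) ^ 2 ≤ 4 / 27 := by nlinarith [sq_nonneg (3 * r - 1), sq_nonneg (r - 1), hr0, h]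
      have f0 : 0 ≤ r * (1 - r) ^ 2 := by positivity
      have f2 : r ^ 2 * (1 - r) ^ 4 ≤ (4 / 27) * (r * (1 - r) ^ 2) := by
        have : r ^ 2 * (1 - r) ^ 4 = (r * (1 - r) ^ 2) * (r * (1 - r) ^ 2) := by ring
        rw [this]
        exact mul_le_mul_of_nonneg_right f1 f0
      have f3 : r ^ 2 + (256 / 9) * ((4 / 27) * (r * (1 - r) ^ 2)) ≤ 1 := by
        have : 0 ≤ (1 - r) * (1 + r - (1024 / 243) * (r * (1 - r))) := by
          apply mul_nonneg (by linarith)
          nlinarith [sq_nonneg (r - 1/2), sq_nonneg r]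
        nlinarith
      nlinarith
    have : 0 ≤ (1 + m) ^ 2 - K * (r ^ 2 - m ^ 2) := by
      -- (1+K)*( (1+m)^2 - K (r^2-m^2)) = ((1+K) m + 1)^2 + K (1 - (1+K) r^2)
      have h3 : (1 + K) * ((1 + m) ^ 2 - K * (r ^ 2 - m ^ 2))
          = ((1 + K) * m + 1) ^ 2 + K * (1 - r ^ 2 * (1 + K)) := by ring
      have h4 : 0 ≤ (1 + K) * ((1 + m) ^ 2 - K * (r ^ 2 - m ^ 2)) := by
        rw [h3]
        have : 0 ≤ K * (1 - r ^ 2 * (1 + K)) := mul_nonneg hK0 (by linarith)
        positivity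
      exact nonneg_of_mul_nonneg_right h4 (by linarith)
    have e2 : (256 / 9) * (r ^ 2 - m ^ 2) * (1 - r) ^ 4 = K * (r ^ 2 - m ^ 2) := by
      simp only [hK]; ring
    rw [e2]; linarith
  have h3 := sq_le_sq.mp h2
  rw [abs_of_nonneg h1] at h3
  have := le_trans (le_abs_self _) h3
  have e3 : 1 + c ^ 2 - b ^ 2 = 1 + m := by simp only [hm]; ring
  rw [e3]; exact this

end Pool.Agent.H999.LimCC
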