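import Pool.Agent.H999.LimCC.Cost

set_option autoImplicit false

namespace Pool.Agent.H999.LimCC

open Real

/-- SUBTASK B1 -/
theorem T_nonneg {η y : ℝ} (h0 : 0 < η) (h1 : η ≤ 1 / 20) (hy0 : 0 < y) (hy1 : y < π) :
    0 ≤ sin (2 * η) + sin (2 * y) + 2 * (y - η) * cos (2 * η) := by
  have hpi := Real.pi_gt_three
  have hc1 : 1 - (2 * η) ^ 2 / 2 ≤ cos (2 * η) := Real.one_sub_sq_div_two_le_cos
  have hc : 199 / 200 ≤ cos (2 * η) := by nlinarith
  have hs := mul_cos_le_sin (u := 2 * η) (by linarith) (by linarith)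
  rcases le_or_gt y (π / 2) with hy | hy
  · have h2 : 0 ≤ sin (2 * y) := sin_nonneg_of_nonneg_of_le_pi (by linarith) (by linarith)
    nlinarith [mul_pos hy0 (show (0:ℝ) < cos (2 * η) by linarith)]
  · have h2 : -1 ≤ sin (2 * y) := neg_one_le_sin _
    nlinarith [mul_pos hy0 (show (0:ℝ) < cos (2 * η) by linarith)]

/-- tangent line inequality for the sine on the first quadrant -/
lemma sin_le_tangent {a b : ℝ} (ha0 : 0 ≤ a) (ha1 : a < π / 2) (hb0 : 0 ≤ b) (hb1 : b ≤ π) :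
    sin b ≤ sin a + (b - a) * cos a := by
  have hpi := Real.pi_pos
  have hca : 0 < cos a := cos_pos_of_mem_Ioo ⟨by linarith, ha1⟩
  have hsa : 0 ≤ sin a := sin_nonneg_of_nonneg_of_le_pi ha0 (by linarith)
  rcases le_or_gt a b with h | h
  · set v := b - a with hv
    have e : b = a + v := by simp [hv]
    rw [e, sin_add]
    have h1 : cos v ≤ 1 := cos_le_one v
    have h2 : sin v ≤ v := sin_le (by linarith)
    nlinarith [mul_nonneg hsa (sub_nonneg.2 h1), mul_nonneg hca.le (sub_nonneg.2 h2)]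
  · set v := a - b with hv
    have e : b = a - v := by simp [hv]
    have e' : b - a = -v := by simp [hv]
    have hv0 : 0 < v := by linarith
    have hv1 : v ≤ a := by linarith
    rw [e', e, sin_sub]
    -- sin a * cos v - cos a * sin v ≤ sin a - v * cos a
    have hcv : 0 < cos v := cos_pos_of_mem_Ioo ⟨by linarith, by linarith⟩
    have hsv : 0 < sin v := sin_pos_of_pos_of_lt_pi hv0 (by linarith)
    have h1 : cos v ≤ 1 := cos_le_one v
    have h2 := mul_cos_le_sin (u := v) hv0.le (by linarith)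
    -- sin (a - v) ≥ 0
    have h3 : 0 ≤ sin (a - v) := sin_nonneg_of_nonneg_of_le_pi (by linarith) (by linarith)
    rw [sin_sub] at h3
    -- want : cos a * (v - sin v) ≤ sin a * (1 - cos v)
    have h4 : cos v * (cos a * (v - sin v)) ≤ cos v * (sin a * (1 - cos v)) := by
      have h5 : cos v * (v - sin v) ≤ sin v * (1 - cos v) := by nlinarith
      have h6 : cos v * (cos a * (v - sin v)) ≤ cos a * (sin v * (1 - cos v)) := by
        nlinarith [mul_le_mul_of_nonneg_left h5 hca.le]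
      have h7 : cos a * (sin v * (1 - cos v)) ≤ cos v * (sin a * (1 - cos v)) := by
        nlinarith [mul_nonneg h3 (sub_nonneg.2 h1)]
      linarith
    have h8 := le_of_mul_le_mul_left h4 hcv
    nlinarith

/-- SUBTASK B2 -/
theorem K0_nonneg {η y : ℝ} (h0 : 0 < η) (h1 : η ≤ 1 / 20) (hy0 : 0 < y) (hy1 : y < π) :
    0 ≤ sin (2 * η) - sin (2 * y) + 2 * (y - η) * cos (2 * η) := by
  have hpi := Real.pi_gt_three
  rcases le_or_gt y (π / 2) with hy | hy
  · have := sin_le_tangent (a := 2 * η) (b := 2 * y) (by linarith) (by linarith) (by linarith)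
      (by linarith)
    nlinarith
  · have h2 : sin (2 * y) ≤ 0 := by
      have : 0 ≤ sin (2 * y - π) := sin_nonneg_of_nonneg_of_le_pi (by linarith) (by linarith)
      rw [sin_sub_pi] at this
      linarith
    have h3 : 0 ≤ sin (2 * η) := sin_nonneg_of_nonneg_of_le_pi (by linarith) (by linarith)
    have h4 : 0 ≤ cos (2 * η) := cos_nonneg_of_mem_Icc ⟨by linarith, by linarith⟩
    have h5 : 0 ≤ 2 * (y - η) * cos (2 * η) := mul_nonneg (by linarith) h4
    linarith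

/-- base inequality -/
lemma base_ineq {p : ℝ} (h0 : 0 ≤ p) (h1 : p ≤ π / 2) :
    9 / 20 * p ≤ sin (4 * p) + 4 * p - 36 / 5 * sin p * cos p ^ 2 := by
  have hpi := Real.pi_pos
  have hc0 : 0 ≤ cos p := cos_nonneg_of_mem_Icc ⟨by linarith, h1⟩
  have hc1 : cos p ≤ 1 := cos_le_one p
  have hcusa := cusa (u := p) h0 (by linarith)
  have e4 : sin (4 * p) = 4 * sin p * cos p * (2 * cos p ^ 2 - 1) := by
    have a1 : sin (4 * p) = 2 * sin (2 * p) * cos (2 * p) := by
      rw [← sin_two_mul]; congr 1; ring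
    rw [a1, sin_two_mul, cos_two_mul]; ring
  rw [e4]
  set C := cos p with hC
  have hq : C * (8 * C ^ 2 - 36 / 5 * C - 4) ≤ 0 := by nlinarith
  have h2 : p * (2 + C) * (C * (8 * C ^ 2 - 36 / 5 * C - 4)) ≤ 3 * sin p * (C * (8 * C ^ 2 - 36 / 5 * C - 4)) :=
    mul_le_mul_of_nonpos_right hcusa hq
  have hpoly : 0 ≤ 213 / 20 + (2 + C) * (8 * C ^ 3 - 36 / 5 * C ^ 2 - 4 * C) := by
    have : 0 ≤ C * (1 - C) := mul_nonneg hc0 (by linarith)
    nlinarith [sq_nonneg (C - 43/50), sq_nonneg (C ^ 2 - 3/4), sq_nonneg (C ^ 2 + C / 2 - 7 / 6), mul_nonneg hc0 (sq_nonneg (C - 43/50)), mul_nonneg hc0 hc0]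
  have h3 := mul_nonneg h0 hpoly
  nlinarith


lemma alg1 {v S sη sy η X : ℝ} (hS : 0 < S) (hv : 2 * S ≤ v) (hs : 0 < sη) (hη : sη ≤ η)
    (hy : 0 < sy) (hX : 18 / 5 * sy ^ 2 ≤ X) :
    36 / 5 * S ^ 2 ≤ v * S * η * X / (sη * sy ^ 2) := by
  have hη0 : 0 < η := by linarith
  have hv0 : 0 < v := by linarith
  rw [le_div_iff₀ (by positivity)]
  have c1 : 2 * S * S ≤ v * S := mul_le_mul_of_nonneg_right hv hS.le
  have c2 : 2 * S * S * sη ≤ v * S * η := mul_le_mul c1 hη hs.le (by positivity)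
  have c3 : (2 * S * S * sη) * (18 / 5 * sy ^ 2) ≤ v * S * η * X :=
    mul_le_mul c2 hX (by positivity) (by positivity)
  calc 36 / 5 * S ^ 2 * (sη * sy ^ 2) = (2 * S * S * sη) * (18 / 5 * sy ^ 2) := by ring
    _ ≤ _ := c3

/-- the case `y < η` of `cost_large` -/
lemma cost_large_lt {η y : ℝ} (h0 : 0 < η) (h1 : η ≤ 1 / 20) (hy0 : 0 < y) (hy : y < η) :
    (9 / 5) * cos η * sin (y - η) ^ 2 ≤
      cost η y * (sin (2 * η) + sin (2 * y) + 2 * (y - η) * cos (2 * η)) * sin η * η := by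
  have hpi := Real.pi_gt_three
  have hy1 : y < π := by linarith
  have hT := T_nonneg h0 h1 hy0 hy1
  have hsη : 0 < sin η := sin_pos_of_pos_of_lt_pi h0 (by linarith)
  have hsy : 0 < sin y := sin_pos_of_pos_of_lt_pi hy0 hy1
  have hcη : 199 / 200 ≤ cos η := by
    have : 1 - η ^ 2 / 2 ≤ cos η := Real.one_sub_sq_div_two_le_cos
    nlinarith
  have hcη1 : cos η ≤ 1 := cos_le_one η
  have hc2η : 199 / 200 ≤ cos (2 * η) := by
    have : 1 - (2 * η) ^ 2 / 2 ≤ cos (2 * η) := Real.one_sub_sq_div_two_le_cos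
    nlinarith
  have hcy : cos η ≤ cos y := cos_le_cos_of_nonneg_of_le_pi hy0.le (by linarith) hy.le
  -- lower bound for T
  have hTlow : 199 / 50 * sin y ≤ sin (2 * η) + sin (2 * y) + 2 * (y - η) * cos (2 * η) := by
    have a1 := mul_cos_le_sin (u := 2 * η) (by linarith) (by linarith)
    have a2 : sin (2 * y) = 2 * sin y * cos y := sin_two_mul y
    have a3 : sin y ≤ y := sin_le hy0.le
    have a4 : sin y * (199 / 200) ≤ sin y * cos y :=
      mul_le_mul_of_nonneg_left (by linarith) hsy.le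
    have a5 : sin y * (199 / 200) ≤ y * cos (2 * η) :=
      mul_le_mul a3 hc2η (by norm_num) hy0.le
    rw [a2]
    linarith
  rw [cost_formula hsη.ne' hsy.ne']
  generalize sin (2 * η) + sin (2 * y) + 2 * (y - η) * cos (2 * η) = T at *
  have e1 : (y - η) / 2 = -((η - y) / 2) := by ring
  have e2 : y - η = -(η - y) := by ring
  have hsA : sin y ≤ sin ((y + η) / 2) :=
    sin_le_sin_of_le_of_le_pi_div_two (by linarith) (by linarith) (by linarith)
  have hsum : 0 ≤ sin (y + η) := sin_nonneg_of_nonneg_of_le_pi (by linarith) (by linarith)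
  have hv0 : 0 < η - y := by linarith
  have hv1 : η - y ≤ 1 := by linarith
  rw [e1, e2]
  simp only [sin_neg, cos_neg]
  generalize η - y = v at *
  generalize sin ((y + η) / 2) = SA at *
  have hsB : 0 < sin (v / 2) := sin_pos_of_pos_of_lt_pi (by linarith) (by linarith)
  have hvB : 2 * sin (v / 2) ≤ v := by
    have := sin_le (x := v / 2) (by linarith)
    linarith
  have hvc := mul_cos_le_sin (u := v) hv0.le (by linarith)
  have hηs : sin η ≤ η := sin_le h0.le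
  have hF : 199 / 100 ≤ 1 + cos η * cos y := by
    have : (199 / 200 : ℝ) * (199 / 200) ≤ cos η * cos y :=
      mul_le_mul hcη (by linarith) (by norm_num) (by linarith)
    have h2 : (99 / 100 : ℝ) ≤ 199 / 200 * (199 / 200) := by norm_num
    linarith
  -- main quantity
  have key : 18 / 5 * (sin y) ^ 2 ≤ SA * (1 + cos η * cos y) * T := by
    have b1 : sin y * (199 / 100) ≤ SA * (1 + cos η * cos y) :=
      mul_le_mul hsA hF (by norm_num) (by linarith)
    have b2 : (sin y * (199 / 100)) * (199 / 50 * sin y) ≤ SA * (1 + cos η * cos y) * T :=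
      mul_le_mul b1 hTlow (by positivity) (le_trans (by positivity) b1)
    nlinarith [sq_nonneg (sin y)]
  have hsv : sin v = 2 * sin (v / 2) * cos (v / 2) := by
    rw [← sin_two_mul]; congr 1; ring
  have hcB : cos (v / 2) ^ 2 ≤ 1 := by
    nlinarith [sin_sq_add_cos_sq (v / 2), sq_nonneg (sin (v / 2))]
  have hlhs : (9 / 5) * cos η * (-sin v) ^ 2 ≤ 36 / 5 * sin (v / 2) ^ 2 := by
    have h3 : cos η * cos (v / 2) ^ 2 ≤ 1 * 1 :=
      mul_le_mul hcη1 hcB (sq_nonneg _) (by norm_num)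
    calc (9 / 5) * cos η * (-sin v) ^ 2
        = 36 / 5 * sin (v / 2) ^ 2 * (cos η * cos (v / 2) ^ 2) := by rw [hsv]; ring
      _ ≤ 36 / 5 * sin (v / 2) ^ 2 * (1 * 1) := mul_le_mul_of_nonneg_left h3 (by positivity)
      _ = _ := by ring
  refine hlhs.trans ?_
  have hrhs2 := alg1 hsB hvB hsη hηs hsy key
  refine hrhs2.trans ?_
  have hm : 0 ≤ T * sin η * η := by positivity
  have e3 : v * sin (v / 2) * η * (SA * (1 + cos η * cos y) * T) / (sin η * sin y ^ 2)
      = (-v * (SA * -sin (v / 2) * (1 + cos η * cos y)) / (sin η ^ 2 * sin y ^ 2)) * (T * sin η * η) := by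
    field_simp
  have hrhs1 : -v * (SA * -sin (v / 2) * (1 + cos η * cos y)) / (sin η ^ 2 * sin y ^ 2)
      ≤ -v * (SA * -sin (v / 2) * (1 + cos η * cos y)) / (sin η ^ 2 * sin y ^ 2)
        - 4 * sin (y + η) * (-sin v - -v * cos v) := by
    have : 0 ≤ 4 * sin (y + η) * (sin v - v * cos v) := by
      apply mul_nonneg (by linarith) (by linarith)
    linarith
  rw [e3]
  have := mul_le_mul_of_nonneg_right hrhs1 hm
  linarith

/-- elementary lower bound for `T` -/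
lemma T_low {e p : ℝ} (he : 0 < e) (hp : e ≤ p) :
    sin (4 * p) + 4 * p - 32 * p * e ^ 2 ≤
      sin (2 * (2 * e)) + sin (2 * (2 * p)) + 2 * (2 * p - 2 * e) * cos (2 * (2 * e)) := by
  have e1 : 2 * (2 * e) = 4 * e := by ring
  have e2 : 2 * (2 * p) = 4 * p := by ring
  rw [e1, e2]
  have h1 : 4 * e - (4 * e) ^ 3 / 6 < sin (4 * e) :=
    Real.sin_gt_sub_cube (by linarith)
  have h2 : 1 - (4 * e) ^ 2 / 2 ≤ cos (4 * e) := Real.one_sub_sq_div_two_le_cos
  have h3 : (2 * p - 2 * e) * (1 - (4 * e) ^ 2 / 2) ≤ (2 * p - 2 * e) * cos (4 * e) :=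
    mul_le_mul_of_nonneg_left h2 (by linarith)
  have h4 : 0 < e ^ 3 := pow_pos he 3
  nlinarith

lemma core_p {e p δ SA CB T : ℝ} (he : 0 < e) (he1 : e ≤ 1 / 40) (hp : 0 < p) (hp1 : p ≤ π / 2)
    (hδ0 : 0 ≤ δ) (hδ : δ ≤ 43 * e ^ 2) (hSA : sin p * (1 - e ^ 2 / 2) ≤ SA) (hCB0 : 0 ≤ CB)
    (hCB : CB ≤ cos p + e * sin p) (hT : sin (4 * p) + 4 * p - 32 * p * e ^ 2 ≤ T) :
    36 / 5 * sin p ^ 2 * CB ^ 2 ≤ SA * T * (1 - δ) := by
  have hpi := Real.pi_pos
  have hb := base_ineq hp.le hp1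
  have hτ : sin (4 * p) + 4 * p ≤ 8 * p := by
    have := sin_le (x := 4 * p) (by linarith)
    linarith
  have hs0 : 0 < sin p := sin_pos_of_pos_of_lt_pi hp (by linarith)
  have hs1 : sin p ≤ p := sin_le hp.le
  have hc0 : 0 ≤ cos p := cos_nonneg_of_mem_Icc ⟨by linarith, hp1⟩
  have hsc : sin p * cos p ≤ 1 / 2 := by
    nlinarith [sin_sq_add_cos_sq p, sq_nonneg (sin p - cos p)]
  have hs2 : sin p ^ 2 ≤ 1 := by nlinarith [sin_sq_add_cos_sq p, sq_nonneg (cos p)]
  generalize sin (4 * p) + 4 * p = τ at *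
  generalize sin p = s at *
  generalize cos p = c at *
  have he2 : e ^ 2 ≤ 1 / 40 * e := by nlinarith
  have he2' : e ^ 2 ≤ 1 / 1600 := by nlinarith
  have he0 : 0 < e ^ 2 := by positivity
  have hsc2 : 0 ≤ 36 / 5 * s * c ^ 2 := by positivity
  have hpe : p * e ^ 2 ≤ 1 / 1600 * p := by nlinarith
  have hT0 : 0 ≤ τ - 32 * p * e ^ 2 := by nlinarith
  -- the θ-estimate
  have h1 : τ - 380 * p * e ^ 2 ≤ (1 - e ^ 2 / 2) * (τ - 32 * p * e ^ 2) * (1 - δ) := by
    have k1 : 1 - 87 / 2 * e ^ 2 ≤ (1 - e ^ 2 / 2) * (1 - δ) := by nlinarith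
    have k2 : (1 - 87 / 2 * e ^ 2) * (τ - 32 * p * e ^ 2)
        ≤ (1 - e ^ 2 / 2) * (1 - δ) * (τ - 32 * p * e ^ 2) := mul_le_mul_of_nonneg_right k1 hT0
    have k3 : e ^ 2 * τ ≤ e ^ 2 * (8 * p) := mul_le_mul_of_nonneg_left hτ he0.le
    have k4 : 0 ≤ e ^ 2 * (p * e ^ 2) := by positivity
    nlinarith
  have h2 : 36 / 5 * s * CB ^ 2 ≤ τ - 380 * p * e ^ 2 := by
    have k1 : CB ^ 2 ≤ (c + e * s) ^ 2 := pow_le_pow_left₀ hCB0 hCB 2
    have k2 : 36 / 5 * s * CB ^ 2 ≤ 36 / 5 * s * (c + e * s) ^ 2 :=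
      mul_le_mul_of_nonneg_left k1 (by positivity)
    have k3 : e * s * (s * c) ≤ e * p * (1 / 2) :=
      mul_le_mul (mul_le_mul_of_nonneg_left hs1 he.le) hsc (by positivity) (by positivity)
    have k4 : e ^ 2 * s * s ^ 2 ≤ e ^ 2 * p * 1 :=
      mul_le_mul (mul_le_mul_of_nonneg_left hs1 he0.le) hs2 (by positivity) (by positivity)
    have k5 : e * p ≤ 1 / 40 * p := by nlinarith
    nlinarith
  have h3 : s * (36 / 5 * s * CB ^ 2) ≤ s * ((1 - e ^ 2 / 2) * (τ - 32 * p * e ^ 2) * (1 - δ)) :=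
    mul_le_mul_of_nonneg_left (h2.trans h1) hs0.le
  have hδ1 : 0 ≤ 1 - δ := by nlinarith
  have h4 : (s * (1 - e ^ 2 / 2)) * (τ - 32 * p * e ^ 2) ≤ SA * T :=
    mul_le_mul hSA hT hT0 (le_trans (by nlinarith) hSA)
  have h5 := mul_le_mul_of_nonneg_right h4 hδ1
  calc 36 / 5 * s ^ 2 * CB ^ 2 = s * (36 / 5 * s * CB ^ 2) := by ring
    _ ≤ _ := h3
    _ = (s * (1 - e ^ 2 / 2)) * (τ - 32 * p * e ^ 2) * (1 - δ) := by ring
    _ ≤ _ := h5

lemma alg2 {u SA SB CB F sη sy s c cη η T δ C2 sin_u : ℝ}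
    (hu : 0 < u) (hSA : 0 < SA) (hSB : 0 < SB) (huB : 2 * SB ≤ u) (hsη : 0 < sη) (hη : sη ≤ η)
    (hs : 0 < s) (hc : 0 < c) (hcη : 0 < cη) (hT : 0 ≤ T)
    (hsy : sy = 2 * s * c) (hF : 2 * cη * c ^ 2 ≤ F)
    (hδ : δ = 64 / 3 * c * s ^ 3 * sη ^ 2 / cη)
    (hC2 : C2 ≤ 32 / 3 * u * SA * SB * (c * s))
    (hR : sin_u = 2 * SB * CB)
    (hkey : 36 / 5 * s ^ 2 * CB ^ 2 ≤ SA * T * (1 - δ)) :
    9 / 5 * cη * sin_u ^ 2 ≤ (u * (SA * SB * F) / (sη ^ 2 * sy ^ 2) - C2) * T * sη * η := by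
  have hη0 : 0 < η := by linarith
  have h1 : u * SA * SB * cη / (2 * s ^ 2 * sη ^ 2) * (1 - δ)
      ≤ u * (SA * SB * F) / (sη ^ 2 * sy ^ 2) - C2 := by
    have k1 : u * (SA * SB * (2 * cη * c ^ 2)) / (sη ^ 2 * sy ^ 2)
        ≤ u * (SA * SB * F) / (sη ^ 2 * sy ^ 2) := by
      rw [hsy]
      apply div_le_div_of_nonneg_right _ (by positivity)
      apply mul_le_mul_of_nonneg_left _ hu.le
      exact mul_le_mul_of_nonneg_left hF (by positivity)
    have k2 : u * (SA * SB * (2 * cη * c ^ 2)) / (sη ^ 2 * sy ^ 2) - 32 / 3 * u * SA * SB * (c * s)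
        = u * SA * SB * cη / (2 * s ^ 2 * sη ^ 2) * (1 - δ) := by
      rw [hsy, hδ]
      field_simp
      ring
    linarith
  have h2 : u * SA * SB * cη / (2 * s ^ 2 * sη ^ 2) * (1 - δ) * (T * sη * η)
      ≤ (u * (SA * SB * F) / (sη ^ 2 * sy ^ 2) - C2) * (T * sη * η) :=
    mul_le_mul_of_nonneg_right h1 (by positivity)
  have h3 : u * SA * SB * cη / (2 * s ^ 2 * sη ^ 2) * (1 - δ) * (T * sη * η)
      = (u * SB * η * cη / (2 * s ^ 2 * sη)) * (SA * T * (1 - δ)) := by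
    field_simp
  have h4 : SB ^ 2 * cη / s ^ 2 ≤ u * SB * η * cη / (2 * s ^ 2 * sη) := by
    rw [div_le_div_iff₀ (by positivity) (by positivity)]
    have k1 : (2 * SB) * sη ≤ u * η := mul_le_mul huB hη hsη.le hu.le
    have k2 : (SB * cη * s ^ 2) * ((2 * SB) * sη) ≤ (SB * cη * s ^ 2) * (u * η) :=
      mul_le_mul_of_nonneg_left k1 (by positivity)
    calc SB ^ 2 * cη * (2 * s ^ 2 * sη) = (SB * cη * s ^ 2) * ((2 * SB) * sη) := by ring
      _ ≤ _ := k2
      _ = u * SB * η * cη * s ^ 2 := by ring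
  have h5 : (SB ^ 2 * cη / s ^ 2) * (36 / 5 * s ^ 2 * CB ^ 2)
      ≤ (u * SB * η * cη / (2 * s ^ 2 * sη)) * (SA * T * (1 - δ)) :=
    mul_le_mul h4 hkey (by positivity) (by positivity)
  have h6 : (SB ^ 2 * cη / s ^ 2) * (36 / 5 * s ^ 2 * CB ^ 2) = 9 / 5 * cη * sin_u ^ 2 := by
    rw [hR]; field_simp; ring
  calc 9 / 5 * cη * sin_u ^ 2 = _ := h6.symm
    _ ≤ _ := h5
    _ = _ := h3.symm
    _ ≤ _ := h2
    _ = _ := by ring

lemma alg3 {a b c Y cη : ℝ} (h1 : ((a * b) * b ^ 2) * c ^ 2 ≤ (1 / 2 * 1) * Y ^ 2)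
    (h2 : Y ^ 2 * (199 / 200) ≤ Y ^ 2 * cη) (h3 : 0 ≤ Y ^ 2) :
    64 / 3 * a * b ^ 3 * c ^ 2 ≤ 43 * (Y / 2) ^ 2 * cη := by
  have e1 : 64 / 3 * a * b ^ 3 * c ^ 2 = 64 / 3 * (((a * b) * b ^ 2) * c ^ 2) := by ring
  have e2 : 43 * (Y / 2) ^ 2 * cη = 43 / 4 * (Y ^ 2 * cη) := by ring
  rw [e1, e2]
  linarith

lemma cos_mul_sin_le (x : ℝ) : cos x * sin x ≤ 1 / 2 := by
  nlinarith [sin_sq_add_cos_sq x, sq_nonneg (sin x - cos x)]

/-- the case `η < y` of `cost_large` -/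
lemma cost_large_gt {η y : ℝ} (h0 : 0 < η) (h1 : η ≤ 1 / 20) (hy : η < y) (hy1 : y < π) :
    (9 / 5) * cos η * sin (y - η) ^ 2 ≤
      cost η y * (sin (2 * η) + sin (2 * y) + 2 * (y - η) * cos (2 * η)) * sin η * η := by
  have hpi := Real.pi_gt_three
  have hy0 : 0 < y := by linarith
  have hT := T_nonneg h0 h1 hy0 hy1
  have hsη : 0 < sin η := sin_pos_of_pos_of_lt_pi h0 (by linarith)
  have hsy : 0 < sin y := sin_pos_of_pos_of_lt_pi hy0 hy1
  have hcη : 199 / 200 ≤ cos η := by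
    have : 1 - η ^ 2 / 2 ≤ cos η := Real.one_sub_sq_div_two_le_cos
    nlinarith
  have hcη1 : cos η ≤ 1 := cos_le_one η
  have hηs : sin η ≤ η := sin_le h0.le
  have hTl := T_low (e := η / 2) (p := y / 2) (by linarith) (by linarith)
  have ee1 : 2 * (η / 2) = η := by ring
  have ee2 : 2 * (y / 2) = y := by ring
  rw [ee1, ee2] at hTl
  -- trigonometric facts
  have hs : 0 < sin (y / 2) := sin_pos_of_pos_of_lt_pi (by linarith) (by linarith)
  have hc : 0 < cos (y / 2) := cos_pos_of_mem_Ioo ⟨by linarith, by linarith⟩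
  have hsA : 0 < sin ((y + η) / 2) := sin_pos_of_pos_of_lt_pi (by linarith) (by linarith)
  have hsB : 0 < sin ((y - η) / 2) := sin_pos_of_pos_of_lt_pi (by linarith) (by linarith)
  have hcB : 0 ≤ cos ((y - η) / 2) := cos_nonneg_of_mem_Icc ⟨by linarith, by linarith⟩
  have huB : 2 * sin ((y - η) / 2) ≤ y - η := by
    have := sin_le (x := (y - η) / 2) (by linarith)
    linarith
  have hsyc : sin y = 2 * sin (y / 2) * cos (y / 2) := by
    rw [← sin_two_mul]; congr 1; ring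
  have hcyc : cos y = 2 * cos (y / 2) ^ 2 - 1 := by
    rw [← cos_two_mul]; congr 1; ring
  have hF : 2 * cos η * cos (y / 2) ^ 2 ≤ 1 + cos η * cos y := by
    rw [hcyc]; nlinarith
  have hR : sin (y - η) = 2 * sin ((y - η) / 2) * cos ((y - η) / 2) := by
    rw [← sin_two_mul]; congr 1; ring
  have hcu : cos (y - η) = 1 - 2 * sin ((y - η) / 2) ^ 2 := by
    have : cos (y - η) = 2 * cos ((y - η) / 2) ^ 2 - 1 := by
      rw [← cos_two_mul]; congr 1; ring
    rw [this, cos_sq']; ring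
  have hcusa := cusa (u := y - η) (by linarith) (by linarith)
  have huc := mul_cos_le_sin (u := y - η) (by linarith) (by linarith)
  have hyA : sin (y + η) = 2 * sin ((y + η) / 2) * cos ((y + η) / 2) := by
    rw [← sin_two_mul]; congr 1; ring
  have hcA : cos ((y + η) / 2) ≤ cos (y / 2) :=
    cos_le_cos_of_nonneg_of_le_pi (by linarith) (by linarith) (by linarith)
  have hsBs : sin ((y - η) / 2) ≤ sin (y / 2) :=
    sin_le_sin_of_le_of_le_pi_div_two (by linarith) (by linarith) (by linarith)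
  have hD : sin (y - η) - (y - η) * cos (y - η) ≤ 4 / 3 * (y - η) * sin ((y - η) / 2) ^ 2 := by
    rw [hcu] at hcusa ⊢
    nlinarith
  have hC2 : 4 * sin (y + η) * (sin (y - η) - (y - η) * cos (y - η))
      ≤ 32 / 3 * (y - η) * sin ((y + η) / 2) * sin ((y - η) / 2) * (cos (y / 2) * sin (y / 2)) := by
    have hy0' : 0 < y - η := by linarith
    have hD0 : 0 ≤ sin (y - η) - (y - η) * cos (y - η) := by linarith
    rw [hyA]
    generalize sin (y - η) - (y - η) * cos (y - η) = D at *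
    generalize sin ((y - η) / 2) = SB at *
    generalize sin ((y + η) / 2) = SA at *
    generalize cos ((y + η) / 2) = CA at *
    generalize y - η = u at *
    have hpos : 0 ≤ 32 / 3 * u * SA * SB * (cos (y / 2) * sin (y / 2)) := by positivity
    rcases le_or_gt CA 0 with hCA | hCA
    · refine le_trans ?_ hpos
      have : 0 ≤ 8 * SA * D * (-CA) := by
        apply mul_nonneg (by positivity) (by linarith)
      linarith
    · have k1 : CA * SB ≤ cos (y / 2) * sin (y / 2) := mul_le_mul hcA hsBs hsB.le hc.le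
      have k2 : (8 * SA * CA) * D ≤ (8 * SA * CA) * (4 / 3 * u * SB ^ 2) :=
        mul_le_mul_of_nonneg_left hD (by positivity)
      have k3 : (32 / 3 * u * SA * SB) * (CA * SB) ≤ (32 / 3 * u * SA * SB) * (cos (y / 2) * sin (y / 2)) :=
        mul_le_mul_of_nonneg_left k1 (by positivity)
      linarith
  -- the three input estimates of `core_p`
  have hSA : sin (y / 2) * (1 - (η / 2) ^ 2 / 2) ≤ sin ((y + η) / 2) := by
    have e1 : (y + η) / 2 = y / 2 + η / 2 := by ring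
    rw [e1, sin_add]
    have k1 : 1 - (η / 2) ^ 2 / 2 ≤ cos (η / 2) := Real.one_sub_sq_div_two_le_cos
    have k2 : 0 < sin (η / 2) := sin_pos_of_pos_of_lt_pi (by linarith) (by linarith)
    have k3 := mul_le_mul_of_nonneg_left k1 hs.le
    have k4 := mul_pos hc k2
    linarith
  have hCB : cos ((y - η) / 2) ≤ cos (y / 2) + η / 2 * sin (y / 2) := by
    have e1 : (y - η) / 2 = y / 2 - η / 2 := by ring
    rw [e1, cos_sub]
    have k1 : sin (η / 2) ≤ η / 2 := sin_le (by linarith)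
    have k3 := mul_le_mul_of_nonneg_left k1 hs.le
    have k4 := mul_le_mul_of_nonneg_left (cos_le_one (η / 2)) hc.le
    linarith
  have hδ0 : 0 ≤ 64 / 3 * cos (y / 2) * sin (y / 2) ^ 3 * sin η ^ 2 / cos η := by
    have : 0 < cos η := by linarith
    positivity
  have hδ : 64 / 3 * cos (y / 2) * sin (y / 2) ^ 3 * sin η ^ 2 / cos η ≤ 43 * (η / 2) ^ 2 := by
    have hcη0 : 0 < cos η := by linarith
    rw [div_le_iff₀ hcη0]
    have k1 : cos (y / 2) * sin (y / 2) ≤ 1 / 2 := cos_mul_sin_le _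
    have k2 : sin (y / 2) ^ 2 ≤ 1 := sin_sq_le_one _
    have k3 : sin η ^ 2 ≤ η ^ 2 := pow_le_pow_left₀ hsη.le hηs 2
    have k4 : (cos (y / 2) * sin (y / 2)) * sin (y / 2) ^ 2 ≤ 1 / 2 * 1 :=
      mul_le_mul k1 k2 (by positivity) (by norm_num)
    have k5 : ((cos (y / 2) * sin (y / 2)) * sin (y / 2) ^ 2) * sin η ^ 2 ≤ (1 / 2 * 1) * η ^ 2 :=
      mul_le_mul k4 k3 (by positivity) (by norm_num)
    have k6 : η ^ 2 * (199 / 200) ≤ η ^ 2 * cos η := mul_le_mul_of_nonneg_left hcη (sq_nonneg _)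
    exact alg3 k5 k6 (sq_nonneg _)
  have hkey := core_p (e := η / 2) (p := y / 2) (by linarith) (by linarith) (by linarith)
    (by linarith) hδ0 hδ hSA hcB hCB hTl
  rw [cost_formula hsη.ne' hsy.ne']
  exact alg2 (by linarith) hsA hsB huB hsη hηs hs hc (by linarith) hT hsyc hF rfl hC2 hR hkey

/-- SUBTASK B3 (main one) -/
theorem cost_large {η y : ℝ} (h0 : 0 < η) (h1 : η ≤ 1 / 20) (hy0 : 0 < y) (hy1 : y < π) :
    (9 / 5) * cos η * sin (y - η) ^ 2 ≤
      cost η y * (sin (2 * η) + sin (2 * y) + 2 * (y - η) * cos (2 * η)) * sin η * η := by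
  rcases lt_trichotomy y η with h | h | h
  · exact cost_large_lt h0 h1 hy0 h
  · subst h
    simp [cost]
  · exact cost_large_gt h0 h1 h hy1

end Pool.Agent.H999.LimCC
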