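import Pool.Agent.H999.LimCC.Cost

set_option autoImplicit false

namespace Pool.Agent.H999.LimCC

open Real

/-- SUBTASK A: the cost is nonnegative. -/
theorem cost_nonneg {η y : ℝ} (h0 : 0 < η) (h1 : η ≤ π / 2) (hy0 : 0 < y) (hy1 : y < π) :
    0 ≤ cost η y := by
  have hπ := Real.pi_pos
  have hsη : 0 < sin η := sin_pos_of_pos_of_lt_pi h0 (by linarith)
  have hsy : 0 < sin y := sin_pos_of_pos_of_lt_pi hy0 hy1
  rw [cost_formula hsη.ne' hsy.ne']
  have hX : 0 ≤ 1 + cos η * cos y := by
    have h2 := abs_le.1 (abs_cos_le_one y)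
    have h3 : 0 ≤ cos η := cos_nonneg_of_neg_pi_div_two_le_of_le (by linarith) h1
    have h4 := cos_le_one η
    nlinarith [h2.1, h2.2]
  have hsA : 0 < sin ((y + η) / 2) := sin_pos_of_pos_of_lt_pi (by linarith) (by linarith)
  have hD : 0 < sin η ^ 2 * sin y ^ 2 := by positivity
  rcases lt_or_ge y η with hlt | hge
  · -- `y < η`
    have hB : sin ((y - η) / 2) ≤ 0 := by
      have : 0 ≤ sin ((η - y) / 2) := sin_nonneg_of_nonneg_of_le_pi (by linarith) (by linarith)
      rw [show (y - η) / 2 = -((η - y) / 2) by ring, sin_neg]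
      linarith
    have hs : 0 ≤ sin (y + η) := sin_nonneg_of_nonneg_of_le_pi (by linarith) (by linarith)
    have hv := mul_cos_le_sin (u := η - y) (by linarith) (by linarith)
    have hu : sin (y - η) - (y - η) * cos (y - η) ≤ 0 := by
      rw [show y - η = -(η - y) by ring, sin_neg, cos_neg]
      linarith
    have t1 : 0 ≤ (y - η) * (sin ((y + η) / 2) * sin ((y - η) / 2) * (1 + cos η * cos y))
        / (sin η ^ 2 * sin y ^ 2) := by
      apply div_nonneg _ hD.le
      have : 0 ≤ (y - η) * sin ((y - η) / 2) := mul_nonneg_of_nonpos_of_nonpos (by linarith) hB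
      calc (0:ℝ) ≤ ((y - η) * sin ((y - η) / 2)) * (sin ((y + η) / 2) * (1 + cos η * cos y)) := by
            positivity
        _ = _ := by ring
    have t2 : 4 * sin (y + η) * (sin (y - η) - (y - η) * cos (y - η)) ≤ 0 :=
      mul_nonpos_of_nonneg_of_nonpos (by positivity) hu
    linarith
  · -- `η ≤ y`
    set A := (y + η) / 2 with hA
    set B := (y - η) / 2 with hBdef
    have hyA : y = A + B := by rw [hA, hBdef]; ring
    have hηA : η = A - B := by rw [hA, hBdef]; ring
    have hu0 : 0 ≤ y - η := by linarith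
    have hb : 0 ≤ sin B := sin_nonneg_of_nonneg_of_le_pi (by rw [hBdef]; linarith) (by rw [hBdef]; linarith)
    have hv := mul_cos_le_sin (u := y - η) hu0 (by linarith)
    have hcu := cusa (u := y - η) hu0 (by linarith)
    have hcosu : 1 - cos (y - η) = 2 * sin B ^ 2 := by
      rw [show y - η = 2 * B by rw [hBdef]; ring, cos_two_mul]
      have := sin_sq_add_cos_sq B
      linarith
    have hup : sin (y - η) - (y - η) * cos (y - η) ≤ (4 / 3) * (y - η) * sin B ^ 2 := by
      have h5 : (2 / 3) * (y - η) * (1 - cos (y - η)) = (4 / 3) * (y - η) * sin B ^ 2 := by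
        rw [hcosu]; ring
      rw [← h5]
      linarith
    have hs2 : sin (y + η) = 2 * sin A * cos A := by
      rw [show y + η = 2 * A by rw [hA]; ring, sin_two_mul]
    have t1 : 0 ≤ (y - η) * (sin A * sin B * (1 + cos η * cos y)) / (sin η ^ 2 * sin y ^ 2) := by
      apply div_nonneg _ hD.le
      positivity
    rcases le_total (cos A) 0 with hc | hc
    · have hs : sin (y + η) ≤ 0 := by
        rw [hs2]
        exact mul_nonpos_of_nonneg_of_nonpos (by positivity) hc
      have t2 : 4 * sin (y + η) * (sin (y - η) - (y - η) * cos (y - η)) ≤ 0 :=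
        mul_nonpos_of_nonpos_of_nonneg (by linarith) (by linarith)
      linarith
    · have hsA2 := sin_sq_add_cos_sq A
      have hsB2 := sin_sq_add_cos_sq B
      have eX : 1 + cos η * cos y = 1 + cos A ^ 2 - sin B ^ 2 := by
        rw [hηA, hyA, cos_sub, cos_add]
        have e1 : cos B ^ 2 = 1 - sin B ^ 2 := by linarith
        have e2 : sin A ^ 2 = 1 - cos A ^ 2 := by linarith
        have : (cos A * cos B + sin A * sin B) * (cos A * cos B - sin A * sin B) =
            cos A ^ 2 * cos B ^ 2 - sin A ^ 2 * sin B ^ 2 := by ring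
        rw [this, e1, e2]
        ring
      have eY : sin η * sin y = 1 - cos A ^ 2 - sin B ^ 2 := by
        rw [hηA, hyA, sin_sub, sin_add]
        have e1 : cos B ^ 2 = 1 - sin B ^ 2 := by linarith
        have e2 : sin A ^ 2 = 1 - cos A ^ 2 := by linarith
        have : (sin A * cos B - cos A * sin B) * (sin A * cos B + cos A * sin B) =
            sin A ^ 2 * cos B ^ 2 - cos A ^ 2 * sin B ^ 2 := by ring
        rw [this, e1, e2]
        ring
      have hY0 : 0 < sin η * sin y := by positivity
      have hp := poly_ineq hb hc (by rw [eY] at hY0; linarith)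
      rw [← eX, ← eY] at hp
      have hq : (32 / 3) * cos A * sin B ≤ (1 + cos η * cos y) / (sin η ^ 2 * sin y ^ 2) := by
        rw [le_div_iff₀ hD]
        calc _ = (32 / 3) * cos A * sin B * (sin η * sin y) ^ 2 := by ring
          _ ≤ _ := hp
      have t3 : (y - η) * (sin A * sin B * (1 + cos η * cos y)) / (sin η ^ 2 * sin y ^ 2) ≥
          ((y - η) * sin A * sin B) * ((32 / 3) * cos A * sin B) := by
        calc (y - η) * (sin A * sin B * (1 + cos η * cos y)) / (sin η ^ 2 * sin y ^ 2)
            = ((y - η) * sin A * sin B) * ((1 + cos η * cos y) / (sin η ^ 2 * sin y ^ 2)) := by ring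
          _ ≥ _ := mul_le_mul_of_nonneg_left hq (by positivity)
      have t2 : 4 * sin (y + η) * (sin (y - η) - (y - η) * cos (y - η)) ≤
          4 * (2 * sin A * cos A) * ((4 / 3) * (y - η) * sin B ^ 2) := by
        rw [hs2]
        exact mul_le_mul_of_nonneg_left hup (by positivity)
      have e : 4 * (2 * sin A * cos A) * ((4 / 3) * (y - η) * sin B ^ 2) =
          ((y - η) * sin A * sin B) * ((32 / 3) * cos A * sin B) := by ring
      linarith

end Pool.Agent.H999.LimCC
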