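import Pool.Agent.H999.LimCC.Psi

set_option autoImplicit false

namespace Pool.Agent.H999.LimCC

open Real

/-- `fp` is monotone on `(0, π/2]`. -/
theorem fp_mono_head {x x0 : ℝ} (hx : 0 < x) (hxx : x ≤ x0) (h1 : x0 ≤ π / 2) :
    fp x ≤ fp x0 := by
  have hpi := Real.pi_pos
  have hs : sin x ≤ sin x0 := Real.sin_le_sin_of_le_of_le_pi_div_two (by linarith) h1 hxx
  have hs2 : sin (x / 2) ≤ sin (x0 / 2) :=
    Real.sin_le_sin_of_le_of_le_pi_div_two (by linarith) (by linarith) (by linarith)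
  have hs2p : 0 < sin (x / 2) := Real.sin_pos_of_pos_of_lt_pi (by linarith) (by linarith)
  have hc2 : cos (x0 / 2) ≤ cos (x / 2) :=
    Real.cos_le_cos_of_nonneg_of_le_pi (by linarith) (by linarith) (by linarith)
  have hc2p : 0 ≤ cos (x0 / 2) := Real.cos_nonneg_of_neg_pi_div_two_le_of_le (by linarith)
    (by linarith)
  have hG : cos (x0 / 2) / (4 * sin (x0 / 2) ^ 2) ≤ cos (x / 2) / (4 * sin (x / 2) ^ 2) := by
    have hp : 0 < 4 * sin (x / 2) ^ 2 := by positivity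
    have hle : 4 * sin (x / 2) ^ 2 ≤ 4 * sin (x0 / 2) ^ 2 := by
      have := pow_le_pow_left₀ hs2p.le hs2 2
      linarith
    exact div_le_div₀ (le_trans hc2p hc2) hc2 hp hle
  unfold fp
  linarith

theorem term_bound {z A B C D t u : ℝ} (hz : |z| ≤ 1) (ht : |t| ≤ C) (hu : |u| ≤ D)
    (_hC : 0 ≤ C) :
    -(|A| * C) - |B| * D ≤ z * (A * t - B * u) := by
  have h1 : |z * (A * t - B * u)| ≤ |A| * C + |B| * D := by
    rw [abs_mul]
    have h2 : |A * t - B * u| ≤ |A| * C + |B| * D := by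
      calc |A * t - B * u| ≤ |A * t| + |B * u| := abs_sub _ _
        _ = |A| * |t| + |B| * |u| := by rw [abs_mul, abs_mul]
        _ ≤ |A| * C + |B| * D :=
          add_le_add (mul_le_mul_of_nonneg_left ht (abs_nonneg _))
            (mul_le_mul_of_nonneg_left hu (abs_nonneg _))
    calc |z| * |A * t - B * u| ≤ 1 * |A * t - B * u| :=
          mul_le_mul_of_nonneg_right hz (abs_nonneg _)
      _ = |A * t - B * u| := one_mul _
      _ ≤ _ := h2
  have h3 := (abs_le.mp h1).1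
  linarith

/-- SUBTASK H: the head lemma (general version). -/
theorem head (P : Par) {x0 W z : ℝ} (h0 : 0 < x0) (h1 : x0 ≤ π / 2) (hnu : 0 ≤ P.nu)
    (hr : 0 ≤ P.r) (hf : fp x0 ≤ 0) (hW0 : 0 ≤ W)
    (hW : W + |P.r1| * sin (x0 / 2) + |P.r2| * sin x0 + |P.r3| * (3 * x0 / 2)
      ≤ P.r - x0 / (2 * π))
    (hc : 0 ≤ -fp x0 * W - P.r * max P.g 0 + P.nu * cos x0 + P.c - |P.a1| * sin (x0 / 2) - |P.b1|
      - |P.a2| * sin x0 - |P.b2| - |P.a3| - |P.b3|)
    (hz0 : -1 ≤ z) (hz1 : z ≤ 1) :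
    ∀ x, 0 < x → x ≤ x0 → 0 ≤ Psi P x z := by
  intro x hx hxx
  have hpi := Real.pi_pos
  have hfx : fp x ≤ fp x0 := fp_mono_head hx hxx h1
  have hs : sin x ≤ sin x0 := Real.sin_le_sin_of_le_of_le_pi_div_two (by linarith) h1 hxx
  have hsp : 0 < sin x := Real.sin_pos_of_pos_of_lt_pi (by linarith) (by linarith)
  have hs2 : sin (x / 2) ≤ sin (x0 / 2) :=
    Real.sin_le_sin_of_le_of_le_pi_div_two (by linarith) (by linarith) (by linarith)
  have hs2p : 0 < sin (x / 2) := Real.sin_pos_of_pos_of_lt_pi (by linarith) (by linarith)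
  have hcos : cos x0 ≤ cos x :=
    Real.cos_le_cos_of_nonneg_of_le_pi (by linarith) (by linarith) hxx
  have hz : |z| ≤ 1 := abs_le.mpr ⟨hz0, hz1⟩
  have hz2 : |2 * z ^ 2 - 1| ≤ 1 := abs_le.mpr ⟨by nlinarith, by nlinarith⟩
  have hz3 : |4 * z ^ 3 - 3 * z| ≤ 1 := by
    refine abs_le.mpr ⟨?_, ?_⟩
    · have : 4 * z ^ 3 - 3 * z + 1 = (z + 1) * (2 * z - 1) ^ 2 := by ring
      have h2 : 0 ≤ (z + 1) * (2 * z - 1) ^ 2 := mul_nonneg (by linarith) (sq_nonneg _)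
      linarith
    · have : 1 - (4 * z ^ 3 - 3 * z) = (1 - z) * (2 * z + 1) ^ 2 := by ring
      have h2 : 0 ≤ (1 - z) * (2 * z + 1) ^ 2 := mul_nonneg (by linarith) (sq_nonneg _)
      linarith
  have hF0 : 0 ≤ -fp x := by linarith
  -- bounds of the three rho terms and the three a,b terms
  have t1 : -(|P.r1 * fp x + P.a1| * sin (x0 / 2)) - |P.b1| * 1 ≤
      z * ((P.r1 * fp x + P.a1) * sin (x / 2) - P.b1 * cos (x / 2)) :=
    term_bound hz (by rw [abs_of_pos hs2p]; exact hs2) (Real.abs_cos_le_one _)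
      (le_trans hs2p.le hs2)
  have t2 : -(|P.r2 * fp x + P.a2| * sin x0) - |P.b2| * 1 ≤
      (2 * z ^ 2 - 1) * ((P.r2 * fp x + P.a2) * sin x - P.b2 * cos x) :=
    term_bound hz2 (by rw [abs_of_pos hsp]; exact hs) (Real.abs_cos_le_one _)
      (le_trans hsp.le hs)
  -- third term: split
  have hs3 : |sin (3 * (x / 2))| ≤ 3 * x0 / 2 := by
    have h3 : |sin (3 * (x / 2))| ≤ |3 * (x / 2)| := Real.abs_sin_le_abs
    rw [abs_of_pos (show 0 < 3 * (x / 2) by linarith)] at h3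
    linarith
  have t3a : -(|P.r3 * fp x| * (3 * x0 / 2)) - |(0 : ℝ)| * 1 ≤
      (4 * z ^ 3 - 3 * z) * ((P.r3 * fp x) * sin (3 * (x / 2)) - 0 * cos (3 * (x / 2))) :=
    term_bound hz3 hs3 (Real.abs_cos_le_one _) (by linarith)
  have t3b : -(|P.a3| * 1) - |P.b3| * 1 ≤
      (4 * z ^ 3 - 3 * z) * (P.a3 * sin (3 * (x / 2)) - P.b3 * cos (3 * (x / 2))) :=
    term_bound hz3 (Real.abs_sin_le_one _) (Real.abs_cos_le_one _) zero_le_one
  have a1 : |P.r1 * fp x + P.a1| ≤ |P.r1| * (-fp x) + |P.a1| := by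
    calc |P.r1 * fp x + P.a1| ≤ |P.r1 * fp x| + |P.a1| := abs_add_le _ _
      _ = |P.r1| * (-fp x) + |P.a1| := by
        rw [abs_mul, abs_of_nonpos (show fp x ≤ 0 by linarith)]
  have a2 : |P.r2 * fp x + P.a2| ≤ |P.r2| * (-fp x) + |P.a2| := by
    calc |P.r2 * fp x + P.a2| ≤ |P.r2 * fp x| + |P.a2| := abs_add_le _ _
      _ = |P.r2| * (-fp x) + |P.a2| := by
        rw [abs_mul, abs_of_nonpos (show fp x ≤ 0 by linarith)]
  have a3 : |P.r3 * fp x| = |P.r3| * (-fp x) := by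
    rw [abs_mul, abs_of_nonpos (show fp x ≤ 0 by linarith)]
  have b1 := mul_le_mul_of_nonneg_right a1 (le_trans hs2p.le hs2)
  have b2 := mul_le_mul_of_nonneg_right a2 (le_trans hsp.le hs)
  rw [a3] at t3a
  simp only [abs_zero] at t3a
  -- the main product
  have hxd : x / (2 * π) ≤ x0 / (2 * π) := by
    apply div_le_div_of_nonneg_right hxx (by positivity)
  have hxp : 0 < x / (2 * π) := by positivity
  have hm : 0 ≤ |P.r1| * sin (x0 / 2) + |P.r2| * sin x0 + |P.r3| * (3 * x0 / 2) := by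
    have := mul_nonneg (abs_nonneg P.r1) (le_trans hs2p.le hs2)
    have := mul_nonneg (abs_nonneg P.r2) (le_trans hsp.le hs)
    have := mul_nonneg (abs_nonneg P.r3) (show 0 ≤ 3 * x0 / 2 by linarith)
    linarith
  have hg : (P.r - x / (2 * π)) * P.g ≤ P.r * max P.g 0 := by
    calc (P.r - x / (2 * π)) * P.g ≤ (P.r - x / (2 * π)) * max P.g 0 :=
          mul_le_mul_of_nonneg_left (le_max_left _ _) (by linarith)
      _ ≤ P.r * max P.g 0 := mul_le_mul_of_nonneg_right (by linarith) (le_max_right _ _)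
  have hmain : (-fp x0) * W ≤ (-fp x) * ((P.r - x / (2 * π)) -
      (|P.r1| * sin (x0 / 2) + |P.r2| * sin x0 + |P.r3| * (3 * x0 / 2))) := by
    calc (-fp x0) * W ≤ (-fp x) * W := mul_le_mul_of_nonneg_right (by linarith) hW0
      _ ≤ _ := mul_le_mul_of_nonneg_left (by linarith) hF0
  have hnuc : P.nu * cos x0 ≤ P.nu * cos x := mul_le_mul_of_nonneg_left hcos hnu
  unfold Psi
  linarith [t1, t2, t3a, t3b, b1, b2, hg, hmain, hnuc, hc]

/-- SUBTASK H': sharper version when no `ρ` is present. -/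
theorem head0 (P : Par) {x0 z : ℝ} (h0 : 0 < x0) (h1 : x0 ≤ π / 2) (hnu : 0 ≤ P.nu)
    (hr1 : P.r1 = 0) (hr2 : P.r2 = 0) (hr3 : P.r3 = 0)
    (hr : x0 / (2 * π) ≤ P.r) (hf : fp x0 + P.g ≤ 0)
    (hc : 0 ≤ (x0 / (2 * π) - P.r) * (fp x0 + P.g) + P.nu * cos x0 + P.c
      - |P.a1| * sin (x0 / 2) - |P.b1| - |P.a2| * sin x0 - |P.b2| - |P.a3| - |P.b3|)
    (hz0 : -1 ≤ z) (hz1 : z ≤ 1) :
    ∀ x, 0 < x → x ≤ x0 → 0 ≤ Psi P x z := by
  intro x hx hxx
  have hpi := Real.pi_pos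
  have hfx : fp x ≤ fp x0 := fp_mono_head hx hxx h1
  have hs : sin x ≤ sin x0 := Real.sin_le_sin_of_le_of_le_pi_div_two (by linarith) h1 hxx
  have hsp : 0 < sin x := Real.sin_pos_of_pos_of_lt_pi (by linarith) (by linarith)
  have hs2 : sin (x / 2) ≤ sin (x0 / 2) :=
    Real.sin_le_sin_of_le_of_le_pi_div_two (by linarith) (by linarith) (by linarith)
  have hs2p : 0 < sin (x / 2) := Real.sin_pos_of_pos_of_lt_pi (by linarith) (by linarith)
  have hcos : cos x0 ≤ cos x :=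
    Real.cos_le_cos_of_nonneg_of_le_pi (by linarith) (by linarith) hxx
  have hz : |z| ≤ 1 := abs_le.mpr ⟨hz0, hz1⟩
  have hz2 : |2 * z ^ 2 - 1| ≤ 1 := abs_le.mpr ⟨by nlinarith, by nlinarith⟩
  have hz3 : |4 * z ^ 3 - 3 * z| ≤ 1 := by
    refine abs_le.mpr ⟨?_, ?_⟩
    · have : 4 * z ^ 3 - 3 * z + 1 = (z + 1) * (2 * z - 1) ^ 2 := by ring
      have h2 : 0 ≤ (z + 1) * (2 * z - 1) ^ 2 := mul_nonneg (by linarith) (sq_nonneg _)
      linarith
    · have : 1 - (4 * z ^ 3 - 3 * z) = (1 - z) * (2 * z + 1) ^ 2 := by ring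
      have h2 : 0 ≤ (1 - z) * (2 * z + 1) ^ 2 := mul_nonneg (by linarith) (sq_nonneg _)
      linarith
  have t1 : -(|P.a1| * sin (x0 / 2)) - |P.b1| * 1 ≤
      z * (P.a1 * sin (x / 2) - P.b1 * cos (x / 2)) :=
    term_bound hz (by rw [abs_of_pos hs2p]; exact hs2) (Real.abs_cos_le_one _)
      (le_trans hs2p.le hs2)
  have t2 : -(|P.a2| * sin x0) - |P.b2| * 1 ≤
      (2 * z ^ 2 - 1) * (P.a2 * sin x - P.b2 * cos x) :=
    term_bound hz2 (by rw [abs_of_pos hsp]; exact hs) (Real.abs_cos_le_one _)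
      (le_trans hsp.le hs)
  have t3 : -(|P.a3| * 1) - |P.b3| * 1 ≤
      (4 * z ^ 3 - 3 * z) * (P.a3 * sin (3 * (x / 2)) - P.b3 * cos (3 * (x / 2))) :=
    term_bound hz3 (Real.abs_sin_le_one _) (Real.abs_cos_le_one _) zero_le_one
  have hxd : x / (2 * π) ≤ x0 / (2 * π) := by
    apply div_le_div_of_nonneg_right hxx (by positivity)
  have hmain : (x0 / (2 * π) - P.r) * (fp x0 + P.g) ≤ (x / (2 * π) - P.r) * (fp x + P.g) := by
    have e1 : (P.r - x0 / (2 * π)) * (-(fp x0 + P.g)) ≤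
        (P.r - x / (2 * π)) * (-(fp x + P.g)) :=
      mul_le_mul (by linarith) (by linarith) (by linarith) (by linarith)
    linarith
  have hnuc : P.nu * cos x0 ≤ P.nu * cos x := mul_le_mul_of_nonneg_left hcos hnu
  unfold Psi
  rw [hr1, hr2, hr3]
  simp only [zero_mul, zero_add]
  linarith

end Pool.Agent.H999.LimCC
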