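import Pool.Agent.H999.LimCC.Engine
import Pool.Agent.H999.LimCC.Head
import Pool.Agent.H999.LimCC.Cell

set_option autoImplicit false

namespace Pool.Agent.H999.LimCC

open Real

/-- nonnegativity of a quadratic polynomial on `[-1, 1]` -/
theorem quadOK_sound {Lp Lm P1 p2P p2M : ℕ} (h : QC.quadOK Lp Lm P1 p2P p2M = true)
    {p1 z : ℝ} (hp : |p1| ≤ P1) (hz0 : -1 ≤ z) (hz1 : z ≤ 1) :
    0 ≤ ((Lp : ℝ) - Lm) + z * p1 + 2 * z ^ 2 * ((p2P : ℝ) - p2M) := by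
  unfold QC.quadOK at h
  simp only [Nat.mul_eq, Nat.add_eq, Nat.sub_eq, Bool.or_eq_true, Bool.and_eq_true,
    Nat.ble_eq] at h
  have hP0 : (0 : ℝ) ≤ P1 := Nat.cast_nonneg _
  rcases h with ⟨⟨h1, h2⟩, h3⟩ | ⟨h1, h2⟩
  · have h3' : (P1 : ℝ) * P1 ≤ 8 * (((p2P : ℝ) - p2M) * ((Lp : ℝ) - Lm)) := by
      have := (Nat.cast_le (α := ℝ)).mpr h3
      push_cast [Nat.cast_sub h1, Nat.cast_sub h2] at this
      exact this
    have h1' : (0 : ℝ) ≤ (p2P : ℝ) - p2M := by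
      have := (Nat.cast_le (α := ℝ)).mpr h1
      linarith
    have h2' : (0 : ℝ) ≤ (Lp : ℝ) - Lm := by
      have := (Nat.cast_le (α := ℝ)).mpr h2
      linarith
    have hsq : p1 ^ 2 ≤ (P1 : ℝ) * P1 := by
      rw [← sq_abs p1, sq]
      exact mul_le_mul hp hp (abs_nonneg _) hP0
    rcases h1'.eq_or_lt with h0 | h0
    · rw [← h0] at h3' ⊢
      have hp1 : p1 ^ 2 ≤ 0 := by linarith
      have : p1 = 0 := by
        have := sq_nonneg p1
        exact pow_eq_zero_iff (two_ne_zero) |>.mp (le_antisymm hp1 this)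
      rw [this]
      linarith
    · have key : 0 ≤ 8 * ((p2P : ℝ) - p2M) *
          (((Lp : ℝ) - Lm) + z * p1 + 2 * z ^ 2 * ((p2P : ℝ) - p2M)) := by
        have : 8 * ((p2P : ℝ) - p2M) *
          (((Lp : ℝ) - Lm) + z * p1 + 2 * z ^ 2 * ((p2P : ℝ) - p2M))
          = (4 * z * ((p2P : ℝ) - p2M) + p1) ^ 2
            + (8 * (((p2P : ℝ) - p2M) * ((Lp : ℝ) - Lm)) - p1 ^ 2) := by ring
        rw [this]
        have h5 := sq_nonneg (4 * z * ((p2P : ℝ) - p2M) + p1)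
        linarith
      exact (mul_nonneg_iff_of_pos_left (by linarith)).mp key
  · have h1' : (Lm : ℝ) + (P1 + 2 * p2M) ≤ Lp + 2 * p2P := by exact_mod_cast h1
    have h2' : 4 * (p2P : ℝ) ≤ P1 + 4 * p2M := by exact_mod_cast h2
    have hz : |z| ≤ 1 := abs_le.mpr ⟨hz0, hz1⟩
    have hzn : 0 ≤ |z| := abs_nonneg z
    have e1 : -(|z| * P1) ≤ z * p1 := by
      have : |z * p1| ≤ |z| * P1 := by
        rw [abs_mul]
        exact mul_le_mul_of_nonneg_left hp hzn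
      exact (abs_le.mp this).1
    have e2 : 0 ≤ (P1 : ℝ) - 2 * ((p2P : ℝ) - p2M) * (1 + |z|) := by
      rcases le_total 0 ((p2P : ℝ) - p2M) with h5 | h5
      · nlinarith
      · nlinarith
    have e3 : 0 ≤ (1 - |z|) * ((P1 : ℝ) - 2 * ((p2P : ℝ) - p2M) * (1 + |z|)) :=
      mul_nonneg (by linarith) e2
    have e4 : |z| * |z| = z ^ 2 := by rw [← sq, sq_abs]
    have e5 : (1 - |z|) * ((P1 : ℝ) - 2 * ((p2P : ℝ) - p2M) * (1 + |z|))
        = P1 - |z| * P1 - 2 * ((p2P : ℝ) - p2M) + 2 * (|z| * |z|) * ((p2P : ℝ) - p2M) := by ring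
    rw [e5, e4] at e3
    linarith

/-- natural subtraction, both ways -/
theorem cast_sub_sub (a b : ℕ) :
    ((a - b : ℕ) : ℝ) - ((b - a : ℕ) : ℝ) = (a : ℝ) - b := by
  rcases le_total a b with h | h
  · rw [Nat.sub_eq_zero_of_le h, Nat.cast_sub h]; simp
  · rw [Nat.sub_eq_zero_of_le h, Nat.cast_sub h]; simp

theorem cast_sub_add (a b : ℕ) :
    ((a - b : ℕ) : ℝ) + ((b - a : ℕ) : ℝ) = |(a : ℝ) - b| := by
  rcases le_total a b with h | h
  · have h' : (a : ℝ) ≤ b := by exact_mod_cast h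
    rw [Nat.sub_eq_zero_of_le h, Nat.cast_sub h, abs_of_nonpos (by linarith)]; simp
  · have h' : (b : ℝ) ≤ a := by exact_mod_cast h
    rw [Nat.sub_eq_zero_of_le h, Nat.cast_sub h, abs_of_nonneg (by linarith)]; simp

theorem cast_sub_max (a b : ℕ) : ((a - b : ℕ) : ℝ) = max ((a : ℝ) - b) 0 := by
  rcases le_total a b with h | h
  · have h' : (a : ℝ) ≤ b := by exact_mod_cast h
    rw [Nat.sub_eq_zero_of_le h, max_eq_right (by linarith)]; simp
  · have h' : (b : ℝ) ≤ a := by exact_mod_cast h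
    rw [Nat.cast_sub h, max_eq_left (by linarith)]

theorem Row.x_div (R : Row) : R.x / (2 * π) = R.p / 2 ^ 22 := by
  unfold Row.x
  have := Real.pi_pos
  field_simp

/-- the value of the test function in the units of the checker -/
theorem psi_scaled (C : QC) (hQ : 1 ≤ C.Q) (R : Row) (z : ℝ) :
    Psi C.par R.x z * (C.Q * 2 ^ 66)
      = ((C.Q : ℝ) * R.p - C.A) * (fp R.x * 2 ^ 44 + ((C.gP : ℝ) - C.gM))
        + (C.Q * 2 ^ 22) * (cos R.x / π * 2 ^ 44) + ((C.cP : ℝ) - C.cM)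
        + z * (((C.aP : ℝ) - C.aM) * (sin (R.x / 2) * 2 ^ 44)
          - ((C.bP : ℝ) - C.bM) * (cos (R.x / 2) * 2 ^ 44))
        + (2 * z ^ 2 - 1) * (((C.zP : ℝ) - C.zM) * (sin R.x * 2 ^ 44)) := by
  have hQ' : (0 : ℝ) < C.Q := by exact_mod_cast hQ
  unfold Psi
  rw [R.x_div]
  unfold QC.par
  simp only
  field_simp
  ring

/-- the main approximation: real value minus the integer value -/
theorem psi_approx (C : QC) (hQ : 1 ≤ C.Q) (hA : C.A ≤ C.Q * 4194304) {R : Row} (hR : R.OK)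
    {z : ℝ} (hz0 : -1 ≤ z) (hz1 : z ≤ 1) :
    ((C.Q : ℝ) * R.p - C.A) * (((R.fP : ℝ) - R.fM) + ((C.gP : ℝ) - C.gM))
        + (C.Q * 2 ^ 22) * ((R.qP : ℝ) - R.qM) + ((C.cP : ℝ) - C.cM)
        + z * (((C.aP : ℝ) - C.aM) * R.s - ((C.bP : ℝ) - C.bM) * R.c)
        + (2 * z ^ 2 - 1) * (((C.zP : ℝ) - C.zM) * R.sx) - C.err
      ≤ Psi C.par R.x z * (C.Q * 2 ^ 66) := by
  rw [psi_scaled C hQ R z]
  have hQ' : (0 : ℝ) < C.Q := by exact_mod_cast hQ
  have hA' : (C.A : ℝ) ≤ C.Q * 4194304 := by exact_mod_cast hA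
  have hp0 : (0 : ℝ) ≤ R.p := Nat.cast_nonneg _
  have hp' : (R.p : ℝ) ≤ 2 ^ 21 := by exact_mod_cast hR.p_le
  have hA0 : (0 : ℝ) ≤ C.A := Nat.cast_nonneg _
  have hz : |z| ≤ 1 := abs_le.mpr ⟨hz0, hz1⟩
  have hz2 : |2 * z ^ 2 - 1| ≤ 1 := abs_le.mpr ⟨by nlinarith, by nlinarith⟩
  have hv : |(C.Q : ℝ) * R.p - C.A| ≤ C.Q * 4194304 := by
    have h1 : (C.Q : ℝ) * R.p ≤ C.Q * 2 ^ 21 := mul_le_mul_of_nonneg_left hp' hQ'.le
    have h2 : 0 ≤ (C.Q : ℝ) * R.p := mul_nonneg hQ'.le hp0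
    rw [abs_le]
    constructor
    · linarith
    · linarith
  have hprod : ∀ u w B : ℝ, |u| ≤ B → |w| ≤ 16 → -(B * 16) ≤ u * w := by
    intro u w B hu hw
    have h1 : |u * w| ≤ B * 16 := by
      rw [abs_mul]
      exact mul_le_mul hu hw (abs_nonneg _) ((abs_nonneg _).trans hu)
    exact (abs_le.mp h1).1
  have e1 := hprod _ _ _ hv hR.hf
  have e2 := hprod (C.Q * 2 ^ 22) _ (C.Q * 4194304) (by
    rw [abs_of_nonneg (by positivity)]; norm_num) hR.hq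
  have habs : ∀ a b : ℕ, |(a : ℝ) - b| ≤ a + b := by
    intro a b
    have h1 : (0 : ℝ) ≤ a := Nat.cast_nonneg _
    have h2 : (0 : ℝ) ≤ b := Nat.cast_nonneg _
    rw [abs_le]
    constructor <;> linarith
  have hmulz : ∀ (w u B : ℝ), |w| ≤ 1 → |u| ≤ B → |w * u| ≤ B := by
    intro w u B hw hu
    rw [abs_mul]
    calc |w| * |u| ≤ 1 * |u| := mul_le_mul_of_nonneg_right hw (abs_nonneg _)
      _ = |u| := one_mul _
      _ ≤ B := hu
  have e3 := hprod _ _ _ (hmulz z _ _ hz (habs C.aP C.aM)) hR.hs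
  have e4 := hprod _ _ _ (hmulz (-z) _ _ (by rwa [abs_neg]) (habs C.bP C.bM)) hR.hc
  have e5 := hprod _ _ _ (hmulz _ _ _ hz2 (habs C.zP C.zM)) hR.hsx
  have herr : (C.err : ℝ) = 16 * (C.Q * 8388608 + ((C.aP + C.aM) + ((C.bP + C.bM)
      + (C.zP + C.zM)))) := by
    unfold QC.err
    simp only [Nat.mul_eq, Nat.add_eq]
    push_cast
    ring
  rw [herr]
  nlinarith [e1, e2, e3, e4, e5]

theorem ptOK_sound {C : QC} (hQ : 1 ≤ C.Q) (hA : C.A ≤ C.Q * 4194304) {R : Row} (hR : R.OK)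
    {E : ℕ} (h : QC.ptOK C E R = true) {z : ℝ} (hz0 : -1 ≤ z) (hz1 : z ≤ 1) :
    ((E : ℝ) - C.err) / (C.Q * 2 ^ 66) ≤ Psi C.par R.x z := by
  have hQ' : (0 : ℝ) < C.Q := by exact_mod_cast hQ
  rw [div_le_iff₀ (by positivity)]
  refine le_trans ?_ (psi_approx C hQ hA hR hz0 hz1)
  unfold QC.ptOK at h
  simp only [Nat.mul_eq, Nat.add_eq, Nat.sub_eq] at h
  have h1 := quadOK_sound h (p1 := ((C.aP : ℝ) - C.aM) * R.s - ((C.bP : ℝ) - C.bM) * R.c)
    (z := z) (by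
      push_cast
      rw [cast_sub_add]
      apply le_of_eq
      congr 1
      push_cast
      ring) hz0 hz1
  have hv := cast_sub_sub (C.Q * R.p) C.A
  push_cast at h1 hv
  have key : (((C.Q * R.p - C.A : ℕ) : ℝ) - ((C.A - C.Q * R.p : ℕ) : ℝ))
      * (((R.fP : ℝ) + C.gP) - (R.fM + C.gM))
      = ((C.Q : ℝ) * R.p - C.A) * (((R.fP : ℝ) - R.fM) + ((C.gP : ℝ) - C.gM)) := by
    rw [hv]; ring
  nlinarith [h1, key]

theorem Row.x_pos {R : Row} (hR : R.OK) : 0 < R.x := by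
  unfold Row.x
  have := Real.pi_pos
  have h : (0 : ℝ) < R.p := by exact_mod_cast hR.p_pos
  positivity

theorem Row.x_le {R : Row} (hR : R.OK) : R.x ≤ π := by
  unfold Row.x
  have := Real.pi_pos
  have h : (R.p : ℝ) ≤ 2 ^ 21 := by exact_mod_cast hR.p_le
  have h2 : (R.p : ℝ) / 2 ^ 22 ≤ 1 / 2 := by
    rw [div_le_div_iff₀ (by positivity) (by positivity)]
    linarith
  nlinarith

theorem abs_div_pos {a b c d : ℝ} (hd : 0 < d) (h : |a - b| ≤ c) : |(a - b) / d| ≤ c / d := by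
  rw [abs_div, abs_of_pos hd]
  exact div_le_div_of_nonneg_right h hd.le

theorem abs_cast_sub (a b : ℕ) : |(a : ℝ) - b| ≤ a + b := by
  have h1 : (0 : ℝ) ≤ a := Nat.cast_nonneg _
  have h2 : (0 : ℝ) ≤ b := Nat.cast_nonneg _
  rw [abs_le]
  constructor <;> linarith

theorem es_kap_nonneg {x : ℝ} (h0 : 0 < x) (h1 : x ≤ π) : 0 ≤ kap x := by
  unfold kap
  have : 0 < sin (x / 2) := Real.sin_pos_of_pos_of_lt_pi (by linarith)
    (by linarith [Real.pi_pos])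
  positivity

theorem es_kap3_nonneg {x : ℝ} (h0 : 0 < x) (h1 : x ≤ π) : 0 ≤ kap3 x := by
  unfold kap3
  have : 0 < sin (x / 2) := Real.sin_pos_of_pos_of_lt_pi (by linarith)
    (by linarith [Real.pi_pos])
  have h2 : 0 ≤ cos (x / 2) := Real.cos_nonneg_of_neg_pi_div_two_le_of_le (by linarith)
    (by linarith)
  positivity

theorem pi_sq_le_ten : π ^ 2 ≤ 10 := by
  have h1 := Real.pi_lt_d2
  have h2 := Real.pi_pos
  nlinarith

/-- bound of the second derivative in the units of the checker -/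
theorem secB_scaled {C : QC} (hQ : 1 ≤ C.Q) {R : Row} (hR : R.OK) :
    secB C.par R.x * (π ^ 2 * 2 ^ 21 * C.Q)
      ≤ C.Q * R.K + ((C.A - C.Q * R.p : ℕ) : ℝ) * R.K3 + C.B3 := by
  have hQ' : (0 : ℝ) < C.Q := by exact_mod_cast hQ
  have hpi := Real.pi_pos
  have hpi2 := pi_sq_le_ten
  have hx0 := Row.x_pos hR
  have hx1 := Row.x_le hR
  have hk := es_kap_nonneg hx0 hx1
  have hk3 := es_kap3_nonneg hx0 hx1
  have ha : |((C.aP : ℝ) - C.aM) / (C.Q * 2 ^ 22)| ≤ ((C.aP : ℝ) + C.aM) / (C.Q * 2 ^ 22) :=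
    abs_div_pos (by positivity) (abs_cast_sub _ _)
  have hb : |((C.bP : ℝ) - C.bM) / (C.Q * 2 ^ 22)| ≤ ((C.bP : ℝ) + C.bM) / (C.Q * 2 ^ 22) :=
    abs_div_pos (by positivity) (abs_cast_sub _ _)
  have hc : |((C.zP : ℝ) - C.zM) / (C.Q * 2 ^ 22)| ≤ ((C.zP : ℝ) + C.zM) / (C.Q * 2 ^ 22) :=
    abs_div_pos (by positivity) (abs_cast_sub _ _)
  have hm : max ((C.A : ℝ) / (C.Q * 2 ^ 22) - R.p / 2 ^ 22) 0
      = ((C.A - C.Q * R.p : ℕ) : ℝ) / (C.Q * 2 ^ 22) := by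
    rw [cast_sub_max]
    push_cast
    rcases le_total ((C.A : ℝ) - C.Q * R.p) 0 with h | h
    · have h2 : (C.A : ℝ) / (C.Q * 2 ^ 22) - R.p / 2 ^ 22 ≤ 0 := by
        have : (C.A : ℝ) / (C.Q * 2 ^ 22) - R.p / 2 ^ 22
            = ((C.A : ℝ) - C.Q * R.p) / (C.Q * 2 ^ 22) := by field_simp
        rw [this]
        exact div_nonpos_of_nonpos_of_nonneg h (by positivity)
      rw [max_eq_right h, max_eq_right h2, zero_div]
    · have h3 : (C.A : ℝ) / (C.Q * 2 ^ 22) - R.p / 2 ^ 22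
            = ((C.A : ℝ) - C.Q * R.p) / (C.Q * 2 ^ 22) := by field_simp
      have h2 : 0 ≤ (C.A : ℝ) / (C.Q * 2 ^ 22) - R.p / 2 ^ 22 := by
        rw [h3]
        exact div_nonneg h (by positivity)
      rw [max_eq_left h, max_eq_left h2, h3]
  have hsec : secB C.par R.x ≤ kap R.x / π
      + ((C.A - C.Q * R.p : ℕ) : ℝ) / (C.Q * 2 ^ 22) * (1 + kap3 R.x)
      + ((C.aP + C.aM) / (C.Q * 2 ^ 22) + (C.bP + C.bM) / (C.Q * 2 ^ 22)) / 4
      + (C.zP + C.zM) / (C.Q * 2 ^ 22) := by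
    unfold secB
    rw [R.x_div]
    unfold QC.par
    simp only [sub_self, abs_zero, zero_mul, add_zero, mul_zero]
    rw [hm]
    linarith
  have hB3 : (5 : ℝ) / 4 * ((C.aP + C.aM) + (C.bP + C.bM)) + 5 * (C.zP + C.zM) ≤ C.B3 := by
    have h1 : 5 * (C.aP + C.aM + (C.bP + C.bM)) ≤
        4 * (5 * (C.aP + C.aM + (C.bP + C.bM)) / 4 + 1) := by omega
    have h2 : C.B3 = 5 * (C.aP + C.aM + (C.bP + C.bM)) / 4 + 1 + 5 * (C.zP + C.zM) := by
      unfold QC.B3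
      simp only [Nat.mul_eq, Nat.add_eq]
      rfl
    rw [h2]
    have h3 := (Nat.cast_le (α := ℝ)).mpr h1
    push_cast at h3 ⊢
    linarith
  have hK := hR.hK
  have hK3 := hR.hK3
  have hvM : (0 : ℝ) ≤ ((C.A - C.Q * R.p : ℕ) : ℝ) := Nat.cast_nonneg _
  calc secB C.par R.x * (π ^ 2 * 2 ^ 21 * C.Q)
      ≤ (kap R.x / π
        + ((C.A - C.Q * R.p : ℕ) : ℝ) / (C.Q * 2 ^ 22) * (1 + kap3 R.x)
        + ((C.aP + C.aM) / (C.Q * 2 ^ 22) + (C.bP + C.bM) / (C.Q * 2 ^ 22)) / 4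
        + (C.zP + C.zM) / (C.Q * 2 ^ 22)) * (π ^ 2 * 2 ^ 21 * C.Q) :=
        mul_le_mul_of_nonneg_right hsec (by positivity)
    _ = C.Q * (π / 2 * kap R.x * 2 ^ 22)
        + ((C.A - C.Q * R.p : ℕ) : ℝ) * (π ^ 2 / 2 * (1 + kap3 R.x))
        + (π ^ 2 / 8 * ((C.aP + C.aM) + (C.bP + C.bM)) + π ^ 2 / 2 * (C.zP + C.zM)) := by
        field_simp
        ring
    _ ≤ C.Q * R.K + ((C.A - C.Q * R.p : ℕ) : ℝ) * R.K3
        + (5 / 4 * ((C.aP + C.aM) + (C.bP + C.bM)) + 5 * (C.zP + C.zM)) := by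
        have e1 : (C.Q : ℝ) * (π / 2 * kap R.x * 2 ^ 22) ≤ C.Q * R.K :=
          mul_le_mul_of_nonneg_left hK hQ'.le
        have e2 : ((C.A - C.Q * R.p : ℕ) : ℝ) * (π ^ 2 / 2 * (1 + kap3 R.x))
            ≤ ((C.A - C.Q * R.p : ℕ) : ℝ) * R.K3 := mul_le_mul_of_nonneg_left hK3 hvM
        have e3 : π ^ 2 / 8 * (((C.aP : ℝ) + C.aM) + (C.bP + C.bM))
            ≤ 5 / 4 * ((C.aP + C.aM) + (C.bP + C.bM)) :=
          mul_le_mul_of_nonneg_right (by linarith) (by positivity)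
        have e4 : π ^ 2 / 2 * ((C.zP : ℝ) + C.zM) ≤ 5 * (C.zP + C.zM) :=
          mul_le_mul_of_nonneg_right (by linarith) (by positivity)
        linarith
    _ ≤ _ := by linarith

theorem cellOK_sound {C : QC} (hQ : 1 ≤ C.Q) (hA : C.A ≤ C.Q * 4194304) {R S : Row}
    (hR : R.OK) (hS : S.OK) (h : QC.cellOK C C.err C.B3 R S = true)
    {z : ℝ} (hz0 : -1 ≤ z) (hz1 : z ≤ 1) :
    ∀ x, R.x ≤ x → x ≤ S.x → 0 ≤ Psi C.par x z := by
  have hQ' : (0 : ℝ) < C.Q := by exact_mod_cast hQ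
  have hpi := Real.pi_pos
  unfold QC.cellOK at h
  simp only [Bool.and_eq_true, Nat.mul_eq, Nat.add_eq, Nat.sub_eq, Nat.ble_eq, Nat.succ_eq_add_one]
    at h
  obtain ⟨⟨hlt, hp1⟩, hp2⟩ := h
  have hle : R.p ≤ S.p := by omega
  have hd : ((S.p - R.p : ℕ) : ℝ) = (S.p : ℝ) - R.p := Nat.cast_sub hle
  have hd0 : (0 : ℝ) ≤ (S.p : ℝ) - R.p := by rw [← hd]; exact Nat.cast_nonneg _
  have q1 := ptOK_sound hQ hA hR hp1 hz0 hz1
  have q2 := ptOK_sound hQ hA hS hp2 hz0 hz1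
  set W : ℝ := C.Q * R.K + ((C.A - C.Q * R.p : ℕ) : ℝ) * R.K3 + C.B3 with hW
  have hE : ((((S.p - R.p) * (S.p - R.p) * (C.Q * R.K + (C.A - C.Q * R.p) * R.K3 + C.B3)
      + C.err : ℕ) : ℝ) - C.err) = ((S.p : ℝ) - R.p) ^ 2 * W := by
    rw [hW]
    push_cast
    rw [hd]
    ring
  rw [hE] at q1 q2
  have hdx : S.x - R.x = 2 * π * (((S.p : ℝ) - R.p) / 2 ^ 22) := by
    unfold Row.x; ring
  refine cell C.par (Row.x_pos hR) ?_ (Row.x_le hS) hz0 hz1 ?_ q1 q2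
  · have : 0 ≤ S.x - R.x := by rw [hdx]; positivity
    linarith
  · rw [hdx, le_div_iff₀ (by positivity)]
    have hsc := secB_scaled hQ hR
    have e1 : secB C.par R.x * (2 * π * (((S.p : ℝ) - R.p) / 2 ^ 22)) ^ 2 / 8 * (C.Q * 2 ^ 66)
        = ((S.p : ℝ) - R.p) ^ 2 * (secB C.par R.x * (π ^ 2 * 2 ^ 21 * C.Q)) := by
      ring
    rw [e1]
    exact mul_le_mul_of_nonneg_left hsc (sq_nonneg _)

theorem headOK_sound {C : QC} (hQ : 1 ≤ C.Q) (hA : C.A ≤ C.Q * 4194304) {R : Row}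
    (hR : R.OK) (h : QC.headOK C C.err R = true)
    {z : ℝ} (hz0 : -1 ≤ z) (hz1 : z ≤ 1) :
    ∀ x, 0 < x → x ≤ R.x → 0 ≤ Psi C.par x z := by
  have hQ' : (0 : ℝ) < C.Q := by exact_mod_cast hQ
  have hpi := Real.pi_pos
  unfold QC.headOK at h
  simp only [Bool.and_eq_true, Nat.mul_eq, Nat.add_eq, Nat.sub_eq, Nat.ble_eq] at h
  obtain ⟨⟨⟨hp, hQA⟩, hF⟩, hmain⟩ := h
  have hp' : (R.p : ℝ) ≤ 1048576 := by exact_mod_cast hp
  have hQA' : (C.Q : ℝ) * R.p ≤ C.A := by exact_mod_cast hQA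
  have hF' : (R.fP : ℝ) + C.gP + 16 ≤ R.fM + C.gM := by exact_mod_cast hF
  have hmain' : ((C.A : ℝ) - C.Q * R.p) * (R.fP + C.gP) + C.Q * 4194304 * R.qM
      + (C.cM + (C.aP + C.aM) * R.s + ((C.bP + C.bM) * 17592186044416
        + ((C.zP + C.zM) * R.sx + C.err)))
      ≤ ((C.A : ℝ) - C.Q * R.p) * (R.fM + C.gM) + C.Q * 4194304 * R.qP + C.cP := by
    have := (Nat.cast_le (α := ℝ)).mpr hmain
    push_cast [Nat.cast_sub hQA] at this
    exact this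
  have hx2 : R.x ≤ π / 2 := by
    unfold Row.x
    have h2 : (R.p : ℝ) / 2 ^ 22 ≤ 1 / 4 := by
      rw [div_le_div_iff₀ (by positivity) (by positivity)]
      linarith
    nlinarith
  have hx0 := Row.x_pos hR
  have hx1 := Row.x_le hR
  have hs0 : 0 ≤ sin (R.x / 2) :=
    Real.sin_nonneg_of_nonneg_of_le_pi (by linarith) (by linarith)
  have hs1 : 0 ≤ sin R.x := Real.sin_nonneg_of_nonneg_of_le_pi (by linarith) (by linarith)
  have hf1 := (abs_le.mp hR.hf).2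
  refine head0 C.par hx0 hx2 ?_ rfl rfl rfl ?_ ?_ ?_ hz0 hz1
  · show 0 ≤ 1 / π
    positivity
  · rw [R.x_div]
    show (R.p : ℝ) / 2 ^ 22 ≤ (C.A : ℝ) / (C.Q * 2 ^ 22)
    rw [div_le_div_iff₀ (by positivity) (by positivity)]
    nlinarith
  · show fp R.x + ((C.gP : ℝ) - C.gM) / 2 ^ 44 ≤ 0
    have h1 : (fp R.x + ((C.gP : ℝ) - C.gM) / 2 ^ 44) * 2 ^ 44 ≤ 0 := by
      have : (fp R.x + ((C.gP : ℝ) - C.gM) / 2 ^ 44) * 2 ^ 44
          = fp R.x * 2 ^ 44 + ((C.gP : ℝ) - C.gM) := by field_simp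
      rw [this]
      linarith
    by_contra hcon
    rw [not_le] at hcon
    have := mul_pos hcon (show (0 : ℝ) < 2 ^ 44 by positivity)
    linarith
  · have hsc : ((R.x / (2 * π) - C.par.r) * (fp R.x + C.par.g) + C.par.nu * cos R.x + C.par.c
        - |C.par.a1| * sin (R.x / 2) - |C.par.b1| - |C.par.a2| * sin R.x - |C.par.b2|
        - |C.par.a3| - |C.par.b3|) * (C.Q * 2 ^ 66)
        = ((C.Q : ℝ) * R.p - C.A) * (fp R.x * 2 ^ 44 + ((C.gP : ℝ) - C.gM))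
        + (C.Q * 2 ^ 22) * (cos R.x / π * 2 ^ 44) + ((C.cP : ℝ) - C.cM)
        - |(C.aP : ℝ) - C.aM| * (sin (R.x / 2) * 2 ^ 44) - |(C.bP : ℝ) - C.bM| * 2 ^ 44
        - |(C.zP : ℝ) - C.zM| * (sin R.x * 2 ^ 44) := by
      have hD : (0 : ℝ) < C.Q * 2 ^ 22 := by positivity
      rw [R.x_div]
      unfold QC.par
      simp only [abs_div, abs_of_pos hD, abs_zero]
      field_simp
      ring
    have hv0 : (C.Q : ℝ) * R.p - C.A ≤ 0 := by linarith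
    have hA' : (C.A : ℝ) ≤ C.Q * 4194304 := by exact_mod_cast hA
    have hp0 : (0 : ℝ) ≤ R.p := Nat.cast_nonneg _
    have hv1 : -(C.Q * 4194304 : ℝ) ≤ (C.Q : ℝ) * R.p - C.A := by
      have h2 : 0 ≤ (C.Q : ℝ) * R.p := mul_nonneg hQ'.le hp0
      linarith
    have herr : (C.err : ℝ) = 16 * (C.Q * 8388608 + ((C.aP + C.aM) + ((C.bP + C.bM)
        + (C.zP + C.zM)))) := by
      unfold QC.err
      simp only [Nat.mul_eq, Nat.add_eq]
      push_cast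
      ring
    have hf2 := (abs_le.mp hR.hf).2
    have hq1 := (abs_le.mp hR.hq).1
    have hs2 := (abs_le.mp hR.hs).2
    have hsx2 := (abs_le.mp hR.hsx).2
    have ea := abs_cast_sub C.aP C.aM
    have eb := abs_cast_sub C.bP C.bM
    have ez := abs_cast_sub C.zP C.zM
    have e1 : ((C.Q : ℝ) * R.p - C.A) * (((R.fP : ℝ) - R.fM) + ((C.gP : ℝ) - C.gM))
        - C.Q * 4194304 * 16
        ≤ ((C.Q : ℝ) * R.p - C.A) * (fp R.x * 2 ^ 44 + ((C.gP : ℝ) - C.gM)) := by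
      have h5 := mul_le_mul_of_nonpos_left hf2 hv0
      linarith
    have e2 : (C.Q * 2 ^ 22 : ℝ) * ((R.qP : ℝ) - R.qM) - C.Q * 4194304 * 16
        ≤ (C.Q * 2 ^ 22) * (cos R.x / π * 2 ^ 44) := by
      have hD : (0 : ℝ) ≤ C.Q * 2 ^ 22 := by positivity
      have := mul_le_mul_of_nonneg_left hq1 hD
      linarith
    have e3 : |(C.aP : ℝ) - C.aM| * (sin (R.x / 2) * 2 ^ 44) ≤ (C.aP + C.aM) * (R.s + 16) :=
      mul_le_mul ea (by linarith) (by positivity) (by positivity)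
    have e4 : |(C.zP : ℝ) - C.zM| * (sin R.x * 2 ^ 44) ≤ (C.zP + C.zM) * (R.sx + 16) :=
      mul_le_mul ez (by linarith) (by positivity) (by positivity)
    have hge : 0 ≤ ((R.x / (2 * π) - C.par.r) * (fp R.x + C.par.g) + C.par.nu * cos R.x
        + C.par.c - |C.par.a1| * sin (R.x / 2) - |C.par.b1| - |C.par.a2| * sin R.x - |C.par.b2|
        - |C.par.a3| - |C.par.b3|) * (C.Q * 2 ^ 66) := by
      rw [hsc]
      have hb0 : (0 : ℝ) ≤ C.bP + C.bM := by positivity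
      linarith [e1, e2, e3, e4, hmain', herr, eb]
    exact nonneg_of_mul_nonneg_left hge (by positivity)

theorem chain_sound {T : Tr} (hT : T.OK) {C : QC} (hQ : 1 ≤ C.Q) (hA : C.A ≤ C.Q * 4194304)
    {z : ℝ} (hz0 : -1 ≤ z) (hz1 : z ≤ 1) (l : List ℕ) :
    ∀ (R : Row), R.OK → QC.chain T C C.err C.B3 R l = true →
      ∀ x, R.x < x → x ≤ π → 0 ≤ Psi C.par x z := by
  induction l with
  | nil =>
    intro R hR h x hx hx1
    exfalso
    unfold QC.chain at h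
    rw [Nat.beq_eq] at h
    have : R.x = π := by
      unfold Row.x
      rw [h]
      norm_num
      ring
    rw [this] at hx
    linarith
  | cons i l ih =>
    intro R hR h x hx hx1
    unfold QC.chain at h
    rw [Bool.and_eq_true] at h
    rcases le_or_gt x (T.get i).x with h1 | h1
    · exact cellOK_sound hQ hA hR (Tr.get_ok hT i) h.1 hz0 hz1 x hx.le h1
    · exact ih (T.get i) (Tr.get_ok hT i) h.2 x h1 hx1

theorem half_sound {T : Tr} (hT : T.OK) {C : QC} (hQ : 1 ≤ C.Q) (hA : C.A ≤ C.Q * 4194304)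
    {i : ℕ} {l : List ℕ} (h : QC.half T C i l = true) : HalfGood C.par := by
  intro x hx0 hx1 z hz0 hz1
  unfold QC.half at h
  rw [Bool.and_eq_true] at h
  rcases le_or_gt x (T.get i).x with h1 | h1
  · exact headOK_sound hQ hA (Tr.get_ok hT i) h.1 hz0 hz1 x hx0 h1
  · exact chain_sound hT hQ hA hz0 hz1 l _ (Tr.get_ok hT i) h.2 x h1 hx1

theorem mirror_par {C : QC} (hQ : 1 ≤ C.Q) (hA : C.A ≤ C.Q * 4194304) :
    C.mirror.par = C.par.mirror := by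
  have hQ' : (0 : ℝ) < C.Q := by exact_mod_cast hQ
  unfold QC.mirror QC.par Par.mirror
  simp only [Nat.mul_eq, Nat.sub_eq]
  congr 1
  · rw [Nat.cast_sub hA]
    push_cast
    field_simp
    norm_num
  · ring
  · ring
  · simp
  · ring
  · simp
  · simp

/-- SUBTASK K: soundness of the engine. -/
theorem QD.sound {T : Tr} (hT : T.OK) {D : QD} (h : D.chk T = true) : Good D.C.par := by
  unfold QD.chk at h
  simp only [Bool.and_eq_true, Nat.mul_eq, Nat.ble_eq] at h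
  obtain ⟨⟨⟨hQ, hA⟩, h1⟩, h2⟩ := h
  refine good_of_half (half_sound hT hQ hA h1) ?_
  rw [← mirror_par hQ hA]
  refine half_sound hT ?_ ?_ h2
  · exact hQ
  · exact Nat.sub_le _ _

end Pool.Agent.H999.LimCC
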