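import Pool.Agent.H999.LimCC.SumsA
import Pool.Agent.H999.LimCC.CostNonneg

set_option autoImplicit false

namespace Pool.Agent.H999.LimCC

open Real Finset

namespace Cfg

variable {N : ℕ} (c : Cfg N)

/-- SUBTASK J4: exclusion by exact certificates -/
theorem no_cfg_of_certs (hN : 2 ≤ N) (nu r1 r2 r3 : ℝ) (P : ℕ → Par)
    (hP : ∀ k ∈ Finset.Icc 1 (N / 2), Good (P k) ∧ (P k).r = k / N ∧ (P k).nu = nu ∧
      (P k).r1 = r1 ∧ (P k).r2 = r2 ∧ (P k).r3 = r3)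
    (hb2 : ∑ k ∈ Finset.Icc 1 (N / 2), (if 2 * k = N then (1 : ℝ) else 2) * (P k).b2 = 0)
    (hb3 : ∑ k ∈ Finset.Icc 1 (N / 2), (if 2 * k = N then (1 : ℝ) else 2) * (P k).b3 = 0)
    (hfin : nu * (N * c.t ^ 2 - 1)
      + ∑ k ∈ Finset.Icc 1 (N / 2), (if 2 * k = N then (1 : ℝ) else 2) * ((P k).c - (P k).b1 * c.t)
        < 0) : False := by
  classical
  set w : ℕ → ℝ := fun k => if 2 * k = N then (1 : ℝ) else 2 with hw
  have hw0 : ∀ k, 0 ≤ w k := by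
    intro k
    simp only [hw]
    split_ifs <;> norm_num
  have hN1 : 1 ≤ N := by omega
  have hk : ∀ k ∈ Finset.Icc 1 (N / 2), 1 ≤ k ∧ k < N := by
    intro k hk
    rw [Finset.mem_Icc] at hk
    exact ⟨hk.1, by omega⟩
  have hkey : ∀ k ∈ Finset.Icc 1 (N / 2), 0 ≤ w k * (c.sA k + nu * c.sC k + r1 * c.sR 1 k
      + r2 * c.sR 2 k + r3 * c.sR 3 k + N * ((P k).c - (P k).b1 * c.t) - (P k).b2 * c.sT 2
      - (P k).b3 * c.sT 3) := by
    intro k hk'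
    obtain ⟨hg, e1, e2, e3, e4, e5⟩ := hP k hk'
    have h := c.good_sum hN1 (hk k hk').1 (hk k hk').2 hg
    rw [e1, e2, e3, e4, e5, sub_self] at h
    refine mul_nonneg (hw0 k) ?_
    linarith
  have hsum := Finset.sum_nonneg hkey
  have fold : ∀ f : ℕ → ℝ, (∀ k, 1 ≤ k → k < N → f (N - k) = f k) →
      ∑ k ∈ Finset.Icc 1 (N / 2), w k * f k = ∑ k ∈ Finset.Ico 1 N, f k :=
    fun f hf => (sum_fold f hf).symm
  have fA := fold c.sA (fun k h1 h2 => c.sA_symm hN1 h1 h2)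
  have fC := fold c.sC (fun k h1 h2 => c.sC_symm hN1 h1 h2)
  have fR : ∀ n, ∑ k ∈ Finset.Icc 1 (N / 2), w k * c.sR n k = ∑ k ∈ Finset.Ico 1 N, c.sR n k :=
    fun n => fold (c.sR n) (fun k h1 h2 => c.sR_symm n h1 h2)
  rw [c.sum_sA hN1] at fA
  rw [c.sum_sC hN1] at fC
  have fR1 := fR 1
  have fR2 := fR 2
  have fR3 := fR 3
  rw [c.sum_sR] at fR1 fR2 fR3
  have hexp : ∑ k ∈ Finset.Icc 1 (N / 2), w k * (c.sA k + nu * c.sC k + r1 * c.sR 1 k
      + r2 * c.sR 2 k + r3 * c.sR 3 k + N * ((P k).c - (P k).b1 * c.t) - (P k).b2 * c.sT 2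
      - (P k).b3 * c.sT 3)
      = ∑ k ∈ Finset.Icc 1 (N / 2), w k * c.sA k
        + nu * ∑ k ∈ Finset.Icc 1 (N / 2), w k * c.sC k
        + r1 * ∑ k ∈ Finset.Icc 1 (N / 2), w k * c.sR 1 k
        + r2 * ∑ k ∈ Finset.Icc 1 (N / 2), w k * c.sR 2 k
        + r3 * ∑ k ∈ Finset.Icc 1 (N / 2), w k * c.sR 3 k
        + N * ∑ k ∈ Finset.Icc 1 (N / 2), w k * ((P k).c - (P k).b1 * c.t)
        - (∑ k ∈ Finset.Icc 1 (N / 2), w k * (P k).b2) * c.sT 2
        - (∑ k ∈ Finset.Icc 1 (N / 2), w k * (P k).b3) * c.sT 3 := by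
    simp only [Finset.mul_sum, Finset.sum_mul]
    rw [← Finset.sum_add_distrib, ← Finset.sum_add_distrib, ← Finset.sum_add_distrib,
      ← Finset.sum_add_distrib, ← Finset.sum_add_distrib, ← Finset.sum_sub_distrib,
      ← Finset.sum_sub_distrib]
    refine Finset.sum_congr rfl fun k _ => ?_
    ring
  rw [hexp, fA, fC, fR1, fR2, fR3, hb2, hb3] at hsum
  have hNpos : (0 : ℝ) < N := by
    have : 0 < N := by omega
    exact_mod_cast this
  have hmul := mul_neg_of_pos_of_neg hNpos hfin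
  nlinarith

end Cfg

end Pool.Agent.H999.LimCC
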