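import Pool.Agent.H999.LimCC.SumsA
import Pool.Agent.H999.LimCC.CostNonneg

set_option autoImplicit false

namespace Pool.Agent.H999.LimCC

open Real Finset

namespace Cfg

variable {N : ℕ} (c : Cfg N)

/-- normalised mean cost of the `k`-gaps -/
noncomputable def sL (k : ℕ) : ℝ := (c.sA k + c.sC k / π) / N - cos (2 * π * k / N) / π

theorem sL_symm (hN : 1 ≤ N) {k : ℕ} (hk1 : 1 ≤ k) (hk2 : k < N) : c.sL (N - k) = c.sL k := by
  have hN0 : (N : ℝ) ≠ 0 := by positivity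
  unfold sL
  rw [c.sA_symm hN hk1 hk2, c.sC_symm hN hk1 hk2, Nat.cast_sub hk2.le]
  have h : 2 * π * ((N : ℝ) - k) / N = 2 * π - 2 * π * k / N := by
    field_simp
  rw [h, Real.cos_two_pi_sub]

/-- the sum of the costs -/
theorem sum_cost (hN : 1 ≤ N) (k : ℕ) :
    ∑ j ∈ range N, cost (π * k / N) (c.gap k (j : ℤ) / 2) = 2 * π * (N * c.sL k) := by
  have hN0 : (N : ℝ) ≠ 0 := by positivity
  have hπ := Real.pi_ne_zero
  set η : ℝ := π * k / N with hη
  have h2η : 2 * π * k / N = 2 * η := by rw [hη]; ring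
  have h0 := c.sum_gap_sub hN k
  have h1 : ∀ j ∈ range N, cost η (c.gap k (j : ℤ) / 2) =
      2 * π * ((c.gap k (j : ℤ) / (2 * π) - k / N) * fp (c.gap k (j : ℤ))) +
        2 * cos (c.gap k (j : ℤ)) - 2 * cos (2 * η) +
        (2 * sin (2 * η) - fp (2 * η)) * (c.gap k (j : ℤ) - 2 * π * k / N) := by
    intro j _
    have e1 : 2 * (c.gap k (j : ℤ) / 2) = c.gap k (j : ℤ) := by ring
    have e2 : 2 * π * ((c.gap k (j : ℤ) / (2 * π) - k / N) * fp (c.gap k (j : ℤ))) =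
        (c.gap k (j : ℤ) - 2 * η) * fp (c.gap k (j : ℤ)) := by
      rw [← h2η]
      field_simp
    unfold cost
    rw [e1, e2, h2η]
    ring
  rw [Finset.sum_congr rfl h1, Finset.sum_add_distrib, Finset.sum_sub_distrib,
    Finset.sum_add_distrib, ← Finset.mul_sum, ← Finset.mul_sum, ← Finset.mul_sum,
    ← Finset.mul_sum, h0]
  simp only [Finset.sum_const, Finset.card_range, nsmul_eq_mul, mul_zero, add_zero]
  change 2 * π * c.sA k + 2 * c.sC k - _ = _
  unfold sL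
  rw [h2η]
  field_simp

/-- SUBTASK J5 -/
theorem sL_nonneg (hN : 1 ≤ N) {k : ℕ} (hk1 : 1 ≤ k) (hk2 : k < N) : 0 ≤ c.sL k := by
  have hN0 : (0 : ℝ) < N := by
    have : 0 < N := by omega
    exact_mod_cast this
  have hπ := Real.pi_pos
  have main : ∀ k : ℕ, 1 ≤ k → k < N → 2 * k ≤ N → 0 ≤ c.sL k := by
    intro k hk1 hk2 hk
    have hk0 : (0 : ℝ) < k := by
      have : 0 < k := by omega
      exact_mod_cast this
    have h1 := c.sum_cost hN k
    have h2 : 0 ≤ ∑ j ∈ range N, cost (π * k / N) (c.gap k (j : ℤ) / 2) := by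
      apply Finset.sum_nonneg
      intro j _
      apply cost_nonneg
      · positivity
      · rw [div_le_iff₀ hN0]
        have : (2 * k : ℝ) ≤ N := by exact_mod_cast hk
        nlinarith
      · have := c.gap_pos hk1 (j : ℤ)
        linarith
      · have := c.gap_lt hk2 (j : ℤ)
        linarith
    rw [h1] at h2
    have h3 : 0 < 2 * π * N := by positivity
    have h4 : 2 * π * (N * c.sL k) = (2 * π * N) * c.sL k := by ring
    rw [h4] at h2
    exact nonneg_of_mul_nonneg_right h2 h3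
  by_cases h : 2 * k ≤ N
  · exact main k hk1 hk2 h
  · rw [← c.sL_symm hN hk1 hk2]
    exact main (N - k) (by omega) (by omega) (by omega)

theorem sum_cos_roots (hN : 2 ≤ N) : ∑ k ∈ Finset.Ico 1 N, cos (2 * π * k / N) = -1 := by
  have hN0 : (N : ℂ) ≠ 0 := by
    have : N ≠ 0 := by omega
    exact_mod_cast this
  have h1 := (Complex.isPrimitiveRoot_exp N (by omega)).geom_sum_eq_zero (by omega)
  have h2 : ∑ k ∈ range N, cos (2 * π * k / N) = 0 := by
    have h3 := congrArg Complex.re h1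
    rw [Complex.re_sum, Complex.zero_re] at h3
    rw [← h3]
    apply Finset.sum_congr rfl
    intro k _
    rw [← Complex.exp_nat_mul]
    have e : (k : ℂ) * (2 * (π : ℂ) * Complex.I / N) = ((2 * π * k / N : ℝ) : ℂ) * Complex.I := by
      push_cast
      ring
    rw [e, Complex.exp_ofReal_mul_I_re]
  rw [Finset.range_eq_Ico, ← Finset.sum_Ico_consecutive _ (Nat.zero_le 1) (by omega)] at h2
  simp only [Nat.Ico_zero_eq_range, Finset.range_one, Finset.sum_singleton, Nat.cast_zero, mul_zero,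
    zero_div, Real.cos_zero] at h2
  linarith

theorem sum_sL (hN : 2 ≤ N) : ∑ k ∈ Finset.Ico 1 N, c.sL k = N * c.t ^ 2 / π := by
  have hN0 : (N : ℝ) ≠ 0 := by
    have : N ≠ 0 := by omega
    exact_mod_cast this
  have hπ := Real.pi_ne_zero
  unfold sL
  rw [Finset.sum_sub_distrib, ← Finset.sum_div, ← Finset.sum_div, Finset.sum_add_distrib,
    ← Finset.sum_div, c.sum_sA (by omega), c.sum_sC (by omega), sum_cos_roots hN]
  field_simp
  ring

/-- SUBTASK J6: lower bound of `sL` from two neighbouring certificates -/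
theorem sL_lower (hN : 1 ≤ N) {k : ℕ} (hk1 : 1 ≤ k) (hk2 : k < N) {P Q : Par} (hP : Good P)
    (hQ : Good Q) (hPn : P.nu = 1 / π) (hQn : Q.nu = 1 / π)
    (hP1 : P.r1 = 0) (hP2 : P.r2 = 0) (hP3 : P.r3 = 0) (hPb2 : P.b2 = 0) (hPb3 : P.b3 = 0)
    (hQ1 : Q.r1 = 0) (hQ2 : Q.r2 = 0) (hQ3 : Q.r3 = 0) (hQb2 : Q.b2 = 0) (hQb3 : Q.b3 = 0)
    {w : ℝ} (hw0 : 0 ≤ w) (hw1 : w ≤ 1) (hr : (1 - w) * P.r + w * Q.r = k / N) :
    (1 - w) * (P.b1 * c.t - P.c) + w * (Q.b1 * c.t - Q.c)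
      - w * (1 - w) * (Q.r - P.r) * (P.g - Q.g) - cos (2 * π * k / N) / π ≤ c.sL k := by
  have hN0 : (0 : ℝ) < N := by
    have : 0 < N := by omega
    exact_mod_cast this
  have h1 := c.good_sum hN hk1 hk2 hP
  have h2 := c.good_sum hN hk1 hk2 hQ
  rw [hPn, hP1, hP2, hP3, hPb2, hPb3] at h1
  rw [hQn, hQ1, hQ2, hQ3, hQb2, hQb3] at h2
  have e1 : (k : ℝ) / N - P.r = w * (Q.r - P.r) := by rw [← hr]; ring
  have e2 : (k : ℝ) / N - Q.r = -((1 - w) * (Q.r - P.r)) := by rw [← hr]; ring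
  rw [e1] at h1
  rw [e2] at h2
  have h3 := add_nonneg (mul_nonneg (by linarith : 0 ≤ 1 - w) h1) (mul_nonneg hw0 h2)
  have h4 : ((1 - w) * (P.b1 * c.t - P.c) + w * (Q.b1 * c.t - Q.c)
      - w * (1 - w) * (Q.r - P.r) * (P.g - Q.g)) * N ≤ c.sA k + c.sC k / π := by
    have e3 : c.sC k / π = 1 / π * c.sC k := by ring
    rw [e3]
    linarith
  have h5 : (1 - w) * (P.b1 * c.t - P.c) + w * (Q.b1 * c.t - Q.c)
      - w * (1 - w) * (Q.r - P.r) * (P.g - Q.g) ≤ (c.sA k + c.sC k / π) / N := by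
    rw [le_div_iff₀ hN0]
    exact h4
  unfold sL
  linarith

end Cfg

end Pool.Agent.H999.LimCC
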