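import Pool.Agent.H999.LimCC.Assembly
import Pool.Agent.H999.LimCC.EngineSound
import Pool.Agent.H999.LimCC.SumsB
import Pool.Agent.H999.LimCC.SumsC

set_option autoImplicit false

namespace Pool.Agent.H999.LimCC

open Real


namespace FDL

/-- dummy certificate -/
def d0 : QD := ⟨⟨0, 0, 0, 0, 0, 0, 0, 0, 0, 0, 0, 0⟩, 0, [], 0, []⟩

theorem shape_get {N : ℕ} : ∀ (l : List QD) (k : ℕ), FD.shape N k l = true → ∀ i < l.length,
    (l.getD i d0).C.Q = N ∧ (l.getD i d0).C.A = (k + i) * 4194304 := by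
  intro l
  induction l with
  | nil => intro k _ i hi; simp at hi
  | cons D l ih =>
    intro k h i hi
    unfold FD.shape at h
    rw [Bool.and_eq_true, Bool.and_eq_true] at h
    obtain ⟨⟨h1, h2⟩, h3⟩ := h
    cases i with
    | zero => exact ⟨Nat.eq_of_beq_eq_true h1, by simpa using Nat.eq_of_beq_eq_true h2⟩
    | succ i =>
      have := ih (k+1) h3 i (by simpa using hi)
      rw [List.getD_cons_succ]
      refine ⟨this.1, ?_⟩
      rw [this.2]; ring

theorem get_chk {T : Tr} (l : List QD) (h : l.all (fun D => D.chk T) = true) (i : ℕ)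
    (hi : i < l.length) : (l.getD i d0).chk T = true := by
  rw [List.all_eq_true] at h
  rw [List.getD_eq_getElem l d0 hi]
  exact h _ (List.getElem_mem hi)

theorem sumB_eq (N : ℕ) : ∀ (l : List QD) (k : ℕ), ((FD.sumB N k l : ℤ) : ℝ) =
    ∑ i ∈ Finset.range l.length, (if 2 * (k + i) = N then (1 : ℝ) else 2) *
      ((l.getD i d0).C.bI : ℝ) := by
  intro l
  induction l with
  | nil => intro k; simp [FD.sumB]
  | cons D l ih =>
    intro k
    rw [FD.sumB, List.length_cons, Finset.sum_range_succ', Int.cast_add, ih, add_comm]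
    congr 1
    · refine Finset.sum_congr rfl (fun i _ => ?_)
      rw [List.getD_cons_succ, show k + 1 + i = k + (i + 1) by ring]
    · rw [List.getD_cons_zero, add_zero]
      push_cast
      split_ifs <;> rfl

theorem sumC_eq (N : ℕ) : ∀ (l : List QD) (k : ℕ), ((FD.sumC N k l : ℤ) : ℝ) =
    ∑ i ∈ Finset.range l.length, (if 2 * (k + i) = N then (1 : ℝ) else 2) *
      ((l.getD i d0).C.cI : ℝ) := by
  intro l
  induction l with
  | nil => intro k; simp [FD.sumC]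
  | cons D l ih =>
    intro k
    rw [FD.sumC, List.length_cons, Finset.sum_range_succ', Int.cast_add, ih, add_comm]
    congr 1
    · refine Finset.sum_congr rfl (fun i _ => ?_)
      rw [List.getD_cons_succ, show k + 1 + i = k + (i + 1) by ring]
    · rw [List.getD_cons_zero, add_zero]
      push_cast
      split_ifs <;> rfl

theorem VL_le : (VL : ℝ) ≤ 2 ^ 44 * (1 / π) := by
  have h := Real.pi_lt_d20
  have h0 := Real.pi_pos
  rw [mul_one_div, le_div_iff₀ h0]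
  unfold VL
  push_cast
  nlinarith

theorem le_VU : 2 ^ 44 * (1 / π) ≤ (VU : ℝ) := by
  have h := Real.pi_gt_d20
  have h0 := Real.pi_pos
  rw [mul_one_div, div_le_iff₀ h0]
  unfold VU
  push_cast
  nlinarith

theorem sum_Icc_shift (m : ℕ) (g : ℕ → ℝ) :
    ∑ k ∈ Finset.Icc 1 m, g k = ∑ i ∈ Finset.range m, g (1 + i) := by
  have e : Finset.Icc 1 m = Finset.Ico 1 (m + 1) := by
    ext k; simp only [Finset.mem_Icc, Finset.mem_Ico]; omega
  rw [e, Finset.sum_Ico_eq_sum_range, Nat.add_sub_cancel]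

/-- the inequality at an end point -/
theorem ineq_real {N Tt : ℕ} {B S : ℤ} (hN : 2 ≤ N) (h : FD.ineq N Tt B S = true) :
    (1 / π) * (N * ((Tt : ℝ) / 2 ^ 20) ^ 2 - 1)
      + ((S : ℝ) / (N * 2 ^ 66) - (B : ℝ) / (N * 2 ^ 22) * ((Tt : ℝ) / 2 ^ 20)) < 0 := by
  unfold FD.ineq at h
  rw [decide_eq_true_eq] at h
  have h' : ((N : ℝ) * N * (Tt * Tt) * VU - N * VL * 2 ^ 40 + S * 2 ^ 18 - Tt * B * 2 ^ 42) < 0 := by
    exact_mod_cast h
  have hN0 : (0 : ℝ) < N := by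
    have : 0 < N := by omega
    exact_mod_cast this
  have h1 := VL_le
  have h2 := le_VU
  have h3 : (N : ℝ) * N * (Tt * Tt) * (2 ^ 44 * (1 / π)) ≤ (N : ℝ) * N * (Tt * Tt) * VU :=
    mul_le_mul_of_nonneg_left h2 (by positivity)
  have h4 : (N : ℝ) * VL * 2 ^ 40 ≤ (N : ℝ) * (2 ^ 44 * (1 / π)) * 2 ^ 40 :=
    mul_le_mul_of_nonneg_right (mul_le_mul_of_nonneg_left h1 hN0.le) (by positivity)
  have h5 : ((N : ℝ) * 2 ^ 84) * ((1 / π) * (N * ((Tt : ℝ) / 2 ^ 20) ^ 2 - 1)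
      + ((S : ℝ) / (N * 2 ^ 66) - (B : ℝ) / (N * 2 ^ 22) * ((Tt : ℝ) / 2 ^ 20))) =
      (N : ℝ) * N * (Tt * Tt) * (2 ^ 44 * (1 / π)) - (N : ℝ) * (2 ^ 44 * (1 / π)) * 2 ^ 40
        + S * 2 ^ 18 - Tt * B * 2 ^ 42 := by
    have hπ := Real.pi_ne_zero
    field_simp
    ring
  have h6 : ((N : ℝ) * 2 ^ 84) * ((1 / π) * (N * ((Tt : ℝ) / 2 ^ 20) ^ 2 - 1)
      + ((S : ℝ) / (N * 2 ^ 66) - (B : ℝ) / (N * 2 ^ 22) * ((Tt : ℝ) / 2 ^ 20))) < 0 := by
    rw [h5]; linarith
  have h7 : (0 : ℝ) < (N : ℝ) * 2 ^ 84 := by positivity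
  by_contra hc
  rw [not_lt] at hc
  have := mul_nonneg h7.le hc
  linarith

/-- a convex quadratic function -/
theorem quad_neg {a b c t tl th : ℝ} (ha : 0 ≤ a) (h1 : tl ≤ t) (h2 : t ≤ th)
    (hl : a * tl ^ 2 + b * tl + c < 0) (hh : a * th ^ 2 + b * th + c < 0) :
    a * t ^ 2 + b * t + c < 0 := by
  rcases h1.eq_or_lt with h | h
  · rw [← h]; exact hl
  · have hd : 0 < th - tl := by linarith
    have e : (a * t ^ 2 + b * t + c) * (th - tl) = (a * tl ^ 2 + b * tl + c) * (th - t) +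
        (a * th ^ 2 + b * th + c) * (t - tl) - a * ((th - tl) * ((t - tl) * (th - t))) := by ring
    have e1 : (a * tl ^ 2 + b * tl + c) * (th - t) ≤ 0 :=
      mul_nonpos_of_nonpos_of_nonneg hl.le (by linarith)
    have e2 : (a * th ^ 2 + b * th + c) * (t - tl) < 0 := mul_neg_of_neg_of_pos hh (by linarith)
    have e3 : 0 ≤ a * ((th - tl) * ((t - tl) * (th - t))) :=
      mul_nonneg ha (mul_nonneg hd.le (mul_nonneg (by linarith) (by linarith)))
    have e4 : (a * t ^ 2 + b * t + c) * (th - tl) < 0 := by rw [e]; linarith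
    by_contra hc
    rw [not_lt] at hc
    have := mul_nonneg hc hd.le
    linarith

end FDL

open FDL in
/-- SUBTASK L: exclusion by exact certificates for one `N`. -/
theorem FD.sound {T : Tr} (hT : T.OK) {F : FD} (h : F.chk T = true) (c : Cfg F.N)
    (h1 : (F.Tl : ℝ) / 2 ^ 20 ≤ c.t) (h2 : c.t ≤ (F.Th : ℝ) / 2 ^ 20) : False := by
  unfold FD.chk at h
  simp only [Bool.and_eq_true] at h
  obtain ⟨⟨⟨⟨⟨hN, hlen⟩, hshape⟩, hall⟩, hil⟩, hih⟩ := h
  have hN : 2 ≤ F.N := Nat.le_of_ble_eq_true hN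
  have hlen : F.ds.length = F.N / 2 := Nat.eq_of_beq_eq_true hlen
  have hN0 : (0 : ℝ) < F.N := by
    have : 0 < F.N := by omega
    exact_mod_cast this
  set P : ℕ → Par := fun k => (F.ds.getD (k - 1) d0).C.par with hP
  have hget : ∀ k ∈ Finset.Icc 1 (F.N / 2), k - 1 < F.ds.length ∧ 1 + (k - 1) = k := by
    intro k hk
    rw [Finset.mem_Icc] at hk
    omega
  have hQ : ∀ k ∈ Finset.Icc 1 (F.N / 2), ((F.ds.getD (k - 1) d0).C.Q : ℝ) = F.N := by
    intro k hk
    rw [(shape_get F.ds 1 hshape (k - 1) (hget k hk).1).1]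
  have hc : ∀ k ∈ Finset.Icc 1 (F.N / 2),
      (P k).c = ((F.ds.getD (k - 1) d0).C.cI : ℝ) / (F.N * 2 ^ 66) := by
    intro k hk
    simp only [hP, QC.par, QC.cI]
    rw [hQ k hk]
    push_cast
    ring
  have hb : ∀ k ∈ Finset.Icc 1 (F.N / 2),
      (P k).b1 = ((F.ds.getD (k - 1) d0).C.bI : ℝ) / (F.N * 2 ^ 22) := by
    intro k hk
    simp only [hP, QC.par, QC.bI]
    rw [hQ k hk]
    push_cast
    ring
  refine c.no_cfg_of_certs hN (1 / π) 0 0 0 P ?_ ?_ ?_ ?_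
  · intro k hk
    refine ⟨QD.sound hT (get_chk F.ds hall (k - 1) (hget k hk).1), ?_, rfl, rfl, rfl, rfl⟩
    simp only [hP, QC.par]
    rw [hQ k hk, (shape_get F.ds 1 hshape (k - 1) (hget k hk).1).2, (hget k hk).2]
    push_cast
    field_simp
    norm_num
  · refine Finset.sum_eq_zero (fun k _ => ?_)
    show _ * (0 : ℝ) = 0
    rw [mul_zero]
  · refine Finset.sum_eq_zero (fun k _ => ?_)
    show _ * (0 : ℝ) = 0
    rw [mul_zero]
  · have hS : ∑ k ∈ Finset.Icc 1 (F.N / 2), (if 2 * k = F.N then (1 : ℝ) else 2) *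
        ((P k).c - (P k).b1 * c.t) = (FD.sumC F.N 1 F.ds : ℝ) / (F.N * 2 ^ 66) -
          (FD.sumB F.N 1 F.ds : ℝ) / (F.N * 2 ^ 22) * c.t := by
      rw [sumC_eq, sumB_eq, hlen, Finset.sum_div, Finset.sum_div, Finset.sum_mul,
        ← Finset.sum_sub_distrib, sum_Icc_shift]
      refine Finset.sum_congr rfl (fun i hi => ?_)
      have hk : 1 + i ∈ Finset.Icc 1 (F.N / 2) := by
        rw [Finset.mem_range] at hi
        rw [Finset.mem_Icc]
        omega
      rw [hc _ hk, hb _ hk, Nat.add_sub_cancel_left]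
      ring
    rw [hS]
    have e1 := ineq_real hN hil
    have e2 := ineq_real hN hih
    have hq := quad_neg (a := 1 / π * F.N) (b := -((FD.sumB F.N 1 F.ds : ℝ) / (F.N * 2 ^ 22)))
      (c := -(1 / π) + (FD.sumC F.N 1 F.ds : ℝ) / (F.N * 2 ^ 66)) (t := c.t)
      (tl := (F.Tl : ℝ) / 2 ^ 20) (th := (F.Th : ℝ) / 2 ^ 20)
      (by have := Real.pi_pos; positivity) h1 h2 (by linarith) (by linarith)
    linarith

end Pool.Agent.H999.LimCC
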