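import Pool.Agent.H999.LimCC.EngineG
import Pool.Agent.H999.LimCC.EngineSound

set_option autoImplicit false

namespace Pool.Agent.H999.LimCC

open Real

namespace GDS

theorem nn_iff {a : ℤ} : GC.nn a = true ↔ 0 ≤ a := by
  cases a with
  | ofNat n => simp [GC.nn]
  | negSucc n =>
    simp only [GC.nn, Bool.false_eq_true, false_iff, not_le]
    exact Int.negSucc_lt_zero n

theorem ab_cast (a : ℤ) : ((GC.ab a : ℤ) : ℝ) = |(a : ℝ)| := by
  unfold GC.ab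
  rw [← Int.cast_abs, Int.abs_eq_natAbs]

theorem ab_nonneg (a : ℤ) : 0 ≤ GC.ab a := by
  unfold GC.ab
  exact Int.natCast_nonneg _

/-- nonnegativity of cubics in Bernstein form -/
theorem bern_sound (k : ℕ) : ∀ b0 b1 b2 b3 : ℤ, GC.bern k b0 b1 b2 b3 = true →
    ∀ s : ℝ, 0 ≤ s → s ≤ 1 →
      0 ≤ (b0 : ℝ) * (1 - s) ^ 3 + 3 * b1 * s * (1 - s) ^ 2 + 3 * b2 * s ^ 2 * (1 - s)
        + b3 * s ^ 3 := by
  have base : ∀ b0 b1 b2 b3 : ℤ, 0 ≤ b0 → 0 ≤ b1 → 0 ≤ b2 → 0 ≤ b3 →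
      ∀ s : ℝ, 0 ≤ s → s ≤ 1 →
      0 ≤ (b0 : ℝ) * (1 - s) ^ 3 + 3 * b1 * s * (1 - s) ^ 2 + 3 * b2 * s ^ 2 * (1 - s)
        + b3 * s ^ 3 := by
    intro b0 b1 b2 b3 h0 h1 h2 h3 s hs0 hs1
    have h0' : (0 : ℝ) ≤ b0 := by exact_mod_cast h0
    have h1' : (0 : ℝ) ≤ b1 := by exact_mod_cast h1
    have h2' : (0 : ℝ) ≤ b2 := by exact_mod_cast h2
    have h3' : (0 : ℝ) ≤ b3 := by exact_mod_cast h3
    have hu : 0 ≤ 1 - s := by linarith
    positivity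
  induction k with
  | zero =>
    intro b0 b1 b2 b3 h
    simp only [GC.bern, Bool.and_eq_true, nn_iff] at h
    exact base _ _ _ _ h.1.1.1 h.1.1.2 h.1.2 h.2
  | succ k ih =>
    intro b0 b1 b2 b3 h s hs0 hs1
    simp only [GC.bern, Bool.and_eq_true, Bool.or_eq_true, nn_iff] at h
    obtain ⟨⟨h0, h3⟩, h12 | ⟨hl, hr⟩⟩ := h
    · exact base _ _ _ _ h0 h12.1 h12.2 h3 s hs0 hs1
    · rcases le_total s (1 / 2) with hs | hs
      · have h4 := ih _ _ _ _ hl (2 * s) (by linarith) (by linarith)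
        push_cast at h4
        nlinarith [h4]
      · have h4 := ih _ _ _ _ hr (2 * s - 1) (by linarith) (by linarith)
        push_cast at h4
        nlinarith [h4]

theorem x_div (R : RowG) : R.x / (2 * π) = R.p / 2 ^ 22 := by
  unfold RowG.x
  have := Real.pi_pos
  field_simp

/-- the value of the test function in the units of the checker -/
theorem psi_scaled (C : GC) (hQ : 1 ≤ C.Q) (R : RowG) (z : ℝ) :
    Psi C.par R.x z * (C.Q * 2 ^ 66)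
      = ((C.Q : ℝ) * R.p - C.A) * (fp R.x * 2 ^ 44 + C.g)
        + C.n * (cos R.x / π * 2 ^ 44) + C.c
        + z * (C.r1 * (sin (R.x / 2) * fp R.x * 2 ^ 44) + C.a1 * (sin (R.x / 2) * 2 ^ 44)
          - C.b1 * (cos (R.x / 2) * 2 ^ 44))
        + (2 * z ^ 2 - 1) * (C.r2 * (sin R.x * fp R.x * 2 ^ 44) + C.a2 * (sin R.x * 2 ^ 44)
          - C.b2 * (cos R.x * 2 ^ 44))
        + (4 * z ^ 3 - 3 * z) * (C.r3 * (sin (3 * (R.x / 2)) * fp R.x * 2 ^ 44)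
          + C.a3 * (sin (3 * (R.x / 2)) * 2 ^ 44) - C.b3 * (cos (3 * (R.x / 2)) * 2 ^ 44)) := by
  have hQ' : (0 : ℝ) < C.Q := by exact_mod_cast hQ
  have hpi := Real.pi_pos
  unfold Psi
  rw [x_div]
  unfold GC.par
  simp only
  generalize sin (3 * (R.x / 2)) = s3
  generalize cos (3 * (R.x / 2)) = c3
  generalize sin (R.x / 2) = s1
  generalize cos (R.x / 2) = c1
  generalize sin R.x = s2
  generalize cos R.x = c2
  generalize fp R.x = F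
  field_simp

/-- the integer approximation -/
noncomputable def app (C : GC) (R : RowG) (z : ℝ) : ℝ :=
  ((C.Q : ℝ) * R.p - C.A) * (R.f + C.g) + C.n * R.q + C.c
    + z * (C.r1 * R.sf + C.a1 * R.s - C.b1 * R.c)
    + (2 * z ^ 2 - 1) * (C.r2 * R.xf + C.a2 * R.sx - C.b2 * R.cx)
    + (4 * z ^ 3 - 3 * z) * (C.r3 * R.tf + C.a3 * R.s3 - C.b3 * R.c3)

theorem err_cast (C : GC) : ((C.err : ℤ) : ℝ) = 16 * (C.Q * 4194304 + |(C.n : ℝ)|)
    + 150 * (|(C.a1 : ℝ)| + |(C.b1 : ℝ)| + |(C.a2 : ℝ)| + |(C.b2 : ℝ)| + |(C.a3 : ℝ)|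
      + |(C.b3 : ℝ)|)
    + 10000 * (|(C.r1 : ℝ)| + |(C.r2 : ℝ)| + |(C.r3 : ℝ)|) := by
  unfold GC.err
  push_cast
  simp only [ab_cast]

theorem prod_low {a t u v B D : ℝ} (ht : |t| ≤ 1) (hu : |u - v| ≤ B) (hB : B ≤ D) :
    t * (a * v) - |a| * D ≤ t * (a * u) := by
  have h1 : |t * (a * (u - v))| ≤ |a| * D := by
    rw [abs_mul, abs_mul]
    calc |t| * (|a| * |u - v|) ≤ 1 * (|a| * |u - v|) :=
          mul_le_mul_of_nonneg_right ht (by positivity)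
      _ = |a| * |u - v| := one_mul _
      _ ≤ |a| * D := mul_le_mul_of_nonneg_left (hu.trans hB) (abs_nonneg _)
  have h2 := (abs_le.mp h1).1
  have h3 : t * (a * (u - v)) = t * (a * u) - t * (a * v) := by ring
  linarith

theorem prod_low' {a t u v B D : ℝ} (ht : |t| ≤ 1) (hu : |u - v| ≤ B) (hB : B ≤ D) :
    t * (-(a * v)) - |a| * D ≤ t * (-(a * u)) := by
  have := prod_low (a := -a) ht hu hB
  rw [abs_neg] at this
  linarith

/-- the main approximation: real value minus the integer value -/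
theorem psi_approx (C : GC) (hQ : 1 ≤ C.Q) (hA : C.A ≤ C.Q * 4194304) {R : RowG} (hR : R.OK)
    {z : ℝ} (hz0 : -1 ≤ z) (hz1 : z ≤ 1) :
    app C R z - C.err ≤ Psi C.par R.x z * (C.Q * 2 ^ 66) := by
  rw [psi_scaled C hQ R z, err_cast]
  have hQ' : (0 : ℝ) < C.Q := by exact_mod_cast hQ
  have hA' : (C.A : ℝ) ≤ C.Q * 4194304 := by exact_mod_cast hA
  have hp0 : (0 : ℝ) ≤ R.p := Nat.cast_nonneg _
  have hp' : (R.p : ℝ) ≤ 2 ^ 21 := by exact_mod_cast hR.p_le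
  have hA0 : (0 : ℝ) ≤ C.A := Nat.cast_nonneg _
  have hz : |z| ≤ 1 := abs_le.mpr ⟨hz0, hz1⟩
  have hz2 : |2 * z ^ 2 - 1| ≤ 1 := abs_le.mpr ⟨by nlinarith, by nlinarith⟩
  have hz3 : |4 * z ^ 3 - 3 * z| ≤ 1 := by
    refine abs_le.mpr ⟨?_, ?_⟩
    · have : 4 * z ^ 3 - 3 * z + 1 = (z + 1) * (2 * z - 1) ^ 2 := by ring
      have h2 : 0 ≤ (z + 1) * (2 * z - 1) ^ 2 := mul_nonneg (by linarith) (sq_nonneg _)
      linarith
    · have : 1 - (4 * z ^ 3 - 3 * z) = (1 - z) * (2 * z + 1) ^ 2 := by ring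
      have h2 : 0 ≤ (1 - z) * (2 * z + 1) ^ 2 := mul_nonneg (by linarith) (sq_nonneg _)
      linarith
  have hv : |(C.Q : ℝ) * R.p - C.A| ≤ C.Q * 4194304 := by
    have h1 : (C.Q : ℝ) * R.p ≤ C.Q * 2 ^ 21 := mul_le_mul_of_nonneg_left hp' hQ'.le
    have h2 : 0 ≤ (C.Q : ℝ) * R.p := mul_nonneg hQ'.le hp0
    rw [abs_le]
    constructor
    · linarith
    · linarith
  have e0 : ((C.Q : ℝ) * R.p - C.A) * R.f - C.Q * 4194304 * 16
      ≤ ((C.Q : ℝ) * R.p - C.A) * (fp R.x * 2 ^ 44) := by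
    have h1 : |((C.Q : ℝ) * R.p - C.A) * (fp R.x * 2 ^ 44 - R.f)| ≤ (C.Q : ℝ) * 4194304 * 16 := by
      rw [abs_mul]
      exact mul_le_mul hv hR.hf (abs_nonneg _) ((abs_nonneg _).trans hv)
    have h2 := (abs_le.mp h1).1
    have h3 : ((C.Q : ℝ) * R.p - C.A) * (fp R.x * 2 ^ 44 - R.f)
      = ((C.Q : ℝ) * R.p - C.A) * (fp R.x * 2 ^ 44) - ((C.Q : ℝ) * R.p - C.A) * R.f := by ring
    linarith
  have one : |(1 : ℝ)| ≤ 1 := by simp
  have e1 := prod_low (a := (C.n : ℝ)) one hR.hq (le_refl (16 : ℝ))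
  have f1 := prod_low (a := (C.r1 : ℝ)) hz hR.hsf (show (1100 : ℝ) ≤ 10000 by norm_num)
  have f2 := prod_low (a := (C.a1 : ℝ)) hz hR.hs (show (16 : ℝ) ≤ 150 by norm_num)
  have f3 := prod_low' (a := (C.b1 : ℝ)) hz hR.hc (show (16 : ℝ) ≤ 150 by norm_num)
  have g1 := prod_low (a := (C.r2 : ℝ)) hz2 hR.hxf (show (1100 : ℝ) ≤ 10000 by norm_num)
  have g2 := prod_low (a := (C.a2 : ℝ)) hz2 hR.hsx (show (16 : ℝ) ≤ 150 by norm_num)
  have g3 := prod_low' (a := (C.b2 : ℝ)) hz2 hR.hcx (show (70 : ℝ) ≤ 150 by norm_num)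
  have h1 := prod_low (a := (C.r3 : ℝ)) hz3 hR.htf (le_refl (10000 : ℝ))
  have h2 := prod_low (a := (C.a3 : ℝ)) hz3 hR.hs3 (le_refl (150 : ℝ))
  have h3 := prod_low' (a := (C.b3 : ℝ)) hz3 hR.hc3 (le_refl (150 : ℝ))
  unfold app
  linarith

theorem ptOK_sound {C : GC} (hQ : 1 ≤ C.Q) (hA : C.A ≤ C.Q * 4194304) {R : RowG} (hR : R.OK)
    {E : ℤ} (h : GC.ptOK C E R = true) {z : ℝ} (hz0 : -1 ≤ z) (hz1 : z ≤ 1) :
    ((E : ℝ) - C.err) / (C.Q * 2 ^ 66) ≤ Psi C.par R.x z := by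
  have hQ' : (0 : ℝ) < C.Q := by exact_mod_cast hQ
  rw [div_le_iff₀ (by positivity)]
  refine le_trans ?_ (psi_approx C hQ hA hR hz0 hz1)
  unfold GC.ptOK at h
  simp only at h
  have h1 := bern_sound 8 _ _ _ _ h ((1 + z) / 2) (by linarith) (by linarith)
  push_cast at h1
  have key : 3 * (app C R z - E) = 
      3 * (((C.Q : ℝ) * R.p - C.A) * (R.f + C.g) + C.n * R.q + C.c
        - (C.r2 * R.xf + C.a2 * R.sx - C.b2 * R.cx) - E
        - (C.r1 * R.sf + C.a1 * R.s - C.b1 * R.c - 3 * (C.r3 * R.tf + C.a3 * R.s3 - C.b3 * R.c3))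
        + 2 * (C.r2 * R.xf + C.a2 * R.sx - C.b2 * R.cx)
        - 4 * (C.r3 * R.tf + C.a3 * R.s3 - C.b3 * R.c3)) * (1 - (1 + z) / 2) ^ 3
      + 3 * (3 * (((C.Q : ℝ) * R.p - C.A) * (R.f + C.g) + C.n * R.q + C.c
        - (C.r2 * R.xf + C.a2 * R.sx - C.b2 * R.cx) - E)
        - (C.r1 * R.sf + C.a1 * R.s - C.b1 * R.c - 3 * (C.r3 * R.tf + C.a3 * R.s3 - C.b3 * R.c3))
        - 2 * (C.r2 * R.xf + C.a2 * R.sx - C.b2 * R.cx)
        + 3 * (4 * (C.r3 * R.tf + C.a3 * R.s3 - C.b3 * R.c3)))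
        * ((1 + z) / 2) * (1 - (1 + z) / 2) ^ 2
      + 3 * (3 * (((C.Q : ℝ) * R.p - C.A) * (R.f + C.g) + C.n * R.q + C.c
        - (C.r2 * R.xf + C.a2 * R.sx - C.b2 * R.cx) - E)
        + (C.r1 * R.sf + C.a1 * R.s - C.b1 * R.c - 3 * (C.r3 * R.tf + C.a3 * R.s3 - C.b3 * R.c3))
        - 2 * (C.r2 * R.xf + C.a2 * R.sx - C.b2 * R.cx)
        - 3 * (4 * (C.r3 * R.tf + C.a3 * R.s3 - C.b3 * R.c3)))
        * ((1 + z) / 2) ^ 2 * (1 - (1 + z) / 2)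
      + 3 * (((C.Q : ℝ) * R.p - C.A) * (R.f + C.g) + C.n * R.q + C.c
        - (C.r2 * R.xf + C.a2 * R.sx - C.b2 * R.cx) - E
        + (C.r1 * R.sf + C.a1 * R.s - C.b1 * R.c - 3 * (C.r3 * R.tf + C.a3 * R.s3 - C.b3 * R.c3))
        + 2 * (C.r2 * R.xf + C.a2 * R.sx - C.b2 * R.cx)
        + 4 * (C.r3 * R.tf + C.a3 * R.s3 - C.b3 * R.c3)) * ((1 + z) / 2) ^ 3 := by
    unfold app
    ring
  rw [← key] at h1
  linarith

theorem x_pos {R : RowG} (hR : R.OK) : 0 < R.x := by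
  unfold RowG.x
  have := Real.pi_pos
  have h : (0 : ℝ) < R.p := by exact_mod_cast hR.p_pos
  positivity

theorem x_le {R : RowG} (hR : R.OK) : R.x ≤ π := by
  unfold RowG.x
  have := Real.pi_pos
  have h : (R.p : ℝ) ≤ 2 ^ 21 := by exact_mod_cast hR.p_le
  have h2 : (R.p : ℝ) / 2 ^ 22 ≤ 1 / 2 := by
    rw [div_le_div_iff₀ (by positivity) (by positivity)]
    linarith
  nlinarith

theorem max_term (C : GC) (hQ : 1 ≤ C.Q) (R : RowG) :
    max ((C.A : ℝ) / (C.Q * 2 ^ 22) - R.p / 2 ^ 22) 0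
      = ((C.A - C.Q * R.p : ℕ) : ℝ) / (C.Q * 2 ^ 22) := by
  have hQ' : (0 : ℝ) < C.Q := by exact_mod_cast hQ
  rw [cast_sub_max]
  push_cast
  rcases le_total ((C.A : ℝ) - C.Q * R.p) 0 with h | h
  · have h2 : (C.A : ℝ) / (C.Q * 2 ^ 22) - R.p / 2 ^ 22 ≤ 0 := by
      have : (C.A : ℝ) / (C.Q * 2 ^ 22) - R.p / 2 ^ 22
          = ((C.A : ℝ) - C.Q * R.p) / (C.Q * 2 ^ 22) := by field_simp
      rw [this]
      exact div_nonpos_of_nonpos_of_nonneg h (by positivity)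
    rw [max_eq_right h, max_eq_right h2, zero_div]
  · have h3 : (C.A : ℝ) / (C.Q * 2 ^ 22) - R.p / 2 ^ 22
          = ((C.A : ℝ) - C.Q * R.p) / (C.Q * 2 ^ 22) := by field_simp
    have h2 : 0 ≤ (C.A : ℝ) / (C.Q * 2 ^ 22) - R.p / 2 ^ 22 := by
      rw [h3]
      exact div_nonneg h (by positivity)
    rw [max_eq_left h, max_eq_left h2, h3]

/-- bound of the second derivative in the units of the checker -/
theorem secB_scaled {C : GC} (hQ : 1 ≤ C.Q) {R : RowG} (hR : R.OK) :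
    secB C.par R.x * (π ^ 2 * 2 ^ 21 * C.Q)
      ≤ C.Q * R.K + ((C.A - C.Q * R.p : ℕ) : ℝ) * R.K3 + C.B
        + (|(C.r1 : ℝ)| * (R.g1 + R.k1 + R.K3) + |(C.r2 : ℝ)| * (R.g1 + 2 * R.k1 + R.K3)
          + |(C.r3 : ℝ)| * (3 * R.g1 + 3 * R.k1 + R.K3)) := by
  have hQ' : (0 : ℝ) < C.Q := by exact_mod_cast hQ
  have hpi := Real.pi_pos
  have hpi2 := pi_sq_le_ten
  have hx0 := x_pos hR
  have hx1 := x_le hR
  have hG := G_nonneg hx0 hx1
  have hg1 := hR.hg1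
  have hk1 := hR.hk1
  have hK := hR.hK
  have hK3 := hR.hK3
  have hg1' : (0 : ℝ) ≤ R.g1 := le_trans (by positivity) hg1
  have hvM : (0 : ℝ) ≤ ((C.A - C.Q * R.p : ℕ) : ℝ) := Nat.cast_nonneg _
  have hD : (0 : ℝ) < C.Q * 2 ^ 22 := by positivity
  -- value of secB in terms of the integers
  have hnu : |C.par.nu - 1 / π| = |(C.n : ℝ) - C.Q * 4194304| / (C.Q * 2 ^ 22) / π := by
    have h1 : C.par.nu - 1 / π = ((C.n : ℝ) - C.Q * 4194304) / (C.Q * 2 ^ 22) / π := by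
      unfold GC.par
      simp only
      field_simp
      norm_num
    rw [h1, abs_div, abs_div, abs_of_pos hD, abs_of_pos hpi]
  have hsec : secB C.par R.x * (π ^ 2 * 2 ^ 21 * C.Q)
      = C.Q * (π / 2 * kap R.x * 2 ^ 22)
        + π / 2 * |(C.n : ℝ) - C.Q * 4194304|
        + ((C.A - C.Q * R.p : ℕ) : ℝ) * (π ^ 2 / 2 * (1 + kap3 R.x))
        + π ^ 2 * ((|(C.a1 : ℝ)| + |(C.b1 : ℝ)|) / 8 + (|(C.a2 : ℝ)| + |(C.b2 : ℝ)|) / 2
          + 9 / 8 * (|(C.a3 : ℝ)| + |(C.b3 : ℝ)|))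
        + |(C.r1 : ℝ)| * (π ^ 2 / 2 * (1 + G R.x) / 4 + π ^ 2 / 2 * (1 + kap R.x)
            + π ^ 2 / 2 * (1 + kap3 R.x))
        + |(C.r2 : ℝ)| * (π ^ 2 / 2 * (1 + G R.x) + 2 * (π ^ 2 / 2 * (1 + kap R.x))
            + π ^ 2 / 2 * (1 + kap3 R.x))
        + |(C.r3 : ℝ)| * (9 / 4 * (π ^ 2 / 2 * (1 + G R.x)) + 3 * (π ^ 2 / 2 * (1 + kap R.x))
            + π ^ 2 / 2 * (1 + kap3 R.x)) := by
    unfold secB
    rw [hnu, x_div]
    unfold GC.par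
    simp only
    rw [max_term C hQ R]
    simp only [abs_div, abs_of_pos hD]
    generalize ((C.A - C.Q * R.p : ℕ) : ℝ) = vM
    generalize |(C.n : ℝ) - C.Q * 4194304| = N
    generalize |(C.a1 : ℝ)| = A1
    generalize |(C.b1 : ℝ)| = B1
    generalize |(C.a2 : ℝ)| = A2
    generalize |(C.b2 : ℝ)| = B2
    generalize |(C.a3 : ℝ)| = A3
    generalize |(C.b3 : ℝ)| = B3
    generalize |(C.r1 : ℝ)| = R1
    generalize |(C.r2 : ℝ)| = R2
    generalize |(C.r3 : ℝ)| = R3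
    generalize G R.x = GG
    generalize kap R.x = KK
    generalize kap3 R.x = KK3
    field_simp
    ring
  rw [hsec]
  have hB : (5 : ℝ) / 4 * (|(C.a1 : ℝ)| + |(C.b1 : ℝ)|) + 5 * (|(C.a2 : ℝ)| + |(C.b2 : ℝ)|)
      + 45 / 4 * (|(C.a3 : ℝ)| + |(C.b3 : ℝ)|) + 2 * |(C.n : ℝ) - C.Q * 4194304| ≤ C.B := by
    have h1 : 5 * (GC.ab C.a1 + GC.ab C.b1) + 20 * (GC.ab C.a2 + GC.ab C.b2)
        + 45 * (GC.ab C.a3 + GC.ab C.b3) ≤
        4 * ((5 * (GC.ab C.a1 + GC.ab C.b1) + 20 * (GC.ab C.a2 + GC.ab C.b2)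
          + 45 * (GC.ab C.a3 + GC.ab C.b3)) / 4 + 1) := by omega
    have h2 : C.B = (5 * (GC.ab C.a1 + GC.ab C.b1) + 20 * (GC.ab C.a2 + GC.ab C.b2)
          + 45 * (GC.ab C.a3 + GC.ab C.b3)) / 4 + 1 + 2 * GC.ab (C.n - C.Q * 4194304) := rfl
    have h3 : (((5 * (GC.ab C.a1 + GC.ab C.b1) + 20 * (GC.ab C.a2 + GC.ab C.b2)
        + 45 * (GC.ab C.a3 + GC.ab C.b3) + 8 * GC.ab (C.n - C.Q * 4194304) : ℤ)) : ℝ)
        ≤ ((4 * C.B : ℤ) : ℝ) := by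
      rw [h2]
      exact Int.cast_le.mpr (by omega)
    push_cast at h3
    simp only [ab_cast] at h3
    push_cast at h3
    linarith
  have e1 : (C.Q : ℝ) * (π / 2 * kap R.x * 2 ^ 22) ≤ C.Q * R.K :=
    mul_le_mul_of_nonneg_left hK hQ'.le
  have e2 : ((C.A - C.Q * R.p : ℕ) : ℝ) * (π ^ 2 / 2 * (1 + kap3 R.x))
      ≤ ((C.A - C.Q * R.p : ℕ) : ℝ) * R.K3 := mul_le_mul_of_nonneg_left hK3 hvM
  have e3 : π ^ 2 * ((|(C.a1 : ℝ)| + |(C.b1 : ℝ)|) / 8 + (|(C.a2 : ℝ)| + |(C.b2 : ℝ)|) / 2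
          + 9 / 8 * (|(C.a3 : ℝ)| + |(C.b3 : ℝ)|))
      ≤ 10 * ((|(C.a1 : ℝ)| + |(C.b1 : ℝ)|) / 8 + (|(C.a2 : ℝ)| + |(C.b2 : ℝ)|) / 2
          + 9 / 8 * (|(C.a3 : ℝ)| + |(C.b3 : ℝ)|)) :=
    mul_le_mul_of_nonneg_right hpi2 (by positivity)
  have e4 : π / 2 * |(C.n : ℝ) - C.Q * 4194304| ≤ 2 * |(C.n : ℝ) - C.Q * 4194304| :=
    mul_le_mul_of_nonneg_right (by linarith [Real.pi_le_four]) (abs_nonneg _)
  have f1 : |(C.r1 : ℝ)| * (π ^ 2 / 2 * (1 + G R.x) / 4 + π ^ 2 / 2 * (1 + kap R.x)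
            + π ^ 2 / 2 * (1 + kap3 R.x)) ≤ |(C.r1 : ℝ)| * (R.g1 + R.k1 + R.K3) :=
    mul_le_mul_of_nonneg_left (by linarith) (abs_nonneg _)
  have f2 : |(C.r2 : ℝ)| * (π ^ 2 / 2 * (1 + G R.x) + 2 * (π ^ 2 / 2 * (1 + kap R.x))
            + π ^ 2 / 2 * (1 + kap3 R.x)) ≤ |(C.r2 : ℝ)| * (R.g1 + 2 * R.k1 + R.K3) :=
    mul_le_mul_of_nonneg_left (by linarith) (abs_nonneg _)
  have f3 : |(C.r3 : ℝ)| * (9 / 4 * (π ^ 2 / 2 * (1 + G R.x)) + 3 * (π ^ 2 / 2 * (1 + kap R.x))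
            + π ^ 2 / 2 * (1 + kap3 R.x)) ≤ |(C.r3 : ℝ)| * (3 * R.g1 + 3 * R.k1 + R.K3) :=
    mul_le_mul_of_nonneg_left (by linarith) (abs_nonneg _)
  linarith

theorem cellOK_sound {C : GC} (hQ : 1 ≤ C.Q) (hA : C.A ≤ C.Q * 4194304) {R S : RowG}
    (hR : R.OK) (hS : S.OK) (h : GC.cellOK C C.err C.B R S = true)
    {z : ℝ} (hz0 : -1 ≤ z) (hz1 : z ≤ 1) :
    ∀ x, R.x ≤ x → x ≤ S.x → 0 ≤ Psi C.par x z := by
  have hQ' : (0 : ℝ) < C.Q := by exact_mod_cast hQ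
  have hpi := Real.pi_pos
  unfold GC.cellOK at h
  simp only [Bool.and_eq_true, Nat.ble_eq] at h
  obtain ⟨⟨hlt, hp1⟩, hp2⟩ := h
  have hle : R.p ≤ S.p := by omega
  have hd0 : (0 : ℝ) ≤ (S.p : ℝ) - R.p := by
    have := (Nat.cast_le (α := ℝ)).mpr hle
    linarith
  have q1 := ptOK_sound hQ hA hR hp1 hz0 hz1
  have q2 := ptOK_sound hQ hA hS hp2 hz0 hz1
  set W : ℝ := C.Q * R.K + ((C.A - C.Q * R.p : ℕ) : ℝ) * R.K3 + C.B
        + (|(C.r1 : ℝ)| * (R.g1 + R.k1 + R.K3) + |(C.r2 : ℝ)| * (R.g1 + 2 * R.k1 + R.K3)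
          + |(C.r3 : ℝ)| * (3 * R.g1 + 3 * R.k1 + R.K3)) with hW
  have hE : (((((S.p : ℤ) - R.p) * ((S.p : ℤ) - R.p) * (C.Q * R.K
      + (((C.A - C.Q * R.p : ℕ)) : ℤ) * R.K3 + C.B
    + (GC.ab C.r1 * (R.g1 + R.k1 + R.K3) + GC.ab C.r2 * (R.g1 + 2 * R.k1 + R.K3)
      + GC.ab C.r3 * (3 * R.g1 + 3 * R.k1 + R.K3))) + C.err : ℤ) : ℝ) - C.err)
      = ((S.p : ℝ) - R.p) ^ 2 * W := by
    rw [hW]
    push_cast
    simp only [ab_cast]
    ring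
  rw [hE] at q1 q2
  have hdx : S.x - R.x = 2 * π * (((S.p : ℝ) - R.p) / 2 ^ 22) := by
    unfold RowG.x; ring
  refine cell C.par (x_pos hR) ?_ (x_le hS) hz0 hz1 ?_ q1 q2
  · have : 0 ≤ S.x - R.x := by rw [hdx]; positivity
    linarith
  · rw [hdx, le_div_iff₀ (by positivity)]
    have hsc := secB_scaled hQ hR
    have e1 : secB C.par R.x * (2 * π * (((S.p : ℝ) - R.p) / 2 ^ 22)) ^ 2 / 8 * (C.Q * 2 ^ 66)
        = ((S.p : ℝ) - R.p) ^ 2 * (secB C.par R.x * (π ^ 2 * 2 ^ 21 * C.Q)) := by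
      ring
    rw [e1]
    exact mul_le_mul_of_nonneg_left hsc (sq_nonneg _)

theorem headOK_sound {C : GC} (hQ : 1 ≤ C.Q) {R : RowG}
    (hR : R.OK) (h : GC.headOK C C.err R = true)
    {z : ℝ} (hz0 : -1 ≤ z) (hz1 : z ≤ 1) :
    ∀ x, 0 < x → x ≤ R.x → 0 ≤ Psi C.par x z := by
  have hQ' : (0 : ℝ) < C.Q := by exact_mod_cast hQ
  have hpi := Real.pi_pos
  unfold GC.headOK at h
  simp only [Bool.and_eq_true, nn_iff, Nat.ble_eq] at h
  obtain ⟨⟨⟨⟨hp, hn⟩, hW⟩, hF⟩, hmain⟩ := h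
  have hp' : (R.p : ℝ) ≤ 1048576 := by exact_mod_cast hp
  have hp0 : (0 : ℝ) ≤ R.p := Nat.cast_nonneg _
  have hn' : (0 : ℝ) ≤ C.n := by exact_mod_cast hn
  have hF' : (0 : ℝ) ≤ -R.f - 16 := by exact_mod_cast hF
  have hx2 : R.x ≤ π / 2 := by
    unfold RowG.x
    have h2 : (R.p : ℝ) / 2 ^ 22 ≤ 1 / 4 := by
      rw [div_le_div_iff₀ (by positivity) (by positivity)]
      linarith
    nlinarith
  have hx0 := x_pos hR
  have hx1 := x_le hR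
  have hs0 : 0 ≤ sin (R.x / 2) :=
    Real.sin_nonneg_of_nonneg_of_le_pi (by linarith) (by linarith)
  have hs1 : 0 ≤ sin R.x := Real.sin_nonneg_of_nonneg_of_le_pi (by linarith) (by linarith)
  have hf1 := (abs_le.mp hR.hf).2
  have hs2 := (abs_le.mp hR.hs).2
  have hsx2 := (abs_le.mp hR.hsx).2
  have hq1 := (abs_le.mp hR.hq).1
  have hD : (0 : ℝ) < C.Q * 2 ^ 22 := by positivity
  have hD2 : (0 : ℝ) < C.Q * 2 ^ 66 := by positivity
  have hW' := (Int.cast_le (R := ℝ)).mpr hW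
  have hmain' := (Int.cast_le (R := ℝ)).mpr hmain
  push_cast at hW' hmain'
  simp only [ab_cast] at hW' hmain'
  set W : ℝ := ((C.A : ℝ) - C.Q * R.p) * 17592186044416 - |(C.r1 : ℝ)| * (R.s + 16)
    - |(C.r2 : ℝ)| * (R.sx + 16) - |(C.r3 : ℝ)| * (40000000 * R.p) with hWd
  have hfn : fp R.x * 2 ^ 44 ≤ 0 := by linarith
  have hf0 : fp R.x ≤ 0 := by
    by_contra hcon
    rw [not_le] at hcon
    have := mul_pos hcon (show (0 : ℝ) < 2 ^ 44 by positivity)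
    linarith
  have hx3 : 3 * R.x / 2 * 2 ^ 44 ≤ 40000000 * R.p := by
    have : 3 * R.x / 2 * 2 ^ 44 = (3 * π * 2 ^ 22) * R.p := by
      unfold RowG.x; ring
    rw [this]
    have h3 : 3 * π * 2 ^ 22 ≤ 40000000 := by
      have := Real.pi_lt_d2
      norm_num
      linarith
    exact mul_le_mul_of_nonneg_right h3 hp0
  refine head C.par (W := W / (C.Q * 2 ^ 66)) hx0 hx2 ?_ ?_ hf0 ?_ ?_ ?_ hz0 hz1
  · show 0 ≤ (C.n : ℝ) / (C.Q * 2 ^ 22) / π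
    positivity
  · show 0 ≤ (C.A : ℝ) / (C.Q * 2 ^ 22)
    positivity
  · exact div_nonneg hW' hD2.le
  · rw [x_div]
    have e1 : W / (C.Q * 2 ^ 66) + |C.par.r1| * sin (R.x / 2) + |C.par.r2| * sin R.x
        + |C.par.r3| * (3 * R.x / 2)
        = (W + |(C.r1 : ℝ)| * (sin (R.x / 2) * 2 ^ 44) + |(C.r2 : ℝ)| * (sin R.x * 2 ^ 44)
          + |(C.r3 : ℝ)| * (3 * R.x / 2 * 2 ^ 44)) / (C.Q * 2 ^ 66) := by
      unfold GC.par
      simp only [abs_div, abs_of_pos hD]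
      field_simp
    have e2 : C.par.r - (R.p : ℝ) / 2 ^ 22
        = ((C.A : ℝ) - C.Q * R.p) * 17592186044416 / (C.Q * 2 ^ 66) := by
      unfold GC.par
      simp only
      field_simp
      norm_num
      ring
    rw [e1, e2]
    apply div_le_div_of_nonneg_right _ hD2.le
    have g1 : |(C.r1 : ℝ)| * (sin (R.x / 2) * 2 ^ 44) ≤ |(C.r1 : ℝ)| * (R.s + 16) :=
      mul_le_mul_of_nonneg_left (by linarith) (abs_nonneg _)
    have g2 : |(C.r2 : ℝ)| * (sin R.x * 2 ^ 44) ≤ |(C.r2 : ℝ)| * (R.sx + 16) :=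
      mul_le_mul_of_nonneg_left (by linarith) (abs_nonneg _)
    have g3 : |(C.r3 : ℝ)| * (3 * R.x / 2 * 2 ^ 44) ≤ |(C.r3 : ℝ)| * (40000000 * R.p) :=
      mul_le_mul_of_nonneg_left hx3 (abs_nonneg _)
    linarith
  · have hsc : (-fp R.x * (W / (C.Q * 2 ^ 66)) - C.par.r * max C.par.g 0
        + C.par.nu * cos R.x + C.par.c
        - |C.par.a1| * sin (R.x / 2) - |C.par.b1| - |C.par.a2| * sin R.x - |C.par.b2|
        - |C.par.a3| - |C.par.b3|) * (C.Q * 2 ^ 66 * 17592186044416)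
        = (-(fp R.x * 2 ^ 44)) * W - C.A * max (C.g : ℝ) 0 * 17592186044416
          + (C.n * (cos R.x / π * 2 ^ 44) + C.c - |(C.a1 : ℝ)| * (sin (R.x / 2) * 2 ^ 44)
            - |(C.a2 : ℝ)| * (sin R.x * 2 ^ 44)
            - (|(C.b1 : ℝ)| + |(C.b2 : ℝ)| + |(C.a3 : ℝ)| + |(C.b3 : ℝ)|) * 17592186044416)
            * 17592186044416 := by
      have hmx : max C.par.g 0 = max (C.g : ℝ) 0 / 2 ^ 44 := by
        unfold GC.par
        simp only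
        rcases le_total 0 (C.g : ℝ) with hg | hg
        · rw [max_eq_left hg, max_eq_left (div_nonneg hg (by positivity))]
        · rw [max_eq_right hg, max_eq_right (div_nonpos_of_nonpos_of_nonneg hg (by positivity)),
            zero_div]
      rw [hmx]
      unfold GC.par
      simp only [abs_div, abs_of_pos hD]
      generalize |(C.a1 : ℝ)| = A1
      generalize |(C.b1 : ℝ)| = B1
      generalize |(C.a2 : ℝ)| = A2
      generalize |(C.b2 : ℝ)| = B2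
      generalize |(C.a3 : ℝ)| = A3
      generalize |(C.b3 : ℝ)| = B3
      generalize max (C.g : ℝ) 0 = M
      generalize sin (R.x / 2) = s1
      generalize sin R.x = s2
      generalize cos R.x = c2
      generalize fp R.x = F
      generalize W = W'
      field_simp
      ring
    have g1 : (-(R.f : ℝ) - 16) * W ≤ (-(fp R.x * 2 ^ 44)) * W :=
      mul_le_mul_of_nonneg_right (by linarith) hW'
    have g2 : (C.n : ℝ) * R.q - 16 * |(C.n : ℝ)| ≤ C.n * (cos R.x / π * 2 ^ 44) := by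
      have := mul_le_mul_of_nonneg_left hq1 hn'
      rw [abs_of_nonneg hn']
      linarith
    have g3 : |(C.a1 : ℝ)| * (sin (R.x / 2) * 2 ^ 44) ≤ |(C.a1 : ℝ)| * (R.s + 16) :=
      mul_le_mul_of_nonneg_left (by linarith) (abs_nonneg _)
    have g4 : |(C.a2 : ℝ)| * (sin R.x * 2 ^ 44) ≤ |(C.a2 : ℝ)| * (R.sx + 16) :=
      mul_le_mul_of_nonneg_left (by linarith) (abs_nonneg _)
    have herr := err_cast C
    have hge : 0 ≤ (-fp R.x * (W / (C.Q * 2 ^ 66)) - C.par.r * max C.par.g 0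
        + C.par.nu * cos R.x + C.par.c
        - |C.par.a1| * sin (R.x / 2) - |C.par.b1| - |C.par.a2| * sin R.x - |C.par.b2|
        - |C.par.a3| - |C.par.b3|) * (C.Q * 2 ^ 66 * 17592186044416) := by
      rw [hsc]
      have hpos : 0 ≤ (C.n * (cos R.x / π * 2 ^ 44) + C.c - |(C.a1 : ℝ)| * (sin (R.x / 2) * 2 ^ 44)
            - |(C.a2 : ℝ)| * (sin R.x * 2 ^ 44)
            - (|(C.b1 : ℝ)| + |(C.b2 : ℝ)| + |(C.a3 : ℝ)| + |(C.b3 : ℝ)|) * 17592186044416)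
          - ((C.n : ℝ) * R.q + C.c - |(C.a1 : ℝ)| * R.s - |(C.a2 : ℝ)| * R.sx
            - (|(C.b1 : ℝ)| + |(C.b2 : ℝ)| + |(C.a3 : ℝ)| + |(C.b3 : ℝ)|) * 17592186044416
            - C.err) := by
        have p1 : (0 : ℝ) ≤ C.Q * 4194304 := by positivity
        have := abs_nonneg (C.a1 : ℝ)
        have := abs_nonneg (C.a2 : ℝ)
        have := abs_nonneg (C.a3 : ℝ)
        have := abs_nonneg (C.b1 : ℝ)
        have := abs_nonneg (C.b2 : ℝ)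
        have := abs_nonneg (C.b3 : ℝ)
        have := abs_nonneg (C.r1 : ℝ)
        have := abs_nonneg (C.r2 : ℝ)
        have := abs_nonneg (C.r3 : ℝ)
        linarith
      linarith
    exact nonneg_of_mul_nonneg_left hge (by positivity)

theorem chain_sound {T : TrG} (hT : T.OK) {C : GC} (hQ : 1 ≤ C.Q) (hA : C.A ≤ C.Q * 4194304)
    {z : ℝ} (hz0 : -1 ≤ z) (hz1 : z ≤ 1) (l : List ℕ) :
    ∀ (R : RowG), R.OK → GC.chain T C C.err C.B R l = true →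
      ∀ x, R.x < x → x ≤ π → 0 ≤ Psi C.par x z := by
  induction l with
  | nil =>
    intro R hR h x hx hx1
    exfalso
    unfold GC.chain at h
    rw [Nat.beq_eq] at h
    have : R.x = π := by
      unfold RowG.x
      rw [h]
      norm_num
      ring
    rw [this] at hx
    linarith
  | cons i l ih =>
    intro R hR h x hx hx1
    unfold GC.chain at h
    rw [Bool.and_eq_true] at h
    rcases le_or_gt x (T.get i).x with h1 | h1
    · exact cellOK_sound hQ hA hR (TrG.get_ok hT i) h.1 hz0 hz1 x hx.le h1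
    · exact ih (T.get i) (TrG.get_ok hT i) h.2 x h1 hx1

theorem half_sound {T : TrG} (hT : T.OK) {C : GC} (hQ : 1 ≤ C.Q) (hA : C.A ≤ C.Q * 4194304)
    {i : ℕ} {l : List ℕ} (h : GC.half T C i l = true) : HalfGood C.par := by
  intro x hx0 hx1 z hz0 hz1
  unfold GC.half at h
  rw [Bool.and_eq_true] at h
  rcases le_or_gt x (T.get i).x with h1 | h1
  · exact headOK_sound hQ (TrG.get_ok hT i) h.1 hz0 hz1 x hx0 h1
  · exact chain_sound hT hQ hA hz0 hz1 l _ (TrG.get_ok hT i) h.2 x h1 hx1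

theorem mirror_par {C : GC} (hQ : 1 ≤ C.Q) (hA : C.A ≤ C.Q * 4194304) :
    C.mirror.par = C.par.mirror := by
  have hQ' : (0 : ℝ) < C.Q := by exact_mod_cast hQ
  unfold GC.mirror GC.par Par.mirror
  simp only
  congr 1
  · rw [Nat.cast_sub hA]
    push_cast
    field_simp
    norm_num
  all_goals (push_cast; ring)

end GDS

/-- SUBTASK Q: soundness of the general engine. -/
theorem GD.sound {T : TrG} (hT : T.OK) {D : GD} (h : D.chk T = true) : Good D.C.par := by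
  unfold GD.chk at h
  simp only [Bool.and_eq_true, Nat.ble_eq] at h
  obtain ⟨⟨⟨hQ, hA⟩, h1⟩, h2⟩ := h
  refine good_of_half (GDS.half_sound hT hQ hA h1) ?_
  rw [← GDS.mirror_par hQ hA]
  refine GDS.half_sound hT ?_ ?_ h2
  · exact hQ
  · exact Nat.sub_le _ _

end Pool.Agent.H999.LimCC
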