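import Pool.Agent.H999.LimCC.AssemblyG
import Pool.Agent.H999.LimCC.GDSound
import Pool.Agent.H999.LimCC.FD

set_option autoImplicit false

namespace Pool.Agent.H999.LimCC


open Real

namespace FGL

/-- dummy certificate -/
def g0 : GD := ⟨⟨0, 0, 0, 0, 0, 0, 0, 0, 0, 0, 0, 0, 0, 0⟩, 0, [], 0, []⟩

theorem shape_get {N : ℕ} {n r1 r2 r3 : ℤ} : ∀ (l : List GD) (k : ℕ),
    FG.shape N n r1 r2 r3 k l = true → ∀ i < l.length,
    (l.getD i g0).C.Q = N ∧ (l.getD i g0).C.A = (k + i) * 4194304 ∧ (l.getD i g0).C.n = n ∧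
      (l.getD i g0).C.r1 = r1 ∧ (l.getD i g0).C.r2 = r2 ∧ (l.getD i g0).C.r3 = r3 := by
  intro l
  induction l with
  | nil => intro k _ i hi; simp at hi
  | cons D l ih =>
    intro k h i hi
    unfold FG.shape at h
    simp only [Bool.and_eq_true, decide_eq_true_eq] at h
    obtain ⟨⟨⟨⟨⟨⟨h1, h2⟩, h3⟩, h4⟩, h5⟩, h6⟩, h7⟩ := h
    cases i with
    | zero => exact ⟨Nat.eq_of_beq_eq_true h1, by simpa using Nat.eq_of_beq_eq_true h2, h3, h4,
        h5, h6⟩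
    | succ i =>
      have := ih (k+1) h7 i (by simpa using hi)
      rw [List.getD_cons_succ]
      refine ⟨this.1, ?_, this.2.2⟩
      rw [this.2.1]; ring

theorem get_chk {T : TrG} (l : List GD) (h : l.all (fun D => D.chk T) = true) (i : ℕ)
    (hi : i < l.length) : (l.getD i g0).chk T = true := by
  rw [List.all_eq_true] at h
  rw [List.getD_eq_getElem l g0 hi]
  exact h _ (List.getElem_mem hi)

theorem sum_eq (N : ℕ) (F : GC → ℤ) : ∀ (l : List GD) (k : ℕ), ((FG.sum N F k l : ℤ) : ℝ) =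
    ∑ i ∈ Finset.range l.length, (if 2 * (k + i) = N then (1 : ℝ) else 2) *
      (F (l.getD i g0).C : ℝ) := by
  intro l
  induction l with
  | nil => intro k; simp [FG.sum]
  | cons D l ih =>
    intro k
    rw [FG.sum, List.length_cons, Finset.sum_range_succ', Int.cast_add, ih, add_comm]
    congr 1
    · refine Finset.sum_congr rfl (fun i _ => ?_)
      rw [List.getD_cons_succ, show k + 1 + i = k + (i + 1) by ring]
    · rw [List.getD_cons_zero, add_zero]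
      push_cast
      split_ifs <;> rfl

/-- the inequality at an end point -/
theorem ineq_real {N Tt : ℕ} {n B S : ℤ} (hN : 2 ≤ N) (hn : 0 ≤ n) (h : FG.ineq N Tt n B S = true) :
    ((n : ℝ) / (N * 2 ^ 22) / π) * (N * ((Tt : ℝ) / 2 ^ 20) ^ 2 - 1)
      + ((S : ℝ) / (N * 2 ^ 66) - (B : ℝ) / (N * 2 ^ 22) * ((Tt : ℝ) / 2 ^ 20)) < 0 := by
  unfold FG.ineq at h
  rw [decide_eq_true_eq] at h
  have h' : ((n : ℝ) * N * (Tt * Tt) * VU - n * VL * 2 ^ 40 + S * 2 ^ 40 - Tt * B * 2 ^ 64) < 0 := by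
    exact_mod_cast h
  have hN0 : (0 : ℝ) < N := by
    have : 0 < N := by omega
    exact_mod_cast this
  have hn0 : (0 : ℝ) ≤ n := by exact_mod_cast hn
  have h1 := FDL.VL_le
  have h2 := FDL.le_VU
  have h3 : (n : ℝ) * N * (Tt * Tt) * (2 ^ 44 * (1 / π)) ≤ (n : ℝ) * N * (Tt * Tt) * VU :=
    mul_le_mul_of_nonneg_left h2 (by positivity)
  have h4 : (n : ℝ) * VL * 2 ^ 40 ≤ (n : ℝ) * (2 ^ 44 * (1 / π)) * 2 ^ 40 :=
    mul_le_mul_of_nonneg_right (mul_le_mul_of_nonneg_left h1 hn0) (by positivity)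
  have h5 : ((N : ℝ) * 2 ^ 106) * (((n : ℝ) / (N * 2 ^ 22) / π) * (N * ((Tt : ℝ) / 2 ^ 20) ^ 2 - 1)
      + ((S : ℝ) / (N * 2 ^ 66) - (B : ℝ) / (N * 2 ^ 22) * ((Tt : ℝ) / 2 ^ 20))) =
      (n : ℝ) * N * (Tt * Tt) * (2 ^ 44 * (1 / π)) - (n : ℝ) * (2 ^ 44 * (1 / π)) * 2 ^ 40
        + S * 2 ^ 40 - Tt * B * 2 ^ 64 := by
    have hπ := Real.pi_ne_zero
    field_simp
    ring
  have h6 : ((N : ℝ) * 2 ^ 106) * (((n : ℝ) / (N * 2 ^ 22) / π) * (N * ((Tt : ℝ) / 2 ^ 20) ^ 2 - 1)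
      + ((S : ℝ) / (N * 2 ^ 66) - (B : ℝ) / (N * 2 ^ 22) * ((Tt : ℝ) / 2 ^ 20))) < 0 := by
    rw [h5]; linarith
  have h7 : (0 : ℝ) < (N : ℝ) * 2 ^ 106 := by positivity
  by_contra hc
  rw [not_lt] at hc
  have := mul_nonneg h7.le hc
  linarith

end FGL

open FGL in
/-- SUBTASK R: exclusion by general certificates for one `N`. -/
theorem FG.sound {T : TrG} (hT : T.OK) {F : FG} (h : F.chk T = true) (c : Cfg F.N)
    (h1 : (F.Tl : ℝ) / 2 ^ 20 ≤ c.t) (h2 : c.t ≤ (F.Th : ℝ) / 2 ^ 20) : False := by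
  obtain ⟨n, r1, r2, r3, hN, hlen, hn, hshape, hall, hb2, hb3, hil, hih⟩ : ∃ n r1 r2 r3 : ℤ,
      2 ≤ F.N ∧ F.ds.length = F.N / 2 ∧ 0 ≤ n ∧ FG.shape F.N n r1 r2 r3 1 F.ds = true ∧
      F.ds.all (fun D => D.chk T) = true ∧ FG.sum F.N GC.b2 1 F.ds = 0 ∧
      FG.sum F.N GC.b3 1 F.ds = 0 ∧
      FG.ineq F.N F.Tl n (FG.sum F.N GC.b1 1 F.ds) (FG.sum F.N GC.c 1 F.ds) = true ∧
      FG.ineq F.N F.Th n (FG.sum F.N GC.b1 1 F.ds) (FG.sum F.N GC.c 1 F.ds) = true := by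
    unfold FG.chk at h
    split at h
    · exact absurd h (by decide)
    · rename_i D l hds
      simp only [Bool.and_eq_true, decide_eq_true_eq] at h
      obtain ⟨⟨⟨⟨⟨⟨⟨⟨a1, a2⟩, a3⟩, a4⟩, a5⟩, a6⟩, a7⟩, a8⟩, a9⟩ := h
      exact ⟨_, _, _, _, Nat.le_of_ble_eq_true a1, Nat.eq_of_beq_eq_true a2, a3, a4, a5, a6, a7,
        a8, a9⟩
  have hN0 : (0 : ℝ) < F.N := by
    have : 0 < F.N := by omega
    exact_mod_cast this
  set P : ℕ → Par := fun k => (F.ds.getD (k - 1) g0).C.par with hP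
  have hget : ∀ k ∈ Finset.Icc 1 (F.N / 2), k - 1 < F.ds.length ∧ 1 + (k - 1) = k := by
    intro k hk
    rw [Finset.mem_Icc] at hk
    omega
  have hsh : ∀ k ∈ Finset.Icc 1 (F.N / 2), _ := fun k hk =>
    shape_get F.ds 1 hshape (k - 1) (hget k hk).1
  have hQ : ∀ k ∈ Finset.Icc 1 (F.N / 2), ((F.ds.getD (k - 1) g0).C.Q : ℝ) = F.N := by
    intro k hk
    rw [(hsh k hk).1]
  have hc : ∀ k ∈ Finset.Icc 1 (F.N / 2),
      (P k).c = ((F.ds.getD (k - 1) g0).C.c : ℝ) / (F.N * 2 ^ 66) := by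
    intro k hk
    simp only [hP, GC.par]
    rw [hQ k hk]
  have hb : ∀ k ∈ Finset.Icc 1 (F.N / 2),
      (P k).b1 = ((F.ds.getD (k - 1) g0).C.b1 : ℝ) / (F.N * 2 ^ 22) := by
    intro k hk
    simp only [hP, GC.par]
    rw [hQ k hk]
  have hzero : ∀ (G : GC → ℤ) (H : Par → ℝ), (∀ C : GC, H C.par = (G C : ℝ) / (C.Q * 2 ^ 22)) →
      FG.sum F.N G 1 F.ds = 0 →
      ∑ k ∈ Finset.Icc 1 (F.N / 2), (if 2 * k = F.N then (1 : ℝ) else 2) * H (P k) = 0 := by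
    intro G H hGH h0
    have e1 : ((FG.sum F.N G 1 F.ds : ℤ) : ℝ) = 0 := by rw [h0]; simp
    rw [sum_eq, hlen] at e1
    rw [FDL.sum_Icc_shift]
    have e2 : ∑ i ∈ Finset.range (F.N / 2), (if 2 * (1 + i) = F.N then (1 : ℝ) else 2) *
        H (P (1 + i)) = (∑ i ∈ Finset.range (F.N / 2), (if 2 * (1 + i) = F.N then (1 : ℝ) else 2) *
          (G (F.ds.getD i g0).C : ℝ)) / (F.N * 2 ^ 22) := by
      rw [Finset.sum_div]
      refine Finset.sum_congr rfl (fun i hi => ?_)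
      have hk : 1 + i ∈ Finset.Icc 1 (F.N / 2) := by
        rw [Finset.mem_range] at hi
        rw [Finset.mem_Icc]
        omega
      have e3 := hQ _ hk
      rw [Nat.add_sub_cancel_left] at e3
      simp only [hP]
      rw [Nat.add_sub_cancel_left, hGH, e3]
      ring
    rw [e2, e1, zero_div]
  refine c.no_cfg_of_certs hN ((n : ℝ) / (F.N * 2 ^ 22) / π) ((r1 : ℝ) / (F.N * 2 ^ 22))
    ((r2 : ℝ) / (F.N * 2 ^ 22)) ((r3 : ℝ) / (F.N * 2 ^ 22)) P ?_ ?_ ?_ ?_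
  · intro k hk
    obtain ⟨s1, s2, s3, s4, s5, s6⟩ := hsh k hk
    refine ⟨GD.sound hT (get_chk F.ds hall (k - 1) (hget k hk).1), ?_, ?_, ?_, ?_, ?_⟩
    · simp only [hP, GC.par]
      rw [hQ k hk, s2, (hget k hk).2]
      push_cast
      field_simp
      norm_num
    · simp only [hP, GC.par]
      rw [hQ k hk, s3]
    · simp only [hP, GC.par]
      rw [hQ k hk, s4]
    · simp only [hP, GC.par]
      rw [hQ k hk, s5]
    · simp only [hP, GC.par]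
      rw [hQ k hk, s6]
  · exact hzero GC.b2 Par.b2 (fun C => rfl) hb2
  · exact hzero GC.b3 Par.b3 (fun C => rfl) hb3
  · have hS : ∑ k ∈ Finset.Icc 1 (F.N / 2), (if 2 * k = F.N then (1 : ℝ) else 2) *
        ((P k).c - (P k).b1 * c.t) = (FG.sum F.N GC.c 1 F.ds : ℝ) / (F.N * 2 ^ 66) -
          (FG.sum F.N GC.b1 1 F.ds : ℝ) / (F.N * 2 ^ 22) * c.t := by
      rw [sum_eq, sum_eq, hlen, Finset.sum_div, Finset.sum_div, Finset.sum_mul,
        ← Finset.sum_sub_distrib, FDL.sum_Icc_shift]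
      refine Finset.sum_congr rfl (fun i hi => ?_)
      have hk : 1 + i ∈ Finset.Icc 1 (F.N / 2) := by
        rw [Finset.mem_range] at hi
        rw [Finset.mem_Icc]
        omega
      rw [hc _ hk, hb _ hk, Nat.add_sub_cancel_left]
      ring
    rw [hS]
    have e1 := ineq_real hN hn hil
    have e2 := ineq_real hN hn hih
    have hn0 : (0 : ℝ) ≤ n := by exact_mod_cast hn
    set nu : ℝ := (n : ℝ) / (F.N * 2 ^ 22) / π with hnu
    have hnu0 : 0 ≤ nu := by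
      have := Real.pi_pos
      positivity
    have hq := FDL.quad_neg (a := nu * F.N)
      (b := -((FG.sum F.N GC.b1 1 F.ds : ℝ) / (F.N * 2 ^ 22)))
      (c := -nu + (FG.sum F.N GC.c 1 F.ds : ℝ) / (F.N * 2 ^ 66)) (t := c.t)
      (tl := (F.Tl : ℝ) / 2 ^ 20) (th := (F.Th : ℝ) / 2 ^ 20)
      (by positivity) h1 h2 (by linarith) (by linarith)
    linarith

end Pool.Agent.H999.LimCC
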