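import Pool.Agent.H999.LimCC.Confine

set_option autoImplicit false

namespace Pool.Agent.H999.LimCC

open Real Finset

namespace SmT

/-- `u cos u ≤ sin u` on `[0, π]` -/
theorem ucos {u : ℝ} (h0 : 0 ≤ u) (h1 : u ≤ π) : u * cos u ≤ sin u := by
  have hmono : MonotoneOn (fun x : ℝ => sin x - x * cos x) (Set.Icc 0 π) := by
    apply monotoneOn_of_deriv_nonneg (convex_Icc 0 π)
    · fun_prop
    · fun_prop
    · intro x hx
      rw [interior_Icc] at hx
      have : HasDerivAt (fun x : ℝ => sin x - x * cos x) (cos x - (1 * cos x + x * (-sin x))) x := by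
        exact (Real.hasDerivAt_sin x).sub ((hasDerivAt_id x).mul (Real.hasDerivAt_cos x))
      rw [this.deriv]
      have h := sin_pos_of_pos_of_lt_pi hx.1 hx.2
      nlinarith [hx.1]
  have := hmono (Set.left_mem_Icc.mpr Real.pi_pos.le) ⟨h0, h1⟩ h0
  simp at this
  linarith

/-- Cusa's inequality -/
theorem cus {u : ℝ} (h0 : 0 ≤ u) (h1 : u ≤ π) : 3 * sin u ≤ u * (2 + cos u) := by
  have hmono : MonotoneOn (fun x : ℝ => x * (2 + cos x) - 3 * sin x) (Set.Icc 0 π) := by
    apply monotoneOn_of_deriv_nonneg (convex_Icc 0 π)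
    · fun_prop
    · fun_prop
    · intro x hx
      rw [interior_Icc] at hx
      have : HasDerivAt (fun x : ℝ => x * (2 + cos x) - 3 * sin x)
          ((1 * (2 + cos x) + x * (-sin x)) - 3 * cos x) x := by
        exact ((hasDerivAt_id x).mul ((Real.hasDerivAt_cos x).const_add 2)).sub
          ((Real.hasDerivAt_sin x).const_mul 3)
      rw [this.deriv]
      have hs : 0 < sin (x / 2) := sin_pos_of_pos_of_lt_pi (by linarith [hx.1]) (by linarith [hx.2, hx.1])
      have h2 := ucos (u := x / 2) (by linarith [hx.1]) (by linarith [hx.2, hx.1])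
      have e1 : cos x = 1 - 2 * sin (x / 2) ^ 2 := by
        have := Real.cos_two_mul (x / 2)
        rw [show 2 * (x / 2) = x by ring] at this
        rw [this]
        nlinarith [Real.sin_sq_add_cos_sq (x / 2)]
      have e2 : sin x = 2 * sin (x / 2) * cos (x / 2) := by
        have := Real.sin_two_mul (x / 2)
        rw [show 2 * (x / 2) = x by ring] at this
        exact this
      rw [e1, e2]
      nlinarith
  have := hmono (Set.left_mem_Icc.mpr Real.pi_pos.le) ⟨h0, h1⟩ h0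
  simp at this
  linarith

/-- lower bound of the second derivative of the repulsive potential -/
theorem kap_ge {z : ℝ} (h0 : 0 < z) (h1 : z < π) :
    1 / (4 * z ^ 3) ≤ (1 + cos z ^ 2) / (8 * sin z ^ 3) := by
  have hs : 0 < sin z := sin_pos_of_pos_of_lt_pi h0 h1
  have hc := cus h0.le h1.le
  have hc1 := abs_le.1 (abs_cos_le_one z)
  rw [div_le_div_iff₀ (by positivity) (by positivity), one_mul]
  have h2 : sin z ≤ z * ((2 + cos z) / 3) := by linarith
  have h3 : sin z ^ 3 ≤ (z * ((2 + cos z) / 3)) ^ 3 := pow_le_pow_left₀ hs.le h2 3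
  have h4 : 2 * ((2 + cos z) / 3) ^ 3 ≤ 1 + cos z ^ 2 := by
    have : 1 + cos z ^ 2 - 2 * ((2 + cos z) / 3) ^ 3 = (1 - cos z) ^ 2 * (11 - 2 * cos z) / 27 := by ring
    have h5 : 0 ≤ (1 - cos z) ^ 2 * (11 - 2 * cos z) / 27 := by
      apply div_nonneg _ (by norm_num)
      apply mul_nonneg (sq_nonneg _)
      linarith [hc1.2]
    linarith
  have h6 : 0 < z ^ 3 := by positivity
  calc 8 * sin z ^ 3 ≤ 8 * (z * ((2 + cos z) / 3)) ^ 3 := by linarith
    _ = 4 * z ^ 3 * (2 * ((2 + cos z) / 3) ^ 3) := by ring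
    _ ≤ 4 * z ^ 3 * (1 + cos z ^ 2) := mul_le_mul_of_nonneg_left h4 (by positivity)
    _ = (1 + cos z ^ 2) * (4 * z ^ 3) := by ring

theorem G_hasDeriv {x : ℝ} (h0 : 0 < x) (h1 : x < 2 * π) :
    HasDerivAt G (-((1 + cos (x / 2) ^ 2) / (8 * sin (x / 2) ^ 3))) x := by
  have hs : 0 < sin (x / 2) := sin_pos_of_pos_of_lt_pi (by linarith) (by linarith)
  have hh : HasDerivAt (fun x : ℝ => x / 2) (1 / 2) x := (hasDerivAt_id x).div_const 2
  have hcos : HasDerivAt (fun x : ℝ => cos (x / 2)) (-sin (x / 2) * (1 / 2)) x := hh.cos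
  have hsin : HasDerivAt (fun x : ℝ => sin (x / 2)) (cos (x / 2) * (1 / 2)) x := hh.sin
  have hsin1 : HasDerivAt (fun x : ℝ => sin (x / 2) ^ 2)
      (((2 : ℕ) : ℝ) * sin (x / 2) ^ (2 - 1) * (cos (x / 2) * (1 / 2))) x := hsin.pow 2
  have hsin2 : HasDerivAt (fun x : ℝ => 4 * sin (x / 2) ^ 2)
      (4 * (((2 : ℕ) : ℝ) * sin (x / 2) ^ (2 - 1) * (cos (x / 2) * (1 / 2)))) x :=
    hsin1.const_mul 4
  have h : HasDerivAt (fun x : ℝ => cos (x / 2) / (4 * sin (x / 2) ^ 2))
      ((-sin (x / 2) * (1 / 2) * (4 * sin (x / 2) ^ 2) -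
        cos (x / 2) * (4 * (((2 : ℕ) : ℝ) * sin (x / 2) ^ (2 - 1) * (cos (x / 2) * (1 / 2))))) /
        (4 * sin (x / 2) ^ 2) ^ 2) x := hcos.div hsin2 (by positivity)
  have e : G = fun x : ℝ => cos (x / 2) / (4 * sin (x / 2) ^ 2) := rfl
  rw [e]
  refine h.congr_deriv ?_
  have hc2 : cos (x / 2) ^ 2 = 1 - sin (x / 2) ^ 2 := by
    have := sin_sq_add_cos_sq (x / 2); linarith
  rw [show (2 - 1 : ℕ) = 1 by norm_num, pow_one]
  push_cast
  have e1 : -sin (x / 2) * (1 / 2) * (4 * sin (x / 2) ^ 2) -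
        cos (x / 2) * (4 * (2 * sin (x / 2) * (cos (x / 2) * (1 / 2)))) =
      -(2 * sin (x / 2) * (sin (x / 2) ^ 2 + 2 * cos (x / 2) ^ 2)) := by ring
  rw [e1, hc2]
  field_simp
  ring

theorem G_part {a x M : ℝ} (ha : 0 < a) (ha2 : a < 2 * π) (hx : 0 < x) (hx2 : x < 2 * π)
    (haM : a ≤ M) (hxM : x ≤ M) :
    (x - a) ^ 2 * (2 / M ^ 3) ≤ -((x - a) * (G x - G a)) := by
  -- the case `a < x`
  have key : ∀ a x : ℝ, 0 < a → a < x → x < 2 * π → x ≤ M →
      (x - a) ^ 2 * (2 / M ^ 3) ≤ -((x - a) * (G x - G a)) := by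
    intro a x ha hax hx2 hxM
    have hcont : ContinuousOn G (Set.Icc a x) := fun y hy =>
      (G_hasDeriv (lt_of_lt_of_le ha hy.1) (lt_of_le_of_lt hy.2 hx2)).continuousAt.continuousWithinAt
    obtain ⟨ξ, hξ, hd⟩ := exists_hasDerivAt_eq_slope G _ hax hcont
      (fun y hy => G_hasDeriv (ha.trans hy.1) (hy.2.trans hx2))
    have hξ0 : 0 < ξ := ha.trans hξ.1
    have hk := kap_ge (z := ξ / 2) (by linarith) (by linarith [hξ.2])
    have e1 : 1 / (4 * (ξ / 2) ^ 3) = 2 / ξ ^ 3 := by field_simp; ring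
    rw [e1] at hk
    have hM : 2 / M ^ 3 ≤ 2 / ξ ^ 3 := by
      apply div_le_div_of_nonneg_left (by norm_num) (by positivity)
      exact pow_le_pow_left₀ hξ0.le (by linarith [hξ.2]) 3
    have hpos : 0 < x - a := by linarith
    have e2 : G x - G a = -((1 + cos (ξ / 2) ^ 2) / (8 * sin (ξ / 2) ^ 3)) * (x - a) := by
      rw [hd]; field_simp
    rw [e2]
    calc (x - a) ^ 2 * (2 / M ^ 3) ≤ (x - a) ^ 2 * ((1 + cos (ξ / 2) ^ 2) / (8 * sin (ξ / 2) ^ 3)) :=
          mul_le_mul_of_nonneg_left (hM.trans hk) (by positivity)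
      _ = _ := by ring
  rcases lt_trichotomy a x with h | h | h
  · exact key a x ha h hx2 hxM
  · rw [h]; simp
  · have := key x a hx h ha2 haM
    calc (x - a) ^ 2 * (2 / M ^ 3) = (a - x) ^ 2 * (2 / M ^ 3) := by ring
      _ ≤ _ := this
      _ = _ := by ring

theorem sin_part (a x : ℝ) :
    (x - a) ^ 2 * (cos a - |x - a| / 2) ≤ (x - a) * (sin x - sin a) := by
  -- `|sin x - sin a - (x-a) cos a| ≤ (x-a)^2/2`
  have key : |sin x - sin a - (x - a) * cos a| ≤ (x - a) ^ 2 / 2 := by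
    have h1 : ∀ s : ℝ, HasDerivAt (fun s : ℝ => sin s - sin a - (s - a) * cos a) (cos s - cos a) s := by
      intro s
      have h : HasDerivAt (fun s : ℝ => sin s - sin a - (s - a) * cos a) (cos s - 1 * cos a) s :=
        ((Real.hasDerivAt_sin s).sub_const (sin a)).sub
          (((hasDerivAt_id s).sub_const a).mul_const (cos a))
      rw [one_mul] at h
      exact h
    have h2 : ∀ s : ℝ, HasDerivAt (fun s : ℝ => (s - a) ^ 2 / 2) (s - a) s := by
      intro s
      have h : HasDerivAt (fun s : ℝ => (s - a) ^ 2 / 2) (((2 : ℕ) : ℝ) * (s - a) ^ (2 - 1) * 1 / 2) s :=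
        ((((hasDerivAt_id s).sub_const a).pow 2).div_const 2)
      refine h.congr_deriv ?_
      rw [show (2 - 1 : ℕ) = 1 by norm_num, pow_one]
      push_cast
      ring
    have hA : ∀ s : ℝ, HasDerivAt (fun s : ℝ => (s - a) ^ 2 / 2 + (sin s - sin a - (s - a) * cos a))
        ((s - a) + (cos s - cos a)) s := fun s => (h2 s).add (h1 s)
    have hS : ∀ s : ℝ, HasDerivAt (fun s : ℝ => (s - a) ^ 2 / 2 - (sin s - sin a - (s - a) * cos a))
        ((s - a) - (cos s - cos a)) s := fun s => (h2 s).sub (h1 s)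
    have hc : ∀ s : ℝ, |cos s - cos a| ≤ |s - a| := fun s => Real.abs_cos_sub_cos_le s a
    rcases le_total a x with h | h
    · rw [abs_le]
      have m1 : MonotoneOn (fun s : ℝ => (s - a) ^ 2 / 2 + (sin s - sin a - (s - a) * cos a)) (Set.Ici a) := by
        apply monotoneOn_of_deriv_nonneg (convex_Ici a)
        · exact fun s _ => (hA s).continuousAt.continuousWithinAt
        · exact fun s _ => (hA s).differentiableAt.differentiableWithinAt
        · intro s hs
          rw [interior_Ici] at hs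
          rw [(hA s).deriv]
          have := hc s
          rw [abs_of_pos (show 0 < s - a from sub_pos.2 hs)] at this
          linarith [(abs_le.1 this).1]
      have m2 : MonotoneOn (fun s : ℝ => (s - a) ^ 2 / 2 - (sin s - sin a - (s - a) * cos a)) (Set.Ici a) := by
        apply monotoneOn_of_deriv_nonneg (convex_Ici a)
        · exact fun s _ => (hS s).continuousAt.continuousWithinAt
        · exact fun s _ => (hS s).differentiableAt.differentiableWithinAt
        · intro s hs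
          rw [interior_Ici] at hs
          rw [(hS s).deriv]
          have := hc s
          rw [abs_of_pos (show 0 < s - a from sub_pos.2 hs)] at this
          linarith [(abs_le.1 this).2]
      have r1 := m1 (Set.mem_Ici.2 le_rfl) (Set.mem_Ici.2 h) h
      have r2 := m2 (Set.mem_Ici.2 le_rfl) (Set.mem_Ici.2 h) h
      simp only [sub_self, zero_mul] at r1 r2
      norm_num at r1 r2
      constructor <;> linarith
    · rw [abs_le]
      have m1 : AntitoneOn (fun s : ℝ => (s - a) ^ 2 / 2 + (sin s - sin a - (s - a) * cos a)) (Set.Iic a) := by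
        apply antitoneOn_of_deriv_nonpos (convex_Iic a)
        · exact fun s _ => (hA s).continuousAt.continuousWithinAt
        · exact fun s _ => (hA s).differentiableAt.differentiableWithinAt
        · intro s hs
          rw [interior_Iic] at hs
          rw [(hA s).deriv]
          have := hc s
          rw [abs_of_neg (show s - a < 0 from sub_neg.2 hs)] at this
          linarith [(abs_le.1 this).2]
      have m2 : AntitoneOn (fun s : ℝ => (s - a) ^ 2 / 2 - (sin s - sin a - (s - a) * cos a)) (Set.Iic a) := by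
        apply antitoneOn_of_deriv_nonpos (convex_Iic a)
        · exact fun s _ => (hS s).continuousAt.continuousWithinAt
        · exact fun s _ => (hS s).differentiableAt.differentiableWithinAt
        · intro s hs
          rw [interior_Iic] at hs
          rw [(hS s).deriv]
          have := hc s
          rw [abs_of_neg (show s - a < 0 from sub_neg.2 hs)] at this
          linarith [(abs_le.1 this).1]
      have r1 := m1 (Set.mem_Iic.2 h) (Set.mem_Iic.2 le_rfl) h
      have r2 := m2 (Set.mem_Iic.2 h) (Set.mem_Iic.2 le_rfl) h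
      simp only [sub_self, zero_mul] at r1 r2
      norm_num at r1 r2
      constructor <;> linarith
  have e : (x - a) * (sin x - sin a) =
      (x - a) ^ 2 * cos a + (x - a) * (sin x - sin a - (x - a) * cos a) := by ring
  rw [e]
  have h3 : |(x - a) * (sin x - sin a - (x - a) * cos a)| ≤ |x - a| * ((x - a) ^ 2 / 2) := by
    rw [abs_mul]
    exact mul_le_mul_of_nonneg_left key (abs_nonneg _)
  have h4 := (abs_le.1 h3).1
  have e2 : (x - a) ^ 2 * (cos a - |x - a| / 2) = (x - a) ^ 2 * cos a - |x - a| * ((x - a) ^ 2 / 2) := by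
    ring
  rw [e2]
  linarith

/-- the local coefficient -/
noncomputable def BB (a : ℝ) : ℝ := 2 * (123 / 125) ^ 3 / a ^ 3 - a / 123

theorem loc {a x : ℝ} (ha : 0 < a) (ha2 : a ≤ π) (hx2 : x < 2 * π)
    (h1 : 123 / 125 * a ≤ x) (h2 : 123 / 125 * x ≤ a) :
    (BB a + cos a) * (x - a) ^ 2 ≤ (x - a) * (fp x - fp a) := by
  have hπ := Real.pi_pos
  have hx : 0 < x := by linarith
  have hG := G_part (M := 125 / 123 * a) ha (by linarith) hx hx2 (by linarith) (by linarith)
  have hS := sin_part a x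
  have habs : |x - a| ≤ 2 / 123 * a := by
    rw [abs_le]; constructor <;> linarith
  have e1 : 2 / (125 / 123 * a) ^ 3 = 2 * (123 / 125) ^ 3 / a ^ 3 := by
    field_simp
  rw [e1] at hG
  have hsq : 0 ≤ (x - a) ^ 2 := sq_nonneg _
  have hS2 : (x - a) ^ 2 * (cos a - a / 123) ≤ (x - a) ^ 2 * (cos a - |x - a| / 2) :=
    mul_le_mul_of_nonneg_left (by linarith) hsq
  have e2 : (x - a) * (fp x - fp a) = (x - a) * (sin x - sin a) + -((x - a) * (G x - G a)) := by
    rw [fp_eq, fp_eq]; ring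
  rw [e2, BB]
  calc (2 * (123 / 125) ^ 3 / a ^ 3 - a / 123 + cos a) * (x - a) ^ 2
      = (x - a) ^ 2 * (cos a - a / 123) + (x - a) ^ 2 * (2 * (123 / 125) ^ 3 / a ^ 3) := by ring
    _ ≤ _ := by linarith

theorem BB_pos {a : ℝ} (ha : 0 < a) (ha2 : a ≤ π) : 0 < BB a := by
  have hπ := Real.pi_lt_d2
  unfold BB
  have h3 : a ≤ 3.15 := by linarith
  rw [sub_pos, lt_div_iff₀ (by positivity)]
  have h4 : a ^ 3 ≤ 3.15 ^ 3 := pow_le_pow_left₀ ha.le h3 3
  calc a / 123 * a ^ 3 ≤ 3.15 / 123 * 3.15 ^ 3 := by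
        apply mul_le_mul (by linarith) h4 (by positivity) (by norm_num)
    _ < _ := by norm_num

/-- lower bound of the terms of the sum -/
theorem term_ge {y : ℝ} (hy : 0 < y) (hy2 : y ≤ π / 2) :
    0.23819 / y - 0.0842 * y ≤ BB (2 * y) * sin y ^ 2 := by
  have hπ := Real.pi_lt_d2
  have hb := BB_pos (a := 2 * y) (by linarith) (by linarith)
  obtain ⟨v, hv⟩ : ∃ v, v = y ^ 2 := ⟨_, rfl⟩
  have hv0 : 0 < v := by rw [hv]; positivity
  have hv1 : v ≤ 2.5 := by
    rw [hv]
    have : y ≤ 1.575 := by linarith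
    nlinarith
  have hs : y * (1 - v / 6) ≤ sin y := by
    have := Real.sin_ge_sub_cube hy.le
    rw [hv]
    calc y * (1 - y ^ 2 / 6) = y - y ^ 3 / 6 := by ring
      _ ≤ _ := this
  have hs0 : 0 ≤ y * (1 - v / 6) := mul_nonneg hy.le (by linarith)
  have hs2 : (y * (1 - v / 6)) ^ 2 ≤ sin y ^ 2 := pow_le_pow_left₀ hs0 hs 2
  have h1 : BB (2 * y) * (y * (1 - v / 6)) ^ 2 ≤ BB (2 * y) * sin y ^ 2 :=
    mul_le_mul_of_nonneg_left hs2 hb.le
  refine le_trans ?_ h1
  have e1 : BB (2 * y) * (y * (1 - v / 6)) ^ 2 =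
      ((123 / 125) ^ 3 / 4 - 2 / 123 * v ^ 2) * (1 - v / 6) ^ 2 / y := by
    unfold BB
    rw [hv]
    field_simp
    ring
  have e2 : 0.23819 / y - 0.0842 * y = (0.23819 - 0.0842 * v) / y := by
    rw [hv]; field_simp
  rw [e1, e2]
  apply div_le_div_of_nonneg_right _ hy.le
  -- polynomial inequality
  have hp : 0 ≤ (0.0842 - (123 / 125) ^ 3 / 12) + v * ((123 / 125) ^ 3 / 144 - 2 / 123) +
      2 / 369 * v ^ 2 - 1 / 2214 * v ^ 3 := by
    nlinarith [sq_nonneg (v - 1.02), mul_nonneg hv0.le (sq_nonneg (v - 1.02)),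
      mul_nonneg (sub_nonneg.2 hv1) (sq_nonneg (v - 1.02))]
  have hq : ((123 / 125) ^ 3 / 4 - 2 / 123 * v ^ 2) * (1 - v / 6) ^ 2 - (0.23819 - 0.0842 * v) =
      ((123 / 125) ^ 3 / 4 - 0.23819) + v * ((0.0842 - (123 / 125) ^ 3 / 12) + v * ((123 / 125) ^ 3 / 144 - 2 / 123) +
      2 / 369 * v ^ 2 - 1 / 2214 * v ^ 3) := by ring
  have h3 := mul_nonneg hv0.le hp
  have h4 : (0 : ℝ) ≤ (123 / 125) ^ 3 / 4 - 0.23819 := by norm_num
  linarith

/-- the coefficients -/
noncomputable def bk (N : ℕ) (k : ℕ) : ℝ :=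
  if 2 * k ≤ N then BB (2 * π * k / N) else BB (2 * π * ((N - k : ℕ) : ℝ) / N)

end SmT

open SmT in
/-- SUBTASK D: configurations with a small order parameter `t` are regular. -/
theorem small_t {N : ℕ} (c : Cfg N) (hN : 9 ≤ N) (ht : c.t ≤ 1 / 500) (j : ℤ) :
    c.gap 1 j = 2 * π / N := by
  have hπ := Real.pi_pos
  have hN0 : (0 : ℝ) < N := by
    have : 0 < N := by omega
    exact_mod_cast this
  have hN9 : (9 : ℝ) ≤ N := by exact_mod_cast hN
  -- angles
  have hang0 : ∀ k : ℕ, 1 ≤ k → 0 < 2 * π * (k : ℝ) / N := by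
    intro k hk
    have : (0 : ℝ) < k := by exact_mod_cast hk
    positivity
  have hang1 : ∀ k : ℕ, 2 * k ≤ N → 2 * π * (k : ℝ) / N ≤ π := by
    intro k hk
    have : 2 * (k : ℝ) ≤ N := by exact_mod_cast hk
    rw [div_le_iff₀ hN0]
    nlinarith
  have hcompl : ∀ k : ℕ, k ≤ N → 2 * π * ((N - k : ℕ) : ℝ) / N = 2 * π - 2 * π * (k : ℝ) / N := by
    intro k hk
    rw [Nat.cast_sub hk]
    field_simp
  have hconf : ∀ k : ℕ, 1 ≤ k → k < N → ∀ j : ℤ,
      123 / 125 * (2 * π * k / N) ≤ c.gap k j ∧ 123 / 125 * c.gap k j ≤ 2 * π * k / N := by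
    intro k h1 h2 j
    obtain ⟨g1, g2⟩ := gap_confine c (by omega) (by linarith) h1 h2 j
    have ha := hang0 k h1
    have hg := c.gap_pos h1 j
    have h8 : 123 / 125 ≤ 1 - 8 * c.t := by linarith
    constructor
    · exact (mul_le_mul_of_nonneg_right h8 ha.le).trans g1
    · exact (mul_le_mul_of_nonneg_right h8 hg.le).trans g2
  have hlocal : ∀ k : ℕ, 1 ≤ k → 2 * k ≤ N → ∀ j : ℤ,
      (BB (2 * π * k / N) + cos (2 * π * k / N)) * (c.gap k j - 2 * π * k / N) ^ 2
        ≤ (c.gap k j - 2 * π * k / N) * (fp (c.gap k j) - fp (2 * π * k / N)) := by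
    intro k h1 h2 j
    obtain ⟨g1, g2⟩ := hconf k h1 (by omega) j
    exact loc (hang0 k h1) (hang1 k h2) (c.gap_lt (by omega) j) g1 g2
  refine regular_of_sum c (by omega) (bk N) ?_ ?_ ?_ j
  · intro k hk
    rw [Finset.mem_Ico] at hk
    unfold bk
    split_ifs with h
    · exact BB_pos (hang0 k hk.1) (hang1 k h)
    · exact BB_pos (hang0 (N - k) (by omega)) (hang1 (N - k) (by omega))
  · intro k hk j
    rw [Finset.mem_Ico] at hk
    unfold bk
    split_ifs with h
    · exact hlocal k hk.1 h j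
    · have hl := hlocal (N - k) (by omega) (by omega) (j + (k : ℤ))
      rw [c.gap_compl (by omega), hcompl k (by omega), fp_refl, fp_refl, cos_two_pi_sub] at hl
      rw [hcompl k (by omega)]
      have e1 : (2 * π - c.gap k j - (2 * π - 2 * π * (k : ℝ) / N)) ^ 2 = (c.gap k j - 2 * π * k / N) ^ 2 := by
        ring
      have e2 : (2 * π - c.gap k j - (2 * π - 2 * π * (k : ℝ) / N)) * (-fp (c.gap k j) - -fp (2 * π * k / N)) =
          (c.gap k j - 2 * π * k / N) * (fp (c.gap k j) - fp (2 * π * k / N)) := by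
        ring
      rw [e1, e2] at hl
      exact hl
  · -- the sum
    set F : ℕ → ℝ := fun k => bk N k * sin (π * k / N) ^ 2 with hF
    have hbpos : ∀ k ∈ Finset.Ico 1 N, 0 < bk N k := by
      intro k hk
      rw [Finset.mem_Ico] at hk
      unfold bk
      split_ifs with h
      · exact BB_pos (hang0 k hk.1) (hang1 k h)
      · exact BB_pos (hang0 (N - k) (by omega)) (hang1 (N - k) (by omega))
    have hF0 : ∀ k ∈ Finset.Ico 1 N, 0 ≤ F k := fun k hk =>
      mul_nonneg (hbpos k hk).le (sq_nonneg _)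
    have hFr : ∀ k, 1 ≤ k → 2 * k < N → F (N - k) = F k := by
      intro k h1 h2
      simp only [hF]
      have e1 : bk N (N - k) = bk N k := by
        unfold bk
        rw [if_neg (by omega), if_pos (by omega)]
        congr 3
        congr 1
        omega
      have e2 : π * ((N - k : ℕ) : ℝ) / N = π - π * k / N := by
        rw [Nat.cast_sub (by omega)]
        field_simp
      rw [e1, e2, sin_pi_sub]
    have hFt : ∀ k, 1 ≤ k → 2 * k ≤ N → 0.23819 * N / π * (1 / (k : ℝ)) - 0.0842 * π / N * k ≤ F k := by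
      intro k h1 h2
      have hk0 : (0 : ℝ) < k := by exact_mod_cast h1
      have h3 : π * (k : ℝ) / N ≤ π / 2 := by
        have := hang1 k h2
        have e : 2 * π * (k : ℝ) / N = 2 * (π * k / N) := by ring
        rw [e] at this
        linarith
      have h4 := term_ge (y := π * (k : ℝ) / N) (by positivity) h3
      simp only [hF]
      unfold bk
      rw [if_pos h2]
      have e : 2 * (π * (k : ℝ) / N) = 2 * π * k / N := by ring
      rw [e] at h4
      refine le_trans (le_of_eq ?_) h4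
      field_simp
    -- split
    obtain ⟨m, hm⟩ : ∃ m, m = (N - 1) / 2 := ⟨_, rfl⟩
    have hm4 : 4 ≤ m := by omega
    have hm2 : 2 * m + 1 ≤ N := by omega
    have hm3 : N ≤ 2 * m + 2 := by omega
    have hsplit : 2 * ∑ k ∈ Finset.Ico 1 (m + 1), F k ≤ ∑ k ∈ Finset.Ico 1 N, F k := by
      have hrefl : ∑ k ∈ Finset.Ico (N - m) N, F k = ∑ k ∈ Finset.Ico 1 (m + 1), F k := by
        apply Finset.sum_nbij' (fun k => N - k) (fun k => N - k)
        · intro k hk; simp only [Finset.mem_Ico] at *; omega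
        · intro k hk; simp only [Finset.mem_Ico] at *; omega
        · intro k hk; simp only [Finset.mem_Ico] at *; omega
        · intro k hk; simp only [Finset.mem_Ico] at *; omega
        · intro k hk
          simp only [Finset.mem_Ico] at hk
          have := hFr (N - k) (by omega) (by omega)
          rw [← this]
          congr 1
          omega
      have hdisj : Disjoint (Finset.Ico 1 (m + 1)) (Finset.Ico (N - m) N) := by
        rw [Finset.disjoint_left]
        intro k h1 h2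
        simp only [Finset.mem_Ico] at h1 h2
        omega
      have hsub : Finset.Ico 1 (m + 1) ∪ Finset.Ico (N - m) N ⊆ Finset.Ico 1 N := by
        intro k hk
        simp only [Finset.mem_union, Finset.mem_Ico] at *
        omega
      calc 2 * ∑ k ∈ Finset.Ico 1 (m + 1), F k
          = ∑ k ∈ Finset.Ico 1 (m + 1) ∪ Finset.Ico (N - m) N, F k := by
            rw [Finset.sum_union hdisj, hrefl]; ring
        _ ≤ _ := Finset.sum_le_sum_of_subset_of_nonneg hsub (fun k hk _ => hF0 k hk)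
    refine lt_of_lt_of_le ?_ hsplit
    have hlow : 0.23819 * N / π * ∑ k ∈ Finset.Ico 1 (m + 1), (1 / ((k : ℕ) : ℝ)) -
        0.0842 * π / N * ∑ k ∈ Finset.Ico 1 (m + 1), ((k : ℕ) : ℝ) ≤ ∑ k ∈ Finset.Ico 1 (m + 1), F k := by
      rw [Finset.mul_sum, Finset.mul_sum, ← Finset.sum_sub_distrib]
      refine Finset.sum_le_sum fun k hk => ?_
      rw [Finset.mem_Ico] at hk
      exact hFt k hk.1 (by omega)
    have hgauss : ∑ k ∈ Finset.Ico 1 (m + 1), ((k : ℕ) : ℝ) = m * (m + 1) / 2 := by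
      have : ∀ m : ℕ, ∑ k ∈ Finset.Ico 1 (m + 1), ((k : ℕ) : ℝ) = m * (m + 1) / 2 := by
        intro m
        induction m with
        | zero => simp
        | succ n ih =>
          rw [Finset.sum_Ico_succ_top (by omega), ih]
          push_cast
          ring
      exact this m
    rw [hgauss] at hlow
    have hπ1 := Real.pi_gt_d4
    have hπ2 := Real.pi_lt_d4
    have hNN : N * (1 / π) * π = (N : ℝ) := by field_simp
    rcases Nat.lt_or_ge m 5 with h5 | h5
    · have hm' : m = 4 := by omega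
      subst hm'
      have hH : ∑ k ∈ Finset.Ico 1 (4 + 1), (1 / ((k : ℕ) : ℝ)) = 25 / 12 := by
        simp [Finset.sum_Ico_succ_top]
        norm_num
      rw [hH] at hlow
      push_cast at hlow
      have k1 : 0.07579 * N ≤ 0.23819 * N / π := by
        rw [le_div_iff₀ hπ]
        nlinarith
      have k2 : 0.0842 * π / N ≤ 0.0842 * 3.1416 / 81 * N := by
        rw [div_le_iff₀ hN0]
        have : (81 : ℝ) ≤ N * N := by nlinarith
        nlinarith
      nlinarith
    · have hH : 137 / 60 ≤ ∑ k ∈ Finset.Ico 1 (m + 1), (1 / ((k : ℕ) : ℝ)) := by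
        have e : ∑ k ∈ Finset.Ico 1 (5 + 1), (1 / ((k : ℕ) : ℝ)) = 137 / 60 := by
          simp [Finset.sum_Ico_succ_top]
          norm_num
        rw [← e]
        apply Finset.sum_le_sum_of_subset_of_nonneg
        · intro k hk
          simp only [Finset.mem_Ico] at *
          omega
        · intro k _ _
          positivity
      have k1 : 0.0758 * N ≤ 0.23819 * N / π := by
        rw [le_div_iff₀ hπ]
        nlinarith
      have hmN : (m : ℝ) * (m + 1) / 2 ≤ N ^ 2 / 8 := by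
        have : 2 * (m : ℝ) + 1 ≤ N := by exact_mod_cast hm2
        have hm0 : (0 : ℝ) ≤ m := Nat.cast_nonneg m
        nlinarith
      have k2 : 0.0842 * π / N * (m * (m + 1) / 2) ≤ 0.0842 * 3.1416 / 8 * N := by
        calc 0.0842 * π / N * (m * (m + 1) / 2) ≤ 0.0842 * π / N * (N ^ 2 / 8) :=
              mul_le_mul_of_nonneg_left hmN (by positivity)
          _ = 0.0842 * π / 8 * N := by field_simp
          _ ≤ _ := by nlinarith
      have k3 : 0.0758 * N * (137 / 60) ≤ 0.23819 * N / π * ∑ k ∈ Finset.Ico 1 (m + 1), (1 / ((k : ℕ) : ℝ)) :=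
        mul_le_mul k1 hH (by norm_num) (by positivity)
      nlinarith

namespace SmT

/-- `-(x-a)(G x - G a) ≥ (x-a)^2/8` -/
theorem G_part8 {a x : ℝ} (ha : 0 < a) (ha2 : a < 2 * π) (hx : 0 < x) (hx2 : x < 2 * π) :
    (x - a) ^ 2 * (1 / 8) ≤ -((x - a) * (G x - G a)) := by
  have key : ∀ a x : ℝ, 0 < a → a < x → x < 2 * π →
      (x - a) ^ 2 * (1 / 8) ≤ -((x - a) * (G x - G a)) := by
    intro a x ha hax hx2
    have hcont : ContinuousOn G (Set.Icc a x) := fun y hy =>
      (G_hasDeriv (lt_of_lt_of_le ha hy.1) (lt_of_le_of_lt hy.2 hx2)).continuousAt.continuousWithinAt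
    obtain ⟨ξ, hξ, hd⟩ := exists_hasDerivAt_eq_slope G _ hax hcont
      (fun y hy => G_hasDeriv (ha.trans hy.1) (hy.2.trans hx2))
    have hξ0 : 0 < ξ := ha.trans hξ.1
    have hs : 0 < sin (ξ / 2) := sin_pos_of_pos_of_lt_pi (by linarith) (by linarith [hξ.2])
    have hs1 : sin (ξ / 2) ^ 3 ≤ 1 := pow_le_one₀ hs.le (sin_le_one _)
    have hk : 1 / 8 ≤ (1 + cos (ξ / 2) ^ 2) / (8 * sin (ξ / 2) ^ 3) := by
      rw [le_div_iff₀ (by positivity)]
      nlinarith [sq_nonneg (cos (ξ / 2))]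
    have hpos : 0 < x - a := by linarith
    have e2 : G x - G a = -((1 + cos (ξ / 2) ^ 2) / (8 * sin (ξ / 2) ^ 3)) * (x - a) := by
      rw [hd]; field_simp
    rw [e2]
    calc (x - a) ^ 2 * (1 / 8) ≤ (x - a) ^ 2 * ((1 + cos (ξ / 2) ^ 2) / (8 * sin (ξ / 2) ^ 3)) :=
          mul_le_mul_of_nonneg_left hk (by positivity)
      _ = _ := by ring
  rcases lt_trichotomy a x with h | h | h
  · exact key a x ha h hx2
  · rw [h]; simp
  · have := key x a hx h ha2
    calc (x - a) ^ 2 * (1 / 8) = (a - x) ^ 2 * (1 / 8) := by ring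
      _ ≤ _ := this
      _ = _ := by ring

/-- the local inequality with a parameter `q`, first form -/
theorem locq1 {q a x : ℝ} (hq : 0 < q) (hq1 : q ≤ 1) (ha : 0 < a) (ha2 : a < 2 * π) (hx2 : x < 2 * π)
    (h1 : q * a ≤ x) (h2 : q * x ≤ a) :
    (2 * q ^ 3 / a ^ 3 - (1 / q - 1) / 2 * a + cos a) * (x - a) ^ 2 ≤ (x - a) * (fp x - fp a) := by
  have hx : 0 < x := lt_of_lt_of_le (by positivity) h1
  have hxa : x ≤ a / q := by rw [le_div_iff₀ hq]; linarith
  have haa : a ≤ a / q := by rw [le_div_iff₀ hq]; nlinarith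
  have hG := G_part (M := a / q) ha ha2 hx hx2 haa hxa
  have hS := sin_part a x
  have e0 : (1 / q - 1) * a = a / q - a := by ring
  have e3 : a - q * a ≤ a / q - a := by
    have : a / q * q = a := by field_simp
    have h5 : 0 ≤ a / q - a := by linarith
    nlinarith
  have habs : |x - a| ≤ (1 / q - 1) * a := by
    rw [abs_le, e0]; constructor <;> linarith
  have e1 : 2 / (a / q) ^ 3 = 2 * q ^ 3 / a ^ 3 := by
    field_simp
  rw [e1] at hG
  have hsq : 0 ≤ (x - a) ^ 2 := sq_nonneg _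
  have hS2 : (x - a) ^ 2 * (cos a - (1 / q - 1) / 2 * a) ≤ (x - a) ^ 2 * (cos a - |x - a| / 2) :=
    mul_le_mul_of_nonneg_left (by linarith) hsq
  have e2 : (x - a) * (fp x - fp a) = (x - a) * (sin x - sin a) + -((x - a) * (G x - G a)) := by
    rw [fp_eq, fp_eq]; ring
  rw [e2]
  calc (2 * q ^ 3 / a ^ 3 - (1 / q - 1) / 2 * a + cos a) * (x - a) ^ 2
      = (x - a) ^ 2 * (cos a - (1 / q - 1) / 2 * a) + (x - a) ^ 2 * (2 * q ^ 3 / a ^ 3) := by ring
    _ ≤ _ := by linarith

/-- second form -/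
theorem locq2 {q a x : ℝ} (hq : 0 < q) (hq1 : q ≤ 1) (ha : 0 < a) (ha2 : a < 2 * π) (hx2 : x < 2 * π)
    (h1 : q * a ≤ x) (h2 : q * x ≤ a) :
    (1 / 8 - (1 / q - 1) / 2 * a + cos a) * (x - a) ^ 2 ≤ (x - a) * (fp x - fp a) := by
  have hx : 0 < x := lt_of_lt_of_le (by positivity) h1
  have hxa : x ≤ a / q := by rw [le_div_iff₀ hq]; linarith
  have haa : a ≤ a / q := by rw [le_div_iff₀ hq]; nlinarith
  have hG := G_part8 ha ha2 hx hx2
  have hS := sin_part a x
  have e0 : (1 / q - 1) * a = a / q - a := by ring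
  have e3 : a - q * a ≤ a / q - a := by
    have : a / q * q = a := by field_simp
    have h5 : 0 ≤ a / q - a := by linarith
    nlinarith
  have habs : |x - a| ≤ (1 / q - 1) * a := by
    rw [abs_le, e0]; constructor <;> linarith
  have hsq : 0 ≤ (x - a) ^ 2 := sq_nonneg _
  have hS2 : (x - a) ^ 2 * (cos a - (1 / q - 1) / 2 * a) ≤ (x - a) ^ 2 * (cos a - |x - a| / 2) :=
    mul_le_mul_of_nonneg_left (by linarith) hsq
  have e2 : (x - a) * (fp x - fp a) = (x - a) * (sin x - sin a) + -((x - a) * (G x - G a)) := by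
    rw [fp_eq, fp_eq]; ring
  rw [e2]
  calc (1 / 8 - (1 / q - 1) / 2 * a + cos a) * (x - a) ^ 2
      = (x - a) ^ 2 * (cos a - (1 / q - 1) / 2 * a) + (x - a) ^ 2 * (1 / 8) := by ring
    _ ≤ _ := by linarith

/-- third form, near `π` -/
theorem locq3 {a x : ℝ} (ha : 0 < a) (ha2 : a < 2 * π) (hx : 0 < x) (hx2 : x < 2 * π) :
    (1 / 8 - 1) * (x - a) ^ 2 ≤ (x - a) * (fp x - fp a) := by
  have hG := G_part8 ha ha2 hx hx2
  have hS : -(x - a) ^ 2 ≤ (x - a) * (sin x - sin a) := by
    have h1 : |(x - a) * (sin x - sin a)| ≤ |x - a| * |x - a| := by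
      rw [abs_mul]
      exact mul_le_mul_of_nonneg_left (Real.abs_sin_sub_sin_le x a) (abs_nonneg _)
    rw [abs_mul_abs_self] at h1
    have := (abs_le.1 h1).1
    nlinarith
  have e2 : (x - a) * (fp x - fp a) = (x - a) * (sin x - sin a) + -((x - a) * (G x - G a)) := by
    rw [fp_eq, fp_eq]; ring
  rw [e2]
  linarith

/-- the assembly with parameters: `K` terms on both sides with the coefficient `bf`, the other
coefficients are equal to `b0` -/
theorem assemble {N : ℕ} (c : Cfg N) (K : ℕ) (hK : 2 * K < N) (hN : 3 ≤ N) (q A B b0 : ℝ)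
    (hq : q ≤ 1 - 8 * c.t) (ht : c.t ≤ 1 / 16) (bf : ℝ → ℝ) (hb0 : 0 < b0)
    (hbf : ∀ a : ℝ, 0 < a → a ≤ 2 * π * K / N → 0 < bf a)
    (h0 : ∀ a x : ℝ, 0 < a → a ≤ π → 0 < x → x < 2 * π → q * a ≤ x → q * x ≤ a →
      (b0 + cos a) * (x - a) ^ 2 ≤ (x - a) * (fp x - fp a))
    (h1 : ∀ a x : ℝ, 0 < a → a ≤ π → a ≤ 2 * π * K / N → 0 < x → x < 2 * π → q * a ≤ x → q * x ≤ a →
      (bf a + cos a) * (x - a) ^ 2 ≤ (x - a) * (fp x - fp a))
    (h2 : ∀ y : ℝ, 0 < y → y ≤ π * K / N → A / y - B * y ≤ bf (2 * y) * sin y ^ 2)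
    (hs : (N : ℝ) / 4 < 2 * (A * N / π * ∑ k ∈ Finset.Ico 1 (K + 1), (1 / ((k : ℕ) : ℝ)) -
      B * π / N * ∑ k ∈ Finset.Ico 1 (K + 1), ((k : ℕ) : ℝ))) (j : ℤ) :
    c.gap 1 j = 2 * π / N := by
  have hπ := Real.pi_pos
  have hN0 : (0 : ℝ) < N := by
    have : 0 < N := by omega
    exact_mod_cast this
  have hang0 : ∀ k : ℕ, 1 ≤ k → 0 < 2 * π * (k : ℝ) / N := by
    intro k hk
    have : (0 : ℝ) < k := by exact_mod_cast hk
    positivity
  have hang1 : ∀ k : ℕ, 2 * k ≤ N → 2 * π * (k : ℝ) / N ≤ π := by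
    intro k hk
    have : 2 * (k : ℝ) ≤ N := by exact_mod_cast hk
    rw [div_le_iff₀ hN0]
    nlinarith
  have hangK : ∀ k : ℕ, k ≤ K → 2 * π * (k : ℝ) / N ≤ 2 * π * (K : ℝ) / N := by
    intro k hk
    have : (k : ℝ) ≤ K := by exact_mod_cast hk
    apply div_le_div_of_nonneg_right _ hN0.le
    nlinarith
  have hcompl : ∀ k : ℕ, k ≤ N → 2 * π * ((N - k : ℕ) : ℝ) / N = 2 * π - 2 * π * (k : ℝ) / N := by
    intro k hk
    rw [Nat.cast_sub hk]
    field_simp
  have hconf : ∀ k : ℕ, 1 ≤ k → k < N → ∀ j : ℤ,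
      q * (2 * π * k / N) ≤ c.gap k j ∧ q * c.gap k j ≤ 2 * π * k / N := by
    intro k h1 h2 j
    obtain ⟨g1, g2⟩ := gap_confine c (by omega) ht h1 h2 j
    have ha := hang0 k h1
    have hg := c.gap_pos h1 j
    constructor
    · exact (mul_le_mul_of_nonneg_right hq ha.le).trans g1
    · exact (mul_le_mul_of_nonneg_right hq hg.le).trans g2
  obtain ⟨be, hbe⟩ : ∃ be : ℕ → ℝ, be = fun k => if k ≤ K then bf (2 * π * k / N) else b0 := ⟨_, rfl⟩
  have hbepos : ∀ k : ℕ, 1 ≤ k → 0 < be k := by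
    intro k hk
    rw [hbe]
    dsimp only
    split_ifs with h
    · exact hbf _ (hang0 k hk) (hangK k h)
    · exact hb0
  have hlocal : ∀ k : ℕ, 1 ≤ k → 2 * k ≤ N → ∀ j : ℤ,
      (be k + cos (2 * π * k / N)) * (c.gap k j - 2 * π * k / N) ^ 2
        ≤ (c.gap k j - 2 * π * k / N) * (fp (c.gap k j) - fp (2 * π * k / N)) := by
    intro k hk1 hk2 j
    obtain ⟨g1, g2⟩ := hconf k hk1 (by omega) j
    rw [hbe]
    dsimp only
    split_ifs with h
    · exact h1 _ _ (hang0 k hk1) (hang1 k hk2) (hangK k h) (c.gap_pos hk1 j) (c.gap_lt (by omega) j) g1 g2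
    · exact h0 _ _ (hang0 k hk1) (hang1 k hk2) (c.gap_pos hk1 j) (c.gap_lt (by omega) j) g1 g2
  obtain ⟨b, hb⟩ : ∃ b : ℕ → ℝ, b = fun k => if 2 * k ≤ N then be k else be (N - k) := ⟨_, rfl⟩
  have hbpos : ∀ k ∈ Finset.Ico 1 N, 0 < b k := by
    intro k hk
    rw [Finset.mem_Ico] at hk
    rw [hb]
    dsimp only
    split_ifs with h
    · exact hbepos k hk.1
    · exact hbepos (N - k) (by omega)
  refine regular_of_sum c hN b hbpos ?_ ?_ j
  · intro k hk j
    rw [Finset.mem_Ico] at hk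
    rw [hb]
    dsimp only
    split_ifs with h
    · exact hlocal k hk.1 h j
    · have hl := hlocal (N - k) (by omega) (by omega) (j + (k : ℤ))
      rw [c.gap_compl (by omega), hcompl k (by omega), fp_refl, fp_refl, cos_two_pi_sub] at hl
      have e1 : (2 * π - c.gap k j - (2 * π - 2 * π * (k : ℝ) / N)) ^ 2 = (c.gap k j - 2 * π * k / N) ^ 2 := by
        ring
      have e2 : (2 * π - c.gap k j - (2 * π - 2 * π * (k : ℝ) / N)) * (-fp (c.gap k j) - -fp (2 * π * k / N)) =
          (c.gap k j - 2 * π * k / N) * (fp (c.gap k j) - fp (2 * π * k / N)) := by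
        ring
      rw [e1, e2] at hl
      exact hl
  · set F : ℕ → ℝ := fun k => b k * sin (π * k / N) ^ 2 with hF
    have hF0 : ∀ k ∈ Finset.Ico 1 N, 0 ≤ F k := fun k hk =>
      mul_nonneg (hbpos k hk).le (sq_nonneg _)
    have hFr : ∀ k, 1 ≤ k → 2 * k < N → F (N - k) = F k := by
      intro k h1 h2
      simp only [hF]
      have e1 : b (N - k) = b k := by
        rw [hb]
        dsimp only
        rw [if_neg (by omega), if_pos (by omega)]
        congr 1
        omega
      have e2 : π * ((N - k : ℕ) : ℝ) / N = π - π * k / N := by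
        rw [Nat.cast_sub (by omega)]
        field_simp
      rw [e1, e2, sin_pi_sub]
    have hFt : ∀ k, 1 ≤ k → k ≤ K → A * N / π * (1 / (k : ℝ)) - B * π / N * k ≤ F k := by
      intro k h1 h3
      have hk0 : (0 : ℝ) < k := by exact_mod_cast h1
      have h4 := h2 (π * (k : ℝ) / N) (by positivity) (by
        have := hangK k h3
        have e1 : 2 * π * (k : ℝ) / N = 2 * (π * k / N) := by ring
        have e2 : 2 * π * (K : ℝ) / N = 2 * (π * K / N) := by ring
        rw [e1, e2] at this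
        linarith)
      simp only [hF]
      rw [hb, hbe]
      dsimp only
      rw [if_pos (by omega), if_pos h3]
      have e : 2 * (π * (k : ℝ) / N) = 2 * π * k / N := by ring
      rw [e] at h4
      refine le_trans (le_of_eq ?_) h4
      field_simp
    have hsplit : 2 * ∑ k ∈ Finset.Ico 1 (K + 1), F k ≤ ∑ k ∈ Finset.Ico 1 N, F k := by
      have hrefl : ∑ k ∈ Finset.Ico (N - K) N, F k = ∑ k ∈ Finset.Ico 1 (K + 1), F k := by
        apply Finset.sum_nbij' (fun k => N - k) (fun k => N - k)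
        · intro k hk; simp only [Finset.mem_Ico] at *; omega
        · intro k hk; simp only [Finset.mem_Ico] at *; omega
        · intro k hk; simp only [Finset.mem_Ico] at *; omega
        · intro k hk; simp only [Finset.mem_Ico] at *; omega
        · intro k hk
          simp only [Finset.mem_Ico] at hk
          have := hFr (N - k) (by omega) (by omega)
          rw [← this]
          congr 1
          omega
      have hdisj : Disjoint (Finset.Ico 1 (K + 1)) (Finset.Ico (N - K) N) := by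
        rw [Finset.disjoint_left]
        intro k h1 h2
        simp only [Finset.mem_Ico] at h1 h2
        omega
      have hsub : Finset.Ico 1 (K + 1) ∪ Finset.Ico (N - K) N ⊆ Finset.Ico 1 N := by
        intro k hk
        simp only [Finset.mem_union, Finset.mem_Ico] at *
        omega
      calc 2 * ∑ k ∈ Finset.Ico 1 (K + 1), F k
          = ∑ k ∈ Finset.Ico 1 (K + 1) ∪ Finset.Ico (N - K) N, F k := by
            rw [Finset.sum_union hdisj, hrefl]; ring
        _ ≤ _ := Finset.sum_le_sum_of_subset_of_nonneg hsub (fun k hk _ => hF0 k hk)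
    refine lt_of_lt_of_le hs (le_trans ?_ hsplit)
    refine mul_le_mul_of_nonneg_left ?_ (by norm_num)
    rw [Finset.mul_sum, Finset.mul_sum, ← Finset.sum_sub_distrib]
    refine Finset.sum_le_sum fun k hk => ?_
    rw [Finset.mem_Ico] at hk
    exact hFt k hk.1 (by omega)

/-- lower bound of the terms of the sum, `q = 23/25` -/
theorem term_ge20 {y : ℝ} (hy : 0 < y) (hy2 : y ≤ 1.1) :
    0.19467 / y - 0.13 * y ≤
      (2 * (23 / 25) ^ 3 / (2 * y) ^ 3 - (1 / (23 / 25) - 1) / 2 * (2 * y)) * sin y ^ 2 := by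
  obtain ⟨v, hv⟩ : ∃ v, v = y ^ 2 := ⟨_, rfl⟩
  have hv0 : 0 < v := by rw [hv]; positivity
  have hv1 : v ≤ 1.21 := by
    rw [hv]
    nlinarith
  have hb : 0 ≤ 2 * (23 / 25) ^ 3 / (2 * y) ^ 3 - (1 / (23 / 25) - 1) / 2 * (2 * y) := by
    rw [sub_nonneg, le_div_iff₀ (by positivity)]
    have h4 : (2 * y) ^ 3 ≤ 2.2 ^ 3 := pow_le_pow_left₀ (by positivity) (by linarith) 3
    calc (1 / (23 / 25) - 1) / 2 * (2 * y) * (2 * y) ^ 3
        ≤ (1 / (23 / 25) - 1) / 2 * 2.2 * 2.2 ^ 3 := by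
          apply mul_le_mul _ h4 (by positivity) (by norm_num)
          norm_num
          linarith
      _ ≤ _ := by norm_num
  have hs : y * (1 - v / 6) ≤ sin y := by
    have := Real.sin_ge_sub_cube hy.le
    rw [hv]
    calc y * (1 - y ^ 2 / 6) = y - y ^ 3 / 6 := by ring
      _ ≤ _ := this
  have hs0 : 0 ≤ y * (1 - v / 6) := mul_nonneg hy.le (by linarith)
  have hs2 : (y * (1 - v / 6)) ^ 2 ≤ sin y ^ 2 := pow_le_pow_left₀ hs0 hs 2
  refine le_trans ?_ (mul_le_mul_of_nonneg_left hs2 hb)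
  have e1 : (2 * (23 / 25) ^ 3 / (2 * y) ^ 3 - (1 / (23 / 25) - 1) / 2 * (2 * y)) * (y * (1 - v / 6)) ^ 2 =
      ((23 / 25) ^ 3 / 4 - 2 / 23 * v ^ 2) * (1 - v / 6) ^ 2 / y := by
    rw [hv]
    field_simp
    ring
  have e2 : 0.19467 / y - 0.13 * y = (0.19467 - 0.13 * v) / y := by
    rw [hv]; field_simp
  rw [e1, e2]
  apply div_le_div_of_nonneg_right _ hy.le
  have hp : 0 ≤ (0.13 - (23 / 25) ^ 3 / 12) + v * ((23 / 25) ^ 3 / 144 - 2 / 23) +
      2 / 69 * v ^ 2 - 1 / 414 * v ^ 3 := by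
    nlinarith [mul_nonneg hv0.le (sub_nonneg.2 hv1), mul_nonneg hv0.le (sq_nonneg (v - 1.21)),
      mul_nonneg (mul_nonneg hv0.le hv0.le) (sub_nonneg.2 hv1)]
  have hq : ((23 / 25) ^ 3 / 4 - 2 / 23 * v ^ 2) * (1 - v / 6) ^ 2 - (0.19467 - 0.13 * v) =
      ((23 / 25) ^ 3 / 4 - 0.19467) + v * ((0.13 - (23 / 25) ^ 3 / 12) + v * ((23 / 25) ^ 3 / 144 - 2 / 23) +
      2 / 69 * v ^ 2 - 1 / 414 * v ^ 3) := by ring
  have h3 := mul_nonneg hv0.le hp
  have h4 : (0 : ℝ) ≤ (23 / 25) ^ 3 / 4 - 0.19467 := by norm_num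
  linarith

end SmT

open SmT in
/-- a second range: `N ≥ 20` and `t ≤ 1/100` -/
theorem small_t20 {N : ℕ} (c : Cfg N) (hN : 20 ≤ N) (ht : c.t ≤ 1 / 100) (j : ℤ) :
    c.gap 1 j = 2 * π / N := by
  have hπ := Real.pi_pos
  have hπ1 := Real.pi_gt_d4
  have hπ2 := Real.pi_lt_d4
  have hN20 : (20 : ℝ) ≤ N := by exact_mod_cast hN
  have hN0 : (0 : ℝ) < N := by linarith
  have hK : 2 * π * ((7 : ℕ) : ℝ) / N ≤ 2.2 := by
    rw [div_le_iff₀ hN0]
    push_cast
    nlinarith
  refine assemble c 7 (by omega) (by omega) (23 / 25) 0.19467 0.13 (1 / 400) (by linarith) (by linarith)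
    (fun a => 2 * (23 / 25) ^ 3 / a ^ 3 - (1 / (23 / 25) - 1) / 2 * a) (by norm_num) ?_ ?_ ?_ ?_ ?_ j
  · intro a ha ha2
    have h22 : a ≤ 2.2 := ha2.trans hK
    rw [sub_pos, lt_div_iff₀ (by positivity)]
    have h4 : a ^ 3 ≤ 2.2 ^ 3 := pow_le_pow_left₀ ha.le h22 3
    calc (1 / (23 / 25) - 1) / 2 * a * a ^ 3
        ≤ (1 / (23 / 25) - 1) / 2 * 2.2 * 2.2 ^ 3 := by
          apply mul_le_mul _ h4 (by positivity) (by norm_num)
          norm_num
          linarith
      _ < _ := by norm_num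
  · intro a x ha ha2 hx hx2 h1 h2
    have hsq : 0 ≤ (x - a) ^ 2 := sq_nonneg _
    rcases le_total a 2.4 with h | h
    · refine le_trans ?_ (locq1 (by norm_num) (by norm_num) ha (by linarith) hx2 h1 h2)
      apply mul_le_mul_of_nonneg_right _ hsq
      have h3 : 1 / 400 + (1 / (23 / 25) - 1) / 2 * a ≤ 2 * (23 / 25) ^ 3 / a ^ 3 := by
        rw [le_div_iff₀ (by positivity)]
        have h4 : a ^ 3 ≤ 2.4 ^ 3 := pow_le_pow_left₀ ha.le h 3
        calc (1 / 400 + (1 / (23 / 25) - 1) / 2 * a) * a ^ 3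
            ≤ (1 / 400 + (1 / (23 / 25) - 1) / 2 * 2.4) * 2.4 ^ 3 := by
              apply mul_le_mul _ h4 (by positivity) (by norm_num)
              norm_num
              linarith
          _ ≤ _ := by norm_num
      linarith
    · rcases le_total a 2.8 with h' | h'
      · refine le_trans ?_ (locq2 (by norm_num) (by norm_num) ha (by linarith) hx2 h1 h2)
        apply mul_le_mul_of_nonneg_right _ hsq
        norm_num
        linarith
      · refine le_trans ?_ (locq3 ha (by linarith) hx hx2)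
        apply mul_le_mul_of_nonneg_right _ hsq
        -- `cos a ≤ cos 2.8 < -0.9`
        have hc : cos a ≤ -0.9 := by
          have e : cos a = -cos (π - a) := by rw [cos_pi_sub]; ring
          have h5 := Real.one_sub_sq_div_two_le_cos (x := π - a)
          have h6 : (π - a) ^ 2 ≤ 0.35 ^ 2 := pow_le_pow_left₀ (by linarith) (by linarith) 2
          rw [e]
          norm_num at h6
          linarith
        norm_num
        linarith
  · intro a x ha ha2 ha3 hx hx2 h1 h2
    exact locq1 (by norm_num) (by norm_num) ha (by linarith) hx2 h1 h2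
  · intro y hy hy2
    apply term_ge20 hy
    have e : 2 * π * ((7 : ℕ) : ℝ) / N = 2 * (π * ((7 : ℕ) : ℝ) / N) := by ring
    rw [e] at hK
    linarith
  · have hH : ∑ k ∈ Finset.Ico 1 (7 + 1), (1 / ((k : ℕ) : ℝ)) = 363 / 140 := by
      simp [Finset.sum_Ico_succ_top]
      norm_num
    have hG : ∑ k ∈ Finset.Ico 1 (7 + 1), ((k : ℕ) : ℝ) = 28 := by
      simp [Finset.sum_Ico_succ_top]
      norm_num
    rw [hH, hG]
    have k1 : 0.06196 * N ≤ 0.19467 * N / π := by
      rw [le_div_iff₀ hπ]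
      nlinarith
    have k2 : 0.13 * π / N ≤ 0.13 * 3.1416 / 400 * N := by
      rw [div_le_iff₀ hN0]
      have : (400 : ℝ) ≤ N * N := by nlinarith
      nlinarith
    nlinarith

end Pool.Agent.H999.LimCC
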