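import Pool.Agent.H999.LimCC.Limit
import Pool.Agent.H999.LimCC.CfgEx
import Pool.Agent.H999.LimCC.SmallT

set_option autoImplicit false

namespace Pool.Agent.H999.LimCC

open Real Finset Filter

/-- SUBTASK O1: the order parameter is at most one (indeed less). -/
theorem t_le_one {N : ℕ} (hN : 1 ≤ N) (c : Cfg N) : c.t ≤ 1 := by
  have h1 : (N : ℝ) * c.t ≤ N := by
    rw [← c.sum_cos]
    calc ∑ j ∈ range N, Real.cos (c.th (j : ℤ)) ≤ ∑ _j ∈ range N, (1 : ℝ) :=
          Finset.sum_le_sum fun j _ => Real.cos_le_one _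
      _ = N := by simp
  have h2 : (0 : ℝ) < N := by exact_mod_cast hN
  by_contra hcon
  push Not at hcon
  nlinarith

/-- SUBTASK O2: equal gaps give the regular polygon. -/
theorem regular_of_gap {N : ℕ} (hN : 2 ≤ N) (x : Fin (N + 1) → ℂ)
    (h : ∃ ε : ℕ → ℝ, ∃ q : ℕ → Fin (N + 1) → ℂ,
        (∀ k, 0 < ε k) ∧ Tendsto ε atTop (nhds 0) ∧
        (∀ k, Function.Injective (q k) ∧
          ∃ lam : ℝ, ∀ i : Fin (N + 1),
            (lam : ℂ) * (q k i -
              (∑ j : Fin (N + 1), (((if j = 0 then (1 : ℝ) else ε k) : ℝ) : ℂ) * q k j)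
                / (((1 + (N : ℝ) * ε k) : ℝ) : ℂ)) =
            ∑ j ∈ Finset.univ.erase i,
              ((((if j = 0 then (1 : ℝ) else ε k) / ‖q k i - q k j‖ ^ 3 : ℝ)) : ℂ)
                * (q k i - q k j)) ∧
        Tendsto q atTop (nhds x))
    (hinj : Function.Injective (fun i : Fin N => x i.succ))
    (hreg : ∀ c : Cfg N, ∀ j : ℤ, c.gap 1 j = 2 * π / N) :
    ∃ c r : ℂ, r ≠ 0 ∧ ∃ σ : Equiv.Perm (Fin N), ∀ k : Fin N,
        x (σ k).succ = c + r * Complex.exp (2 * (Real.pi : ℂ) * Complex.I * ((k : ℕ) : ℂ) / (N : ℂ))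
    := by
  obtain ⟨ρ, hρ, hn, heq⟩ := limit_eq N hN x h hinj
  obtain ⟨c, w, hw, σ, hσ⟩ := exists_cfg N hN (fun i => x i.succ - x 0)
    (fun a b hab => hinj (sub_left_injective hab)) ρ hρ hn (by
      intro i
      rw [← heq i]
      refine Finset.sum_congr rfl fun j _ => ?_
      rw [sub_sub_sub_cancel_right])
  have hth : ∀ k : ℕ, c.th (k : ℤ) = c.th 0 + 2 * π * k / N := by
    intro k
    induction k with
    | zero => simp
    | succ k ih =>
      have h1 := hreg c (k : ℤ)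
      unfold Cfg.gap at h1
      rw [ih] at h1
      have h2 : ((k + 1 : ℕ) : ℤ) = (k : ℤ) + ((1 : ℕ) : ℤ) := by push_cast; ring
      rw [h2]
      push_cast at h1 ⊢
      have h3 : 2 * π * ((k : ℝ) + 1) / N = 2 * π * k / N + 2 * π / N := by ring
      rw [h3]
      linarith
  refine ⟨x 0, w * Complex.exp (Complex.I * (c.th 0 : ℝ)),
    mul_ne_zero hw (Complex.exp_ne_zero _), σ, fun k => ?_⟩
  have h1 := hσ k
  rw [hth] at h1
  have h2 : x (σ k).succ = x 0 + (x (σ k).succ - x 0) := by ring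
  rw [h2, h1, mul_assoc w, ← Complex.exp_add]
  congr 3
  push_cast
  ring

end Pool.Agent.H999.LimCC
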