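import Pool.Agent.H999.LimCC.Data.UA
import Pool.Agent.H999.LimCC.Data.UB
import Pool.Agent.H999.LimCC.Data.UC
import Pool.Agent.H999.LimCC.Data.VA
import Pool.Agent.H999.LimCC.Data.VB
import Pool.Agent.H999.LimCC.Data.FA
import Pool.Agent.H999.LimCC.Data.FB
import Pool.Agent.H999.LimCC.Data.FC
import Pool.Agent.H999.LimCC.Data.GA
import Pool.Agent.H999.LimCC.Data.GB
import Pool.Agent.H999.LimCC.Data.GC
import Pool.Agent.H999.LimCC.FD
import Pool.Agent.H999.LimCC.UD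
import Pool.Agent.H999.LimCC.FG
import Pool.Agent.H999.LimCC.Final

/-! Exclusion of all configurations with `9 ≤ N ≤ 1130` and `t` not too small. -/

set_option autoImplicit false

namespace Pool.Agent.H999.LimCC

theorem FD.step {T : Tr} (hT : T.OK) {F : FD} (h : F.chk T = true) {N : ℕ} (hN : F.N = N)
    (c : Cfg N) {a b : ℕ} (ha : F.Tl = a) (hb : F.Th = b) (h1 : (a : ℝ) / 2 ^ 20 ≤ c.t) :
    (b : ℝ) / 2 ^ 20 ≤ c.t := by
  subst hN ha hb
  by_contra hc
  exact FD.sound hT h c h1 (not_le.mp hc).le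

theorem FG.step {T : TrG} (hT : T.OK) {F : FG} (h : F.chk T = true) {N : ℕ} (hN : F.N = N)
    (c : Cfg N) {a b : ℕ} (ha : F.Tl = a) (hb : F.Th = b) (h1 : (a : ℝ) / 2 ^ 20 ≤ c.t) :
    (b : ℝ) / 2 ^ 20 ≤ c.t := by
  subst hN ha hb
  by_contra hc
  exact FG.sound hT h c h1 (not_le.mp hc).le

theorem UD.step {T : Tr} (hT : T.OK) {U : UD} (h : U.chk T = true) {N N1 N2 K0 : ℕ}
    (hU1 : U.N1 = N1) (hU2 : U.N2 = N2) (hU3 : U.K0 = K0) (hK : 2 ≤ K0) (hN1 : N1 ≤ N)
    (hN2 : N ≤ N2) (c : Cfg N) {a b : ℕ} (ha : U.Tl = a) (hb : U.Th = b)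
    (h1 : (a : ℝ) / 2 ^ 20 ≤ c.t) : (b : ℝ) / 2 ^ 20 ≤ c.t := by
  subst hU1 hU2 hU3 ha hb
  by_contra hc
  exact UD.sound2 hT h hK hN1 hN2 c h1 (not_le.mp hc).le

theorem FD.last {T : Tr} (hT : T.OK) {F : FD} (h : F.chk T = true) {N : ℕ} (hN : F.N = N)
    (c : Cfg N) {a : ℕ} (ha : F.Tl = a) (hb : F.Th = 1048576) (h1 : (a : ℝ) / 2 ^ 20 ≤ c.t)
    (h2 : c.t ≤ 1) : False := by
  subst hN ha
  refine FD.sound hT h c h1 ?_
  rw [hb]; norm_num; exact h2

theorem FG.last {T : TrG} (hT : T.OK) {F : FG} (h : F.chk T = true) {N : ℕ} (hN : F.N = N)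
    (c : Cfg N) {a : ℕ} (ha : F.Tl = a) (hb : F.Th = 1048576) (h1 : (a : ℝ) / 2 ^ 20 ≤ c.t)
    (h2 : c.t ≤ 1) : False := by
  subst hN ha
  refine FG.sound hT h c h1 ?_
  rw [hb]; norm_num; exact h2

theorem UD.last {T : Tr} (hT : T.OK) {U : UD} (h : U.chk T = true) {N N1 N2 K0 : ℕ}
    (hU1 : U.N1 = N1) (hU2 : U.N2 = N2) (hU3 : U.K0 = K0) (hK : 2 ≤ K0) (hN1 : N1 ≤ N)
    (hN2 : N ≤ N2) (c : Cfg N) {a : ℕ} (ha : U.Tl = a) (hb : U.Th = 1048576)
    (h1 : (a : ℝ) / 2 ^ 20 ≤ c.t) (h2 : c.t ≤ 1) : False := by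
  subst hU1 hU2 hU3 ha
  refine UD.sound2 hT h hK hN1 hN2 c h1 ?_
  rw [hb]; norm_num; exact h2

theorem no9 (c : Cfg 9) (ht : 1 / 500 < c.t) : False := by
  have h1 : c.t ≤ 1 := t_le_one (by norm_num) c
  have s0 : ((1992 : ℕ) : ℝ) / 2 ^ 20 ≤ c.t := by norm_num; linarith
  have s1 := FD.step tabF_ok fd9_0_ok (N := 9) rfl c (a := 1992) (b := 4180) rfl rfl s0
  have s2 := FD.step tabF_ok fd9_1_ok (N := 9) rfl c (a := 4180) (b := 8746) rfl rfl s1
  have s3 := FD.step tabF_ok fd9_2_ok (N := 9) rfl c (a := 8746) (b := 17848) rfl rfl s2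
  have s4 := FD.step tabF_ok fd9_3_ok (N := 9) rfl c (a := 17848) (b := 34567) rfl rfl s3
  have s5 := FD.step tabF_ok fd9_4_ok (N := 9) rfl c (a := 34567) (b := 59133) rfl rfl s4
  have s6 := FD.step tabF_ok fd9_5_ok (N := 9) rfl c (a := 59133) (b := 79209) rfl rfl s5
  have s7 := FG.step tabG_ok gd9_0_ok (N := 9) rfl c (a := 78643) (b := 160373) rfl rfl (le_trans (by norm_num) s6)
  have s8 := FG.step tabG_ok gd9_1_ok (N := 9) rfl c (a := 160373) (b := 257786) rfl rfl s7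
  have s9 := FG.step tabG_ok gd9_2_ok (N := 9) rfl c (a := 257786) (b := 344175) rfl rfl s8
  have s10 := FG.step tabG_ok gd9_3_ok (N := 9) rfl c (a := 344175) (b := 407056) rfl rfl s9
  have s11 := FG.step tabG_ok gd9_4_ok (N := 9) rfl c (a := 407056) (b := 502441) rfl rfl s10
  exact FG.last tabG_ok gd9_5_ok (N := 9) rfl c (a := 502441) rfl rfl s11 h1

theorem no10 (c : Cfg 10) (ht : 1 / 500 < c.t) : False := by
  have h1 : c.t ≤ 1 := t_le_one (by norm_num) c
  have s0 : ((1992 : ℕ) : ℝ) / 2 ^ 20 ≤ c.t := by norm_num; linarith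
  have s1 := FD.step tabF_ok fd10_0_ok (N := 10) rfl c (a := 1992) (b := 4611) rfl rfl s0
  have s2 := FD.step tabF_ok fd10_1_ok (N := 10) rfl c (a := 4611) (b := 10656) rfl rfl s1
  have s3 := FD.step tabF_ok fd10_2_ok (N := 10) rfl c (a := 10656) (b := 24000) rfl rfl s2
  have s4 := FD.step tabF_ok fd10_3_ok (N := 10) rfl c (a := 24000) (b := 50811) rfl rfl s3
  have s5 := FD.step tabF_ok fd10_4_ok (N := 10) rfl c (a := 50811) (b := 90797) rfl rfl s4
  have s6 := FD.step tabF_ok fd10_5_ok (N := 10) rfl c (a := 90797) (b := 121639) rfl rfl s5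
  have s7 := FG.step tabG_ok gd10_0_ok (N := 10) rfl c (a := 120586) (b := 235216) rfl rfl (le_trans (by norm_num) s6)
  have s8 := FG.step tabG_ok gd10_1_ok (N := 10) rfl c (a := 235216) (b := 371684) rfl rfl s7
  have s9 := FG.step tabG_ok gd10_2_ok (N := 10) rfl c (a := 371684) (b := 596534) rfl rfl s8
  exact FD.last tabF_ok hd10_0_ok (N := 10) rfl c (a := 587202) rfl rfl (le_trans (by norm_num) s9) h1

theorem no11 (c : Cfg 11) (ht : 1 / 500 < c.t) : False := by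
  have h1 : c.t ≤ 1 := t_le_one (by norm_num) c
  have s0 : ((1992 : ℕ) : ℝ) / 2 ^ 20 ≤ c.t := by norm_num; linarith
  have s1 := FD.step tabF_ok fd11_0_ok (N := 11) rfl c (a := 1992) (b := 5414) rfl rfl s0
  have s2 := FD.step tabF_ok fd11_1_ok (N := 11) rfl c (a := 5414) (b := 14558) rfl rfl s1
  have s3 := FD.step tabF_ok fd11_2_ok (N := 11) rfl c (a := 14558) (b := 37450) rfl rfl s2
  have s4 := FD.step tabF_ok fd11_3_ok (N := 11) rfl c (a := 37450) (b := 87200) rfl rfl s3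
  have s5 := FD.step tabF_ok fd11_4_ok (N := 11) rfl c (a := 87200) (b := 150452) rfl rfl s4
  have s6 := FD.step tabF_ok fd11_5_ok (N := 11) rfl c (a := 150452) (b := 193290) rfl rfl s5
  have s7 := FG.step tabG_ok gd11_0_ok (N := 11) rfl c (a := 191889) (b := 357526) rfl rfl (le_trans (by norm_num) s6)
  have s8 := FG.step tabG_ok gd11_1_ok (N := 11) rfl c (a := 357526) (b := 633209) rfl rfl s7
  exact FD.last tabF_ok hd11_0_ok (N := 11) rfl c (a := 618659) rfl rfl (le_trans (by norm_num) s8) h1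

theorem no12 (c : Cfg 12) (ht : 1 / 500 < c.t) : False := by
  have h1 : c.t ≤ 1 := t_le_one (by norm_num) c
  have s0 : ((1992 : ℕ) : ℝ) / 2 ^ 20 ≤ c.t := by norm_num; linarith
  have s1 := FD.step tabF_ok fd12_0_ok (N := 12) rfl c (a := 1992) (b := 5750) rfl rfl s0
  have s2 := FD.step tabF_ok fd12_1_ok (N := 12) rfl c (a := 5750) (b := 16246) rfl rfl s1
  have s3 := FD.step tabF_ok fd12_2_ok (N := 12) rfl c (a := 16246) (b := 44507) rfl rfl s2
  have s4 := FD.step tabF_ok fd12_3_ok (N := 12) rfl c (a := 44507) (b := 107703) rfl rfl s3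
  have s5 := FD.step tabF_ok fd12_4_ok (N := 12) rfl c (a := 107703) (b := 194601) rfl rfl s4
  have s6 := FD.step tabF_ok fd12_5_ok (N := 12) rfl c (a := 194601) (b := 268140) rfl rfl s5
  have s7 := FD.step tabF_ok fd12_6_ok (N := 12) rfl c (a := 268140) (b := 305035) rfl rfl s6
  have s8 := FG.step tabG_ok gd12_0_ok (N := 12) rfl c (a := 303038) (b := 540211) rfl rfl (le_trans (by norm_num) s7)
  exact FD.last tabF_ok hd12_0_ok (N := 12) rfl c (a := 524288) rfl rfl (le_trans (by norm_num) s8) h1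

theorem no13 (c : Cfg 13) (ht : 1 / 500 < c.t) : False := by
  have h1 : c.t ≤ 1 := t_le_one (by norm_num) c
  have s0 : ((1992 : ℕ) : ℝ) / 2 ^ 20 ≤ c.t := by norm_num; linarith
  have s1 := FD.step tabF_ok fd13_0_ok (N := 13) rfl c (a := 1992) (b := 6333) rfl rfl s0
  have s2 := FD.step tabF_ok fd13_1_ok (N := 13) rfl c (a := 6333) (b := 19751) rfl rfl s1
  have s3 := FD.step tabF_ok fd13_2_ok (N := 13) rfl c (a := 19751) (b := 58763) rfl rfl s2
  have s4 := FD.step tabF_ok fd13_3_ok (N := 13) rfl c (a := 58763) (b := 146264) rfl rfl s3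
  have s5 := FD.step tabF_ok fd13_4_ok (N := 13) rfl c (a := 146264) (b := 268154) rfl rfl s4
  have s6 := FD.step tabF_ok fd13_5_ok (N := 13) rfl c (a := 268154) (b := 399949) rfl rfl s5
  have s7 := FD.step tabF_ok fd13_6_ok (N := 13) rfl c (a := 399949) (b := 640624) rfl rfl s6
  exact FD.last tabF_ok fd13_7_ok (N := 13) rfl c (a := 640624) rfl rfl s7 h1

theorem no14 (c : Cfg 14) (ht : 1 / 500 < c.t) : False := by
  have h1 : c.t ≤ 1 := t_le_one (by norm_num) c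
  have s0 : ((1992 : ℕ) : ℝ) / 2 ^ 20 ≤ c.t := by norm_num; linarith
  have s1 := FD.step tabF_ok fd14_0_ok (N := 14) rfl c (a := 1992) (b := 6621) rfl rfl s0
  have s2 := FD.step tabF_ok fd14_1_ok (N := 14) rfl c (a := 6621) (b := 21657) rfl rfl s1
  have s3 := FD.step tabF_ok fd14_2_ok (N := 14) rfl c (a := 21657) (b := 67168) rfl rfl s2
  have s4 := FD.step tabF_ok fd14_3_ok (N := 14) rfl c (a := 67168) (b := 172386) rfl rfl s3
  have s5 := FD.step tabF_ok fd14_4_ok (N := 14) rfl c (a := 172386) (b := 330402) rfl rfl s4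
  have s6 := FD.step tabF_ok fd14_5_ok (N := 14) rfl c (a := 330402) (b := 564951) rfl rfl s5
  exact FD.last tabF_ok fd14_6_ok (N := 14) rfl c (a := 564951) rfl rfl s6 h1

theorem no15 (c : Cfg 15) (ht : 1 / 500 < c.t) : False := by
  have h1 : c.t ≤ 1 := t_le_one (by norm_num) c
  have s0 : ((1992 : ℕ) : ℝ) / 2 ^ 20 ≤ c.t := by norm_num; linarith
  have s1 := FD.step tabF_ok fd15_0_ok (N := 15) rfl c (a := 1992) (b := 7106) rfl rfl s0
  have s2 := FD.step tabF_ok fd15_1_ok (N := 15) rfl c (a := 7106) (b := 24955) rfl rfl s1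
  have s3 := FD.step tabF_ok fd15_2_ok (N := 15) rfl c (a := 24955) (b := 82304) rfl rfl s2
  have s4 := FD.step tabF_ok fd15_3_ok (N := 15) rfl c (a := 82304) (b := 215654) rfl rfl s3
  have s5 := FD.step tabF_ok fd15_4_ok (N := 15) rfl c (a := 215654) (b := 430932) rfl rfl s4
  have s6 := FD.step tabF_ok fd15_5_ok (N := 15) rfl c (a := 430932) (b := 1016017) rfl rfl s5
  exact FD.last tabF_ok hd15_0_ok (N := 15) rfl c (a := 943718) rfl rfl (le_trans (by norm_num) s6) h1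

theorem no16 (c : Cfg 16) (ht : 1 / 500 < c.t) : False := by
  have h1 : c.t ≤ 1 := t_le_one (by norm_num) c
  have s0 : ((1992 : ℕ) : ℝ) / 2 ^ 20 ≤ c.t := by norm_num; linarith
  have s1 := FD.step tabF_ok fd16_0_ok (N := 16) rfl c (a := 1992) (b := 7354) rfl rfl s0
  have s2 := FD.step tabF_ok fd16_1_ok (N := 16) rfl c (a := 7354) (b := 26723) rfl rfl s1
  have s3 := FD.step tabF_ok fd16_2_ok (N := 16) rfl c (a := 26723) (b := 91428) rfl rfl s2
  have s4 := FD.step tabF_ok fd16_3_ok (N := 16) rfl c (a := 91428) (b := 246627) rfl rfl s3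
  have s5 := FD.step tabF_ok fd16_4_ok (N := 16) rfl c (a := 246627) (b := 519410) rfl rfl s4
  exact FD.last tabF_ok fd16_5_ok (N := 16) rfl c (a := 519410) rfl rfl s5 h1

theorem no17 (c : Cfg 17) (ht : 1 / 500 < c.t) : False := by
  have h1 : c.t ≤ 1 := t_le_one (by norm_num) c
  have s0 : ((1992 : ℕ) : ℝ) / 2 ^ 20 ≤ c.t := by norm_num; linarith
  have s1 := FD.step tabF_ok fd17_0_ok (N := 17) rfl c (a := 1992) (b := 7816) rfl rfl s0
  have s2 := FD.step tabF_ok fd17_1_ok (N := 17) rfl c (a := 7816) (b := 29956) rfl rfl s1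
  have s3 := FD.step tabF_ok fd17_2_ok (N := 17) rfl c (a := 29956) (b := 106193) rfl rfl s2
  have s4 := FD.step tabF_ok fd17_3_ok (N := 17) rfl c (a := 106193) (b := 293040) rfl rfl s3
  have s5 := FD.step tabF_ok fd17_4_ok (N := 17) rfl c (a := 293040) (b := 661434) rfl rfl s4
  exact FD.last tabF_ok fd17_5_ok (N := 17) rfl c (a := 661434) rfl rfl s5 h1

theorem no18 (c : Cfg 18) (ht : 1 / 500 < c.t) : False := by
  have h1 : c.t ≤ 1 := t_le_one (by norm_num) c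
  have s0 : ((1992 : ℕ) : ℝ) / 2 ^ 20 ≤ c.t := by norm_num; linarith
  have s1 := FD.step tabF_ok fd18_0_ok (N := 18) rfl c (a := 1992) (b := 8008) rfl rfl s0
  have s2 := FD.step tabF_ok fd18_1_ok (N := 18) rfl c (a := 8008) (b := 31640) rfl rfl s1
  have s3 := FD.step tabF_ok fd18_2_ok (N := 18) rfl c (a := 31640) (b := 115607) rfl rfl s2
  have s4 := FD.step tabF_ok fd18_3_ok (N := 18) rfl c (a := 115607) (b := 327479) rfl rfl s3
  have s5 := FD.step tabF_ok fd18_4_ok (N := 18) rfl c (a := 327479) (b := 791772) rfl rfl s4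
  exact FD.last tabF_ok fd18_5_ok (N := 18) rfl c (a := 791772) rfl rfl s5 h1

theorem no19 (c : Cfg 19) (ht : 1 / 500 < c.t) : False := by
  have h1 : c.t ≤ 1 := t_le_one (by norm_num) c
  have s0 : ((1992 : ℕ) : ℝ) / 2 ^ 20 ≤ c.t := by norm_num; linarith
  have s1 := FD.step tabF_ok fd19_0_ok (N := 19) rfl c (a := 1992) (b := 8366) rfl rfl s0
  have s2 := FD.step tabF_ok fd19_1_ok (N := 19) rfl c (a := 8366) (b := 34550) rfl rfl s1
  have s3 := FD.step tabF_ok fd19_2_ok (N := 19) rfl c (a := 34550) (b := 130063) rfl rfl s2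
  have s4 := FD.step tabF_ok fd19_3_ok (N := 19) rfl c (a := 130063) (b := 375891) rfl rfl s3
  have s5 := FD.step tabF_ok fd19_4_ok (N := 19) rfl c (a := 375891) (b := 1034994) rfl rfl s4
  exact FD.last tabF_ok hd19_0_ok (N := 19) rfl c (a := 943718) rfl rfl (le_trans (by norm_num) s5) h1

theorem no_ud1 {N : ℕ} (hN1 : 20 ≤ N) (hN2 : N ≤ 100) (c : Cfg N) (ht : 1 / 100 < c.t) : False := by
  have h1 : c.t ≤ 1 := t_le_one (by omega) c
  have s0 : ((10380 : ℕ) : ℝ) / 2 ^ 20 ≤ c.t := by norm_num; linarith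
  have s1 := UD.step tabU_ok ud1_0_ok (N := N) (N1 := 20) (N2 := 100) (K0 := 9) rfl rfl rfl (by norm_num) hN1 hN2 c (a := 10380) (b := 22021) rfl rfl
    s0
  have s2 := UD.step tabU_ok ud1_1_ok (N := N) (N1 := 20) (N2 := 100) (K0 := 9) rfl rfl rfl (by norm_num) hN1 hN2 c (a := 22020) (b := 45089) rfl rfl
    (le_trans (by norm_num) s1)
  have s3 := UD.step tabU_ok ud1_2_ok (N := N) (N1 := 20) (N2 := 100) (K0 := 9) rfl rfl rfl (by norm_num) hN1 hN2 c (a := 45088) (b := 87032) rfl rfl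
    (le_trans (by norm_num) s2)
  have s4 := UD.step tabU_ok ud1_3_ok (N := N) (N1 := 20) (N2 := 100) (K0 := 9) rfl rfl rfl (by norm_num) hN1 hN2 c (a := 87031) (b := 152044) rfl rfl
    (le_trans (by norm_num) s3)
  have s5 := UD.step tabU_ok ud1_4_ok (N := N) (N1 := 20) (N2 := 100) (K0 := 9) rfl rfl rfl (by norm_num) hN1 hN2 c (a := 152043) (b := 235930) rfl rfl
    (le_trans (by norm_num) s4)
  have s6 := UD.step tabU_ok ud1_5_ok (N := N) (N1 := 20) (N2 := 100) (K0 := 9) rfl rfl rfl (by norm_num) hN1 hN2 c (a := 235929) (b := 330302) rfl rfl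
    (le_trans (by norm_num) s5)
  have s7 := UD.step tabU_ok ud1_6_ok (N := N) (N1 := 20) (N2 := 100) (K0 := 9) rfl rfl rfl (by norm_num) hN1 hN2 c (a := 330301) (b := 419431) rfl rfl
    (le_trans (by norm_num) s6)
  have s8 := UD.step tabU_ok ud1_7_ok (N := N) (N1 := 20) (N2 := 100) (K0 := 9) rfl rfl rfl (by norm_num) hN1 hN2 c (a := 419430) (b := 508560) rfl rfl
    (le_trans (by norm_num) s7)
  have s9 := UD.step tabU_ok ud1_8_ok (N := N) (N1 := 20) (N2 := 100) (K0 := 9) rfl rfl rfl (by norm_num) hN1 hN2 c (a := 508559) (b := 629146) rfl rfl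
    (le_trans (by norm_num) s8)
  exact UD.last tabU_ok ud1_9_ok (N := N) (N1 := 20) (N2 := 100) (K0 := 9) rfl rfl rfl (by norm_num) hN1 hN2 c (a := 629145) rfl rfl
    (le_trans (by norm_num) s9) h1

theorem no_ud2 {N : ℕ} (hN1 : 101 ≤ N) (hN2 : N ≤ 1130) (c : Cfg N) (ht : 1 / 100 < c.t) : False := by
  have h1 : c.t ≤ 1 := t_le_one (by omega) c
  have s0 : ((10380 : ℕ) : ℝ) / 2 ^ 20 ≤ c.t := by norm_num; linarith
  have s1 := UD.step tabV_ok ud2_0_ok (N := N) (N1 := 101) (N2 := 1130) (K0 := 10) rfl rfl rfl (by norm_num) hN1 hN2 c (a := 10380) (b := 25166) rfl rfl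
    s0
  have s2 := UD.step tabV_ok ud2_1_ok (N := N) (N1 := 101) (N2 := 1130) (K0 := 10) rfl rfl rfl (by norm_num) hN1 hN2 c (a := 25165) (b := 57672) rfl rfl
    (le_trans (by norm_num) s1)
  have s3 := UD.step tabV_ok ud2_2_ok (N := N) (N1 := 101) (N2 := 1130) (K0 := 10) rfl rfl rfl (by norm_num) hN1 hN2 c (a := 57671) (b := 125830) rfl rfl
    (le_trans (by norm_num) s2)
  have s4 := UD.step tabV_ok ud2_3_ok (N := N) (N1 := 101) (N2 := 1130) (K0 := 10) rfl rfl rfl (by norm_num) hN1 hN2 c (a := 125829) (b := 241173) rfl rfl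
    (le_trans (by norm_num) s3)
  have s5 := UD.step tabV_ok ud2_4_ok (N := N) (N1 := 101) (N2 := 1130) (K0 := 10) rfl rfl rfl (by norm_num) hN1 hN2 c (a := 241172) (b := 377488) rfl rfl
    (le_trans (by norm_num) s4)
  have s6 := UD.step tabV_ok ud2_5_ok (N := N) (N1 := 101) (N2 := 1130) (K0 := 10) rfl rfl rfl (by norm_num) hN1 hN2 c (a := 377487) (b := 524288) rfl rfl
    (le_trans (by norm_num) s5)
  have s7 := UD.step tabV_ok ud2_6_ok (N := N) (N1 := 101) (N2 := 1130) (K0 := 10) rfl rfl rfl (by norm_num) hN1 hN2 c (a := 524288) (b := 713032) rfl rfl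
    s6
  exact UD.last tabV_ok ud2_7_ok (N := N) (N1 := 101) (N2 := 1130) (K0 := 10) rfl rfl rfl (by norm_num) hN1 hN2 c (a := 713031) rfl rfl
    (le_trans (by norm_num) s7) h1

/-- no configuration with `9 ≤ N ≤ 1130` and `t` above the thresholds -/
theorem no_mid {N : ℕ} (h9 : 9 ≤ N) (hN : N ≤ 1130) (c : Cfg N) (ht : 1 / 500 < c.t)
    (ht2 : 20 ≤ N → 1 / 100 < c.t) : False := by
  by_cases h20 : 20 ≤ N
  · by_cases h101 : 101 ≤ N
    · exact no_ud2 h101 hN c (ht2 h20)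
    · exact no_ud1 h20 (by omega) c (ht2 h20)
  · have hlt : N < 20 := by omega
    interval_cases N
    · exact no9 c ht
    · exact no10 c ht
    · exact no11 c ht
    · exact no12 c ht
    · exact no13 c ht
    · exact no14 c ht
    · exact no15 c ht
    · exact no16 c ht
    · exact no17 c ht
    · exact no18 c ht
    · exact no19 c ht

end Pool.Agent.H999.LimCC
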