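import Pool.Agent.H999.LimCC.Psi

/-! The kernel-evaluable checker of quadratic certificates. -/

set_option autoImplicit false

namespace Pool.Agent.H999.LimCC

/-- a quadratic certificate, in integers (signed values are split in two natural numbers):
`r = A / (Q 2^22)`, `g = (gP - gM) / 2^44`, `a1 = (aP - aM) / (Q 2^22)`, `b1 = (bP - bM) / (Q 2^22)`,
`a2 = (zP - zM) / (Q 2^22)`, `c = (cP - cM) / (Q 2^66)`, `nu = 1 / π` -/
structure QC where
  Q : ℕ
  A : ℕ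
  gP : ℕ
  gM : ℕ
  aP : ℕ
  aM : ℕ
  bP : ℕ
  bM : ℕ
  zP : ℕ
  zM : ℕ
  cP : ℕ
  cM : ℕ

namespace QC

def mirror (C : QC) : QC where
  Q := C.Q
  A := Nat.sub (Nat.mul C.Q 4194304) C.A
  gP := C.gM
  gM := C.gP
  aP := C.aP
  aM := C.aM
  bP := C.bM
  bM := C.bP
  zP := C.zM
  zM := C.zP
  cP := C.cP
  cM := C.cM

/-- the real multipliers -/
noncomputable def par (C : QC) : Par where
  r := (C.A : ℝ) / (C.Q * 2 ^ 22)
  g := ((C.gP : ℝ) - C.gM) / 2 ^ 44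
  nu := 1 / Real.pi
  c := ((C.cP : ℝ) - C.cM) / (C.Q * 2 ^ 66)
  a1 := ((C.aP : ℝ) - C.aM) / (C.Q * 2 ^ 22)
  b1 := ((C.bP : ℝ) - C.bM) / (C.Q * 2 ^ 22)
  r1 := 0
  a2 := ((C.zP : ℝ) - C.zM) / (C.Q * 2 ^ 22)
  b2 := 0
  r2 := 0
  a3 := 0
  b3 := 0
  r3 := 0

/-- error term -/
def err (C : QC) : ℕ :=
  Nat.mul 16 (Nat.add (Nat.mul C.Q 8388608)
    (Nat.add (Nat.add C.aP C.aM) (Nat.add (Nat.add C.bP C.bM) (Nat.add C.zP C.zM))))

/-- curvature constant -/
def B3 (C : QC) : ℕ :=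
  Nat.add (Nat.add (Nat.div (Nat.mul 5 (Nat.add (Nat.add C.aP C.aM) (Nat.add C.bP C.bM))) 4) 1)
    (Nat.mul 5 (Nat.add C.zP C.zM))

/-- nonnegativity of `(Lp - Lm) + z (p1P - p1M) + 2 z^2 (p2P - p2M)` on `[-1,1]`;
`P1 = |p1P - p1M|` -/
def quadOK (Lp Lm P1 p2P p2M : ℕ) : Bool :=
  (Nat.ble p2M p2P && Nat.ble Lm Lp
    && Nat.ble (Nat.mul P1 P1) (Nat.mul 8 (Nat.mul (Nat.sub p2P p2M) (Nat.sub Lp Lm)))) ||
  (Nat.ble (Nat.add Lm (Nat.add P1 (Nat.mul 2 p2M))) (Nat.add Lp (Nat.mul 2 p2P))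
    && Nat.ble (Nat.mul 4 p2P) (Nat.add P1 (Nat.mul 4 p2M)))

/-- lower bound `E / (Q 2^66)` for the test function at a row -/
def ptOK (C : QC) (E : ℕ) (R : Row) : Bool :=
  let vP := Nat.sub (Nat.mul C.Q R.p) C.A
  let vM := Nat.sub C.A (Nat.mul C.Q R.p)
  let FP := Nat.add R.fP C.gP
  let FM := Nat.add R.fM C.gM
  let QD := Nat.mul C.Q 4194304
  let p1P := Nat.add (Nat.mul C.aP R.s) (Nat.mul C.bM R.c)
  let p1M := Nat.add (Nat.mul C.aM R.s) (Nat.mul C.bP R.c)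
  let p2P := Nat.mul C.zP R.sx
  let p2M := Nat.mul C.zM R.sx
  quadOK
    (Nat.add (Nat.add (Nat.mul vP FP) (Nat.mul vM FM)) (Nat.add (Nat.mul QD R.qP)
      (Nat.add C.cP p2M)))
    (Nat.add (Nat.add (Nat.mul vP FM) (Nat.mul vM FP)) (Nat.add (Nat.mul QD R.qM)
      (Nat.add C.cM (Nat.add p2P E))))
    (Nat.add (Nat.sub p1P p1M) (Nat.sub p1M p1P)) p2P p2M

/-- check of a cell -/
def cellOK (C : QC) (err B3 : ℕ) (R S : Row) : Bool :=
  let d := Nat.sub S.p R.p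
  let E := Nat.add (Nat.mul (Nat.mul d d) (Nat.add (Nat.add (Nat.mul C.Q R.K)
    (Nat.mul (Nat.sub C.A (Nat.mul C.Q R.p)) R.K3)) B3)) err
  Nat.ble (Nat.succ R.p) S.p && ptOK C E R && ptOK C E S

/-- check of the interval near zero -/
def headOK (C : QC) (err : ℕ) (R : Row) : Bool :=
  let vM := Nat.sub C.A (Nat.mul C.Q R.p)
  let FP := Nat.add R.fP C.gP
  let FM := Nat.add R.fM C.gM
  let QD := Nat.mul C.Q 4194304
  Nat.ble R.p 1048576 && Nat.ble (Nat.mul C.Q R.p) C.A && Nat.ble (Nat.add FP 16) FM &&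
  Nat.ble
    (Nat.add (Nat.add (Nat.mul vM FP) (Nat.mul QD R.qM))
      (Nat.add (Nat.add C.cM (Nat.mul (Nat.add C.aP C.aM) R.s))
        (Nat.add (Nat.mul (Nat.add C.bP C.bM) 17592186044416)
          (Nat.add (Nat.mul (Nat.add C.zP C.zM) R.sx) err))))
    (Nat.add (Nat.add (Nat.mul vM FM) (Nat.mul QD R.qP)) C.cP)

end QC

/-- search tree of rows -/
inductive Tr where
  | leaf : Row → Tr
  | node : ℕ → Tr → Tr → Tr

def Tr.get : Tr → ℕ → Row
  | .leaf R, _ => R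
  | .node k l r, p => bif Nat.ble p k then l.get p else r.get p

def Tr.allB (f : Row → Bool) : Tr → Bool
  | .leaf R => f R
  | .node _ l r => l.allB f && r.allB f

/-- all rows of the tree are correct -/
def Tr.OK : Tr → Prop
  | .leaf R => R.OK
  | .node _ l r => l.OK ∧ r.OK

theorem Tr.get_ok {T : Tr} (h : T.OK) (p : ℕ) : (T.get p).OK := by
  induction T with
  | leaf R => exact h
  | node k l r ihl ihr =>
    unfold Tr.get
    cases Nat.ble p k
    · exact ihr h.2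
    · exact ihl h.1

theorem Tr.ok_of_allB {f : Row → Bool} (hf : ∀ R, f R = true → R.OK) {T : Tr}
    (h : T.allB f = true) : T.OK := by
  induction T with
  | leaf R => exact hf R h
  | node k l r ihl ihr =>
    unfold Tr.allB at h
    rw [Bool.and_eq_true] at h
    exact ⟨ihl h.1, ihr h.2⟩

namespace QC

/-- check of the chain of cells from the row `R` to `π` -/
def chain (T : Tr) (C : QC) (err B3 : ℕ) : Row → List ℕ → Bool
  | R, [] => Nat.beq R.p 2097152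
  | R, i :: l => cellOK C err B3 R (T.get i) && chain T C err B3 (T.get i) l

/-- check of one half of a certificate -/
def half (T : Tr) (C : QC) (i : ℕ) (l : List ℕ) : Bool :=
  headOK C C.err (T.get i) && chain T C C.err C.B3 (T.get i) l

end QC

/-- a certificate with the rows used for both halves -/
structure QD where
  C : QC
  i : ℕ
  l : List ℕ
  i' : ℕ
  l' : List ℕ

def QD.chk (T : Tr) (D : QD) : Bool :=
  Nat.ble 1 D.C.Q && Nat.ble D.C.A (Nat.mul D.C.Q 4194304) &&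
  QC.half T D.C D.i D.l && QC.half T D.C.mirror D.i' D.l'

end Pool.Agent.H999.LimCC
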