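import Pool.Agent.H999.LimCC.Engine

/-! The kernel-evaluable checker of general (cubic) certificates, used for `N ≤ 12`. -/

set_option autoImplicit false

namespace Pool.Agent.H999.LimCC

/-- a row with derived quantities; all values except `p`, `g1`, `k1`, `K`, `K3` scaled by `2^44` -/
structure RowG where
  p : ℕ
  f : ℤ
  q : ℤ
  s : ℤ
  c : ℤ
  sx : ℤ
  cx : ℤ
  s3 : ℤ
  c3 : ℤ
  sf : ℤ
  xf : ℤ
  tf : ℤ
  g1 : ℤ
  k1 : ℤ
  K : ℤ
  K3 : ℤ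

noncomputable def RowG.x (R : RowG) : ℝ := 2 * Real.pi * (R.p / 2 ^ 22)

structure RowG.OK (R : RowG) : Prop where
  p_pos : 0 < R.p
  p_le : R.p ≤ 2 ^ 21
  hf : |fp R.x * 2 ^ 44 - R.f| ≤ 16
  hq : |Real.cos R.x / Real.pi * 2 ^ 44 - R.q| ≤ 16
  hs : |Real.sin (R.x / 2) * 2 ^ 44 - R.s| ≤ 16
  hc : |Real.cos (R.x / 2) * 2 ^ 44 - R.c| ≤ 16
  hsx : |Real.sin R.x * 2 ^ 44 - R.sx| ≤ 16
  hcx : |Real.cos R.x * 2 ^ 44 - R.cx| ≤ 70
  hs3 : |Real.sin (3 * (R.x / 2)) * 2 ^ 44 - R.s3| ≤ 150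
  hc3 : |Real.cos (3 * (R.x / 2)) * 2 ^ 44 - R.c3| ≤ 150
  hsf : |Real.sin (R.x / 2) * fp R.x * 2 ^ 44 - R.sf| ≤ 1100
  hxf : |Real.sin R.x * fp R.x * 2 ^ 44 - R.xf| ≤ 1100
  htf : |Real.sin (3 * (R.x / 2)) * fp R.x * 2 ^ 44 - R.tf| ≤ 10000
  hg1 : Real.pi ^ 2 / 2 * (1 + G R.x) ≤ R.g1
  hk1 : Real.pi ^ 2 / 2 * (1 + kap R.x) ≤ R.k1
  hK : Real.pi / 2 * kap R.x * 2 ^ 22 ≤ R.K
  hK3 : Real.pi ^ 2 / 2 * (1 + kap3 R.x) ≤ R.K3

/-- derived row; intended for `|fp| ≤ 64` -/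
def Row.toG (R : Row) : RowG :=
  let f : ℤ := (R.fP : ℤ) - R.fM
  let s : ℤ := R.s
  let c : ℤ := R.c
  let sx : ℤ := R.sx
  let s3 : ℤ := s * (3 * 309485009821345068724781056 - 4 * (s * s)) / 309485009821345068724781056
  { p := R.p
    f := f
    q := (R.qP : ℤ) - R.qM
    s := s
    c := c
    sx := sx
    cx := (c * c - s * s) / 17592186044416
    s3 := s3
    c3 := c * (4 * (c * c) - 3 * 309485009821345068724781056) / 309485009821345068724781056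
    sf := s * f / 17592186044416
    xf := sx * f / 17592186044416
    tf := s3 * f / 17592186044416
    g1 := 6 + 5 * (sx - f + 64) / 17592186044416
    k1 := 7 + 22 * (R.K : ℤ) / 29360128
    K := R.K
    K3 := R.K3 }

def RowG.beq (R S : RowG) : Bool :=
  decide (R.p = S.p) && decide (R.f = S.f) && decide (R.q = S.q) && decide (R.s = S.s) &&
  decide (R.c = S.c) && decide (R.sx = S.sx) && decide (R.cx = S.cx) && decide (R.s3 = S.s3) &&
  decide (R.c3 = S.c3) && decide (R.sf = S.sf) && decide (R.xf = S.xf) && decide (R.tf = S.tf) &&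
  decide (R.g1 = S.g1) && decide (R.k1 = S.k1) && decide (R.K = S.K) && decide (R.K3 = S.K3)

/-- `chk` is the checker of plain rows; the plain row is recovered from the general one -/
def RowG.chk (chk : Row → Bool) (R : RowG) : Bool :=
  let P : Row := ⟨R.p, R.f.toNat, (-R.f).toNat, R.q.toNat, (-R.q).toNat, R.s.toNat, R.c.toNat,
    R.sx.toNat, R.K.toNat, R.K3.toNat⟩
  decide (R.f ≤ 1125899906842624) && decide (-1125899906842624 ≤ R.f) && chk P &&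
    RowG.beq R P.toG

/-- a general certificate in integers: `r = A/(Q 2^22)`, `g` in units `2^(-44)`,
`nu = n/(Q 2^22)/π`, `c` in units `1/(Q 2^66)`, the other multipliers in units `1/(Q 2^22)` -/
structure GC where
  Q : ℕ
  A : ℕ
  g : ℤ
  n : ℤ
  c : ℤ
  a1 : ℤ
  b1 : ℤ
  r1 : ℤ
  a2 : ℤ
  b2 : ℤ
  r2 : ℤ
  a3 : ℤ
  b3 : ℤ
  r3 : ℤ

namespace GC

def mirror (C : GC) : GC where
  Q := C.Q
  A := C.Q * 4194304 - C.A
  g := -C.g
  n := C.n
  c := C.c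
  a1 := C.a1
  b1 := -C.b1
  r1 := -C.r1
  a2 := -C.a2
  b2 := C.b2
  r2 := C.r2
  a3 := C.a3
  b3 := -C.b3
  r3 := -C.r3

noncomputable def par (C : GC) : Par where
  r := (C.A : ℝ) / (C.Q * 2 ^ 22)
  g := (C.g : ℝ) / 2 ^ 44
  nu := (C.n : ℝ) / (C.Q * 2 ^ 22) / Real.pi
  c := (C.c : ℝ) / (C.Q * 2 ^ 66)
  a1 := (C.a1 : ℝ) / (C.Q * 2 ^ 22)
  b1 := (C.b1 : ℝ) / (C.Q * 2 ^ 22)
  r1 := (C.r1 : ℝ) / (C.Q * 2 ^ 22)
  a2 := (C.a2 : ℝ) / (C.Q * 2 ^ 22)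
  b2 := (C.b2 : ℝ) / (C.Q * 2 ^ 22)
  r2 := (C.r2 : ℝ) / (C.Q * 2 ^ 22)
  a3 := (C.a3 : ℝ) / (C.Q * 2 ^ 22)
  b3 := (C.b3 : ℝ) / (C.Q * 2 ^ 22)
  r3 := (C.r3 : ℝ) / (C.Q * 2 ^ 22)

/-- absolute value -/
def ab (a : ℤ) : ℤ := (a.natAbs : ℤ)

/-- error term -/
def err (C : GC) : ℤ :=
  16 * ((C.Q : ℤ) * 4194304 + ab C.n) +
    150 * (ab C.a1 + ab C.b1 + ab C.a2 + ab C.b2 + ab C.a3 + ab C.b3) +
    10000 * (ab C.r1 + ab C.r2 + ab C.r3)

/-- curvature constant -/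
def B (C : GC) : ℤ :=
  (5 * (ab C.a1 + ab C.b1) + 20 * (ab C.a2 + ab C.b2) + 45 * (ab C.a3 + ab C.b3)) / 4 + 1
    + 2 * ab (C.n - C.Q * 4194304)

/-- nonnegativity test -/
def nn : ℤ → Bool
  | Int.ofNat _ => true
  | Int.negSucc _ => false

/-- nonnegativity of a cubic with Bernstein coefficients `b0..b3` -/
def bern : ℕ → ℤ → ℤ → ℤ → ℤ → Bool
  | 0, b0, b1, b2, b3 => nn b0 && nn b1 && nn b2 && nn b3
  | k + 1, b0, b1, b2, b3 =>
    (nn b0 && nn b3) && ((nn b1 && nn b2) ||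
      (bern k (8 * b0) (4 * (b0 + b1)) (2 * (b0 + 2 * b1 + b2)) (b0 + 3 * b1 + 3 * b2 + b3) &&
       bern k (b0 + 3 * b1 + 3 * b2 + b3) (2 * (b1 + 2 * b2 + b3)) (4 * (b2 + b3)) (8 * b3)))

/-- lower bound `E / (Q 2^66)` for the test function at a row -/
def ptOK (C : GC) (E : ℤ) (R : RowG) : Bool :=
  let v : ℤ := (C.Q : ℤ) * R.p - C.A
  let p0 := v * (R.f + C.g) + C.n * R.q + C.c
  let p1 := C.r1 * R.sf + C.a1 * R.s - C.b1 * R.c
  let p2 := C.r2 * R.xf + C.a2 * R.sx - C.b2 * R.cx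
  let p3 := C.r3 * R.tf + C.a3 * R.s3 - C.b3 * R.c3
  let q0 := p0 - p2 - E
  let q1 := p1 - 3 * p3
  let q2 := 2 * p2
  let q3 := 4 * p3
  bern 8 (3 * (q0 - q1 + q2 - q3)) (3 * q0 - q1 - q2 + 3 * q3) (3 * q0 + q1 - q2 - 3 * q3)
    (3 * (q0 + q1 + q2 + q3))

/-- check of a cell -/
def cellOK (C : GC) (err B : ℤ) (R S : RowG) : Bool :=
  let d : ℤ := (S.p : ℤ) - R.p
  let vM : ℤ := (((C.A - C.Q * R.p : ℕ)) : ℤ)
  let E := d * d * (C.Q * R.K + vM * R.K3 + B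
    + (ab C.r1 * (R.g1 + R.k1 + R.K3) + ab C.r2 * (R.g1 + 2 * R.k1 + R.K3)
      + ab C.r3 * (3 * R.g1 + 3 * R.k1 + R.K3))) + err
  Nat.ble (R.p + 1) S.p && ptOK C E R && ptOK C E S

/-- check of the interval near zero: with `W = v - |r1| s - |r2| sx - 5 |r3| p/2^22·…` -/
def headOK (C : GC) (err : ℤ) (R : RowG) : Bool :=
  let v : ℤ := (C.A : ℤ) - (C.Q : ℤ) * R.p
  -- `W` in units `1/(Q 2^66)`
  let W := v * 17592186044416 - ab C.r1 * (R.s + 16) - ab C.r2 * (R.sx + 16)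
    - ab C.r3 * (40000000 * R.p)
  Nat.ble R.p 1048576 && nn C.n && nn W && nn (-R.f - 16) &&
  nn ((-R.f - 16) * W - (C.A : ℤ) * (max C.g 0) * 17592186044416
    + (C.n * R.q + C.c - ab C.a1 * R.s - ab C.a2 * R.sx
       - (ab C.b1 + ab C.b2 + ab C.a3 + ab C.b3) * 17592186044416 - err) * 17592186044416)

end GC

/-- search tree of general rows -/
inductive TrG where
  | leaf : RowG → TrG
  | node : ℕ → TrG → TrG → TrG

def TrG.get : TrG → ℕ → RowG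
  | .leaf R, _ => R
  | .node k l r, p => bif Nat.ble p k then l.get p else r.get p

def TrG.allB (f : RowG → Bool) : TrG → Bool
  | .leaf R => f R
  | .node _ l r => l.allB f && r.allB f

def TrG.OK : TrG → Prop
  | .leaf R => R.OK
  | .node _ l r => l.OK ∧ r.OK

theorem TrG.get_ok {T : TrG} (h : T.OK) (p : ℕ) : (T.get p).OK := by
  induction T with
  | leaf R => exact h
  | node k l r ihl ihr =>
    unfold TrG.get
    cases Nat.ble p k
    · exact ihr h.2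
    · exact ihl h.1

theorem TrG.ok_of_allB {f : RowG → Bool} (hf : ∀ R, f R = true → R.OK) {T : TrG}
    (h : T.allB f = true) : T.OK := by
  induction T with
  | leaf R => exact hf R h
  | node k l r ihl ihr =>
    unfold TrG.allB at h
    rw [Bool.and_eq_true] at h
    exact ⟨ihl h.1, ihr h.2⟩

namespace GC

def chain (T : TrG) (C : GC) (err B : ℤ) : RowG → List ℕ → Bool
  | R, [] => Nat.beq R.p 2097152
  | R, i :: l => cellOK C err B R (T.get i) && chain T C err B (T.get i) l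

def half (T : TrG) (C : GC) (i : ℕ) (l : List ℕ) : Bool :=
  headOK C C.err (T.get i) && chain T C C.err C.B (T.get i) l

end GC

structure GD where
  C : GC
  i : ℕ
  l : List ℕ
  i' : ℕ
  l' : List ℕ

def GD.chk (T : TrG) (D : GD) : Bool :=
  Nat.ble 1 D.C.Q && Nat.ble D.C.A (D.C.Q * 4194304) &&
  GC.half T D.C D.i D.l && GC.half T D.C.mirror D.i' D.l'

end Pool.Agent.H999.LimCC
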