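import Pool.Agent.H999.LimCC.CostLarge
import Pool.Agent.H999.LimCC.SumsC

set_option autoImplicit false

namespace Pool.Agent.H999.LimCC

open Real Finset

/-- the elementary discriminant inequality -/
lemma disc_ineq {a b c s : ℝ} (hc : 0 ≤ c) (ha : 0 ≤ a) (h : b ^ 2 ≤ a * c) :
    0 ≤ a + 2 * b * s + c * s ^ 2 := by
  rcases hc.eq_or_lt with h0 | h0
  · rw [← h0] at h ⊢
    have hb : b = 0 := by nlinarith [sq_nonneg b]
    rw [hb]; simpa using ha
  · have h1 : 0 ≤ c * (a + 2 * b * s + c * s ^ 2) := by nlinarith [sq_nonneg (c * s + b)]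
    exact nonneg_of_mul_nonneg_right (by linarith [mul_comm c (a + 2 * b * s + c * s ^ 2)]) h0

/-- pointwise inequality behind `no_large` -/
lemma phi_nonneg {η y t z : ℝ} (h0 : 0 < η) (h1 : η ≤ 1 / 20) (hy0 : 0 < y) (hy1 : y < π)
    (hz : z ^ 2 ≤ 1) (hcost : 0 ≤ cost η y) :
    0 ≤ cost η y + 2 * ((9 / 10) / η) * t * z * (sin (y - η) / sin η)
      + ((9 / 10) / η) * t ^ 2 * (1 + (2 * z ^ 2 - 1) * sin (2 * y) / sin (2 * η)
        + 2 * (y - η) * cos (2 * η) / sin (2 * η)) := by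
  have hpi := Real.pi_gt_three
  have hS1 : 0 < sin η := sin_pos_of_pos_of_lt_pi h0 (by linarith)
  have hC1 : 0 < cos η := cos_pos_of_mem_Ioo ⟨by linarith, by linarith⟩
  have hS2e : sin (2 * η) = 2 * sin η * cos η := Real.sin_two_mul η
  have hS2 : 0 < sin (2 * η) := by rw [hS2e]; positivity
  have hK0 := K0_nonneg h0 h1 hy0 hy1
  have hT := T_nonneg h0 h1 hy0 hy1
  have hL := cost_large h0 h1 hy0 hy1
  set q : ℝ := (9 / 10) / η with hq
  have hqpos : 0 < q := by positivity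
  have hqη : q * η = 9 / 10 := by rw [hq]; field_simp
  set T : ℝ := sin (2 * η) + sin (2 * y) + 2 * (y - η) * cos (2 * η) with hTdef
  -- the discriminant condition
  have hd : (q * (sin (y - η) / sin η)) ^ 2 ≤ cost η y * (q * T / sin (2 * η)) := by
    rw [hS2e]
    have e1 : (q * (sin (y - η) / sin η)) ^ 2 = q * (2 * cos η * (q * sin (y - η) ^ 2)) /
        (2 * sin η ^ 2 * cos η) := by
      field_simp
    have e2 : cost η y * (q * T / (2 * sin η * cos η)) = q * (cost η y * T * sin η) /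
        (2 * sin η ^ 2 * cos η) := by
      field_simp
    rw [e1, e2]
    apply div_le_div_of_nonneg_right _ (by positivity)
    apply mul_le_mul_of_nonneg_left _ hqpos.le
    have h3 : η * (2 * cos η * (q * sin (y - η) ^ 2)) ≤ η * (cost η y * T * sin η) := by
      calc η * (2 * cos η * (q * sin (y - η) ^ 2))
          = (q * η) * (2 * cos η * sin (y - η) ^ 2) := by ring
        _ = (9 / 5) * cos η * sin (y - η) ^ 2 := by rw [hqη]; ring
        _ ≤ cost η y * T * sin η * η := hL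
        _ = η * (cost η y * T * sin η) := by ring
    exact le_of_mul_le_mul_left h3 h0
  have hc0 : 0 ≤ q * T / sin (2 * η) := by positivity
  have h4 := disc_ineq (s := t * z) hc0 hcost hd
  have e3 : 1 + (2 * z ^ 2 - 1) * sin (2 * y) / sin (2 * η)
        + 2 * (y - η) * cos (2 * η) / sin (2 * η)
      = (sin (2 * η) - sin (2 * y) + 2 * (y - η) * cos (2 * η) + 2 * z ^ 2 * sin (2 * y)) /
        sin (2 * η) := by
    field_simp
    ring
  rw [e3]
  have h5 : z ^ 2 * T ≤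
      sin (2 * η) - sin (2 * y) + 2 * (y - η) * cos (2 * η) + 2 * z ^ 2 * sin (2 * y) := by
    have : z ^ 2 * (sin (2 * η) - sin (2 * y) + 2 * (y - η) * cos (2 * η)) ≤
        1 * (sin (2 * η) - sin (2 * y) + 2 * (y - η) * cos (2 * η)) :=
      mul_le_mul_of_nonneg_right hz hK0
    rw [hTdef]
    linarith
  have h6 : q * T / sin (2 * η) * (t * z) ^ 2 ≤ q * t ^ 2 *
      ((sin (2 * η) - sin (2 * y) + 2 * (y - η) * cos (2 * η) + 2 * z ^ 2 * sin (2 * y)) /
        sin (2 * η)) := by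
    have : q * T / sin (2 * η) * (t * z) ^ 2 = q * t ^ 2 * ((z ^ 2 * T) / sin (2 * η)) := by ring
    rw [this]
    apply mul_le_mul_of_nonneg_left _ (by positivity)
    exact div_le_div_of_nonneg_right h5 hS2.le
  have e4 : 2 * (q * (sin (y - η) / sin η)) * (t * z) =
      2 * q * t * z * (sin (y - η) / sin η) := by ring
  rw [e4] at h4
  linarith

/-- the lower bound of `sL k` for `k ≤ 18` -/
lemma sL_large {N : ℕ} (hN : 1131 ≤ N) (c : Cfg N) {k : ℕ} (hk1 : 1 ≤ k)
    (hk2 : k ≤ 18) : (9 / 20) * c.t ^ 2 * N / (π ^ 2 * k) ≤ c.sL k := by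
  have hpi := Real.pi_gt_three
  have hpi2 : π < 3.1416 := Real.pi_lt_d4
  have hNr : (1131 : ℝ) ≤ N := by exact_mod_cast hN
  have hN0 : (0 : ℝ) < N := by linarith
  have hkr : (1 : ℝ) ≤ k := by exact_mod_cast hk1
  have hkr2 : (k : ℝ) ≤ 18 := by exact_mod_cast hk2
  set η : ℝ := π * k / N with hη
  have h0 : 0 < η := by positivity
  have h1 : η ≤ 1 / 20 := by
    rw [hη, div_le_iff₀ hN0]
    nlinarith
  have hS1 : 0 < sin η := sin_pos_of_pos_of_lt_pi h0 (by linarith)
  have hC1 : 0 < cos η := cos_pos_of_mem_Ioo ⟨by linarith, by linarith⟩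
  have hS2 : 0 < sin (2 * η) := by rw [Real.sin_two_mul]; positivity
  set q : ℝ := (9 / 10) / η with hq
  have hqpos : 0 < q := by positivity
  have hkN : k < N := by omega
  -- sums
  have hsum1 : ∑ j ∈ range N, cos (c.mid k (j : ℤ)) * sin (c.gap k (j : ℤ) / 2) = 0 := by
    have := c.sum_cos_mid_sin 1 k
    simpa using this
  have hsum2 : ∑ j ∈ range N, cos (c.mid k (j : ℤ)) * cos (c.gap k (j : ℤ) / 2) = N * c.t := by
    have := c.sum_cos_mid_cos 1 k
    simp only [Nat.cast_one, one_mul] at this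
    rw [this, c.sum_cos]
  have hsum3 : ∑ j ∈ range N, (2 * cos (c.mid k (j : ℤ)) ^ 2 - 1) *
      sin (2 * (c.gap k (j : ℤ) / 2)) = 0 := by
    have := c.sum_cos_mid_sin 2 k
    simp only [Nat.cast_ofNat] at this
    rw [← this]
    apply Finset.sum_congr rfl
    intro j _
    rw [Real.cos_two_mul]
  have hsum4 : ∑ j ∈ range N, (c.gap k (j : ℤ) / 2 - η) = 0 := by
    have := c.sum_gap_sub (by omega : 1 ≤ N) k
    have e : ∀ j ∈ range N, (c.gap k (j : ℤ) / 2 - η) =
        (1 / 2) * (c.gap k (j : ℤ) - 2 * π * k / N) := by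
      intro j _
      rw [hη]; ring
    rw [Finset.sum_congr rfl e, ← Finset.mul_sum, this, mul_zero]
  have hsum5 := c.sum_cost (by omega : 1 ≤ N) k
  rw [← hη] at hsum5
  have hphi : 0 ≤ ∑ j ∈ range N, (cost η (c.gap k (j : ℤ) / 2)
      + 2 * q * c.t * cos (c.mid k (j : ℤ)) * (sin (c.gap k (j : ℤ) / 2 - η) / sin η)
      + q * c.t ^ 2 * (1 + (2 * cos (c.mid k (j : ℤ)) ^ 2 - 1) *
          sin (2 * (c.gap k (j : ℤ) / 2)) / sin (2 * η)
        + 2 * (c.gap k (j : ℤ) / 2 - η) * cos (2 * η) / sin (2 * η))) := by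
    apply Finset.sum_nonneg
    intro j _
    have hy0 : 0 < c.gap k (j : ℤ) / 2 := by
      have := c.gap_pos hk1 (j : ℤ)
      linarith
    have hy1 : c.gap k (j : ℤ) / 2 < π := by
      have := c.gap_lt hkN (j : ℤ)
      linarith
    apply phi_nonneg h0 h1 hy0 hy1
    · exact Real.cos_sq_le_one _
    · exact cost_nonneg h0 (by linarith) hy0 hy1
  have hsplit : ∑ j ∈ range N, (cost η (c.gap k (j : ℤ) / 2)
      + 2 * q * c.t * cos (c.mid k (j : ℤ)) * (sin (c.gap k (j : ℤ) / 2 - η) / sin η)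
      + q * c.t ^ 2 * (1 + (2 * cos (c.mid k (j : ℤ)) ^ 2 - 1) *
          sin (2 * (c.gap k (j : ℤ) / 2)) / sin (2 * η)
        + 2 * (c.gap k (j : ℤ) / 2 - η) * cos (2 * η) / sin (2 * η)))
      = ∑ j ∈ range N, cost η (c.gap k (j : ℤ) / 2)
        + 2 * q * c.t * cos η / sin η *
          ∑ j ∈ range N, cos (c.mid k (j : ℤ)) * sin (c.gap k (j : ℤ) / 2)
        - 2 * q * c.t * ∑ j ∈ range N, cos (c.mid k (j : ℤ)) * cos (c.gap k (j : ℤ) / 2)
        + q * c.t ^ 2 * N
        + q * c.t ^ 2 / sin (2 * η) * ∑ j ∈ range N, (2 * cos (c.mid k (j : ℤ)) ^ 2 - 1) *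
          sin (2 * (c.gap k (j : ℤ) / 2))
        + q * c.t ^ 2 * 2 * cos (2 * η) / sin (2 * η) *
          ∑ j ∈ range N, (c.gap k (j : ℤ) / 2 - η) := by
    have hconst : q * c.t ^ 2 * (N : ℝ) = ∑ j ∈ range N, q * c.t ^ 2 := by
      rw [Finset.sum_const, Finset.card_range, nsmul_eq_mul]; ring
    rw [hconst]
    simp only [Finset.mul_sum]
    rw [← Finset.sum_add_distrib, ← Finset.sum_sub_distrib, ← Finset.sum_add_distrib,
      ← Finset.sum_add_distrib, ← Finset.sum_add_distrib]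
    apply Finset.sum_congr rfl
    intro j _
    rw [Real.sin_sub]
    field_simp
    ring
  rw [hsplit, hsum1, hsum2, hsum3, hsum4, hsum5] at hphi
  have h7 : q * N * c.t ^ 2 ≤ 2 * π * (N * c.sL k) := by
    nlinarith
  have h8 : q * c.t ^ 2 ≤ 2 * π * c.sL k := by
    have : N * (q * c.t ^ 2) ≤ N * (2 * π * c.sL k) := by nlinarith
    exact le_of_mul_le_mul_left this hN0
  have h9 : (9 / 20) * c.t ^ 2 * N / (π ^ 2 * k) = q * c.t ^ 2 / (2 * π) := by
    rw [hq, hη]
    field_simp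
    ring
  rw [h9, div_le_iff₀ (by positivity)]
  linarith

/-- SUBTASK N: no equilibrium with `t > 0` when `N ≥ 1131`. -/
theorem no_large {N : ℕ} (hN : 1131 ≤ N) (c : Cfg N) (ht : 0 < c.t) : False := by
  have hpi := Real.pi_gt_three
  have hpi2 : π < 3.1416 := Real.pi_lt_d4
  have hNr : (1131 : ℝ) ≤ N := by exact_mod_cast hN
  have hN0 : (0 : ℝ) < N := by linarith
  have hsum := c.sum_sL (by omega : 2 ≤ N)
  have hlow : ∑ k ∈ Finset.Ico 1 19, c.sL k + ∑ k ∈ Finset.Ico (N - 18) N, c.sL k ≤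
      ∑ k ∈ Finset.Ico 1 N, c.sL k := by
    rw [← Finset.sum_Ico_consecutive _ (by omega : 1 ≤ 19) (by omega : 19 ≤ N),
      ← Finset.sum_Ico_consecutive _ (by omega : 19 ≤ N - 18) (by omega : N - 18 ≤ N)]
    have : 0 ≤ ∑ k ∈ Finset.Ico 19 (N - 18), c.sL k := by
      apply Finset.sum_nonneg
      intro k hk
      rw [Finset.mem_Ico] at hk
      exact c.sL_nonneg (by omega) (by omega) (by omega)
    linarith
  have hrefl : ∑ k ∈ Finset.Ico (N - 18) N, c.sL k = ∑ k ∈ Finset.Ico 1 19, c.sL k := by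
    apply Finset.sum_nbij' (fun k => N - k) (fun k => N - k)
    · intro k hk; simp only [Finset.mem_Ico] at *; omega
    · intro k hk; simp only [Finset.mem_Ico] at *; omega
    · intro k hk; simp only [Finset.mem_Ico] at *; omega
    · intro k hk; simp only [Finset.mem_Ico] at *; omega
    · intro k hk
      simp only [Finset.mem_Ico] at hk
      exact (c.sL_symm (by omega) (by omega) (by omega)).symm
  have h1 : ∑ k ∈ Finset.Ico 1 19, (9 / 20) * c.t ^ 2 * N / (π ^ 2 * ((k : ℕ) : ℝ)) ≤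
      ∑ k ∈ Finset.Ico 1 19, c.sL k := by
    apply Finset.sum_le_sum
    intro k hk
    rw [Finset.mem_Ico] at hk
    exact sL_large hN c (by omega) (by omega)
  have h2 : ∑ k ∈ Finset.Ico 1 19, (9 / 20) * c.t ^ 2 * N / (π ^ 2 * ((k : ℕ) : ℝ)) =
      (9 / 20) * c.t ^ 2 * N / π ^ 2 * ∑ k ∈ Finset.Ico 1 19, (1 : ℝ) / ((k : ℕ) : ℝ) := by
    rw [Finset.mul_sum]
    apply Finset.sum_congr rfl
    intro k hk
    rw [Finset.mem_Ico] at hk
    have : (k : ℝ) ≠ 0 := by
      have : k ≠ 0 := by omega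
      exact_mod_cast this
    field_simp
  have h3 : ∑ k ∈ Finset.Ico 1 19, (1 : ℝ) / ((k : ℕ) : ℝ) = 14274301 / 4084080 := by
    simp only [Finset.sum_Ico_eq_sum_range, Finset.sum_range_succ, Finset.sum_range_zero]
    norm_num
  rw [hrefl, hsum] at hlow
  rw [h2, h3] at h1
  have h4 : 2 * ((9 / 20) * c.t ^ 2 * N / π ^ 2 * (14274301 / 4084080)) ≤ N * c.t ^ 2 / π := by
    linarith
  have h5 : (9 / 10) * (14274301 / 4084080) ≤ π := by
    have hA : 0 < N * c.t ^ 2 / π ^ 2 := by positivity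
    have e1 : 2 * ((9 / 20) * c.t ^ 2 * N / π ^ 2 * (14274301 / 4084080)) =
        N * c.t ^ 2 / π ^ 2 * ((9 / 10) * (14274301 / 4084080)) := by ring
    have e2 : N * c.t ^ 2 / π = N * c.t ^ 2 / π ^ 2 * π := by field_simp
    rw [e1, e2] at h4
    exact le_of_mul_le_mul_left h4 hA
  norm_num at h5
  linarith

end Pool.Agent.H999.LimCC
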