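import Mathlib

set_option autoImplicit false

namespace Pool.Agent.H999.LimCC

open Filter

/-- the force term `z / |z|^3` (zero at `z = 0`) -/
noncomputable def uf (z : ℂ) : ℂ := (((1 / ‖z‖ ^ 3 : ℝ)) : ℂ) * z

lemma uf_zero : uf 0 = 0 := by simp [uf]

lemma uf_tendsto {w : ℕ → ℂ} {W : ℂ} (h : Tendsto w atTop (nhds W)) (hW : W ≠ 0) :
    Tendsto (fun k => uf (w k)) atTop (nhds (uf W)) := by
  unfold uf
  have h1 : Tendsto (fun k => (1 / ‖w k‖ ^ 3 : ℝ)) atTop (nhds (1 / ‖W‖ ^ 3)) :=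
    Tendsto.div tendsto_const_nhds (h.norm.pow 3) (pow_ne_zero 3 (norm_ne_zero_iff.2 hW))
  exact ((Complex.continuous_ofReal.tendsto _).comp h1).mul h

/-- the equations relative to the big body -/
lemma rel_eq (N : ℕ) (q : Fin (N + 1) → ℂ) (ε lam : ℝ) (G : ℂ)
    (h : ∀ i : Fin (N + 1), (lam : ℂ) * (q i - G) =
      ∑ j ∈ Finset.univ.erase i,
        ((((if j = 0 then (1 : ℝ) else ε) / ‖q i - q j‖ ^ 3 : ℝ)) : ℂ) * (q i - q j)) (a : Fin N) :
    (lam : ℂ) * (q a.succ - q 0) = uf (q a.succ - q 0) +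
      ε * ∑ b : Fin N, uf ((q a.succ - q 0) - (q b.succ - q 0)) +
      ε * ∑ b : Fin N, uf (q b.succ - q 0) := by
  have h' : ∀ i : Fin (N + 1), (lam : ℂ) * (q i - G) =
      uf (q i - q 0) + ε * ∑ b : Fin N, uf (q i - q b.succ) := by
    intro i
    rw [h i, Finset.sum_erase _ (by simp), Fin.sum_univ_succ, Finset.mul_sum]
    refine congrArg₂ (· + ·) ?_ ?_
    · simp [uf]
    · refine Finset.sum_congr rfl fun b _ => ?_
      rw [if_neg (Fin.succ_ne_zero b), uf]
      push_cast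
      ring
  have e1 := h' a.succ
  have e0 := h' 0
  rw [sub_self, uf_zero, zero_add] at e0
  have e2 : ∑ b : Fin N, uf (q 0 - q b.succ) = -∑ b : Fin N, uf (q b.succ - q 0) := by
    rw [← Finset.sum_neg_distrib]
    refine Finset.sum_congr rfl fun b _ => ?_
    unfold uf
    rw [norm_sub_rev]
    ring
  have e3 : ∑ b : Fin N, uf ((q a.succ - q 0) - (q b.succ - q 0)) =
      ∑ b : Fin N, uf (q a.succ - q b.succ) :=
    Finset.sum_congr rfl fun b _ => by congr 1; ring
  rw [e3]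
  rw [e2] at e0
  linear_combination e1 - e0

/-- core: abstract sequences -/
theorem limit_core (N : ℕ) (hN : 2 ≤ N) (ε lam : ℕ → ℝ) (z : ℕ → Fin N → ℂ) (Z : Fin N → ℂ)
    (hε : ∀ k, 0 < ε k) (hε0 : Tendsto ε atTop (nhds 0))
    (hz0 : ∀ k a, z k a ≠ 0) (hZ : Function.Injective Z)
    (hlim : ∀ a, Tendsto (fun k => z k a) atTop (nhds (Z a)))
    (heq : ∀ k a, (lam k : ℂ) * z k a = uf (z k a) + ε k * ∑ b : Fin N, uf (z k a - z k b) +
      ε k * ∑ b : Fin N, uf (z k b)) :
    ∃ ρ : ℝ, 0 < ρ ∧ (∀ i : Fin N, ‖Z i‖ = ρ) ∧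
      ∀ i : Fin N, ∑ j ∈ Finset.univ.erase i,
        ((starRingEnd ℂ) (Z i) * (Z j)).im * (1 / ρ ^ 3 - 1 / ‖Z i - Z j‖ ^ 3) = 0 := by
  classical
  have hεc : Tendsto (fun k => (ε k : ℂ)) atTop (nhds 0) := by
    have := (Complex.continuous_ofReal.tendsto 0).comp hε0
    simpa [Function.comp_def] using this
  -- the interaction terms converge
  have hin : ∀ a, Tendsto (fun k => ∑ b : Fin N, uf (z k a - z k b)) atTop
      (nhds (∑ b : Fin N, uf (Z a - Z b))) := by
    intro a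
    refine tendsto_finsetSum _ fun b _ => ?_
    by_cases hab : a = b
    · subst hab
      simp [uf_zero]
    · exact uf_tendsto ((hlim a).sub (hlim b)) (sub_ne_zero.2 fun h => hab (hZ h))
  -- Step 1
  have hne : ∀ a, Z a ≠ 0 := by
    intro a ha
    obtain ⟨b, hb⟩ : ∃ b : Fin N, b ≠ a := by
      have : Nontrivial (Fin N) := Fin.nontrivial_iff_two_le.2 hN
      exact exists_ne a
    have hother : ∀ c, c ≠ a → Z c ≠ 0 := fun c hc h0 => hc (hZ (h0.trans ha.symm))
    -- sum without the term a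
    have hS : Tendsto (fun k => ∑ c ∈ Finset.univ.erase a, uf (z k c)) atTop
        (nhds (∑ c ∈ Finset.univ.erase a, uf (Z c))) :=
      tendsto_finsetSum _ fun c hc => uf_tendsto (hlim c) (hother c (Finset.ne_of_mem_erase hc))
    have hsplit : ∀ k, ∑ c : Fin N, uf (z k c) = uf (z k a) + ∑ c ∈ Finset.univ.erase a, uf (z k c) :=
      fun k => (Finset.add_sum_erase _ _ (Finset.mem_univ a)).symm
    have hza : Tendsto (fun k => z k a) atTop (nhds 0) := by simpa [ha] using hlim a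
    have hna : Tendsto (fun k => ‖z k a‖) atTop (nhds 0) := by simpa using hza.norm
    -- lam |z_a|^3 -> 1
    have h1 : Tendsto (fun k => lam k * ‖z k a‖ ^ 3 - (1 + ε k)) atTop (nhds 0) := by
      have hB : Tendsto (fun k => ε k * ‖z k a‖ ^ 2 *
          ‖∑ c : Fin N, uf (z k a - z k c) + ∑ c ∈ Finset.univ.erase a, uf (z k c)‖) atTop
          (nhds 0) := by
        have := (hε0.mul (hna.pow 2)).mul ((hin a).add hS).norm
        simpa using this
      refine squeeze_zero_norm (fun k => ?_) hB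
      have hpos : 0 < ‖z k a‖ := norm_pos_iff.2 (hz0 k a)
      have e := heq k a
      rw [hsplit k] at e
      have e' : (((lam k * ‖z k a‖ ^ 3 - (1 + ε k) : ℝ)) : ℂ) * z k a =
          ((ε k * ‖z k a‖ ^ 3 : ℝ) : ℂ) *
          (∑ c : Fin N, uf (z k a - z k c) + ∑ c ∈ Finset.univ.erase a, uf (z k c)) := by
        have hu : ((‖z k a‖ ^ 3 : ℝ) : ℂ) * uf (z k a) = z k a := by
          unfold uf
          rw [← mul_assoc, ← Complex.ofReal_mul, mul_one_div, div_self (by positivity)]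
          simp
        push_cast at hu ⊢
        linear_combination (‖z k a‖ : ℂ) ^ 3 * e + (1 + (ε k : ℂ)) * hu
      have e'' := congrArg norm e'
      rw [norm_mul, norm_mul, Complex.norm_real, Complex.norm_real, Real.norm_eq_abs (ε k * _),
        abs_of_pos (mul_pos (hε k) (by positivity))] at e''
      have : ‖lam k * ‖z k a‖ ^ 3 - (1 + ε k)‖ * ‖z k a‖ =
        (ε k * ‖z k a‖ ^ 2 *
          ‖∑ c : Fin N, uf (z k a - z k c) + ∑ c ∈ Finset.univ.erase a, uf (z k c)‖) * ‖z k a‖ := by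
        rw [e'']; ring
      exact (mul_right_cancel₀ hpos.ne' this).le
    have h2 : Tendsto (fun k => lam k * ‖z k a‖ ^ 3) atTop (nhds 1) := by
      have := h1.add (tendsto_const_nhds.add hε0 : Tendsto (fun k => 1 + ε k) atTop (nhds (1 + 0)))
      simpa using this
    have h3 : Tendsto (fun k => ((lam k * ‖z k a‖ ^ 3 : ℝ) : ℂ) * z k b) atTop (nhds (Z b)) := by
      have := ((Complex.continuous_ofReal.tendsto _).comp h2).mul (hlim b)
      simpa using this
    have h4 : Tendsto (fun k => ((lam k * ‖z k a‖ ^ 3 : ℝ) : ℂ) * z k b) atTop (nhds 0) := by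
      have e : ∀ k, ((lam k * ‖z k a‖ ^ 3 : ℝ) : ℂ) * z k b =
          ((‖z k a‖ ^ 3 : ℝ) : ℂ) * (uf (z k b) + ε k * ∑ c : Fin N, uf (z k b - z k c) +
            ε k * ∑ c ∈ Finset.univ.erase a, uf (z k c)) + ε k * z k a := by
        intro k
        have hpos : 0 < ‖z k a‖ := norm_pos_iff.2 (hz0 k a)
        have hu : ((‖z k a‖ ^ 3 : ℝ) : ℂ) * uf (z k a) = z k a := by
          unfold uf
          rw [← mul_assoc, ← Complex.ofReal_mul, mul_one_div, div_self (by positivity)]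
          simp
        have e := heq k b
        rw [hsplit k] at e
        push_cast at hu ⊢
        linear_combination (‖z k a‖ : ℂ) ^ 3 * e + (ε k : ℂ) * hu
      simp_rw [e]
      have hn3 : Tendsto (fun k => ((‖z k a‖ ^ 3 : ℝ) : ℂ)) atTop (nhds 0) := by
        have := (Complex.continuous_ofReal.tendsto _).comp (hna.pow 3)
        simpa [Function.comp_def] using this
      have := (hn3.mul (((uf_tendsto (hlim b) (hother b hb)).add (hεc.mul (hin b))).add
        (hεc.mul hS))).add (hεc.mul hza)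
      simpa using this
    exact hother b hb (tendsto_nhds_unique h3 h4)
  -- all the sums converge
  have hS : Tendsto (fun k => ∑ c : Fin N, uf (z k c)) atTop (nhds (∑ c : Fin N, uf (Z c))) :=
    tendsto_finsetSum _ fun c _ => uf_tendsto (hlim c) (hne c)
  have hlam : ∀ a, Tendsto (fun k => (lam k : ℂ)) atTop (nhds (((1 / ‖Z a‖ ^ 3 : ℝ)) : ℂ)) := by
    intro a
    have h1 : Tendsto (fun k => (lam k : ℂ) * z k a) atTop (nhds (uf (Z a))) := by
      simp_rw [heq]
      have := ((uf_tendsto (hlim a) (hne a)).add (hεc.mul (hin a))).add (hεc.mul hS)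
      simpa using this
    have h2 := h1.div (hlim a) (hne a)
    have e1 : (fun k => (lam k : ℂ) * z k a / z k a) = fun k => (lam k : ℂ) :=
      funext fun k => mul_div_cancel_right₀ _ (hz0 k a)
    have e2 : uf (Z a) / Z a = (((1 / ‖Z a‖ ^ 3 : ℝ)) : ℂ) := by
      unfold uf; exact mul_div_cancel_right₀ _ (hne a)
    have h2' : Tendsto (fun k => (lam k : ℂ) * z k a / z k a) atTop (nhds (uf (Z a) / Z a)) := h2
    rwa [e1, e2] at h2'
  have hnorm : ∀ a b, ‖Z a‖ = ‖Z b‖ := by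
    intro a b
    have := tendsto_nhds_unique (hlam a) (hlam b)
    have h1 : (1 / ‖Z a‖ ^ 3 : ℝ) = 1 / ‖Z b‖ ^ 3 := by exact_mod_cast this
    have h2 : ‖Z a‖ ^ 3 = ‖Z b‖ ^ 3 := by
      rw [one_div, one_div] at h1
      exact inv_injective h1
    exact (pow_left_inj₀ (norm_nonneg _) (norm_nonneg _) (by norm_num)).1 h2
  have hN0 : 0 < N := by omega
  refine ⟨‖Z ⟨0, hN0⟩‖, norm_pos_iff.2 (hne _), fun i => hnorm _ _, fun i => ?_⟩
  -- Step 3
  have hk : ∀ k, ∑ b : Fin N, ((starRingEnd ℂ) (z k i) * uf (z k i - z k b) +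
      (starRingEnd ℂ) (z k i) * uf (z k b)).im = 0 := by
    intro k
    have e : ((starRingEnd ℂ) (z k i) * ((lam k : ℂ) * z k i)).im =
        ((starRingEnd ℂ) (z k i) * (uf (z k i) + ε k * ∑ b : Fin N, uf (z k i - z k b) +
      ε k * ∑ b : Fin N, uf (z k b))).im := by rw [heq k i]
    have r1 : ((starRingEnd ℂ) (z k i) * ((lam k : ℂ) * z k i)).im = 0 := by
      have : (starRingEnd ℂ) (z k i) * ((lam k : ℂ) * z k i) =
          ((lam k * Complex.normSq (z k i) : ℝ) : ℂ) := by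
        rw [Complex.ofReal_mul, Complex.normSq_eq_conj_mul_self]; ring
      rw [this, Complex.ofReal_im]
    have r2 : ((starRingEnd ℂ) (z k i) * uf (z k i)).im = 0 := by
      have : (starRingEnd ℂ) (z k i) * uf (z k i) =
          ((1 / ‖z k i‖ ^ 3 * Complex.normSq (z k i) : ℝ) : ℂ) := by
        rw [Complex.ofReal_mul, Complex.normSq_eq_conj_mul_self, uf]; ring
      rw [this, Complex.ofReal_im]
    have r3 : (starRingEnd ℂ) (z k i) * (uf (z k i) + ε k * ∑ b : Fin N, uf (z k i - z k b) +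
      ε k * ∑ b : Fin N, uf (z k b)) = (starRingEnd ℂ) (z k i) * uf (z k i) +
        (ε k : ℂ) * ∑ b : Fin N, ((starRingEnd ℂ) (z k i) * uf (z k i - z k b) +
          (starRingEnd ℂ) (z k i) * uf (z k b)) := by
      rw [Finset.sum_add_distrib, ← Finset.mul_sum, ← Finset.mul_sum]; ring
    rw [r1, r3, Complex.add_im, r2, zero_add, Complex.im_ofReal_mul, Complex.im_sum] at e
    exact (mul_eq_zero.1 e.symm).resolve_left (hε k).ne'
  have hT : Tendsto (fun k => ∑ b : Fin N, ((starRingEnd ℂ) (z k i) * uf (z k i - z k b) +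
      (starRingEnd ℂ) (z k i) * uf (z k b)).im) atTop
      (nhds (∑ b : Fin N, ((starRingEnd ℂ) (Z i) * uf (Z i - Z b) +
      (starRingEnd ℂ) (Z i) * uf (Z b)).im)) := by
    have hci : Tendsto (fun k => (starRingEnd ℂ) (z k i)) atTop (nhds ((starRingEnd ℂ) (Z i))) :=
      (Complex.continuous_conj.tendsto _).comp (hlim i)
    refine tendsto_finsetSum _ fun b _ => ?_
    refine (Complex.continuous_im.tendsto _).comp ?_
    refine Tendsto.add (hci.mul ?_) (hci.mul (uf_tendsto (hlim b) (hne b)))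
    by_cases hib : i = b
    · subst hib
      simp [uf_zero]
    · exact uf_tendsto ((hlim i).sub (hlim b)) (sub_ne_zero.2 fun h => hib (hZ h))
  have h0 : ∑ b : Fin N, ((starRingEnd ℂ) (Z i) * uf (Z i - Z b) +
      (starRingEnd ℂ) (Z i) * uf (Z b)).im = 0 := by
    simp_rw [hk] at hT
    exact tendsto_nhds_unique tendsto_const_nhds hT |>.symm
  rw [← h0, Finset.sum_erase]
  · refine Finset.sum_congr rfl fun j _ => ?_
    rw [← hnorm j ⟨0, hN0⟩]
    have : (starRingEnd ℂ) (Z i) * uf (Z i - Z j) + (starRingEnd ℂ) (Z i) * uf (Z j) =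
        ((1 / ‖Z j‖ ^ 3 - 1 / ‖Z i - Z j‖ ^ 3 : ℝ) : ℂ) * ((starRingEnd ℂ) (Z i) * Z j) +
        ((1 / ‖Z i - Z j‖ ^ 3 * Complex.normSq (Z i) : ℝ) : ℂ) := by
      rw [Complex.ofReal_mul, Complex.normSq_eq_conj_mul_self, uf, uf]
      push_cast
      ring
    rw [this, Complex.add_im, Complex.ofReal_im, add_zero, Complex.im_ofReal_mul, mul_comm]
  · have : (starRingEnd ℂ) (Z i) * Z i = ((Complex.normSq (Z i) : ℝ) : ℂ) :=
      (Complex.normSq_eq_conj_mul_self).symm
    rw [this, Complex.ofReal_im, zero_mul]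

/-- SUBTASK E: the limit of central configurations: all small bodies lie on a circle about the big
one and the tangential forces balance. -/
theorem limit_eq (N : ℕ) (hN : 2 ≤ N) (x : Fin (N + 1) → ℂ)
    (h : ∃ ε : ℕ → ℝ, ∃ q : ℕ → Fin (N + 1) → ℂ,
        (∀ k, 0 < ε k) ∧ Tendsto ε atTop (nhds 0) ∧
        (∀ k, Function.Injective (q k) ∧
          ∃ lam : ℝ, ∀ i : Fin (N + 1),
            (lam : ℂ) * (q k i -
              (∑ j : Fin (N + 1), (((if j = 0 then (1 : ℝ) else ε k) : ℝ) : ℂ) * q k j)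
                / (((1 + (N : ℝ) * ε k) : ℝ) : ℂ)) =
            ∑ j ∈ Finset.univ.erase i,
              ((((if j = 0 then (1 : ℝ) else ε k) / ‖q k i - q k j‖ ^ 3 : ℝ)) : ℂ)
                * (q k i - q k j)) ∧
        Tendsto q atTop (nhds x))
    (hinj : Function.Injective (fun i : Fin N => x i.succ)) :
    ∃ ρ : ℝ, 0 < ρ ∧ (∀ i : Fin N, ‖x i.succ - x 0‖ = ρ) ∧
      ∀ i : Fin N, ∑ j ∈ Finset.univ.erase i,
        ((starRingEnd ℂ) (x i.succ - x 0) * (x j.succ - x 0)).im
          * (1 / ρ ^ 3 - 1 / ‖x i.succ - x j.succ‖ ^ 3) = 0 := by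
  obtain ⟨ε, q, hε, hε0, hq, hlim⟩ := h
  choose hqi lam hlam using hq
  rw [tendsto_pi_nhds] at hlim
  obtain ⟨ρ, h1, h2, h3⟩ := limit_core N hN ε lam (fun k a => q k a.succ - q k 0)
    (fun a => x a.succ - x 0) hε hε0
    (fun k a => sub_ne_zero.2 fun h => Fin.succ_ne_zero a (hqi k h))
    (fun a b hab => hinj (sub_left_injective hab))
    (fun a => (hlim a.succ).sub (hlim 0))
    (fun k a => rel_eq N (q k) (ε k) (lam k) _ (hlam k) a)
  refine ⟨ρ, h1, h2, fun i => ?_⟩
  rw [← h3 i]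
  refine Finset.sum_congr rfl fun j _ => ?_
  rw [sub_sub_sub_cancel_right]

end Pool.Agent.H999.LimCC
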