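import Pool.Agent.H999.LimCC.Basic

/-! Pointwise certificates: the test functions `Psi` and the rows of the numerical table. -/

set_option autoImplicit false

namespace Pool.Agent.H999.LimCC

open Real

/-- multipliers of a pointwise certificate -/
structure Par where
  r : ℝ
  g : ℝ
  nu : ℝ
  c : ℝ
  a1 : ℝ
  b1 : ℝ
  r1 : ℝ
  a2 : ℝ
  b2 : ℝ
  r2 : ℝ
  a3 : ℝ
  b3 : ℝ
  r3 : ℝ

/-- the test function: `x` is a gap, `z` the cosine of its midpoint -/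
noncomputable def Psi (P : Par) (x z : ℝ) : ℝ :=
  (x / (2 * π) - P.r) * (fp x + P.g) + P.nu * cos x + P.c
  + z * ((P.r1 * fp x + P.a1) * sin (x / 2) - P.b1 * cos (x / 2))
  + (2 * z ^ 2 - 1) * ((P.r2 * fp x + P.a2) * sin x - P.b2 * cos x)
  + (4 * z ^ 3 - 3 * z) * ((P.r3 * fp x + P.a3) * sin (3 * (x / 2)) - P.b3 * cos (3 * (x / 2)))

def Good (P : Par) : Prop :=
  ∀ x, 0 < x → x < 2 * π → ∀ z, -1 ≤ z → z ≤ 1 → 0 ≤ Psi P x z

def HalfGood (P : Par) : Prop :=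
  ∀ x, 0 < x → x ≤ π → ∀ z, -1 ≤ z → z ≤ 1 → 0 ≤ Psi P x z

/-- the multipliers seen from the complementary gap -/
def Par.mirror (P : Par) : Par where
  r := 1 - P.r
  g := -P.g
  nu := P.nu
  c := P.c
  a1 := P.a1
  b1 := -P.b1
  r1 := -P.r1
  a2 := -P.a2
  b2 := P.b2
  r2 := P.r2
  a3 := P.a3
  b3 := -P.b3
  r3 := -P.r3

theorem good_of_half {P : Par} (h1 : HalfGood P) (h2 : HalfGood P.mirror) : Good P := by
  intro x hx0 hx1 z hz0 hz1
  by_cases hx : x ≤ π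
  · exact h1 x hx0 hx z hz0 hz1
  · rw [not_le] at hx
    have hh := h2 (2 * π - x) (by linarith) (by linarith) z hz0 hz1
    have e1 : (2 * π - x) / 2 = π - x / 2 := by ring
    have e3 : 3 * (π - x / 2) = (π - 3 * (x / 2)) + 2 * π := by ring
    have e2 : (2 * π - x) / (2 * π) = 1 - x / (2 * π) := by
      field_simp
    have key : Psi P x z = Psi P.mirror (2 * π - x) z := by
      unfold Psi Par.mirror
      simp only [e1, e2, e3, fp_refl, Real.cos_two_pi_sub, Real.sin_two_pi_sub, Real.sin_pi_sub,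
        Real.cos_pi_sub, Real.cos_add_two_pi, Real.sin_add_two_pi]
      ring
    rw [key]
    exact hh

/-- minus the derivative of `G` -/
noncomputable def kap (x : ℝ) : ℝ := (1 + cos (x / 2) ^ 2) / (8 * sin (x / 2) ^ 3)

/-- minus the derivative of `kap` -/
noncomputable def kap3 (x : ℝ) : ℝ := cos (x / 2) * (5 + cos (x / 2) ^ 2) / (16 * sin (x / 2) ^ 4)

/-- bound of the second derivative of `Psi P · z` to the right of `x0` -/
noncomputable def secB (P : Par) (x0 : ℝ) : ℝ :=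
  kap x0 / π + |P.nu - 1 / π| + max (P.r - x0 / (2 * π)) 0 * (1 + kap3 x0)
  + (|P.a1| + |P.b1|) / 4 + (|P.a2| + |P.b2|) + 9 / 4 * (|P.a3| + |P.b3|)
  + |P.r1| * ((1 + G x0) / 4 + (1 + kap x0) + (1 + kap3 x0))
  + |P.r2| * ((1 + G x0) + 2 * (1 + kap x0) + (1 + kap3 x0))
  + |P.r3| * (9 / 4 * (1 + G x0) + 3 * (1 + kap x0) + (1 + kap3 x0))

/-- a row of the numerical table, at `x = 2π p / 2^22` (all values scaled by `2^44`) -/
structure Row where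
  p : ℕ
  fP : ℕ
  fM : ℕ
  qP : ℕ
  qM : ℕ
  s : ℕ
  c : ℕ
  sx : ℕ
  K : ℕ
  K3 : ℕ

/-- the angle of a row -/
noncomputable def Row.x (R : Row) : ℝ := 2 * π * (R.p / 2 ^ 22)

structure Row.OK (R : Row) : Prop where
  p_pos : 0 < R.p
  p_le : R.p ≤ 2 ^ 21
  hf : |fp R.x * 2 ^ 44 - ((R.fP : ℝ) - R.fM)| ≤ 16
  hq : |cos R.x / π * 2 ^ 44 - ((R.qP : ℝ) - R.qM)| ≤ 16
  hs : |sin (R.x / 2) * 2 ^ 44 - R.s| ≤ 16
  hc : |cos (R.x / 2) * 2 ^ 44 - R.c| ≤ 16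
  hsx : |sin R.x * 2 ^ 44 - R.sx| ≤ 16
  hK : π / 2 * kap R.x * 2 ^ 22 ≤ R.K
  hK3 : π ^ 2 / 2 * (1 + kap3 R.x) ≤ R.K3

end Pool.Agent.H999.LimCC
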