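import Pool.Agent.H999.LimCC.Psi

/-! A fast checker of rows (helper597): Taylor polynomials in exact integer arithmetic. -/

set_option autoImplicit false

namespace Pool.Agent.H999.LimCC

open Real

/-! Taylor bounds -/

theorem taylor_sum (y : ℝ) (n : ℕ) :
    ∑ m ∈ Finset.range (2 * n), ((y : ℂ) * Complex.I) ^ m / (m.factorial : ℂ) =
      ((∑ j ∈ Finset.range n, (-1) ^ j * y ^ (2 * j) / ((2 * j).factorial : ℝ) : ℝ) : ℂ) +
      ((∑ j ∈ Finset.range n, (-1) ^ j * y ^ (2 * j + 1) / ((2 * j + 1).factorial : ℝ) : ℝ) : ℂ) *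
        Complex.I := by
  induction n with
  | zero => simp
  | succ n ih =>
    rw [show 2 * (n + 1) = 2 * n + 1 + 1 from by ring, Finset.sum_range_succ,
      Finset.sum_range_succ, ih, Finset.sum_range_succ, Finset.sum_range_succ]
    push_cast
    have h1 : ((y : ℂ) * Complex.I) ^ (2 * n) = (-1) ^ n * (y : ℂ) ^ (2 * n) := by
      rw [mul_pow, pow_mul Complex.I, Complex.I_sq]
      ring
    have h2 : ((y : ℂ) * Complex.I) ^ (2 * n + 1) =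
        (-1) ^ n * (y : ℂ) ^ (2 * n + 1) * Complex.I := by
      rw [pow_succ, h1]
      ring
    rw [h1, h2]
    ring

theorem taylor_bound (y : ℝ) (h0 : 0 ≤ y) (h1 : y ≤ 12) :
    |cos y - ∑ j ∈ Finset.range 12, (-1) ^ j * y ^ (2 * j) / ((2 * j).factorial : ℝ)| ≤
      y ^ 24 / (Nat.factorial 24 : ℝ) * 2 ∧
    |sin y - ∑ j ∈ Finset.range 12, (-1) ^ j * y ^ (2 * j + 1) / ((2 * j + 1).factorial : ℝ)| ≤
      y ^ 24 / (Nat.factorial 24 : ℝ) * 2 := by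
  have hn : ‖(y : ℂ) * Complex.I‖ = y := by
    rw [norm_mul, Complex.norm_I, mul_one, Complex.norm_real, Real.norm_of_nonneg h0]
  have hb := Complex.exp_bound' (x := (y : ℂ) * Complex.I) (n := 24) (by
    rw [hn]
    norm_num
    linarith)
  rw [hn, show (24 : ℕ) = 2 * 12 from rfl, taylor_sum, Complex.exp_mul_I, ← Complex.ofReal_cos,
    ← Complex.ofReal_sin] at hb
  set C := ∑ j ∈ Finset.range 12, (-1) ^ j * y ^ (2 * j) / ((2 * j).factorial : ℝ)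
  set S := ∑ j ∈ Finset.range 12, (-1) ^ j * y ^ (2 * j + 1) / ((2 * j + 1).factorial : ℝ)
  have hz : ((cos y : ℝ) : ℂ) + ((sin y : ℝ) : ℂ) * Complex.I - ((C : ℂ) + (S : ℂ) * Complex.I) =
      ((cos y - C : ℝ) : ℂ) + ((sin y - S : ℝ) : ℂ) * Complex.I := by
    push_cast
    ring
  rw [hz] at hb
  have hre : ∀ u v : ℝ, |u| ≤ ‖(u : ℂ) + (v : ℂ) * Complex.I‖ := fun u v => by
    simpa using Complex.abs_re_le_norm ((u : ℂ) + (v : ℂ) * Complex.I)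
  have him : ∀ u v : ℝ, |v| ≤ ‖(u : ℂ) + (v : ℂ) * Complex.I‖ := fun u v => by
    simpa using Complex.abs_im_le_norm ((u : ℂ) + (v : ℂ) * Complex.I)
  exact ⟨(hre _ _).trans hb, (him _ _).trans hb⟩

/-! Horner forms in integers -/

/-- ten to the 20 times two to the 22 -/
def rD : ℕ := 419430400000000000000000000

def rE : ℕ := Nat.mul rD rD

def kS0 : ℕ := Nat.mul (Nat.pow rE 11) 25852016738884976640000
def kC0 : ℕ := Nat.mul (Nat.pow rE 11) 1124000727777607680000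
def kS1 : ℕ := Nat.mul (Nat.pow rE 10) 4308669456480829440000
def kC1 : ℕ := Nat.mul (Nat.pow rE 10) 562000363888803840000
def kS2 : ℕ := Nat.mul (Nat.pow rE 9) 215433472824041472000
def kC2 : ℕ := Nat.mul (Nat.pow rE 9) 46833363657400320000
def kS3 : ℕ := Nat.mul (Nat.pow rE 8) 5129368400572416000
def kC3 : ℕ := Nat.mul (Nat.pow rE 8) 1561112121913344000
def kS4 : ℕ := Nat.mul (Nat.pow rE 7) 71241227785728000
def kC4 : ℕ := Nat.mul (Nat.pow rE 7) 27877002177024000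
def kS5 : ℕ := Nat.mul (Nat.pow rE 6) 647647525324800
def kC5 : ℕ := Nat.mul (Nat.pow rE 6) 309744468633600
def kS6 : ℕ := Nat.mul (Nat.pow rE 5) 4151586700800
def kC6 : ℕ := Nat.mul (Nat.pow rE 5) 2346549004800
def kS7 : ℕ := Nat.mul (Nat.pow rE 4) 19769460480
def kC7 : ℕ := Nat.mul (Nat.pow rE 4) 12893126400
def kS8 : ℕ := Nat.mul (Nat.pow rE 3) 72681840
def kC8 : ℕ := Nat.mul (Nat.pow rE 3) 53721360
def kS9 : ℕ := Nat.mul (Nat.pow rE 2) 212520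
def kC9 : ℕ := Nat.mul (Nat.pow rE 2) 175560
def kS10 : ℕ := Nat.mul (Nat.pow rE 1) 506
def kC10 : ℕ := Nat.mul (Nat.pow rE 1) 462

def hS (a : ℕ) : ℕ :=
  Nat.sub kS0 (Nat.mul a (Nat.sub kS1 (Nat.mul a (Nat.sub kS2 (Nat.mul a (Nat.sub kS3 (Nat.mul a (Nat.sub kS4 (Nat.mul a (Nat.sub kS5 (Nat.mul a (Nat.sub kS6 (Nat.mul a (Nat.sub kS7 (Nat.mul a (Nat.sub kS8 (Nat.mul a (Nat.sub kS9 (Nat.mul a (Nat.sub kS10 (Nat.mul a 1)))))))))))))))))))))
def hC (a : ℕ) : ℕ :=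
  Nat.sub kC0 (Nat.mul a (Nat.sub kC1 (Nat.mul a (Nat.sub kC2 (Nat.mul a (Nat.sub kC3 (Nat.mul a (Nat.sub kC4 (Nat.mul a (Nat.sub kC5 (Nat.mul a (Nat.sub kC6 (Nat.mul a (Nat.sub kC7 (Nat.mul a (Nat.sub kC8 (Nat.mul a (Nat.sub kC9 (Nat.mul a (Nat.sub kC10 (Nat.mul a 1)))))))))))))))))))))

theorem sub_step {K K' a u : ℕ} {v : ℝ} (hu : u ≤ K') (hv : (u : ℝ) = v) (h : a * K' ≤ K) :
    Nat.sub K (Nat.mul a u) ≤ K ∧ ((Nat.sub K (Nat.mul a u) : ℕ) : ℝ) = K - a * v := by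
  have h1 : a * u ≤ K := (Nat.mul_le_mul_left a hu).trans h
  refine ⟨Nat.sub_le _ _, ?_⟩
  show ((K - a * u : ℕ) : ℝ) = _
  rw [Nat.cast_sub h1, Nat.cast_mul, hv]

theorem cast_sub_maxR {K a u : ℕ} {v : ℝ} (hv : (u : ℝ) = v) :
    ((Nat.sub K (Nat.mul a u) : ℕ) : ℝ) = max (K - a * v) 0 := by
  show ((K - a * u : ℕ) : ℝ) = _
  rw [← hv]
  rcases le_total (a * u) K with h | h
  · rw [Nat.cast_sub h, Nat.cast_mul, max_eq_left]
    have : ((a * u : ℕ) : ℝ) ≤ K := by exact_mod_cast h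
    push_cast at this
    linarith
  · rw [Nat.sub_eq_zero_of_le h, Nat.cast_zero, max_eq_right]
    have : (K : ℝ) ≤ ((a * u : ℕ) : ℝ) := by exact_mod_cast h
    push_cast at this
    linarith

theorem ratio {a k c c' : ℕ} (ha : 2 * a ≤ 5 * rE) (hc : 5 * c' ≤ 2 * c) :
    a * Nat.mul (Nat.pow rE k) c' ≤ Nat.mul (Nat.pow rE (k + 1)) c := by
  show a * (rE ^ k * c') ≤ rE ^ (k + 1) * c
  have h : 2 * (a * (rE ^ k * c')) ≤ 2 * (rE ^ (k + 1) * c) := by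
    calc 2 * (a * (rE ^ k * c')) = (2 * a) * (rE ^ k * c') := by ring
      _ ≤ (5 * rE) * (rE ^ k * c') := Nat.mul_le_mul_right _ ha
      _ = rE ^ (k + 1) * (5 * c') := by ring
      _ ≤ rE ^ (k + 1) * (2 * c) := Nat.mul_le_mul_left _ hc
      _ = 2 * (rE ^ (k + 1) * c) := by ring
  omega

theorem hS_eq {a : ℕ} (ha : 2 * a ≤ 5 * rE) : ((hS a : ℕ) : ℝ) =
    (kS0 - a * (kS1 - a * (kS2 - a * (kS3 - a * (kS4 - a * (kS5 - a * (kS6 - a * (kS7 - a * (kS8 - a * (kS9 - a * (kS10 - a * 1))))))))))) := by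
  have h11 : (1 : ℕ) ≤ Nat.mul (Nat.pow rE 0) 1 ∧ ((1 : ℕ) : ℝ) = 1 := ⟨le_refl _, by norm_num⟩
  have h10 := sub_step (K := kS10) h11.1 h11.2 (ratio (a := a) (k := 0) (c := 506) (c' := 1) ha (by norm_num))
  have h9 := sub_step (K := kS9) h10.1 h10.2 (ratio (a := a) (k := 1) (c := 212520) (c' := 506) ha (by norm_num))
  have h8 := sub_step (K := kS8) h9.1 h9.2 (ratio (a := a) (k := 2) (c := 72681840) (c' := 212520) ha (by norm_num))
  have h7 := sub_step (K := kS7) h8.1 h8.2 (ratio (a := a) (k := 3) (c := 19769460480) (c' := 72681840) ha (by norm_num))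
  have h6 := sub_step (K := kS6) h7.1 h7.2 (ratio (a := a) (k := 4) (c := 4151586700800) (c' := 19769460480) ha (by norm_num))
  have h5 := sub_step (K := kS5) h6.1 h6.2 (ratio (a := a) (k := 5) (c := 647647525324800) (c' := 4151586700800) ha (by norm_num))
  have h4 := sub_step (K := kS4) h5.1 h5.2 (ratio (a := a) (k := 6) (c := 71241227785728000) (c' := 647647525324800) ha (by norm_num))
  have h3 := sub_step (K := kS3) h4.1 h4.2 (ratio (a := a) (k := 7) (c := 5129368400572416000) (c' := 71241227785728000) ha (by norm_num))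
  have h2 := sub_step (K := kS2) h3.1 h3.2 (ratio (a := a) (k := 8) (c := 215433472824041472000) (c' := 5129368400572416000) ha (by norm_num))
  have h1 := sub_step (K := kS1) h2.1 h2.2 (ratio (a := a) (k := 9) (c := 4308669456480829440000) (c' := 215433472824041472000) ha (by norm_num))
  have h0 := sub_step (K := kS0) h1.1 h1.2 (ratio (a := a) (k := 10) (c := 25852016738884976640000) (c' := 4308669456480829440000) ha (by norm_num))
  exact h0.2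

theorem hC_eq {a : ℕ} (ha : 2 * a ≤ 5 * rE) : ((hC a : ℕ) : ℝ) =
    max (((kC0 : ℝ) - a * (kC1 - a * (kC2 - a * (kC3 - a * (kC4 - a * (kC5 - a * (kC6 - a * (kC7 - a * (kC8 - a * (kC9 - a * (kC10 - a * 1))))))))))) : ℝ) 0 := by
  have h11 : (1 : ℕ) ≤ Nat.mul (Nat.pow rE 0) 1 ∧ ((1 : ℕ) : ℝ) = 1 := ⟨le_refl _, by norm_num⟩
  have h10 := sub_step (K := kC10) h11.1 h11.2 (ratio (a := a) (k := 0) (c := 462) (c' := 1) ha (by norm_num))
  have h9 := sub_step (K := kC9) h10.1 h10.2 (ratio (a := a) (k := 1) (c := 175560) (c' := 462) ha (by norm_num))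
  have h8 := sub_step (K := kC8) h9.1 h9.2 (ratio (a := a) (k := 2) (c := 53721360) (c' := 175560) ha (by norm_num))
  have h7 := sub_step (K := kC7) h8.1 h8.2 (ratio (a := a) (k := 3) (c := 12893126400) (c' := 53721360) ha (by norm_num))
  have h6 := sub_step (K := kC6) h7.1 h7.2 (ratio (a := a) (k := 4) (c := 2346549004800) (c' := 12893126400) ha (by norm_num))
  have h5 := sub_step (K := kC5) h6.1 h6.2 (ratio (a := a) (k := 5) (c := 309744468633600) (c' := 2346549004800) ha (by norm_num))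
  have h4 := sub_step (K := kC4) h5.1 h5.2 (ratio (a := a) (k := 6) (c := 27877002177024000) (c' := 309744468633600) ha (by norm_num))
  have h3 := sub_step (K := kC3) h4.1 h4.2 (ratio (a := a) (k := 7) (c := 1561112121913344000) (c' := 27877002177024000) ha (by norm_num))
  have h2 := sub_step (K := kC2) h3.1 h3.2 (ratio (a := a) (k := 8) (c := 46833363657400320000) (c' := 1561112121913344000) ha (by norm_num))
  have h1 := sub_step (K := kC1) h2.1 h2.2 (ratio (a := a) (k := 9) (c := 562000363888803840000) (c' := 46833363657400320000) ha (by norm_num))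
  unfold hC
  exact cast_sub_maxR (K := kC0) h1.2

theorem polyS (a d : ℝ) (hd : d ≠ 0) : ∑ j ∈ Finset.range 12, (-1) ^ j * (a / d) ^ (2 * j + 1) / ((2 * j + 1).factorial : ℝ) =
    a * (d ^ 22 * 25852016738884976640000 - a ^ 2 * (d ^ 20 * 4308669456480829440000 - a ^ 2 * (d ^ 18 * 215433472824041472000 - a ^ 2 * (d ^ 16 * 5129368400572416000 - a ^ 2 * (d ^ 14 * 71241227785728000 - a ^ 2 * (d ^ 12 * 647647525324800 - a ^ 2 * (d ^ 10 * 4151586700800 - a ^ 2 * (d ^ 8 * 19769460480 - a ^ 2 * (d ^ 6 * 72681840 - a ^ 2 * (d ^ 4 * 212520 - a ^ 2 * (d ^ 2 * 506 - a ^ 2 * 1))))))))))) / (d ^ 23 * 25852016738884976640000) := by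
  simp only [Finset.sum_range_succ, Finset.sum_range_zero, Nat.factorial]
  push_cast
  field_simp
  ring

theorem polyC (a d : ℝ) (hd : d ≠ 0) : ∑ j ∈ Finset.range 12, (-1) ^ j * (a / d) ^ (2 * j) / ((2 * j).factorial : ℝ) =
    (d ^ 22 * 1124000727777607680000 - a ^ 2 * (d ^ 20 * 562000363888803840000 - a ^ 2 * (d ^ 18 * 46833363657400320000 - a ^ 2 * (d ^ 16 * 1561112121913344000 - a ^ 2 * (d ^ 14 * 27877002177024000 - a ^ 2 * (d ^ 12 * 309744468633600 - a ^ 2 * (d ^ 10 * 2346549004800 - a ^ 2 * (d ^ 8 * 12893126400 - a ^ 2 * (d ^ 6 * 53721360 - a ^ 2 * (d ^ 4 * 175560 - a ^ 2 * (d ^ 2 * 462 - a ^ 2 * 1))))))))))) / (d ^ 22 * 1124000727777607680000) := by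
  simp only [Finset.sum_range_succ, Finset.sum_range_zero, Nat.factorial]
  push_cast
  field_simp
  ring

theorem rE_eq : (rE : ℝ) = (rD : ℝ) ^ 2 := by
  show ((rD * rD : ℕ) : ℝ) = _
  push_cast
  ring

theorem kS0_eq : (kS0 : ℝ) = (rD : ℝ) ^ 22 * 25852016738884976640000 := by
  show ((rE ^ 11 * 25852016738884976640000 : ℕ) : ℝ) = _
  push_cast
  rw [rE_eq]
  ring

theorem kC0_eq : (kC0 : ℝ) = (rD : ℝ) ^ 22 * 1124000727777607680000 := by
  show ((rE ^ 11 * 1124000727777607680000 : ℕ) : ℝ) = _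
  push_cast
  rw [rE_eq]
  ring

theorem kS1_eq : (kS1 : ℝ) = (rD : ℝ) ^ 20 * 4308669456480829440000 := by
  show ((rE ^ 10 * 4308669456480829440000 : ℕ) : ℝ) = _
  push_cast
  rw [rE_eq]
  ring

theorem kC1_eq : (kC1 : ℝ) = (rD : ℝ) ^ 20 * 562000363888803840000 := by
  show ((rE ^ 10 * 562000363888803840000 : ℕ) : ℝ) = _
  push_cast
  rw [rE_eq]
  ring

theorem kS2_eq : (kS2 : ℝ) = (rD : ℝ) ^ 18 * 215433472824041472000 := by
  show ((rE ^ 9 * 215433472824041472000 : ℕ) : ℝ) = _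
  push_cast
  rw [rE_eq]
  ring

theorem kC2_eq : (kC2 : ℝ) = (rD : ℝ) ^ 18 * 46833363657400320000 := by
  show ((rE ^ 9 * 46833363657400320000 : ℕ) : ℝ) = _
  push_cast
  rw [rE_eq]
  ring

theorem kS3_eq : (kS3 : ℝ) = (rD : ℝ) ^ 16 * 5129368400572416000 := by
  show ((rE ^ 8 * 5129368400572416000 : ℕ) : ℝ) = _
  push_cast
  rw [rE_eq]
  ring

theorem kC3_eq : (kC3 : ℝ) = (rD : ℝ) ^ 16 * 1561112121913344000 := by
  show ((rE ^ 8 * 1561112121913344000 : ℕ) : ℝ) = _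
  push_cast
  rw [rE_eq]
  ring

theorem kS4_eq : (kS4 : ℝ) = (rD : ℝ) ^ 14 * 71241227785728000 := by
  show ((rE ^ 7 * 71241227785728000 : ℕ) : ℝ) = _
  push_cast
  rw [rE_eq]
  ring

theorem kC4_eq : (kC4 : ℝ) = (rD : ℝ) ^ 14 * 27877002177024000 := by
  show ((rE ^ 7 * 27877002177024000 : ℕ) : ℝ) = _
  push_cast
  rw [rE_eq]
  ring

theorem kS5_eq : (kS5 : ℝ) = (rD : ℝ) ^ 12 * 647647525324800 := by
  show ((rE ^ 6 * 647647525324800 : ℕ) : ℝ) = _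
  push_cast
  rw [rE_eq]
  ring

theorem kC5_eq : (kC5 : ℝ) = (rD : ℝ) ^ 12 * 309744468633600 := by
  show ((rE ^ 6 * 309744468633600 : ℕ) : ℝ) = _
  push_cast
  rw [rE_eq]
  ring

theorem kS6_eq : (kS6 : ℝ) = (rD : ℝ) ^ 10 * 4151586700800 := by
  show ((rE ^ 5 * 4151586700800 : ℕ) : ℝ) = _
  push_cast
  rw [rE_eq]
  ring

theorem kC6_eq : (kC6 : ℝ) = (rD : ℝ) ^ 10 * 2346549004800 := by
  show ((rE ^ 5 * 2346549004800 : ℕ) : ℝ) = _
  push_cast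
  rw [rE_eq]
  ring

theorem kS7_eq : (kS7 : ℝ) = (rD : ℝ) ^ 8 * 19769460480 := by
  show ((rE ^ 4 * 19769460480 : ℕ) : ℝ) = _
  push_cast
  rw [rE_eq]
  ring

theorem kC7_eq : (kC7 : ℝ) = (rD : ℝ) ^ 8 * 12893126400 := by
  show ((rE ^ 4 * 12893126400 : ℕ) : ℝ) = _
  push_cast
  rw [rE_eq]
  ring

theorem kS8_eq : (kS8 : ℝ) = (rD : ℝ) ^ 6 * 72681840 := by
  show ((rE ^ 3 * 72681840 : ℕ) : ℝ) = _
  push_cast
  rw [rE_eq]
  ring

theorem kC8_eq : (kC8 : ℝ) = (rD : ℝ) ^ 6 * 53721360 := by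
  show ((rE ^ 3 * 53721360 : ℕ) : ℝ) = _
  push_cast
  rw [rE_eq]
  ring

theorem kS9_eq : (kS9 : ℝ) = (rD : ℝ) ^ 4 * 212520 := by
  show ((rE ^ 2 * 212520 : ℕ) : ℝ) = _
  push_cast
  rw [rE_eq]
  ring

theorem kC9_eq : (kC9 : ℝ) = (rD : ℝ) ^ 4 * 175560 := by
  show ((rE ^ 2 * 175560 : ℕ) : ℝ) = _
  push_cast
  rw [rE_eq]
  ring

theorem kS10_eq : (kS10 : ℝ) = (rD : ℝ) ^ 2 * 506 := by
  show ((rE ^ 1 * 506 : ℕ) : ℝ) = _
  push_cast
  rw [rE_eq]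
  ring

theorem kC10_eq : (kC10 : ℝ) = (rD : ℝ) ^ 2 * 462 := by
  show ((rE ^ 1 * 462 : ℕ) : ℝ) = _
  push_cast
  rw [rE_eq]
  ring

theorem hS_real {A : ℕ} (ha : 2 * Nat.mul A A ≤ 5 * rE) : ((hS (Nat.mul A A) : ℕ) : ℝ) =
    ((rD : ℝ) ^ 22 * 25852016738884976640000 - (A : ℝ) ^ 2 * ((rD : ℝ) ^ 20 * 4308669456480829440000 - (A : ℝ) ^ 2 * ((rD : ℝ) ^ 18 * 215433472824041472000 - (A : ℝ) ^ 2 * ((rD : ℝ) ^ 16 * 5129368400572416000 - (A : ℝ) ^ 2 * ((rD : ℝ) ^ 14 * 71241227785728000 - (A : ℝ) ^ 2 * ((rD : ℝ) ^ 12 * 647647525324800 - (A : ℝ) ^ 2 * ((rD : ℝ) ^ 10 * 4151586700800 - (A : ℝ) ^ 2 * ((rD : ℝ) ^ 8 * 19769460480 - (A : ℝ) ^ 2 * ((rD : ℝ) ^ 6 * 72681840 - (A : ℝ) ^ 2 * ((rD : ℝ) ^ 4 * 212520 - (A : ℝ) ^ 2 * ((rD : ℝ) ^ 2 * 506 - (A : ℝ) ^ 2 * 1))))))))))) := by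
  have hA : ((Nat.mul A A : ℕ) : ℝ) = (A : ℝ) ^ 2 := by
    show ((A * A : ℕ) : ℝ) = _
    push_cast
    ring
  rw [hS_eq ha, hA, kS0_eq, kS1_eq, kS2_eq, kS3_eq, kS4_eq, kS5_eq, kS6_eq, kS7_eq, kS8_eq, kS9_eq, kS10_eq]

theorem hC_real {A : ℕ} (ha : 2 * Nat.mul A A ≤ 5 * rE) : ((hC (Nat.mul A A) : ℕ) : ℝ) =
    max (((rD : ℝ) ^ 22 * 1124000727777607680000 - (A : ℝ) ^ 2 * ((rD : ℝ) ^ 20 * 562000363888803840000 - (A : ℝ) ^ 2 * ((rD : ℝ) ^ 18 * 46833363657400320000 - (A : ℝ) ^ 2 * ((rD : ℝ) ^ 16 * 1561112121913344000 - (A : ℝ) ^ 2 * ((rD : ℝ) ^ 14 * 27877002177024000 - (A : ℝ) ^ 2 * ((rD : ℝ) ^ 12 * 309744468633600 - (A : ℝ) ^ 2 * ((rD : ℝ) ^ 10 * 2346549004800 - (A : ℝ) ^ 2 * ((rD : ℝ) ^ 8 * 12893126400 - (A : ℝ) ^ 2 * ((rD : ℝ) ^ 6 * 53721360 - (A : ℝ) ^ 2 * ((rD : ℝ) ^ 4 * 175560 - (A : ℝ) ^ 2 * ((rD : ℝ) ^ 2 * 462 - (A : ℝ) ^ 2 * 1))))))))))) : ℝ) 0 := by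
  have hA : ((Nat.mul A A : ℕ) : ℝ) = (A : ℝ) ^ 2 := by
    show ((A * A : ℕ) : ℝ) = _
    push_cast
    ring
  rw [hC_eq ha, hA, kC0_eq, kC1_eq, kC2_eq, kC3_eq, kC4_eq, kC5_eq, kC6_eq, kC7_eq, kC8_eq, kC9_eq, kC10_eq]

theorem hC_poly {A : ℕ} (ha : 2 * Nat.mul A A ≤ 5 * rE) (hd : (rD : ℝ) ≠ 0) :
    ∃ W : ℝ, ((hC (Nat.mul A A) : ℕ) : ℝ) = max W 0 ∧
      ∑ j ∈ Finset.range 12, (-1) ^ j * ((A : ℝ) / rD) ^ (2 * j) / ((2 * j).factorial : ℝ) =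
        W / ((rD : ℝ) ^ 22 * 1124000727777607680000) :=
  ⟨_, hC_real ha, polyC (A : ℝ) rD hd⟩

/-! the enclosures -/

def rP : ℕ := 314159265358979323846
def rQ : ℕ := 314159265358979323847
def t44 : ℕ := 17592186044416
def t52 : ℕ := 4503599627370496
def t96 : ℕ := 79228162514264337593543950336
def t148 : ℕ := Nat.mul t96 t52
def t192 : ℕ := Nat.mul t96 t96
def dS : ℕ := Nat.mul (Nat.mul rD (Nat.pow rE 11)) 25852016738884976640000
def dC : ℕ := Nat.mul (Nat.pow rE 11) 1124000727777607680000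

theorem rD_eq : (rD : ℝ) = 10 ^ 20 * 2 ^ 22 := by norm_num [rD]
theorem rP_lt : (rP : ℝ) < π * 10 ^ 20 := by
  have := Real.pi_gt_d20
  have h : (rP : ℝ) = 3.14159265358979323846 * 10 ^ 20 := by norm_num [rP]
  rw [h]
  exact mul_lt_mul_of_pos_right this (by positivity)
theorem lt_rQ : π * 10 ^ 20 < (rQ : ℝ) := by
  have := Real.pi_lt_d20
  have h : (rQ : ℝ) = 3.14159265358979323847 * 10 ^ 20 := by norm_num [rQ]
  rw [h]
  exact mul_lt_mul_of_pos_right this (by positivity)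

theorem t44_eq : (t44 : ℝ) = 2 ^ 44 := by norm_num [t44]
theorem t52_eq : (t52 : ℝ) = 2 ^ 52 := by norm_num [t52]
theorem t96_eq : (t96 : ℝ) = 2 ^ 96 := by norm_num [t96]
theorem t148_eq : (t148 : ℝ) = 2 ^ 148 := by
  show ((t96 * t52 : ℕ) : ℝ) = _
  rw [Nat.cast_mul, t96_eq, t52_eq]
  norm_num
theorem t192_eq : (t192 : ℝ) = 2 ^ 192 := by
  show ((t96 * t96 : ℕ) : ℝ) = _
  rw [Nat.cast_mul, t96_eq]
  norm_num

theorem dS_eq : (dS : ℝ) = (rD : ℝ) ^ 23 * 25852016738884976640000 := by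
  show ((rD * rE ^ 11 * 25852016738884976640000 : ℕ) : ℝ) = _
  push_cast
  rw [rE_eq]
  ring

theorem dC_eq : (dC : ℝ) = (rD : ℝ) ^ 22 * 1124000727777607680000 := by
  show ((rE ^ 11 * 1124000727777607680000 : ℕ) : ℝ) = _
  push_cast
  rw [rE_eq]
  ring

/-- `sin y * 2^96` -/
def vS (p : ℕ) : ℕ :=
  Nat.div (Nat.mul (Nat.mul (Nat.mul rP p) (hS (Nat.mul (Nat.mul rP p) (Nat.mul rP p)))) t96) dS

/-- `cos y * 2^96` -/
def vC (p : ℕ) : ℕ :=
  Nat.div (Nat.mul (hC (Nat.mul (Nat.mul rP p) (Nat.mul rP p))) t96) dC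

theorem div_bounds (u d : ℕ) (hd : 0 < d) :
    ((Nat.div u d : ℕ) : ℝ) ≤ (u : ℝ) / d ∧ (u : ℝ) / d ≤ ((Nat.div u d : ℕ) : ℝ) + 1 := by
  have hd' : (0 : ℝ) < d := by exact_mod_cast hd
  constructor
  · exact Nat.cast_div_le
  · rw [div_le_iff₀ hd']
    have h : u < d * (u / d + 1) := Nat.lt_mul_div_succ u hd
    have h2 : (u : ℝ) ≤ ((d * (u / d + 1) : ℕ) : ℝ) := by exact_mod_cast h.le
    push_cast at h2
    show (u : ℝ) ≤ (((u / d : ℕ) : ℝ) + 1) * d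
    linarith

section encl

variable {p : ℕ} (hp1 : p ≤ 2 ^ 21)
include hp1

theorem a_small : 2 * Nat.mul (Nat.mul rP p) (Nat.mul rP p) ≤ 5 * rE := by
  show 2 * ((rP * p) * (rP * p)) ≤ 5 * (rD * rD)
  have h1 : rP * p ≤ rP * 2 ^ 21 := Nat.mul_le_mul_left _ hp1
  calc 2 * ((rP * p) * (rP * p)) ≤ 2 * ((rP * 2 ^ 21) * (rP * 2 ^ 21)) :=
        Nat.mul_le_mul_left _ (Nat.mul_le_mul h1 h1)
    _ ≤ 5 * (rD * rD) := by norm_num [rP, rD]

theorem y_bounds : (0 : ℝ) ≤ π * (p / 2 ^ 22) - (rP * p : ℝ) / rD ∧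
    π * (p / 2 ^ 22) - (rP * p : ℝ) / rD ≤ (p : ℝ) * 189 / 2 ^ 96 ∧
    (rP * p : ℝ) / rD ≤ 1.5708 ∧ (rP * p : ℝ) / rD ≤ (p : ℝ) * (7.4902e-7) := by
  have hp0 : (0 : ℝ) ≤ p := Nat.cast_nonneg p
  have hp2 : (p : ℝ) ≤ 2 ^ 21 := by exact_mod_cast hp1
  have h1 := rP_lt
  have h2 := lt_rQ
  have hrP : (rP : ℝ) = 314159265358979323846 := by norm_num [rP]
  have hrQ : (rQ : ℝ) = 314159265358979323847 := by norm_num [rQ]
  rw [rD_eq]
  rw [hrP] at h1 ⊢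
  rw [hrQ] at h2
  refine ⟨?_, ?_, ?_, ?_⟩
  · have : (314159265358979323846 * p : ℝ) / (10 ^ 20 * 2 ^ 22) ≤ π * (p / 2 ^ 22) := by
      rw [div_le_iff₀ (by positivity)]
      have h3 : π * (p / 2 ^ 22) * (10 ^ 20 * 2 ^ 22) = (π * 10 ^ 20) * p := by ring
      rw [h3]
      exact mul_le_mul_of_nonneg_right h1.le hp0
    linarith
  · have h3 : π * (p / 2 ^ 22) - (314159265358979323846 * p : ℝ) / (10 ^ 20 * 2 ^ 22) =
        (π * 10 ^ 20 - 314159265358979323846) * (p / (10 ^ 20 * 2 ^ 22)) := by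
      field_simp
    rw [h3]
    calc (π * 10 ^ 20 - 314159265358979323846) * ((p : ℝ) / (10 ^ 20 * 2 ^ 22)) ≤
          1 * ((p : ℝ) / (10 ^ 20 * 2 ^ 22)) :=
          mul_le_mul_of_nonneg_right (by linarith) (by positivity)
      _ = (p : ℝ) * (1 / (10 ^ 20 * 2 ^ 22)) := by ring
      _ ≤ (p : ℝ) * (189 / 2 ^ 96) := mul_le_mul_of_nonneg_left (by norm_num) hp0
      _ = (p : ℝ) * 189 / 2 ^ 96 := by ring
  · rw [div_le_iff₀ (by positivity)]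
    calc (314159265358979323846 * p : ℝ) ≤ 314159265358979323846 * 2 ^ 21 :=
          mul_le_mul_of_nonneg_left hp2 (by positivity)
      _ ≤ _ := by norm_num
  · rw [div_le_iff₀ (by positivity)]
    have h3 : (p : ℝ) * (7.4902e-7) * (10 ^ 20 * 2 ^ 22) = p * (7.4902e-7 * (10 ^ 20 * 2 ^ 22)) := by
      ring
    rw [h3, mul_comm]
    exact mul_le_mul_of_nonneg_left (by norm_num) hp0

theorem err_bound : ((rP * p : ℝ) / rD) ^ 24 / (Nat.factorial 24 : ℝ) * 2 ≤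
    (p : ℝ) * 6300 / 2 ^ 96 := by
  obtain ⟨_, _, h3, h4⟩ := y_bounds hp1
  have h0 : (0 : ℝ) ≤ (rP * p : ℝ) / rD := by positivity
  set y := (rP * p : ℝ) / rD
  have hf : (Nat.factorial 24 : ℝ) = 620448401733239439360000 := by norm_num [Nat.factorial]
  rw [hf]
  have h5 : y ^ 23 ≤ 1.5708 ^ 23 := pow_le_pow_left₀ h0 h3 23
  calc y ^ 24 / 620448401733239439360000 * 2 = y * y ^ 23 * (2 / 620448401733239439360000) := by ring
    _ ≤ ((p : ℝ) * 7.4902e-7) * 1.5708 ^ 23 * (2 / 620448401733239439360000) := by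
        refine mul_le_mul_of_nonneg_right ?_ (by norm_num)
        exact mul_le_mul h4 h5 (by positivity) (by positivity)
    _ = (p : ℝ) * (7.4902e-7 * 1.5708 ^ 23 * (2 / 620448401733239439360000)) := by ring
    _ ≤ (p : ℝ) * (6300 / 2 ^ 96) := mul_le_mul_of_nonneg_left (by norm_num) (Nat.cast_nonneg p)
    _ = (p : ℝ) * 6300 / 2 ^ 96 := by ring

theorem vS_bound : |sin (π * (p / 2 ^ 22)) * 2 ^ 96 - (vS p : ℝ)| ≤ 6489 * (p : ℝ) + 1 := by
  obtain ⟨h1, h2, h3, h4⟩ := y_bounds hp1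
  have herr := err_bound hp1
  have h0 : (0 : ℝ) ≤ (rP * p : ℝ) / rD := by positivity
  have hT := (taylor_bound ((rP * p : ℝ) / rD) h0 (by linarith)).2
  have hd : (rD : ℝ) ≠ 0 := by rw [rD_eq]; positivity
  rw [polyS (rP * p : ℝ) rD hd] at hT
  have hA : ((Nat.mul rP p : ℕ) : ℝ) = rP * p := by
    show ((rP * p : ℕ) : ℝ) = _
    push_cast
    ring
  have hSr := hS_real (a_small hp1)
  rw [hA] at hSr
  rw [← hSr] at hT
  have hdS : 0 < dS := by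
    have : (0 : ℝ) < dS := by rw [dS_eq, rD_eq]; positivity
    exact_mod_cast this
  have hdiv := div_bounds (Nat.mul (Nat.mul (Nat.mul rP p)
    (hS (Nat.mul (Nat.mul rP p) (Nat.mul rP p)))) t96) dS hdS
  have hu : ((Nat.mul (Nat.mul (Nat.mul rP p)
      (hS (Nat.mul (Nat.mul rP p) (Nat.mul rP p)))) t96 : ℕ) : ℝ) =
      (rP * p) * (hS (Nat.mul (Nat.mul rP p) (Nat.mul rP p)) : ℝ) * 2 ^ 96 := by
    rw [← hA, ← t96_eq, ← Nat.cast_mul, ← Nat.cast_mul]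
    rfl
  rw [hu, dS_eq] at hdiv
  set H := (hS (Nat.mul (Nat.mul rP p) (Nat.mul rP p)) : ℝ)
  set y := π * ((p : ℝ) / 2 ^ 22)
  have hq : (rP * p : ℝ) * H * 2 ^ 96 / ((rD : ℝ) ^ 23 * 25852016738884976640000) =
      (rP * p : ℝ) * H / ((rD : ℝ) ^ 23 * 25852016738884976640000) * 2 ^ 96 := by
    ring
  rw [hq] at hdiv
  set Q := (rP * p : ℝ) * H / ((rD : ℝ) ^ 23 * 25852016738884976640000)
  have hv : ((vS p : ℕ) : ℝ) = ((Nat.div (Nat.mul (Nat.mul (Nat.mul rP p)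
    (hS (Nat.mul (Nat.mul rP p) (Nat.mul rP p)))) t96) dS : ℕ) : ℝ) := rfl
  rw [← hv] at hdiv
  have hL := abs_sin_sub_sin_le y ((rP * p : ℝ) / rD)
  rw [abs_of_nonneg h1] at hL
  have h5 : |sin y - Q| ≤ (p : ℝ) * 189 / 2 ^ 96 + (p : ℝ) * 6300 / 2 ^ 96 := by
    calc |sin y - Q| ≤ |sin y - sin ((rP * p : ℝ) / rD)| + |sin ((rP * p : ℝ) / rD) - Q| :=
          abs_sub_le _ _ _
      _ ≤ _ := add_le_add (hL.trans h2) (hT.trans herr)
  have h6 := abs_le.1 h5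
  have h7 : ((p : ℝ) * 189 / 2 ^ 96 + (p : ℝ) * 6300 / 2 ^ 96) * 2 ^ 96 = 6489 * p := by
    field_simp
    ring
  have h8 := mul_le_mul_of_nonneg_right h6.1 (by positivity : (0 : ℝ) ≤ 2 ^ 96)
  have h9 := mul_le_mul_of_nonneg_right h6.2 (by positivity : (0 : ℝ) ≤ 2 ^ 96)
  rw [neg_mul, h7] at h8
  rw [h7] at h9
  rw [abs_le]
  constructor <;> linarith [hdiv.1, hdiv.2]

theorem y_half : (0 : ℝ) ≤ π * ((p : ℝ) / 2 ^ 22) ∧ π * ((p : ℝ) / 2 ^ 22) ≤ π / 2 := by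
  have hp2 : (p : ℝ) ≤ 2 ^ 21 := by exact_mod_cast hp1
  have hpi := Real.pi_pos
  constructor
  · positivity
  · have : (p : ℝ) / 2 ^ 22 ≤ 1 / 2 := by
      rw [div_le_iff₀ (by positivity)]
      linarith
    calc π * ((p : ℝ) / 2 ^ 22) ≤ π * (1 / 2) := mul_le_mul_of_nonneg_left this hpi.le
      _ = π / 2 := by ring

theorem vC_bound : |cos (π * (p / 2 ^ 22)) * 2 ^ 96 - (vC p : ℝ)| ≤ 6489 * (p : ℝ) + 1 := by
  obtain ⟨h1, h2, h3, h4⟩ := y_bounds hp1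
  have herr := err_bound hp1
  have hyh := y_half hp1
  have hcos : 0 ≤ cos (π * ((p : ℝ) / 2 ^ 22)) :=
    cos_nonneg_of_neg_pi_div_two_le_of_le (by linarith [hyh.1, Real.pi_pos]) hyh.2
  have h0 : (0 : ℝ) ≤ (rP * p : ℝ) / rD := by positivity
  have hT := (taylor_bound ((rP * p : ℝ) / rD) h0 (by linarith)).1
  have hd : (rD : ℝ) ≠ 0 := by rw [rD_eq]; positivity
  have hd0 : (0 : ℝ) < rD := by rw [rD_eq]; positivity
  have hA : ((Nat.mul rP p : ℕ) : ℝ) = rP * p := by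
    show ((rP * p : ℕ) : ℝ) = _
    push_cast
    ring
  obtain ⟨W, hW, hWp⟩ := hC_poly (a_small hp1) hd
  rw [hA] at hWp
  rw [hWp] at hT
  have hdC : 0 < dC := by
    have : (0 : ℝ) < dC := by rw [dC_eq]; positivity
    exact_mod_cast this
  have hdiv := div_bounds (Nat.mul (hC (Nat.mul (Nat.mul rP p) (Nat.mul rP p))) t96) dC hdC
  have hu : ((Nat.mul (hC (Nat.mul (Nat.mul rP p) (Nat.mul rP p))) t96 : ℕ) : ℝ) =
      (hC (Nat.mul (Nat.mul rP p) (Nat.mul rP p)) : ℝ) * 2 ^ 96 := by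
    rw [← t96_eq, ← Nat.cast_mul]
    rfl
  have hv : ((vC p : ℕ) : ℝ) = ((Nat.div (Nat.mul
    (hC (Nat.mul (Nat.mul rP p) (Nat.mul rP p))) t96) dC : ℕ) : ℝ) := rfl
  rw [hu, dC_eq, hW, ← hv] at hdiv
  clear hu hv hdC hW hA
  set y := π * ((p : ℝ) / 2 ^ 22)
  have hm : (0 : ℝ) < (rD : ℝ) ^ 22 * 1124000727777607680000 := by positivity
  set m := (rD : ℝ) ^ 22 * 1124000727777607680000
  have hq : max W 0 * 2 ^ 96 / m = max (W / m) 0 * 2 ^ 96 := by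
    have h := max_div_div_right hm.le W 0
    rw [zero_div] at h
    rw [h]
    ring
  rw [hq] at hdiv
  set Q := W / m
  have hL := abs_cos_sub_cos_le y ((rP * p : ℝ) / rD)
  rw [abs_of_nonneg h1] at hL
  have h5 : |cos y - Q| ≤ (p : ℝ) * 189 / 2 ^ 96 + (p : ℝ) * 6300 / 2 ^ 96 := by
    calc |cos y - Q| ≤ |cos y - cos ((rP * p : ℝ) / rD)| + |cos ((rP * p : ℝ) / rD) - Q| :=
          abs_sub_le _ _ _
      _ ≤ _ := add_le_add (hL.trans h2) (hT.trans herr)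
  have h5' : |cos y - max Q 0| ≤ (p : ℝ) * 189 / 2 ^ 96 + (p : ℝ) * 6300 / 2 ^ 96 := by
    have h6 := abs_le.1 h5
    have hpp : (0 : ℝ) ≤ (p : ℝ) * 189 / 2 ^ 96 + (p : ℝ) * 6300 / 2 ^ 96 := by positivity
    rw [abs_le]
    rcases le_total Q 0 with h | h
    · rw [max_eq_right h]
      constructor <;> linarith [h6.1, h6.2]
    · rw [max_eq_left h]
      exact h6
  have h6 := abs_le.1 h5'
  have h7 : ((p : ℝ) * 189 / 2 ^ 96 + (p : ℝ) * 6300 / 2 ^ 96) * 2 ^ 96 = 6489 * p := by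
    field_simp
    ring
  have h8 := mul_le_mul_of_nonneg_right h6.1 (by positivity : (0 : ℝ) ≤ 2 ^ 96)
  have h9 := mul_le_mul_of_nonneg_right h6.2 (by positivity : (0 : ℝ) ≤ 2 ^ 96)
  rw [neg_mul, h7] at h8
  rw [h7] at h9
  rw [abs_le]
  constructor <;> linarith [hdiv.1, hdiv.2]

end encl

/-! the checker -/

def c10 : ℕ := Nat.pow 10 20
def c40 : ℕ := Nat.mul 32 (Nat.pow 10 40)
def cQ2 : ℕ := Nat.mul rQ rQ
def c330 : ℕ := Nat.mul (Nat.pow 2 138) (Nat.pow 2 192)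
def c45 : ℕ := Nat.pow 2 45
def cQ114 : ℕ := Nat.mul rQ (Nat.pow 2 114)
def c44T : ℕ := Nat.mul (Nat.mul t44 c10) t192
def c45X : ℕ := Nat.mul c45 c10
def t192x5 : ℕ := Nat.mul 5 t192
def rPT : ℕ := Nat.mul rP t192
def rQT : ℕ := Nat.mul rQ t192

/-- the comparisons: `a = s_lo`, `b = s_hi`, `c = c_lo`, `d = c_hi` (scaled by `2^96`), `a2, b2, d2`
the squares of `a, b, d`, `ac`, `bd` products -/
def chk3 (fP fM qP qM s c sx K K3 sl su cl cu a2 b2 d2 ac bd : ℕ) : Bool :=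
  Bool.and (Nat.ble 1 sl) <|
  Bool.and (Nat.ble (Nat.mul s t52) (Nat.add sl (Nat.mul 16 t52))) <|
  Bool.and (Nat.ble su (Nat.mul (Nat.add s 16) t52)) <|
  Bool.and (Nat.ble (Nat.mul c t52) (Nat.add cl (Nat.mul 16 t52))) <|
  Bool.and (Nat.ble cu (Nat.mul (Nat.add c 16) t52)) <|
  Bool.and (Nat.ble (Nat.mul sx t148) (Nat.add (Nat.mul 2 ac) (Nat.mul 16 t148))) <|
  Bool.and (Nat.ble (Nat.mul 2 bd) (Nat.mul (Nat.add sx 16) t148)) <|
  Bool.and (Nat.ble (Nat.mul b2 (Nat.add (Nat.mul c45 bd) (Nat.mul fM t192)))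
    (Nat.add (Nat.mul b2 (Nat.mul (Nat.add fP 16) t192)) (Nat.mul cl c330))) <|
  Bool.and (Nat.ble (Nat.add (Nat.mul a2 (Nat.mul fP t192)) (Nat.mul cu c330))
    (Nat.mul a2 (Nat.add (Nat.mul (Nat.add fM 16) t192) (Nat.mul c45 ac)))) <|
  Bool.and (Nat.ble (Nat.add (Nat.mul qP rQT) (Nat.mul b2 c45X))
    (Nat.add c44T (Nat.mul (Nat.add qM 16) rPT))) <|
  Bool.and (Nat.ble (Nat.add c44T (Nat.mul qM rQT))
    (Nat.add (Nat.mul (Nat.add qP 16) rPT) (Nat.mul a2 c45X))) <|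
  Bool.and (Nat.ble (Nat.mul cQ114 (Nat.add t192 d2)) (Nat.mul (Nat.mul K c10) (Nat.mul a2 sl))) <|
  Nat.ble (Nat.mul cQ2 (Nat.add (Nat.mul 16 (Nat.mul a2 a2))
    (Nat.mul cu (Nat.mul (Nat.add t192x5 d2) t96)))) (Nat.mul (Nat.mul K3 c40) (Nat.mul a2 a2))

def chk2 (fP fM qP qM s c sx K K3 sl su cl cu : ℕ) : Bool :=
  chk3 fP fM qP qM s c sx K K3 sl su cl cu (Nat.mul sl sl) (Nat.mul su su) (Nat.mul cu cu)
    (Nat.mul sl cl) (Nat.mul su cu)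

def chk1 (fP fM qP qM s c sx K K3 S0 C0 M : ℕ) : Bool :=
  chk2 fP fM qP qM s c sx K K3 (Nat.sub S0 M) (Nat.add S0 M) (Nat.sub C0 M) (Nat.add C0 M)

/-- SUBTASK I: a fast checker of rows, to be evaluated by the kernel. -/
def rowChk (R : Row) : Bool :=
  Bool.and (Nat.ble 1 R.p) <| Bool.and (Nat.ble R.p 2097152) <|
    chk1 R.fP R.fM R.qP R.qM R.s R.c R.sx R.K R.K3 (vS R.p) (vC R.p)
      (Nat.add (Nat.mul 6489 R.p) 1)

/-! soundness -/

theorem ble_real {a b : ℕ} (h : Nat.ble a b = true) : (a : ℝ) ≤ b := by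
  exact_mod_cast Nat.le_of_ble_eq_true h

theorem c10_eq : (c10 : ℝ) = 10 ^ 20 := by
  show ((10 ^ 20 : ℕ) : ℝ) = _
  norm_num
theorem c40_eq : (c40 : ℝ) = 32 * 10 ^ 40 := by
  show ((32 * 10 ^ 40 : ℕ) : ℝ) = _
  norm_num
theorem cQ2_eq : (cQ2 : ℝ) = (rQ : ℝ) ^ 2 := by
  show ((rQ * rQ : ℕ) : ℝ) = _
  push_cast
  ring
theorem c330_eq : (c330 : ℝ) = 2 ^ 138 * 2 ^ 192 := by
  have h : c330 = 2 ^ 138 * 2 ^ 192 := rfl
  rw [h, Nat.cast_mul, Nat.cast_pow, Nat.cast_pow, Nat.cast_ofNat]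
theorem c45_eq : (c45 : ℝ) = 2 ^ 45 := by
  show ((2 ^ 45 : ℕ) : ℝ) = _
  norm_num
theorem cQ114_eq : (cQ114 : ℝ) = rQ * 2 ^ 114 := by
  show ((rQ * 2 ^ 114 : ℕ) : ℝ) = _
  push_cast
  ring
theorem c44T_eq : (c44T : ℝ) = 2 ^ 44 * 10 ^ 20 * 2 ^ 192 := by
  show ((t44 * c10 * t192 : ℕ) : ℝ) = _
  push_cast
  rw [t44_eq, c10_eq, t192_eq]
theorem c45X_eq : (c45X : ℝ) = 2 ^ 45 * 10 ^ 20 := by
  show ((c45 * c10 : ℕ) : ℝ) = _
  push_cast
  rw [c45_eq, c10_eq]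
theorem t192x5_eq : (t192x5 : ℝ) = 5 * 2 ^ 192 := by
  show ((5 * t192 : ℕ) : ℝ) = _
  push_cast
  rw [t192_eq]
theorem rPT_eq : (rPT : ℝ) = rP * 2 ^ 192 := by
  show ((rP * t192 : ℕ) : ℝ) = _
  push_cast
  rw [t192_eq]
theorem rQT_eq : (rQT : ℝ) = rQ * 2 ^ 192 := by
  show ((rQ * t192 : ℕ) : ℝ) = _
  push_cast
  rw [t192_eq]

theorem castMul (a b : ℕ) : ((Nat.mul a b : ℕ) : ℝ) = a * b := Nat.cast_mul a b
theorem castAdd (a b : ℕ) : ((Nat.add a b : ℕ) : ℝ) = a + b := Nat.cast_add a b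

theorem and_split {a b : Bool} (h : Bool.and a b = true) : a = true ∧ b = true := by
  revert h
  cases a <;> cases b <;> decide

theorem scaled_f (S C T : ℝ) (hT : 0 < T) (hS : 0 < S) :
    (2 * (S / T) * (C / T) - (C / T) / (4 * (S / T) ^ 2)) * 2 ^ 44 =
      S * C * 2 ^ 45 / (T * T) - C * (T * 2 ^ 42) / (S * S) := by
  field_simp
  ring

theorem comb_f (u b w M X Y : ℝ) (hb : 0 < b) (hX : 0 < X) :
    M - (b * w * 2 ^ 45 / X - u * Y / (b * b)) =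
      ((b * b) * (M * X) + u * (Y * X) - (b * b) * (2 ^ 45 * (b * w))) / (X * (b * b)) := by
  field_simp
  ring

/-- the final inequalities in real form -/
theorem fin_real {s c : ℝ} {fP fM qP qM s' c' sx K K3 a b u v : ℝ} (hs : 0 ≤ s) (hc : 0 ≤ c)
    (hfP : 0 ≤ fP) (hfM : 0 ≤ fM) (hqP : 0 ≤ qP) (hqM : 0 ≤ qM) (hK : 0 ≤ K) (hK3 : 0 ≤ K3)
    (ha1 : 1 ≤ a) (hu0 : 0 ≤ u)
    (has : a ≤ s * 2 ^ 96) (hsb : s * 2 ^ 96 ≤ b) (huc : u ≤ c * 2 ^ 96) (hcv : c * 2 ^ 96 ≤ v)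
    (h1 : s' * 2 ^ 52 ≤ a + 16 * 2 ^ 52) (h2 : b ≤ (s' + 16) * 2 ^ 52)
    (h3 : c' * 2 ^ 52 ≤ u + 16 * 2 ^ 52) (h4 : v ≤ (c' + 16) * 2 ^ 52)
    (h5 : sx * 2 ^ 148 ≤ 2 * (a * u) + 16 * 2 ^ 148) (h6 : 2 * (b * v) ≤ (sx + 16) * 2 ^ 148)
    (h7 : (b * b) * (2 ^ 45 * (b * v) + fM * 2 ^ 192) ≤
      (b * b) * ((fP + 16) * 2 ^ 192) + u * (2 ^ 138 * 2 ^ 192))
    (h8 : (a * a) * (fP * 2 ^ 192) + v * (2 ^ 138 * 2 ^ 192) ≤
      (a * a) * ((fM + 16) * 2 ^ 192 + 2 ^ 45 * (a * u)))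
    (h9 : qP * (rQ * 2 ^ 192) + (b * b) * (2 ^ 45 * 10 ^ 20) ≤
      2 ^ 44 * 10 ^ 20 * 2 ^ 192 + (qM + 16) * (rP * 2 ^ 192))
    (h10 : 2 ^ 44 * 10 ^ 20 * 2 ^ 192 + qM * (rQ * 2 ^ 192) ≤
      (qP + 16) * (rP * 2 ^ 192) + (a * a) * (2 ^ 45 * 10 ^ 20))
    (h11 : (rQ * 2 ^ 114) * (2 ^ 192 + v * v) ≤ (K * 10 ^ 20) * ((a * a) * a))
    (h12 : (rQ : ℝ) ^ 2 * (16 * ((a * a) * (a * a)) + v * ((5 * 2 ^ 192 + v * v) * 2 ^ 96)) ≤
      (K3 * (32 * 10 ^ 40)) * ((a * a) * (a * a))) :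
    |(2 * s * c - c / (4 * s ^ 2)) * 2 ^ 44 - (fP - fM)| ≤ 16 ∧
    |(1 - 2 * s ^ 2) / π * 2 ^ 44 - (qP - qM)| ≤ 16 ∧
    |s * 2 ^ 44 - s'| ≤ 16 ∧ |c * 2 ^ 44 - c'| ≤ 16 ∧ |2 * s * c * 2 ^ 44 - sx| ≤ 16 ∧
    π / 2 * ((1 + c ^ 2) / (8 * s ^ 3)) * 2 ^ 22 ≤ K ∧
    π ^ 2 / 2 * (1 + c * (5 + c ^ 2) / (16 * s ^ 4)) ≤ K3 := by
  have hT : (0 : ℝ) < 2 ^ 96 := by positivity
  have ha0 : 0 < a := by linarith
  have hs0 : 0 < s := by
    by_contra h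
    have : s = 0 := le_antisymm (not_lt.1 h) hs
    rw [this] at has
    linarith
  have hpi := Real.pi_pos
  have hP := rP_lt
  have hQ := lt_rQ
  -- scaled variables
  obtain ⟨S, hS⟩ : ∃ S, S = s * 2 ^ 96 := ⟨_, rfl⟩
  obtain ⟨C, hC⟩ : ∃ C, C = c * 2 ^ 96 := ⟨_, rfl⟩
  have hsS : s = S / 2 ^ 96 := by rw [hS]; field_simp
  have hcC : c = C / 2 ^ 96 := by rw [hC]; field_simp
  rw [← hS] at has hsb
  rw [← hC] at huc hcv
  have hS0 : 0 < S := by linarith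
  have hC0 : 0 ≤ C := by linarith
  have hb0 : 0 < b := by linarith
  have hv0 : 0 ≤ v := by linarith
  have haa : a * a ≤ S * S := mul_le_mul has has ha0.le hS0.le
  have hbb : S * S ≤ b * b := mul_le_mul hsb hsb hS0.le hb0.le
  have hau : a * u ≤ S * C := mul_le_mul has huc hu0 hS0.le
  have hbv : S * C ≤ b * v := mul_le_mul hsb hcv hC0 hb0.le
  have hvv : C * C ≤ v * v := mul_le_mul hcv hcv hC0 hv0
  refine ⟨?_, ?_, ?_, ?_, ?_, ?_, ?_⟩
  · -- f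
    have hf : (2 * s * c - c / (4 * s ^ 2)) * 2 ^ 44 =
        S * C * 2 ^ 45 / 2 ^ 192 - C * 2 ^ 138 / (S * S) := by
      have e0 := scaled_f S C (2 ^ 96) hT hS0
      rw [← hsS, ← hcC] at e0
      rw [e0]
      norm_num
    rw [hf, abs_le]
    constructor
    · -- lower bound
      have e1 : C * 2 ^ 138 / (S * S) ≤ v * 2 ^ 138 / (a * a) := by
        apply div_le_div₀ (by positivity) _ (by positivity) haa
        exact mul_le_mul_of_nonneg_right hcv (by positivity)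
      have e2 : (a * u) * 2 ^ 45 / 2 ^ 192 ≤ S * C * 2 ^ 45 / 2 ^ 192 := by
        apply div_le_div_of_nonneg_right _ (by positivity)
        exact mul_le_mul_of_nonneg_right hau (by positivity)
      have e3 : fP - fM - 16 ≤ (a * u) * 2 ^ 45 / 2 ^ 192 - v * 2 ^ 138 / (a * a) := by
        have e4 : (a * u) * 2 ^ 45 / 2 ^ 192 - v * 2 ^ 138 / (a * a) - (fP - fM - 16) =
            ((a * a) * ((fM + 16) * 2 ^ 192 + 2 ^ 45 * (a * u)) -
              ((a * a) * (fP * 2 ^ 192) + v * (2 ^ 138 * 2 ^ 192))) / (2 ^ 192 * (a * a)) := by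
          have e0 := comb_f v a u (fP - fM - 16) (2 ^ 192) (2 ^ 138) ha0 (by positivity)
          have e0' : (a * u) * 2 ^ 45 / 2 ^ 192 - v * 2 ^ 138 / (a * a) - (fP - fM - 16) =
            -((fP - fM - 16) - (a * u * 2 ^ 45 / 2 ^ 192 - v * 2 ^ 138 / (a * a))) := by ring
          rw [e0', e0, ← neg_div]
          congr 1
          ring
        have e5 : 0 ≤ ((a * a) * ((fM + 16) * 2 ^ 192 + 2 ^ 45 * (a * u)) -
              ((a * a) * (fP * 2 ^ 192) + v * (2 ^ 138 * 2 ^ 192))) / (2 ^ 192 * (a * a)) :=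
          div_nonneg (by linarith) (by positivity)
        linarith
      linarith
    · have e1 : u * 2 ^ 138 / (b * b) ≤ C * 2 ^ 138 / (S * S) := by
        apply div_le_div₀ (by positivity) _ (by positivity) hbb
        exact mul_le_mul_of_nonneg_right huc (by positivity)
      have e2 : S * C * 2 ^ 45 / 2 ^ 192 ≤ (b * v) * 2 ^ 45 / 2 ^ 192 := by
        apply div_le_div_of_nonneg_right _ (by positivity)
        exact mul_le_mul_of_nonneg_right hbv (by positivity)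
      have e3 : (b * v) * 2 ^ 45 / 2 ^ 192 - u * 2 ^ 138 / (b * b) ≤ fP - fM + 16 := by
        have e4 : fP - fM + 16 - ((b * v) * 2 ^ 45 / 2 ^ 192 - u * 2 ^ 138 / (b * b)) =
            ((b * b) * ((fP + 16) * 2 ^ 192) + u * (2 ^ 138 * 2 ^ 192) -
              (b * b) * (2 ^ 45 * (b * v) + fM * 2 ^ 192)) / (2 ^ 192 * (b * b)) := by
          rw [comb_f u b v (fP - fM + 16) (2 ^ 192) (2 ^ 138) hb0 (by positivity)]
          congr 1
          ring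
        have e5 : 0 ≤ ((b * b) * ((fP + 16) * 2 ^ 192) + u * (2 ^ 138 * 2 ^ 192) -
              (b * b) * (2 ^ 45 * (b * v) + fM * 2 ^ 192)) / (2 ^ 192 * (b * b)) :=
          div_nonneg (by linarith) (by positivity)
        linarith
      linarith
  · -- q
    have hq : (1 - 2 * s ^ 2) / π * 2 ^ 44 - (qP - qM) =
        ((1 - 2 * s ^ 2) * 2 ^ 44 - (qP - qM) * π) / π := by
      field_simp
    have hs2 : s ^ 2 = S * S / 2 ^ 192 := by
      rw [hsS]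
      field_simp
    rw [hq, abs_div, abs_of_pos hpi, div_le_iff₀ hpi, hs2, abs_le]
    have k1 : 0 ≤ qP * (rQ - π * 10 ^ 20) := mul_nonneg hqP (by linarith)
    have k2 : 0 ≤ (qM + 16) * (π * 10 ^ 20 - rP) := mul_nonneg (by linarith) (by linarith)
    have k3 : 0 ≤ qM * (rQ - π * 10 ^ 20) := mul_nonneg hqM (by linarith)
    have k4 : 0 ≤ (qP + 16) * (π * 10 ^ 20 - rP) := mul_nonneg (by linarith) (by linarith)
    constructor
    · have e1 : -(16 * π) ≤ (1 - 2 * (S * S / 2 ^ 192)) * 2 ^ 44 - (qP - qM) * π ↔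
          0 ≤ ((1 - 2 * (S * S / 2 ^ 192)) * 2 ^ 44 - (qP - qM) * π + 16 * π) *
            (10 ^ 20 * 2 ^ 192) := by
        rw [mul_nonneg_iff_of_pos_right (by positivity)]
        constructor <;> intro h <;> linarith
      rw [e1]
      have e2 : ((1 - 2 * (S * S / 2 ^ 192)) * 2 ^ 44 - (qP - qM) * π + 16 * π) *
            (10 ^ 20 * 2 ^ 192) = 2 ^ 44 * 10 ^ 20 * 2 ^ 192 - (S * S) * (2 ^ 45 * 10 ^ 20) -
              (qP * (π * 10 ^ 20)) * 2 ^ 192 + ((qM + 16) * (π * 10 ^ 20)) * 2 ^ 192 := by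
        field_simp
        ring
      rw [e2]
      linarith
    · have e1 : (1 - 2 * (S * S / 2 ^ 192)) * 2 ^ 44 - (qP - qM) * π ≤ 16 * π ↔
          0 ≤ (16 * π - ((1 - 2 * (S * S / 2 ^ 192)) * 2 ^ 44 - (qP - qM) * π)) *
            (10 ^ 20 * 2 ^ 192) := by
        rw [mul_nonneg_iff_of_pos_right (by positivity)]
        constructor <;> intro h <;> linarith
      rw [e1]
      have e2 : (16 * π - ((1 - 2 * (S * S / 2 ^ 192)) * 2 ^ 44 - (qP - qM) * π)) *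
            (10 ^ 20 * 2 ^ 192) = ((qP + 16) * (π * 10 ^ 20)) * 2 ^ 192 +
              (S * S) * (2 ^ 45 * 10 ^ 20) - 2 ^ 44 * 10 ^ 20 * 2 ^ 192 -
              (qM * (π * 10 ^ 20)) * 2 ^ 192 := by
        field_simp
        ring
      rw [e2]
      linarith
  · rw [abs_le]
    rw [hsS]
    constructor <;> linarith
  · rw [abs_le]
    rw [hcC]
    constructor <;> linarith
  · have e1 : 2 * s * c * 2 ^ 44 = 2 * (S * C) / 2 ^ 148 := by
      rw [hsS, hcC]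
      field_simp
    rw [e1, abs_le]
    constructor
    · have : sx - 16 ≤ 2 * (S * C) / 2 ^ 148 := by
        rw [le_div_iff₀ (by positivity)]
        linarith
      linarith
    · have : 2 * (S * C) / 2 ^ 148 ≤ sx + 16 := by
        rw [div_le_iff₀ (by positivity)]
        linarith
      linarith
  · have e1 : π / 2 * ((1 + c ^ 2) / (8 * s ^ 3)) * 2 ^ 22 =
        (π * 10 ^ 20) * 2 ^ 114 * (2 ^ 192 + C * C) / (10 ^ 20 * (S * S * S)) := by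
      rw [hsS, hcC]
      field_simp
      ring
    have hsss : a * a * a ≤ S * S * S := mul_le_mul haa has ha0.le (by positivity)
    rw [e1, div_le_iff₀ (by positivity)]
    calc (π * 10 ^ 20) * 2 ^ 114 * (2 ^ 192 + C * C) ≤ rQ * 2 ^ 114 * (2 ^ 192 + v * v) := by
          apply mul_le_mul _ (by linarith) (by positivity) (by positivity)
          exact mul_le_mul_of_nonneg_right hQ.le (by positivity)
      _ ≤ (K * 10 ^ 20) * ((a * a) * a) := h11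
      _ ≤ (K * 10 ^ 20) * (S * S * S) := mul_le_mul_of_nonneg_left hsss (by positivity)
      _ = K * (10 ^ 20 * (S * S * S)) := by ring
  · have e1 : π ^ 2 / 2 * (1 + c * (5 + c ^ 2) / (16 * s ^ 4)) =
        π ^ 2 / 2 * (1 + C * ((5 * 2 ^ 192 + C * C) * 2 ^ 96) / (16 * ((S * S) * (S * S)))) := by
      rw [hsS, hcC]
      field_simp
    have haaaa : (a * a) * (a * a) ≤ (S * S) * (S * S) := mul_le_mul haa haa (by positivity) (by positivity)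
    have e2 : C * ((5 * 2 ^ 192 + C * C) * 2 ^ 96) / (16 * ((S * S) * (S * S))) ≤
        v * ((5 * 2 ^ 192 + v * v) * 2 ^ 96) / (16 * ((a * a) * (a * a))) := by
      apply div_le_div₀ (by positivity) _ (by positivity) (by linarith)
      apply mul_le_mul hcv _ (by positivity) hv0
      apply mul_le_mul_of_nonneg_right _ (by positivity)
      linarith
    have e3 : π ^ 2 ≤ (rQ : ℝ) ^ 2 / 10 ^ 40 := by
      rw [le_div_iff₀ (by positivity)]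
      calc π ^ 2 * 10 ^ 40 = (π * 10 ^ 20) ^ 2 := by ring
        _ ≤ (rQ : ℝ) ^ 2 := pow_le_pow_left₀ (by positivity) hQ.le 2
    rw [e1]
    calc π ^ 2 / 2 * (1 + C * ((5 * 2 ^ 192 + C * C) * 2 ^ 96) / (16 * ((S * S) * (S * S)))) ≤
          ((rQ : ℝ) ^ 2 / 10 ^ 40) / 2 *
            (1 + v * ((5 * 2 ^ 192 + v * v) * 2 ^ 96) / (16 * ((a * a) * (a * a)))) := by
          apply mul_le_mul _ (by linarith) (by positivity) (by positivity)
          linarith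
      _ = ((rQ : ℝ) ^ 2 * (16 * ((a * a) * (a * a)) + v * ((5 * 2 ^ 192 + v * v) * 2 ^ 96))) /
            ((32 * 10 ^ 40) * ((a * a) * (a * a))) := by
          field_simp
          ring
      _ ≤ K3 := by
          rw [div_le_iff₀ (by positivity)]
          linarith

theorem rowChk_sound {R : Row} (h : rowChk R = true) : R.OK := by
  obtain ⟨g1, h⟩ := and_split h
  obtain ⟨g2, h⟩ := and_split h
  have hp0 : 1 ≤ R.p := Nat.le_of_ble_eq_true g1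
  have hp1' : R.p ≤ 2097152 := Nat.le_of_ble_eq_true g2
  have hp1 : R.p ≤ 2 ^ 21 := by
    have : (2 : ℕ) ^ 21 = 2097152 := by norm_num
    omega
  have hSb := abs_le.1 (vS_bound hp1)
  have hCb := abs_le.1 (vC_bound hp1)
  have hyh := y_half hp1
  have hcos : 0 ≤ cos (π * ((R.p : ℝ) / 2 ^ 22)) :=
    cos_nonneg_of_neg_pi_div_two_le_of_le (by linarith [hyh.1, Real.pi_pos]) hyh.2
  have hsin : 0 ≤ sin (π * ((R.p : ℝ) / 2 ^ 22)) :=
    sin_nonneg_of_nonneg_of_le_pi hyh.1 (by linarith [hyh.2, Real.pi_pos])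
  have hx2 : R.x / 2 = π * ((R.p : ℝ) / 2 ^ 22) := by
    unfold Row.x
    ring
  have hx : R.x = 2 * (π * ((R.p : ℝ) / 2 ^ 22)) := by
    unfold Row.x
    ring
  have hM : ((Nat.add (Nat.mul 6489 R.p) 1 : ℕ) : ℝ) = 6489 * (R.p : ℝ) + 1 := by
    rw [castAdd, castMul]
    norm_num
  generalize hyy : π * ((R.p : ℝ) / 2 ^ 22) = y at *
  generalize hs : sin y = s at *
  generalize hc : cos y = c at *
  generalize hS0 : vS R.p = S0 at *
  generalize hC0 : vC R.p = C0 at *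
  generalize hMM : Nat.add (Nat.mul 6489 R.p) 1 = M at *
  unfold chk1 chk2 chk3 at h
  have hmS : ∀ (X : ℕ) (z : ℝ), 0 ≤ z → (X : ℝ) - M ≤ z → ((Nat.sub X M : ℕ) : ℝ) ≤ z := by
    intro X z hz hXz
    show ((X - M : ℕ) : ℝ) ≤ z
    rcases le_total M X with hle | hle
    · rw [Nat.cast_sub hle]
      exact hXz
    · rw [Nat.sub_eq_zero_of_le hle, Nat.cast_zero]
      exact hz
  have hsl : ((Nat.sub S0 M : ℕ) : ℝ) ≤ s * 2 ^ 96 :=
    hmS _ _ (by positivity) (by rw [hM]; linarith [hSb.1])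
  have hcl : ((Nat.sub C0 M : ℕ) : ℝ) ≤ c * 2 ^ 96 :=
    hmS _ _ (by positivity) (by rw [hM]; linarith [hCb.1])
  have hsu : s * 2 ^ 96 ≤ ((Nat.add S0 M : ℕ) : ℝ) := by
    rw [castAdd, hM]
    linarith [hSb.2]
  have hcu : c * 2 ^ 96 ≤ ((Nat.add C0 M : ℕ) : ℝ) := by
    rw [castAdd, hM]
    linarith [hCb.2]
  generalize Nat.sub S0 M = sl at *
  generalize Nat.add S0 M = su at *
  generalize Nat.sub C0 M = cl at *
  generalize Nat.add C0 M = cu at *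
  obtain ⟨k0, h⟩ := and_split h
  obtain ⟨k1, h⟩ := and_split h
  obtain ⟨k2, h⟩ := and_split h
  obtain ⟨k3, h⟩ := and_split h
  obtain ⟨k4, h⟩ := and_split h
  obtain ⟨k5, h⟩ := and_split h
  obtain ⟨k6, h⟩ := and_split h
  obtain ⟨k7, h⟩ := and_split h
  obtain ⟨k8, h⟩ := and_split h
  obtain ⟨k9, h⟩ := and_split h
  obtain ⟨k10, h⟩ := and_split h
  obtain ⟨k11, h⟩ := and_split h
  have l0 := ble_real k0
  have l1 := ble_real k1
  have l2 := ble_real k2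
  have l3 := ble_real k3
  have l4 := ble_real k4
  have l5 := ble_real k5
  have l6 := ble_real k6
  have l7 := ble_real k7
  have l8 := ble_real k8
  have l9 := ble_real k9
  have l10 := ble_real k10
  have l11 := ble_real k11
  have l12 := ble_real h
  simp only [castMul, castAdd, t52_eq, t148_eq, t192_eq, c330_eq, c45_eq, rQT_eq, rPT_eq, c45X_eq,
    c44T_eq, cQ114_eq, c10_eq, cQ2_eq, t192x5_eq, t96_eq, c40_eq, Nat.cast_ofNat, Nat.cast_one]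
    at l0 l1 l2 l3 l4 l5 l6 l7 l8 l9 l10 l11 l12
  have main := fin_real (s := s) (c := c) (fP := R.fP) (fM := R.fM) (qP := R.qP) (qM := R.qM)
    (s' := R.s) (c' := R.c) (sx := R.sx) (K := R.K) (K3 := R.K3) (a := sl) (b := su) (u := cl)
    (v := cu) hsin hcos (Nat.cast_nonneg _) (Nat.cast_nonneg _) (Nat.cast_nonneg _)
    (Nat.cast_nonneg _) (Nat.cast_nonneg _) (Nat.cast_nonneg _) l0 (Nat.cast_nonneg _) hsl hsu
    hcl hcu l1 l2 l3 l4 l5 l6 l7 l8 l9 l10 l11 l12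
  obtain ⟨m1, m2, m3, m4, m5, m6, m7⟩ := main
  have hsinx : sin R.x = 2 * s * c := by rw [hx, sin_two_mul, hs, hc]
  have hcosx : cos R.x = 1 - 2 * s ^ 2 := by
    rw [hx, cos_two_mul, ← hs, cos_sq']
    ring
  refine ⟨by omega, hp1, ?_, ?_, ?_, ?_, ?_, ?_, ?_⟩
  · unfold fp
    rw [hsinx, hx2, hs, hc]
    exact m1
  · rw [hcosx]
    exact m2
  · rw [hx2, hs]
    exact m3
  · rw [hx2, hc]
    exact m4
  · rw [hsinx]
    exact m5
  · unfold kap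
    rw [hx2, hs, hc]
    exact m6
  · unfold kap3
    rw [hx2, hs, hc]
    exact m7

end Pool.Agent.H999.LimCC
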