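import Pool.Agent.H999.LimCC.EngineG
import Pool.Agent.H999.LimCC.RowCheck

set_option autoImplicit false

namespace Pool.Agent.H999.LimCC

open Real

/-- integer division is the floor -/
theorem rg_floor (a b : ℤ) (hb : 0 < b) :
    ((a / b : ℤ) : ℝ) ≤ (a : ℝ) / b ∧ (a : ℝ) / b - 1 ≤ ((a / b : ℤ) : ℝ) := by
  have hbr : (0 : ℝ) < b := by exact_mod_cast hb
  constructor
  · rw [le_div_iff₀ hbr]
    have := Int.ediv_mul_le a hb.ne'
    exact_mod_cast this
  · have h := Int.lt_ediv_add_one_mul_self a hb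
    have h2 : (a : ℝ) < ((a / b : ℤ) + 1) * b := by exact_mod_cast h
    have h3 : (a : ℝ) / b < ((a / b : ℤ) : ℝ) + 1 := by
      rw [div_lt_iff₀ hbr]
      exact h2
    linarith

theorem rg_close {X Y E F D : ℝ} {z : ℤ} (h : |X - Y| ≤ E) (h1 : (z : ℝ) ≤ Y) (h2 : Y - 1 ≤ z)
    (hE : E + 1 ≤ F) (hD : X = D) : |D - z| ≤ F := by
  rw [← hD]
  rw [abs_le] at *
  constructor <;> linarith

/-- product error -/
theorem rg_prod {A B a b T e1 e2 MB ma : ℝ} (hT : 0 < T) (h1 : |A - a| ≤ e1) (h2 : |B - b| ≤ e2)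
    (hB : |B| ≤ MB) (ha : |a| ≤ ma) :
    |A * B / T - a * b / T| ≤ (e1 * MB + ma * e2) / T := by
  have e : A * B / T - a * b / T = ((A - a) * B + a * (B - b)) / T := by ring
  rw [e, abs_div, abs_of_pos hT]
  apply div_le_div_of_nonneg_right _ hT.le
  calc |(A - a) * B + a * (B - b)| ≤ |(A - a) * B| + |a * (B - b)| := abs_add_le _ _
    _ = |A - a| * |B| + |a| * |B - b| := by rw [abs_mul, abs_mul]
    _ ≤ e1 * MB + ma * e2 := by
        apply add_le_add
        · exact mul_le_mul h1 hB (abs_nonneg _) ((abs_nonneg _).trans h1)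
        · exact mul_le_mul ha h2 (abs_nonneg _) ((abs_nonneg _).trans ha)

/-- cubic error -/
theorem rg_cubic {A a T : ℝ} (hT : 1000000 ≤ T) (h1 : |A - a| ≤ 16) (hA0 : 0 ≤ A) (hA : A ≤ T)
    (ha : 0 ≤ a) :
    |A * (3 * (T * T) - 4 * (A * A)) / (T * T) - a * (3 * (T * T) - 4 * (a * a)) / (T * T)| ≤
      145 := by
  have hTT : 0 < T * T := by positivity
  have h1' := abs_le.1 h1
  have haT : a ≤ T + 16 := by linarith
  have e : A * (3 * (T * T) - 4 * (A * A)) / (T * T) - a * (3 * (T * T) - 4 * (a * a)) / (T * T) =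
      (A - a) * ((3 * (T * T) - 4 * (A * A + A * a + a * a)) / (T * T)) := by
    field_simp
    ring
  rw [e, abs_mul]
  have h2 : |(3 * (T * T) - 4 * (A * A + A * a + a * a)) / (T * T)| ≤ 145 / 16 := by
    rw [abs_div, abs_of_pos hTT, div_le_iff₀ hTT, abs_le]
    have h3 : A * A ≤ T * T := mul_le_mul hA hA hA0 (by linarith)
    have h4 : A * a ≤ T * (T + 16) := mul_le_mul hA haT ha (by linarith)
    have h5 : a * a ≤ (T + 16) * (T + 16) := mul_le_mul haT haT ha (by linarith)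
    have h6 : 0 ≤ A * a := mul_nonneg hA0 ha
    have h7 : 0 ≤ A * A := mul_nonneg hA0 hA0
    have h8 : 0 ≤ a * a := mul_nonneg ha ha
    constructor
    · nlinarith
    · nlinarith
  calc |A - a| * |(3 * (T * T) - 4 * (A * A + A * a + a * a)) / (T * T)| ≤ 16 * (145 / 16) :=
        mul_le_mul h1 h2 (abs_nonneg _) (by norm_num)
    _ = 145 := by norm_num

/-- SUBTASK P: derived rows are correct. -/
theorem RowG.chk_sound {R : RowG} (h : R.chk rowChk = true) : R.OK := by
  unfold RowG.chk at h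
  simp only [Bool.and_eq_true, decide_eq_true_eq] at h
  obtain ⟨⟨⟨hf1, hf2⟩, hrow⟩, hbeq⟩ := h
  unfold RowG.beq Row.toG at hbeq
  simp only [Bool.and_eq_true, decide_eq_true_eq] at hbeq
  obtain ⟨⟨⟨⟨⟨⟨⟨⟨⟨⟨⟨⟨⟨⟨⟨-, e_f⟩, e_q⟩, e_s⟩, e_c⟩, e_sx⟩, e_cx⟩, e_s3⟩, e_c3⟩, e_sf⟩, e_xf⟩,
    e_tf⟩, e_g1⟩, e_k1⟩, e_K⟩, e_K3⟩ := hbeq
  have hP := rowChk_sound hrow
  obtain ⟨p1, p2, p3, p4, p5, p6, p7, p8, p9⟩ := hP
  have eF : ((R.f.toNat : ℕ) : ℝ) - (((-R.f).toNat : ℕ) : ℝ) = (R.f : ℝ) := by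
    have := Int.toNat_sub_toNat_neg R.f
    exact_mod_cast this
  have eQ : ((R.q.toNat : ℕ) : ℝ) - (((-R.q).toNat : ℕ) : ℝ) = (R.q : ℝ) := by
    have := Int.toNat_sub_toNat_neg R.q
    exact_mod_cast this
  have eS : ((R.s.toNat : ℕ) : ℝ) = (R.s : ℝ) := by exact_mod_cast e_s.symm
  have eC : ((R.c.toNat : ℕ) : ℝ) = (R.c : ℝ) := by exact_mod_cast e_c.symm
  have eSX : ((R.sx.toNat : ℕ) : ℝ) = (R.sx : ℝ) := by exact_mod_cast e_sx.symm
  have eK : ((R.K.toNat : ℕ) : ℝ) = (R.K : ℝ) := by exact_mod_cast e_K.symm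
  have eK3 : ((R.K3.toNat : ℕ) : ℝ) = (R.K3 : ℝ) := by exact_mod_cast e_K3.symm
  have eFi : ((R.f.toNat : ℕ) : ℤ) - (((-R.f).toNat : ℕ) : ℤ) = R.f := Int.toNat_sub_toNat_neg R.f
  have q1 : 0 < R.p := p1
  have q2 : R.p ≤ 2 ^ 21 := p2
  have q3 : |fp R.x * 2 ^ 44 - (R.f : ℝ)| ≤ 16 := by rw [← eF]; exact p3
  have q4 : |cos R.x / π * 2 ^ 44 - (R.q : ℝ)| ≤ 16 := by rw [← eQ]; exact p4
  have q5 : |sin (R.x / 2) * 2 ^ 44 - (R.s : ℝ)| ≤ 16 := by rw [← eS]; exact p5
  have q6 : |cos (R.x / 2) * 2 ^ 44 - (R.c : ℝ)| ≤ 16 := by rw [← eC]; exact p6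
  have q7 : |sin R.x * 2 ^ 44 - (R.sx : ℝ)| ≤ 16 := by rw [← eSX]; exact p7
  have q8 : π / 2 * kap R.x * 2 ^ 22 ≤ (R.K : ℝ) := by rw [← eK]; exact p8
  have q9 : π ^ 2 / 2 * (1 + kap3 R.x) ≤ (R.K3 : ℝ) := by rw [← eK3]; exact p9
  -- integers

  rw [← e_s, ← e_c] at e_cx
  rw [← e_s] at e_s3
  rw [← e_c] at e_c3
  rw [← e_s, eFi] at e_sf
  rw [← e_sx, eFi] at e_xf
  rw [← e_s, ← e_s3, eFi] at e_tf
  rw [← e_sx, eFi] at e_g1
  rw [← e_K] at e_k1
  have hT : (2 : ℝ) ^ 44 = 17592186044416 := by norm_num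
  rw [hT] at q3 q4 q5 q6 q7
  -- ranges
  have hs0i : (0 : ℝ) ≤ R.s := by rw [← eS]; exact Nat.cast_nonneg _
  have hc0i : (0 : ℝ) ≤ R.c := by rw [← eC]; exact Nat.cast_nonneg _
  have hsx0i : (0 : ℝ) ≤ R.sx := by rw [← eSX]; exact Nat.cast_nonneg _
  have hK0i : (0 : ℝ) ≤ R.K := by rw [← eK]; exact Nat.cast_nonneg _
  have hpr : (0 : ℝ) < R.p := by exact_mod_cast q1
  have hpr2 : (R.p : ℝ) ≤ 2 ^ 21 := by exact_mod_cast q2
  have hy0 : 0 < R.x / 2 := by
    have : R.x / 2 = π * (R.p / 2 ^ 22) := by unfold RowG.x; ring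
    rw [this]
    positivity
  have hy1 : R.x / 2 ≤ π / 2 := by
    have : R.x / 2 = π * (R.p / 2 ^ 22) := by unfold RowG.x; ring
    rw [this]
    have h2 : (R.p : ℝ) / 2 ^ 22 ≤ 1 / 2 := by
      rw [div_le_iff₀ (by positivity)]
      calc (R.p : ℝ) ≤ 2 ^ 21 := hpr2
        _ = 1 / 2 * 2 ^ 22 := by norm_num
    calc π * (R.p / 2 ^ 22) ≤ π * (1 / 2) := mul_le_mul_of_nonneg_left h2 Real.pi_pos.le
      _ = π / 2 := by ring
  have hs0 : 0 < sin (R.x / 2) := sin_pos_of_pos_of_lt_pi hy0 (by linarith [Real.pi_pos])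
  have hc0 : 0 ≤ cos (R.x / 2) := cos_nonneg_of_neg_pi_div_two_le_of_le (by linarith) hy1
  have hs1 : sin (R.x / 2) ≤ 1 := sin_le_one _
  have hc1 : cos (R.x / 2) ≤ 1 := cos_le_one _
  have hcosx : cos R.x = cos (R.x / 2) ^ 2 - sin (R.x / 2) ^ 2 := by
    have := Real.cos_two_mul' (R.x / 2)
    rwa [show 2 * (R.x / 2) = R.x by ring] at this
  have hsin3 : sin (3 * (R.x / 2)) = 3 * sin (R.x / 2) - 4 * sin (R.x / 2) ^ 3 :=
    Real.sin_three_mul _
  have hcos3 : cos (3 * (R.x / 2)) = 4 * cos (R.x / 2) ^ 3 - 3 * cos (R.x / 2) :=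
    Real.cos_three_mul _
  have hG : 0 ≤ G R.x := by unfold G; positivity
  have hfG : fp R.x = sin R.x - G R.x := fp_eq _
  have hsx1 : |sin R.x| ≤ 1 := abs_sin_le_one _
  have hs31 : |sin (3 * (R.x / 2))| ≤ 1 := abs_sin_le_one _
  have hf1r : (R.f : ℝ) ≤ 1125899906842624 := by exact_mod_cast hf1
  have hf2r : (-1125899906842624 : ℝ) ≤ R.f := by exact_mod_cast hf2
  generalize hse : sin (R.x / 2) = se at *
  generalize hce : cos (R.x / 2) = ce at *
  generalize hfe : fp R.x = fe at *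
  generalize hsxe : sin R.x = sxe at *
  have q5' := abs_le.1 q5
  have q6' := abs_le.1 q6
  have q7' := abs_le.1 q7
  have q3' := abs_le.1 q3
  have hsx1' := abs_le.1 hsx1
  have hFM : |fe * 17592186044416| ≤ 1125899906842640 := by
    rw [abs_le]
    constructor <;> linarith
  -- cubic terms
  have hA : |se * 17592186044416 * (3 * (17592186044416 * 17592186044416) -
      4 * (se * 17592186044416 * (se * 17592186044416))) / (17592186044416 * 17592186044416) -
      (R.s : ℝ) * (3 * (17592186044416 * 17592186044416) - 4 * ((R.s : ℝ) * R.s)) /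
        (17592186044416 * 17592186044416)| ≤ 145 :=
    rg_cubic (by norm_num) q5 (by positivity) (by linarith) hs0i
  have hB : |ce * 17592186044416 * (3 * (17592186044416 * 17592186044416) -
      4 * (ce * 17592186044416 * (ce * 17592186044416))) / (17592186044416 * 17592186044416) -
      (R.c : ℝ) * (3 * (17592186044416 * 17592186044416) - 4 * ((R.c : ℝ) * R.c)) /
        (17592186044416 * 17592186044416)| ≤ 145 :=
    rg_cubic (by norm_num) q6 (by positivity) (by linarith) hc0i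
  have r_s3 : |sin (3 * (R.x / 2)) * 17592186044416 - (R.s3 : ℝ)| ≤ 150 := by
    have fl := rg_floor (R.s * (3 * 309485009821345068724781056 - 4 * (R.s * R.s)))
      309485009821345068724781056 (by norm_num)
    rw [← e_s3] at fl
    push_cast at fl
    have e1 : (R.s : ℝ) * (3 * (17592186044416 * 17592186044416) - 4 * ((R.s : ℝ) * R.s)) /
        (17592186044416 * 17592186044416) =
        (R.s : ℝ) * (928455029464035206174343168 - 4 * ((R.s : ℝ) * R.s)) /
          309485009821345068724781056 := by norm_num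
    rw [e1] at hA
    refine rg_close hA fl.1 fl.2 (by norm_num) ?_
    rw [hsin3]
    field_simp
  have r_c3 : |cos (3 * (R.x / 2)) * 17592186044416 - (R.c3 : ℝ)| ≤ 150 := by
    have fl := rg_floor (R.c * (4 * (R.c * R.c) - 3 * 309485009821345068724781056))
      309485009821345068724781056 (by norm_num)
    rw [← e_c3] at fl
    push_cast at fl
    have e1 : (R.c : ℝ) * (3 * (17592186044416 * 17592186044416) - 4 * ((R.c : ℝ) * R.c)) /
        (17592186044416 * 17592186044416) =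
        -((R.c : ℝ) * (4 * ((R.c : ℝ) * R.c) - 928455029464035206174343168) /
          309485009821345068724781056) := by
      rw [← neg_div]
      congr 1
      · ring
      · norm_num
    rw [e1] at hB
    have hB2 : |ce * 17592186044416 * (4 * (ce * 17592186044416 * (ce * 17592186044416)) -
      3 * (17592186044416 * 17592186044416)) / (17592186044416 * 17592186044416) -
      ((R.c : ℝ) * (4 * ((R.c : ℝ) * R.c) - 928455029464035206174343168) /
          309485009821345068724781056)| ≤ 145 := by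
      rw [← abs_neg]
      convert hB using 2
      ring
    refine rg_close hB2 fl.1 fl.2 (by norm_num) ?_
    rw [hcos3]
    field_simp
  have r_cx : |cos R.x * 17592186044416 - (R.cx : ℝ)| ≤ 70 := by
    have fl := rg_floor (R.c * R.c - R.s * R.s) 17592186044416 (by norm_num)
    rw [← e_cx] at fl
    push_cast at fl
    have h1 := rg_prod (T := 17592186044416) (MB := 17592186044416) (ma := 17592186044432)
      (by norm_num) q6 q6 (by rw [abs_le]; constructor <;> linarith)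
      (by rw [abs_le]; constructor <;> linarith)
    have h2 := rg_prod (T := 17592186044416) (MB := 17592186044416) (ma := 17592186044432)
      (by norm_num) q5 q5 (by rw [abs_le]; constructor <;> linarith)
      (by rw [abs_le]; constructor <;> linarith)
    have h3 : |(ce * 17592186044416 * (ce * 17592186044416) / 17592186044416 -
        se * 17592186044416 * (se * 17592186044416) / 17592186044416) -
        (((R.c : ℝ) * R.c - R.s * R.s) / 17592186044416)| ≤ 66 := by
      rw [abs_le] at *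
      rw [sub_div]
      norm_num at h1 h2 ⊢
      constructor <;> linarith
    refine rg_close h3 fl.1 fl.2 (by norm_num) ?_
    rw [hcosx]
    field_simp
  have r_sf : |se * fe * 17592186044416 - (R.sf : ℝ)| ≤ 1100 := by
    have fl := rg_floor (R.s * R.f) 17592186044416 (by norm_num)
    rw [← e_sf] at fl
    push_cast at fl
    have h1 := rg_prod (T := 17592186044416) (ma := 17592186044432)
      (by norm_num) q5 q3 hFM (by rw [abs_le]; constructor <;> linarith)
    refine rg_close h1 fl.1 fl.2 (by norm_num) ?_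
    field_simp
  have r_xf : |sxe * fe * 17592186044416 - (R.xf : ℝ)| ≤ 1100 := by
    have fl := rg_floor (R.sx * R.f) 17592186044416 (by norm_num)
    rw [← e_xf] at fl
    push_cast at fl
    have h1 := rg_prod (T := 17592186044416) (ma := 17592186044432)
      (by norm_num) q7 q3 hFM (by rw [abs_le]; constructor <;> linarith)
    refine rg_close h1 fl.1 fl.2 (by norm_num) ?_
    field_simp
  have r_tf : |sin (3 * (R.x / 2)) * fe * 17592186044416 - (R.tf : ℝ)| ≤ 10000 := by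
    have fl := rg_floor (R.s3 * R.f) 17592186044416 (by norm_num)
    rw [← e_tf] at fl
    push_cast at fl
    have r_s3' := abs_le.1 r_s3
    have hs31' := abs_le.1 hs31
    have h1 := rg_prod (T := 17592186044416) (ma := 17592186044566)
      (by norm_num) r_s3 q3 hFM (by rw [abs_le]; constructor <;> linarith)
    refine rg_close h1 fl.1 fl.2 (by norm_num) ?_
    field_simp
  have hpi2 : π ^ 2 / 2 ≤ 5 := by
    have h1 : π < 3.1416 := Real.pi_lt_d4
    nlinarith [Real.pi_pos]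
  have r_g1 : π ^ 2 / 2 * (1 + G R.x) ≤ (R.g1 : ℝ) := by
    have fl := rg_floor (5 * (R.sx - R.f + 64)) 17592186044416 (by norm_num)
    have e1 : (R.g1 : ℝ) = 6 + ((5 * (R.sx - R.f + 64) / 17592186044416 : ℤ) : ℝ) := by
      rw [e_g1]
      push_cast
      ring
    push_cast at fl
    rw [e1]
    have h2 : G R.x = sxe - fe := by linarith
    have h3 : π ^ 2 / 2 * (1 + G R.x) ≤ 5 * (1 + G R.x) :=
      mul_le_mul_of_nonneg_right hpi2 (by linarith)
    have h4 : G R.x ≤ ((R.sx : ℝ) - R.f + 64) / 17592186044416 := by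
      rw [le_div_iff₀ (by norm_num), h2]
      linarith
    have h5 : (5 * ((R.sx : ℝ) - R.f + 64)) / 17592186044416 =
        5 * (((R.sx : ℝ) - R.f + 64) / 17592186044416) := by ring
    linarith [fl.2]
  have r_k1 : π ^ 2 / 2 * (1 + kap R.x) ≤ (R.k1 : ℝ) := by
    have fl := rg_floor (22 * R.K) 29360128 (by norm_num)
    have e1 : (R.k1 : ℝ) = 7 + ((22 * R.K / 29360128 : ℤ) : ℝ) := by
      rw [e_k1]
      push_cast
      ring
    push_cast at fl
    rw [e1]
    have h2 : π ^ 2 / 2 * kap R.x = π * (π / 2 * kap R.x * 2 ^ 22) / 2 ^ 22 := by ring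
    have h3 : π * (π / 2 * kap R.x * 2 ^ 22) ≤ 22 / 7 * R.K := by
      calc π * (π / 2 * kap R.x * 2 ^ 22) ≤ π * R.K := mul_le_mul_of_nonneg_left q8 Real.pi_pos.le
        _ ≤ 22 / 7 * R.K := by
          apply mul_le_mul_of_nonneg_right _ hK0i
          have h1 : π < 3.1416 := Real.pi_lt_d4
          have : (3.1416 : ℝ) ≤ 22 / 7 := by norm_num
          linarith
    have h4 : π * (π / 2 * kap R.x * 2 ^ 22) / 2 ^ 22 ≤ 22 / 7 * R.K / 2 ^ 22 :=
      div_le_div_of_nonneg_right h3 (by positivity)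
    have h5 : 22 / 7 * (R.K : ℝ) / 2 ^ 22 = 22 * (R.K : ℝ) / 29360128 := by
      have : (29360128 : ℝ) = 7 * 2 ^ 22 := by norm_num
      rw [this]
      field_simp
    have h6 : π ^ 2 / 2 * (1 + kap R.x) = π ^ 2 / 2 + π ^ 2 / 2 * kap R.x := by ring
    rw [h6, h2]
    linarith [fl.2]
  refine ⟨q1, q2, ?_, ?_, ?_, ?_, ?_, ?_, ?_, ?_, ?_, ?_, ?_, r_g1, r_k1, q8, q9⟩
  all_goals rw [hT]
  · rw [hfe]; exact q3
  · exact q4
  · rw [hse]; exact q5
  · rw [hce]; exact q6
  · rw [hsxe]; exact q7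
  · exact r_cx
  · exact r_s3
  · exact r_c3
  · rw [hse, hfe]; exact r_sf
  · rw [hsxe, hfe]; exact r_xf
  · rw [hfe]; exact r_tf

end Pool.Agent.H999.LimCC
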