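import Pool.Agent.H999.LimCC.Psi

set_option autoImplicit false

namespace Pool.Agent.H999.LimCC

open Real Finset

namespace Cfg

variable {N : ℕ} (c : Cfg N)

/-- `Σ_j (x_j/2π - k/N) fp(x_j)` over the `k`-gaps -/
noncomputable def sA (k : ℕ) : ℝ :=
  ∑ j ∈ range N, (c.gap k (j : ℤ) / (2 * π) - k / N) * fp (c.gap k (j : ℤ))

noncomputable def sF (k : ℕ) : ℝ := ∑ j ∈ range N, fp (c.gap k (j : ℤ))

noncomputable def sC (k : ℕ) : ℝ := ∑ j ∈ range N, cos (c.gap k (j : ℤ))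

noncomputable def sR (n k : ℕ) : ℝ :=
  ∑ j ∈ range N, cos (n * c.mid k (j : ℤ)) * sin (n * (c.gap k (j : ℤ) / 2)) * fp (c.gap k (j : ℤ))

noncomputable def sT (n : ℕ) : ℝ := ∑ j ∈ range N, cos (n * c.th (j : ℤ))

/-- SUBTASK J1: sum of `Psi` over the `k`-gaps (use z_j = cos (mid), Chebyshev) -/
theorem good_sum (hN : 1 ≤ N) {k : ℕ} (hk1 : 1 ≤ k) (hk2 : k < N) {P : Par} (hP : Good P) :
    0 ≤ c.sA k + (k / N - P.r) * c.sF k + P.g * N * (k / N - P.r) + P.nu * c.sC k + N * P.c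
      + P.r1 * c.sR 1 k - P.b1 * (N * c.t) + P.r2 * c.sR 2 k - P.b2 * c.sT 2
      + P.r3 * c.sR 3 k - P.b3 * c.sT 3 := by
  have hpi : (π : ℝ) ≠ 0 := Real.pi_ne_zero
  have h0 : 0 ≤ ∑ j ∈ range N, Psi P (c.gap k (j : ℤ)) (cos (c.mid k (j : ℤ))) := by
    apply Finset.sum_nonneg
    intro j _
    exact hP _ (c.gap_pos hk1 _) (c.gap_lt hk2 _) _ (Real.neg_one_le_cos _) (Real.cos_le_one _)
  have hterm : ∀ j ∈ range N, Psi P (c.gap k (j : ℤ)) (cos (c.mid k (j : ℤ))) =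
      (c.gap k (j : ℤ) / (2 * π) - k / N) * fp (c.gap k (j : ℤ))
      + (k / N - P.r) * fp (c.gap k (j : ℤ))
      + P.g / (2 * π) * (c.gap k (j : ℤ) - 2 * Real.pi * k / N)
      + P.g * (k / N - P.r)
      + P.nu * cos (c.gap k (j : ℤ)) + P.c
      + P.r1 * (cos ((1 : ℕ) * c.mid k (j : ℤ)) * sin ((1 : ℕ) * (c.gap k (j : ℤ) / 2)) * fp (c.gap k (j : ℤ)))
      + P.a1 * (cos ((1 : ℕ) * c.mid k (j : ℤ)) * sin ((1 : ℕ) * (c.gap k (j : ℤ) / 2)))
      - P.b1 * (cos ((1 : ℕ) * c.mid k (j : ℤ)) * cos ((1 : ℕ) * (c.gap k (j : ℤ) / 2)))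
      + P.r2 * (cos ((2 : ℕ) * c.mid k (j : ℤ)) * sin ((2 : ℕ) * (c.gap k (j : ℤ) / 2)) * fp (c.gap k (j : ℤ)))
      + P.a2 * (cos ((2 : ℕ) * c.mid k (j : ℤ)) * sin ((2 : ℕ) * (c.gap k (j : ℤ) / 2)))
      - P.b2 * (cos ((2 : ℕ) * c.mid k (j : ℤ)) * cos ((2 : ℕ) * (c.gap k (j : ℤ) / 2)))
      + P.r3 * (cos ((3 : ℕ) * c.mid k (j : ℤ)) * sin ((3 : ℕ) * (c.gap k (j : ℤ) / 2)) * fp (c.gap k (j : ℤ)))
      + P.a3 * (cos ((3 : ℕ) * c.mid k (j : ℤ)) * sin ((3 : ℕ) * (c.gap k (j : ℤ) / 2)))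
      - P.b3 * (cos ((3 : ℕ) * c.mid k (j : ℤ)) * cos ((3 : ℕ) * (c.gap k (j : ℤ) / 2))) := by
    intro j _
    set x := c.gap k (j : ℤ)
    set m := c.mid k (j : ℤ)
    have e1 : ((1 : ℕ) : ℝ) * m = m := by simp
    have e2 : ((1 : ℕ) : ℝ) * (x / 2) = x / 2 := by simp
    have e3 : cos (((2 : ℕ) : ℝ) * m) = 2 * cos m ^ 2 - 1 := by
      rw [Nat.cast_ofNat, Real.cos_two_mul]
    have e4 : ((2 : ℕ) : ℝ) * (x / 2) = x := by
      rw [Nat.cast_ofNat]; ring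
    have e5 : cos (((3 : ℕ) : ℝ) * m) = 4 * cos m ^ 3 - 3 * cos m := by
      rw [Nat.cast_ofNat, Real.cos_three_mul]
    have e6 : ((3 : ℕ) : ℝ) * (x / 2) = 3 * (x / 2) := by
      rw [Nat.cast_ofNat]
    rw [e1, e2, e3, e4, e5, e6]
    unfold Psi
    have e7 : P.g / (2 * π) * (x - 2 * Real.pi * k / N) = P.g * (x / (2 * π)) - P.g * (k / N) := by
      field_simp
    rw [e7]
    ring
  rw [Finset.sum_congr rfl hterm] at h0
  have hgs := c.sum_gap_sub hN k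
  rw [Finset.sum_sub_distrib] at hgs
  simp only [Finset.sum_add_distrib, Finset.sum_sub_distrib, ← Finset.mul_sum] at h0
  rw [hgs, c.sum_cos_mid_sin, c.sum_cos_mid_sin, c.sum_cos_mid_sin,
    c.sum_cos_mid_cos, c.sum_cos_mid_cos, c.sum_cos_mid_cos] at h0
  have h1 : ∑ j ∈ range N, cos (((1 : ℕ) : ℝ) * c.th (j : ℤ)) = N * c.t := by
    rw [← c.sum_cos]
    apply Finset.sum_congr rfl
    intro j _
    simp
  rw [h1] at h0
  simp only [Finset.sum_const, Finset.card_range, nsmul_eq_mul] at h0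
  unfold sA sF sC sR sT
  linarith

/-- SUBTASK J2: global identities -/
theorem sum_sA (hN : 1 ≤ N) : ∑ k ∈ Finset.Ico 1 N, c.sA k = 0 := by
  have hpi : (π : ℝ) ≠ 0 := Real.pi_ne_zero
  have h : ∀ k ∈ Finset.Ico 1 N, c.sA k = 1 / (2 * π) * ∑ j ∈ range N,
      (c.gap k (j : ℤ) - 2 * Real.pi * k / N) * fp (c.gap k (j : ℤ)) := by
    intro k _
    unfold sA
    rw [Finset.mul_sum]
    apply Finset.sum_congr rfl
    intro j _
    field_simp
  rw [Finset.sum_congr rfl h, ← Finset.mul_sum, c.gap_identity hN, mul_zero]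

theorem sum_sC (hN : 1 ≤ N) : ∑ k ∈ Finset.Ico 1 N, c.sC k = N ^ 2 * c.t ^ 2 - N :=
  c.sum_cos_gap hN

theorem sum_sR (n : ℕ) : ∑ k ∈ Finset.Ico 1 N, c.sR n k = 0 :=
  c.sin_identity n

/-- SUBTASK J3: symmetry `k ↔ N - k` -/
theorem sA_symm (hN : 1 ≤ N) {k : ℕ} (hk1 : 1 ≤ k) (hk2 : k < N) : c.sA (N - k) = c.sA k := by
  have hpi : (π : ℝ) ≠ 0 := Real.pi_ne_zero
  have hN0 : (N : ℝ) ≠ 0 := by positivity
  unfold sA
  rw [← sum_shift N (fun j => (c.gap (N - k) j / (2 * π) - ((N - k : ℕ) : ℝ) / N) *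
    fp (c.gap (N - k) j)) (fun j => by simp only [c.gap_per]) (k : ℤ)]
  apply Finset.sum_congr rfl
  intro j _
  rw [c.gap_compl hk2.le, fp_refl, Nat.cast_sub hk2.le]
  field_simp
  ring

theorem sC_symm (hN : 1 ≤ N) {k : ℕ} (hk1 : 1 ≤ k) (hk2 : k < N) : c.sC (N - k) = c.sC k := by
  unfold sC
  rw [← sum_shift N (fun j => cos (c.gap (N - k) j)) (fun j => by simp only [c.gap_per]) (k : ℤ)]
  apply Finset.sum_congr rfl
  intro j _
  rw [c.gap_compl hk2.le, Real.cos_two_pi_sub]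

theorem sR_symm (n : ℕ) {k : ℕ} (hk1 : 1 ≤ k) (hk2 : k < N) : c.sR n (N - k) = c.sR n k := by
  unfold sR
  rw [← sum_shift N (fun j => cos (n * c.mid (N - k) j) * sin (n * (c.gap (N - k) j / 2)) *
    fp (c.gap (N - k) j)) (fun j => by
      simp only [c.gap_per, c.mid_per]
      rw [mul_add, Real.cos_add_nat_mul_two_pi]) (k : ℤ)]
  apply Finset.sum_congr rfl
  intro j _
  rw [c.gap_compl hk2.le, c.mid_compl hk2.le, fp_refl]
  have e1 : (n : ℝ) * (c.mid k j + π) = n * c.mid k j + n * π := by ring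
  have e2 : (n : ℝ) * ((2 * π - c.gap k j) / 2) = n * π - n * (c.gap k j / 2) := by ring
  rw [e1, e2, Real.cos_add_nat_mul_pi, Real.sin_nat_mul_pi_sub]
  have e3 : ((-1 : ℝ) ^ n) * ((-1 : ℝ) ^ n) = 1 := by
    rw [← mul_pow]; simp
  linear_combination (cos (n * c.mid k j) * sin (n * (c.gap k j / 2)) * fp (c.gap k j)) * e3

/-- folding a symmetric sum -/
theorem sum_fold {N : ℕ} (f : ℕ → ℝ) (hf : ∀ k, 1 ≤ k → k < N → f (N - k) = f k) :
    ∑ k ∈ Finset.Ico 1 N, f k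
      = ∑ k ∈ Finset.Icc 1 (N / 2), (if 2 * k = N then (1 : ℝ) else 2) * f k := by
  have h1 := Finset.sum_filter_add_sum_filter_not (Finset.Ico 1 N) (fun k => 2 * k ≤ N) f
  have h2 : (Finset.Ico 1 N).filter (fun k => 2 * k ≤ N) = Finset.Icc 1 (N / 2) := by
    ext k
    simp only [Finset.mem_filter, Finset.mem_Ico, Finset.mem_Icc]
    omega
  have h3 : ∑ k ∈ (Finset.Ico 1 N).filter (fun k => ¬ 2 * k ≤ N), f k =
      ∑ k ∈ (Finset.Icc 1 (N / 2)).filter (fun k => ¬ 2 * k = N), f k := by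
    apply Finset.sum_nbij' (fun k => N - k) (fun k => N - k)
    · intro k hk; simp only [Finset.mem_filter, Finset.mem_Ico, Finset.mem_Icc] at *; omega
    · intro k hk; simp only [Finset.mem_filter, Finset.mem_Ico, Finset.mem_Icc] at *; omega
    · intro k hk; simp only [Finset.mem_filter, Finset.mem_Ico] at *; omega
    · intro k hk; simp only [Finset.mem_filter, Finset.mem_Icc] at *; omega
    · intro k hk
      simp only [Finset.mem_filter, Finset.mem_Ico] at hk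
      exact (hf k hk.1.1 hk.1.2).symm
  rw [← h1, h2, h3, Finset.sum_filter, ← Finset.sum_add_distrib]
  apply Finset.sum_congr rfl
  intro k _
  by_cases hk : 2 * k = N
  · simp [hk]
  · simp only [hk, not_false_eq_true, if_true, if_false]
    ring

end Cfg

end Pool.Agent.H999.LimCC
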