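import Pool.Agent.H999.LimCC.Assembly
import Pool.Agent.H999.LimCC.EngineSound
import Pool.Agent.H999.LimCC.SumsB
import Pool.Agent.H999.LimCC.SumsC

set_option autoImplicit false

namespace Pool.Agent.H999.LimCC

open Real


namespace UDaux

theorem convex_cos_add_sq : ConvexOn ℝ Set.univ (fun x : ℝ => cos x + x ^ 2 / 2) := by
  have hd : ∀ x : ℝ, HasDerivAt (fun x : ℝ => cos x + x ^ 2 / 2) (-sin x + x) x := by
    intro x
    have h1 := Real.hasDerivAt_cos x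
    have h2 : HasDerivAt (fun x : ℝ => x ^ 2 / 2) x x := by
      have := (hasDerivAt_pow 2 x).div_const 2
      refine this.congr_deriv ?_
      norm_num
    exact h1.add h2
  refine Monotone.convexOn_univ_of_deriv (fun x => (hd x).differentiableAt) ?_
  have : deriv (fun x : ℝ => cos x + x ^ 2 / 2) = fun x => -sin x + x := funext fun x => (hd x).deriv
  rw [this]
  have hd2 : ∀ x : ℝ, HasDerivAt (fun x : ℝ => -sin x + x) (-cos x + 1) x := fun x =>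
    (Real.hasDerivAt_sin x).neg.add (hasDerivAt_id x)
  refine monotone_of_deriv_nonneg (fun x => (hd2 x).differentiableAt) ?_
  intro x
  rw [(hd2 x).deriv]
  linarith [Real.cos_le_one x]

theorem cos_interp {p q w : ℝ} (hw0 : 0 ≤ w) (hw1 : w ≤ 1) :
    cos ((1 - w) * p + w * q) ≤ (1 - w) * cos p + w * cos q + w * (1 - w) * (q - p) ^ 2 / 2 := by
  have h := convex_cos_add_sq.2 (Set.mem_univ p) (Set.mem_univ q) (by linarith : 0 ≤ 1 - w) hw0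
    (by ring)
  simp only [smul_eq_mul] at h
  linarith [h, show (1 - w) * (p ^ 2 / 2) + w * (q ^ 2 / 2) - ((1 - w) * p + w * q) ^ 2 / 2
    = w * (1 - w) * (q - p) ^ 2 / 2 by ring]

theorem inv_interp {p q w : ℝ} (hp : 0 < p) (hq : 0 < q) (hw0 : 0 ≤ w) (hw1 : w ≤ 1) :
    1 / ((1 - w) * p + w * q) ≤ (1 - w) * (1 / p) + w * (1 / q) := by
  have h1 : 0 ≤ 1 - w := by linarith
  have h2 : 0 < (1 - w) * p + w * q := by
    rcases eq_or_lt_of_le hw0 with h | h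
    · rw [← h]; simpa using hp
    · have := mul_pos h hq
      have := mul_nonneg h1 hp.le
      linarith
  rw [div_le_iff₀ h2]
  have e : ((1 - w) * (1 / p) + w * (1 / q)) * ((1 - w) * p + w * q)
      = 1 + w * (1 - w) * (p - q) ^ 2 / (p * q) := by
    field_simp
    ring
  rw [e]
  have : 0 ≤ w * (1 - w) * (p - q) ^ 2 / (p * q) := by positivity
  linarith

theorem w_quarter (w : ℝ) : w * (1 - w) ≤ 1 / 4 := by nlinarith [sq_nonneg (w - 1 / 2)]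

/-- real form of the node inequality -/
theorem node_real {Tt Cn Dn : ℕ} {loss : ℤ} {C : QC} {R : Row} (hR : R.OK) (hA : 1 ≤ C.A)
    (hQ : C.Q = 1) (h : UD.node Tt Cn Dn loss C R = true) :
    (Cn : ℝ) / 2 ^ 44 * (1 / ((C.A : ℝ) / 2 ^ 22)) ≤ C.par.b1 * (Tt / 2 ^ 20) - C.par.c
      - (loss : ℝ) / 2 ^ 66 - cos (2 * π * ((C.A : ℝ) / 2 ^ 22)) / π + Dn / 2 ^ 44 := by
  unfold UD.node at h
  rw [Bool.and_eq_true, decide_eq_true_eq] at h
  obtain ⟨h1, h2⟩ := h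
  have hp : R.p = C.A := Nat.eq_of_beq_eq_true h1
  have hq := (abs_le.mp hR.hq).2
  have hx : R.x = 2 * π * ((C.A : ℝ) / 2 ^ 22) := by
    unfold Row.x
    rw [hp]
  rw [hx] at hq
  have hA' : (1 : ℝ) ≤ C.A := by exact_mod_cast hA
  have h3 : ((Cn : ℝ)) * 17592186044416 ≤ C.A * (((C.bP : ℝ) - C.bM) * Tt * 16777216
      - ((C.cP : ℝ) - C.cM) - loss - ((R.qP : ℝ) - R.qM + 16) * 4194304 + Dn * 4194304) := by
    unfold QC.bI QC.cI at h2
    exact_mod_cast h2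
  have eb : C.par.b1 = ((C.bP : ℝ) - C.bM) / 2 ^ 22 := by
    simp [QC.par, hQ]
  have ec : C.par.c = ((C.cP : ℝ) - C.cM) / 2 ^ 66 := by
    simp [QC.par, hQ]
  rw [eb, ec]
  set q : ℝ := cos (2 * π * ((C.A : ℝ) / 2 ^ 22)) / π with hqdef
  have h4 : ((Cn : ℝ)) * 17592186044416 ≤ C.A * (((C.bP : ℝ) - C.bM) * Tt * 16777216
      - ((C.cP : ℝ) - C.cM) - loss - (q * 2 ^ 44) * 4194304 + Dn * 4194304) := by
    refine h3.trans (mul_le_mul_of_nonneg_left ?_ (by linarith))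
    have : q * 2 ^ 44 * 4194304 ≤ ((R.qP : ℝ) - R.qM + 16) * 4194304 := by
      have : q * 2 ^ 44 ≤ (R.qP : ℝ) - R.qM + 16 := by linarith
      exact mul_le_mul_of_nonneg_right this (by norm_num)
    linarith
  have e1 : (Cn : ℝ) / 2 ^ 44 * (1 / ((C.A : ℝ) / 2 ^ 22)) = (Cn * 17592186044416) / (C.A * 2 ^ 66) := by
    field_simp
    norm_num
  rw [e1, div_le_iff₀ (by positivity)]
  refine h4.trans (le_of_eq ?_)
  ring

theorem harm_le (K : ℕ) : (harm K : ℝ) / 2 ^ 30 ≤ ∑ k ∈ Finset.Icc 1 K, (1 : ℝ) / k := by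
  induction K with
  | zero => simp [harm]
  | succ k ih =>
    rw [Finset.sum_Icc_succ_top (by omega)]
    unfold harm
    push_cast
    rw [add_div]
    have h1 : ((1073741824 / (k + 1) : ℕ) : ℝ) ≤ (1073741824 : ℝ) / ((k : ℝ) + 1) := by
      have := @Nat.cast_div_le ℝ _ _ _ 1073741824 (k + 1)
      exact_mod_cast this
    have h2 : ((1073741824 / (k + 1) : ℕ) : ℝ) / 2 ^ 30 ≤ 1 / ((k : ℝ) + 1) := by
      rw [div_le_iff₀ (by positivity)]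
      refine h1.trans (le_of_eq ?_)
      norm_num [div_eq_mul_inv]
      ring
    linarith

/-- lower bound of `sL k` from one pair of neighbouring nodes -/
theorem pair_real {T : Tr} (hT : T.OK) {U : UD} {P Q : QD} (hP : P.chk T = true)
    (hQ : Q.chk T = true) (hPA : 1 ≤ P.C.A) (h : UD.pair U T P.C Q.C = true) {N : ℕ} (hN : 1 ≤ N)
    (c : Cfg N) {k : ℕ} (hk1 : 1 ≤ k) (hk2 : k < N)
    (hr1 : (P.C.A : ℝ) / 2 ^ 22 ≤ (k : ℝ) / N) (hr2 : (k : ℝ) / N ≤ (Q.C.A : ℝ) / 2 ^ 22)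
    {s : ℝ} (hs0 : 0 ≤ s) (hs1 : s ≤ 1)
    (ht : c.t = (1 - s) * ((U.Tl : ℝ) / 2 ^ 20) + s * ((U.Th : ℝ) / 2 ^ 20)) :
    (1 - s) * ((U.Cl : ℝ) / 2 ^ 44 * ((N : ℝ) * (1 / k)) - U.Dl / 2 ^ 44)
      + s * ((U.Ch : ℝ) / 2 ^ 44 * ((N : ℝ) * (1 / k)) - U.Dh / 2 ^ 44) ≤ c.sL k := by
  have hN0 : (0 : ℝ) < N := by exact_mod_cast (by omega : 0 < N)
  have hk0 : (0 : ℝ) < k := by exact_mod_cast (by omega : 0 < k)
  unfold UD.pair at h
  simp only [Bool.and_eq_true] at h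
  obtain ⟨⟨⟨⟨⟨⟨hPQ, hQQ⟩, hAB⟩, n1⟩, n2⟩, n3⟩, n4⟩ := h
  have hPQ1 : P.C.Q = 1 := Nat.eq_of_beq_eq_true hPQ
  have hQQ1 : Q.C.Q = 1 := Nat.eq_of_beq_eq_true hQQ
  have hAB1 : P.C.A + 1 ≤ Q.C.A := Nat.le_of_ble_eq_true hAB
  have hQA : 1 ≤ Q.C.A := by omega
  set loss : ℤ := (((Q.C.A : ℤ) - P.C.A) * max (P.C.gI - Q.C.gI) 0) / 4 + 1
    + 6588500 * (((Q.C.A : ℤ) - P.C.A) * ((Q.C.A : ℤ) - P.C.A)) with hloss
  have m1 := node_real (Tr.get_ok hT _) hPA hPQ1 n1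
  have m2 := node_real (Tr.get_ok hT _) hQA hQQ1 n2
  have m3 := node_real (Tr.get_ok hT _) hPA hPQ1 n3
  have m4 := node_real (Tr.get_ok hT _) hQA hQQ1 n4
  set a : ℝ := (P.C.A : ℝ) / 2 ^ 22 with ha
  set b : ℝ := (Q.C.A : ℝ) / 2 ^ 22 with hb
  have hPA' : (1 : ℝ) ≤ P.C.A := by exact_mod_cast hPA
  have hQA' : (1 : ℝ) ≤ Q.C.A := by exact_mod_cast hQA
  have ha0 : 0 < a := by rw [ha]; positivity
  have hb0 : 0 < b := by rw [hb]; positivity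
  have hAB' : (P.C.A : ℝ) + 1 ≤ Q.C.A := by exact_mod_cast hAB1
  have hab : a < b := by
    rw [ha, hb]
    exact div_lt_div_of_pos_right (by linarith) (by positivity)
  have hba : 0 < b - a := by linarith
  -- the weight
  set w : ℝ := ((k : ℝ) / N - a) / (b - a) with hw
  have hw0 : 0 ≤ w := div_nonneg (by linarith) hba.le
  have hw1 : w ≤ 1 := by rw [hw, div_le_one hba]; linarith
  have hwr : (1 - w) * a + w * b = (k : ℝ) / N := by
    have : w * (b - a) = (k : ℝ) / N - a := by rw [hw]; field_simp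
    linarith
  have hw4 := w_quarter w
  have hww : 0 ≤ w * (1 - w) := mul_nonneg hw0 (by linarith)
  -- the loss
  have hPr : P.C.par.r = a := by simp [QC.par, hPQ1, ha]
  have hQr : Q.C.par.r = b := by simp [QC.par, hQQ1, hb]
  have hPg : P.C.par.g = (P.C.gI : ℝ) / 2 ^ 44 := by simp [QC.par, QC.gI]
  have hQg : Q.C.par.g = (Q.C.gI : ℝ) / 2 ^ 44 := by simp [QC.par, QC.gI]
  have hl : w * (1 - w) * (b - a) * (P.C.par.g - Q.C.par.g)
      + w * (1 - w) * (2 * π * b - 2 * π * a) ^ 2 / 2 / π ≤ (loss : ℝ) / 2 ^ 66 := by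
    have hdpos : (0 : ℝ) < (Q.C.A : ℝ) - P.C.A := by linarith
    set M : ℤ := max (P.C.gI - Q.C.gI) 0 with hM
    have hM0 : (0 : ℝ) ≤ (M : ℝ) := by
      have : 0 ≤ M := le_max_right _ _
      exact_mod_cast this
    have hM1 : (P.C.gI : ℝ) - Q.C.gI ≤ (M : ℝ) := by
      have : P.C.gI - Q.C.gI ≤ M := le_max_left _ _
      exact_mod_cast this
    have hfl : ((Q.C.A : ℝ) - P.C.A) * M ≤
        (((((Q.C.A : ℤ) - P.C.A) * M) / 4 : ℤ) + 1 : ℝ) * 4 := by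
      have := (Int.lt_ediv_add_one_mul_self (((Q.C.A : ℤ) - P.C.A) * M) (by norm_num : (0 : ℤ) < 4)).le
      exact_mod_cast this
    have hlc : (loss : ℝ) = (((((Q.C.A : ℤ) - P.C.A) * M) / 4 : ℤ) : ℝ) + 1
        + 6588500 * (((Q.C.A : ℝ) - P.C.A) * ((Q.C.A : ℝ) - P.C.A)) := by
      rw [hloss]
      push_cast
      ring
    have t1 : w * (1 - w) * (b - a) * (P.C.par.g - Q.C.par.g)
        ≤ (((((Q.C.A : ℤ) - P.C.A) * M) / 4 : ℤ) + 1 : ℝ) / 2 ^ 66 := by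
      rw [hPg, hQg]
      have e1 : b - a = ((Q.C.A : ℝ) - P.C.A) / 2 ^ 22 := by rw [ha, hb]; ring
      calc w * (1 - w) * (b - a) * ((P.C.gI : ℝ) / 2 ^ 44 - (Q.C.gI : ℝ) / 2 ^ 44)
          = w * (1 - w) * (b - a) * (((P.C.gI : ℝ) - Q.C.gI) / 2 ^ 44) := by ring
        _ ≤ w * (1 - w) * (b - a) * ((M : ℝ) / 2 ^ 44) := by
            refine mul_le_mul_of_nonneg_left ?_ (mul_nonneg hww hba.le)
            exact div_le_div_of_nonneg_right hM1 (by positivity)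
        _ ≤ 1 / 4 * ((b - a) * ((M : ℝ) / 2 ^ 44)) := by
            rw [mul_assoc]
            exact mul_le_mul_of_nonneg_right hw4 (by positivity)
        _ = (((Q.C.A : ℝ) - P.C.A) * M) / (4 * 2 ^ 66) := by
            rw [e1]; ring
        _ ≤ ((((((Q.C.A : ℤ) - P.C.A) * M) / 4 : ℤ) + 1 : ℝ) * 4) / (4 * 2 ^ 66) :=
            div_le_div_of_nonneg_right hfl (by positivity)
        _ = _ := by ring
    have t2 : w * (1 - w) * (2 * π * b - 2 * π * a) ^ 2 / 2 / π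
        ≤ (6588500 * (((Q.C.A : ℝ) - P.C.A) * ((Q.C.A : ℝ) - P.C.A))) / 2 ^ 66 := by
      have e1 : w * (1 - w) * (2 * π * b - 2 * π * a) ^ 2 / 2 / π
          = w * (1 - w) * (2 * π) * (b - a) ^ 2 := by
        have := Real.pi_ne_zero
        field_simp
      have e2 : (b - a) ^ 2 = (((Q.C.A : ℝ) - P.C.A) * ((Q.C.A : ℝ) - P.C.A)) / 2 ^ 44 := by
        rw [ha, hb]; ring
      rw [e1, e2]
      have hpi := Real.pi_lt_d4
      have h0 := Real.pi_pos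
      have e3 : w * (1 - w) * (2 * π) ≤ 6588500 / 2 ^ 22 := by
        calc w * (1 - w) * (2 * π) ≤ 1 / 4 * (2 * π) :=
              mul_le_mul_of_nonneg_right hw4 (by positivity)
          _ ≤ 1 / 4 * (2 * 3.1416) := by linarith
          _ ≤ 6588500 / 2 ^ 22 := by norm_num
      calc w * (1 - w) * (2 * π) * ((((Q.C.A : ℝ) - P.C.A) * ((Q.C.A : ℝ) - P.C.A)) / 2 ^ 44)
          ≤ 6588500 / 2 ^ 22 * ((((Q.C.A : ℝ) - P.C.A) * ((Q.C.A : ℝ) - P.C.A)) / 2 ^ 44) :=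
            mul_le_mul_of_nonneg_right e3 (by positivity)
        _ = _ := by ring
    rw [hlc, add_div]
    exact add_le_add t1 t2
  -- the interpolation of the cosine
  have hcos : cos (2 * π * k / N) / π ≤ (1 - w) * (cos (2 * π * a) / π)
      + w * (cos (2 * π * b) / π) + w * (1 - w) * (2 * π * b - 2 * π * a) ^ 2 / 2 / π := by
    have e : 2 * π * k / N = (1 - w) * (2 * π * a) + w * (2 * π * b) := by
      have : 2 * π * k / N = 2 * π * ((k : ℝ) / N) := by ring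
      rw [this, ← hwr]; ring
    rw [e]
    have := cos_interp (p := 2 * π * a) (q := 2 * π * b) hw0 hw1
    have h2 := div_le_div_of_nonneg_right this Real.pi_pos.le
    refine h2.trans (le_of_eq ?_)
    ring
  have hinv := inv_interp ha0 hb0 hw0 hw1
  rw [hwr] at hinv
  have ekN : 1 / ((k : ℝ) / N) = (N : ℝ) * (1 / k) := by field_simp
  rw [ekN] at hinv
  have hlow := c.sL_lower hN hk1 hk2 (QD.sound hT hP) (QD.sound hT hQ) rfl rfl rfl rfl rfl rfl rfl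
    rfl rfl rfl rfl rfl hw0 hw1 (by rw [hPr, hQr, hwr])
  rw [hPr, hQr] at hlow
  refine le_trans ?_ hlow
  have hw1' : 0 ≤ 1 - w := by linarith
  have hs1' : 0 ≤ 1 - s := by linarith
  -- generic bound at one end
  have gen : ∀ (Tt Cn Dn : ℕ),
      ((Cn : ℝ) / 2 ^ 44 * (1 / a) ≤ P.C.par.b1 * (Tt / 2 ^ 20) - P.C.par.c
        - (loss : ℝ) / 2 ^ 66 - cos (2 * π * a) / π + Dn / 2 ^ 44) →
      ((Cn : ℝ) / 2 ^ 44 * (1 / b) ≤ Q.C.par.b1 * (Tt / 2 ^ 20) - Q.C.par.c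
        - (loss : ℝ) / 2 ^ 66 - cos (2 * π * b) / π + Dn / 2 ^ 44) →
      (Cn : ℝ) / 2 ^ 44 * ((N : ℝ) * (1 / k)) - Dn / 2 ^ 44 ≤
        (1 - w) * (P.C.par.b1 * (Tt / 2 ^ 20) - P.C.par.c)
        + w * (Q.C.par.b1 * (Tt / 2 ^ 20) - Q.C.par.c)
        - w * (1 - w) * (b - a) * (P.C.par.g - Q.C.par.g) - cos (2 * π * k / N) / π := by
    intro Tt Cn Dn g1 g2
    have g3 := mul_le_mul_of_nonneg_left g1 hw1'
    have g4 := mul_le_mul_of_nonneg_left g2 hw0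
    have g5 : (Cn : ℝ) / 2 ^ 44 * ((N : ℝ) * (1 / k)) ≤
        (Cn : ℝ) / 2 ^ 44 * ((1 - w) * (1 / a) + w * (1 / b)) :=
      mul_le_mul_of_nonneg_left hinv (by positivity)
    linarith
  have e1 := mul_le_mul_of_nonneg_left (gen _ _ _ m1 m2) hs1'
  have e2 := mul_le_mul_of_nonneg_left (gen _ _ _ m3 m4) hs0
  refine (add_le_add e1 e2).trans (le_of_eq ?_)
  rw [ht]
  ring

/-- a point of the range lies between two neighbouring nodes -/
theorem chain_ex {T : Tr} {U : UD} (l : List QD) : ∀ (P : QD), P.chk T = true → 1 ≤ P.C.A →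
    UD.chain U T P l = true → ∀ r : ℝ, (P.C.A : ℝ) / 2 ^ 22 < r → r * U.N1 ≤ U.K0 → 1 ≤ U.N1 →
    ∃ P' Q' : QD, P'.chk T = true ∧ Q'.chk T = true ∧ 1 ≤ P'.C.A ∧
      UD.pair U T P'.C Q'.C = true ∧ (P'.C.A : ℝ) / 2 ^ 22 ≤ r ∧ r ≤ (Q'.C.A : ℝ) / 2 ^ 22 := by
  induction l with
  | nil =>
    intro P hP hA h r h1 h2 hN
    exfalso
    unfold UD.chain at h
    have h' : U.K0 * 4194304 ≤ P.C.A * U.N1 := Nat.le_of_ble_eq_true h
    have h'' : (U.K0 : ℝ) * 4194304 ≤ P.C.A * U.N1 := by exact_mod_cast h'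
    have hN' : (1 : ℝ) ≤ U.N1 := by exact_mod_cast hN
    have h3 : (P.C.A : ℝ) < r * 4194304 := by
      rw [div_lt_iff₀ (by positivity)] at h1
      norm_num at h1
      exact h1
    have h4 : (P.C.A : ℝ) * U.N1 < r * 4194304 * U.N1 :=
      mul_lt_mul_of_pos_right h3 (by linarith)
    nlinarith
  | cons Q l ih =>
    intro P hP hA h r h1 h2 hN
    unfold UD.chain at h
    simp only [Bool.and_eq_true] at h
    obtain ⟨⟨hpair, hQ⟩, hch⟩ := h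
    by_cases hr : r ≤ (Q.C.A : ℝ) / 2 ^ 22
    · exact ⟨P, Q, hP, hQ, hA, hpair, h1.le, hr⟩
    · rw [not_le] at hr
      have hAB : P.C.A + 1 ≤ Q.C.A := by
        unfold UD.pair at hpair
        simp only [Bool.and_eq_true] at hpair
        exact Nat.le_of_ble_eq_true hpair.1.1.1.1.2
      exact ih Q hQ (by omega) hch r hr h2 hN

/-- real form of the final inequality -/
theorem fin_real {N1 K0 Tt Cn Dn : ℕ} (hN1 : 1 ≤ N1) (h : UD.fin N1 K0 Tt Cn Dn = true) {N : ℕ}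
    (hN : N1 ≤ N) :
    (N : ℝ) * ((Tt : ℝ) / 2 ^ 20) ^ 2 / π <
      2 * ((Cn : ℝ) / 2 ^ 44 * ((N : ℝ) * ∑ k ∈ Finset.Icc 1 K0, (1 : ℝ) / k)
        - K0 * ((Dn : ℝ) / 2 ^ 44)) := by
  unfold UD.fin at h
  have h1 : N1 * (Tt * Tt) * 5599766737523 + 2 * K0 * Dn * 1099511627776 + 1 ≤
      N1 * (2 * Cn * harm K0) * 1024 := Nat.le_of_ble_eq_true h
  have h2 : (N1 : ℝ) * ((Tt : ℝ) * Tt) * 5599766737523 + 2 * K0 * Dn * 1099511627776 + 1 ≤
      N1 * (2 * Cn * harm K0) * 1024 := by exact_mod_cast h1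
  have hH := harm_le K0
  set H : ℝ := ∑ k ∈ Finset.Icc 1 K0, (1 : ℝ) / k with hHdef
  have hN1' : (1 : ℝ) ≤ N1 := by exact_mod_cast hN1
  have hN' : (N1 : ℝ) ≤ N := by exact_mod_cast hN
  have hN0 : (0 : ℝ) < N := by linarith
  have h3 : (harm K0 : ℝ) ≤ H * 2 ^ 30 := by
    rwa [div_le_iff₀ (by positivity)] at hH
  have h4 : (N1 : ℝ) * (2 * Cn * harm K0) * 1024 ≤ N1 * (2 * Cn * (H * 2 ^ 30)) * 1024 := by
    gcongr
  -- divide by N1
  have h5 : ((Tt : ℝ) * Tt) * 5599766737523 + 2 * K0 * Dn * 1099511627776 / N1 <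
      (2 * Cn * (H * 2 ^ 30)) * 1024 := by
    have h6 : ((Tt : ℝ) * Tt) * 5599766737523 + 2 * K0 * Dn * 1099511627776 / N1
        = ((N1 : ℝ) * ((Tt : ℝ) * Tt) * 5599766737523 + 2 * K0 * Dn * 1099511627776) / N1 := by
      field_simp
    rw [h6, div_lt_iff₀ (by linarith)]
    linarith
  have h7 : (2 * K0 * Dn * 1099511627776 : ℝ) / N ≤ 2 * K0 * Dn * 1099511627776 / N1 :=
    div_le_div_of_nonneg_left (by positivity) (by linarith) hN'
  have h8 : ((Tt : ℝ) * Tt) * 5599766737523 + 2 * K0 * Dn * 1099511627776 / N <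
      (2 * Cn * (H * 2 ^ 30)) * 1024 := by linarith
  have h9 : (((Tt : ℝ) * Tt) * 5599766737523 + 2 * K0 * Dn * 1099511627776 / N) * N <
      (2 * Cn * (H * 2 ^ 30)) * 1024 * N := mul_lt_mul_of_pos_right h8 hN0
  have h10 : (((Tt : ℝ) * Tt) * 5599766737523 + 2 * K0 * Dn * 1099511627776 / N) * N
      = ((Tt : ℝ) * Tt) * 5599766737523 * N + 2 * K0 * Dn * 1099511627776 := by
    field_simp
  rw [h10] at h9
  -- the bound of 1/pi
  have hpi : (1 : ℝ) / π ≤ 5599766737523 / 2 ^ 44 := by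
    have h0 := Real.pi_gt_d20
    have hpos := Real.pi_pos
    rw [div_le_div_iff₀ hpos (by positivity)]
    nlinarith
  have h11 : (N : ℝ) * ((Tt : ℝ) / 2 ^ 20) ^ 2 / π ≤
      N * ((Tt : ℝ) / 2 ^ 20) ^ 2 * (5599766737523 / 2 ^ 44) := by
    have : (N : ℝ) * ((Tt : ℝ) / 2 ^ 20) ^ 2 / π = N * ((Tt : ℝ) / 2 ^ 20) ^ 2 * (1 / π) := by ring
    rw [this]
    exact mul_le_mul_of_nonneg_left hpi (by positivity)
  refine lt_of_le_of_lt h11 ?_
  have e1 : (N : ℝ) * ((Tt : ℝ) / 2 ^ 20) ^ 2 * (5599766737523 / 2 ^ 44) =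
      (((Tt : ℝ) * Tt) * 5599766737523 * N) / 2 ^ 84 := by ring
  have e2 : 2 * ((Cn : ℝ) / 2 ^ 44 * ((N : ℝ) * H) - K0 * ((Dn : ℝ) / 2 ^ 44)) =
      ((2 * Cn * (H * 2 ^ 30)) * 1024 * N - 2 * K0 * Dn * 1099511627776) / 2 ^ 84 := by ring
  rw [e1, e2]
  exact div_lt_div_of_pos_right (by linarith) (by positivity)

end UDaux

open UDaux in
/-- SUBTASK M: exclusion by universal certificates (at least two nodes). -/
theorem UD.sound {T : Tr} (hT : T.OK) {U : UD} (h : U.chk T = true) (hlen : 2 ≤ U.ds.length)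
    {N : ℕ} (hN1 : U.N1 ≤ N) (hN2 : N ≤ U.N2) (c : Cfg N)
    (h1 : (U.Tl : ℝ) / 2 ^ 20 ≤ c.t) (h2 : c.t ≤ (U.Th : ℝ) / 2 ^ 20) : False := by
  unfold UD.chk at h
  cases hds : U.ds with
  | nil => rw [hds] at hlen; simp at hlen
  | cons P l0 =>
  cases l0 with
  | nil => rw [hds] at hlen; simp at hlen
  | cons Q l =>
  rw [hds] at h
  simp only [Bool.and_eq_true] at h
  obtain ⟨⟨⟨⟨⟨⟨⟨hK, hKN⟩, hPA2⟩, hPA1⟩, hPc⟩, hch⟩, hfl⟩, hfh⟩ := h
  have hK : 1 ≤ U.K0 := Nat.le_of_ble_eq_true hK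
  have hKN : 2 * U.K0 + 1 ≤ U.N1 := Nat.le_of_ble_eq_true hKN
  have hPA2 : P.C.A * U.N2 ≤ 4194304 := Nat.le_of_ble_eq_true hPA2
  have hPA1 : 1 ≤ P.C.A := Nat.le_of_ble_eq_true hPA1
  unfold UD.chain at hch
  simp only [Bool.and_eq_true] at hch
  obtain ⟨⟨hpair, hQc⟩, hch⟩ := hch
  have hN3 : 3 ≤ N := by omega
  have hN0 : (0 : ℝ) < N := by exact_mod_cast (by omega : 0 < N)
  -- the position of t
  obtain ⟨s, hs0, hs1, hs⟩ : ∃ s : ℝ, 0 ≤ s ∧ s ≤ 1 ∧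
      c.t = (1 - s) * ((U.Tl : ℝ) / 2 ^ 20) + s * ((U.Th : ℝ) / 2 ^ 20) := by
    rcases eq_or_lt_of_le (h1.trans h2) with he | hlt
    · refine ⟨0, le_rfl, zero_le_one, ?_⟩
      have : c.t = (U.Tl : ℝ) / 2 ^ 20 := le_antisymm (h2.trans he.symm.le) h1
      rw [this]; ring
    · have hpos : 0 < (U.Th : ℝ) / 2 ^ 20 - (U.Tl : ℝ) / 2 ^ 20 := by linarith
      refine ⟨(c.t - (U.Tl : ℝ) / 2 ^ 20) / ((U.Th : ℝ) / 2 ^ 20 - (U.Tl : ℝ) / 2 ^ 20),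
        div_nonneg (by linarith) hpos.le, ?_, ?_⟩
      · rw [div_le_one hpos]; linarith
      · have e : (c.t - (U.Tl : ℝ) / 2 ^ 20) / ((U.Th : ℝ) / 2 ^ 20 - (U.Tl : ℝ) / 2 ^ 20)
            * ((U.Th : ℝ) / 2 ^ 20 - (U.Tl : ℝ) / 2 ^ 20) = c.t - (U.Tl : ℝ) / 2 ^ 20 :=
          div_mul_cancel₀ _ hpos.ne'
        linarith
  -- lower bounds of the single terms
  have hlow : ∀ k ∈ Finset.Icc 1 U.K0,
      (1 - s) * ((U.Cl : ℝ) / 2 ^ 44 * ((N : ℝ) * (1 / k)) - U.Dl / 2 ^ 44)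
      + s * ((U.Ch : ℝ) / 2 ^ 44 * ((N : ℝ) * (1 / k)) - U.Dh / 2 ^ 44) ≤ c.sL k := by
    intro k hk
    rw [Finset.mem_Icc] at hk
    have hkN : k < N := by omega
    have hr0 : (P.C.A : ℝ) / 2 ^ 22 ≤ (k : ℝ) / N := by
      rw [div_le_div_iff₀ (by positivity) hN0]
      have e1 : P.C.A * N ≤ 4194304 := (Nat.mul_le_mul_left _ hN2).trans hPA2
      have e2 : (P.C.A : ℝ) * N ≤ 4194304 := by exact_mod_cast e1
      have e3 : (1 : ℝ) ≤ k := by exact_mod_cast hk.1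
      nlinarith
    have hr1 : (k : ℝ) / N * U.N1 ≤ U.K0 := by
      have e1 : (k : ℝ) ≤ U.K0 := by exact_mod_cast hk.2
      have e2 : (U.N1 : ℝ) ≤ N := by exact_mod_cast hN1
      have e3 : (k : ℝ) / N * U.N1 ≤ (k : ℝ) / N * N :=
        mul_le_mul_of_nonneg_left e2 (by positivity)
      rw [div_mul_cancel₀ _ hN0.ne'] at e3
      linarith
    by_cases hr : (k : ℝ) / N ≤ (Q.C.A : ℝ) / 2 ^ 22
    · exact pair_real hT hPc hQc hPA1 hpair (by omega) c hk.1 hkN hr0 hr hs0 hs1 hs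
    · rw [not_le] at hr
      have hAB : P.C.A + 1 ≤ Q.C.A := by
        unfold UD.pair at hpair
        simp only [Bool.and_eq_true] at hpair
        exact Nat.le_of_ble_eq_true hpair.1.1.1.1.2
      obtain ⟨P', Q', a1, a2, a3, a4, a5, a6⟩ :=
        chain_ex l Q hQc (by omega) hch _ hr hr1 (by omega)
      exact pair_real hT a1 a2 a3 a4 (by omega) c hk.1 hkN a5 a6 hs0 hs1 hs
  -- the sum
  have hsum := c.sum_sL (by omega : 2 ≤ N)
  rw [Cfg.sum_fold c.sL (fun k h1 h2 => c.sL_symm (by omega) h1 h2)] at hsum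
  have hsub : ∑ k ∈ Finset.Icc 1 U.K0, (2 : ℝ) * c.sL k ≤
      ∑ k ∈ Finset.Icc 1 (N / 2), (if 2 * k = N then (1 : ℝ) else 2) * c.sL k := by
    have e1 : ∑ k ∈ Finset.Icc 1 U.K0, (2 : ℝ) * c.sL k =
        ∑ k ∈ Finset.Icc 1 U.K0, (if 2 * k = N then (1 : ℝ) else 2) * c.sL k := by
      refine Finset.sum_congr rfl fun k hk => ?_
      rw [Finset.mem_Icc] at hk
      rw [if_neg (by omega)]
    rw [e1]
    refine Finset.sum_le_sum_of_subset_of_nonneg ?_ ?_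
    · intro k hk
      rw [Finset.mem_Icc] at hk ⊢
      omega
    · intro k hk _
      rw [Finset.mem_Icc] at hk
      refine mul_nonneg ?_ (c.sL_nonneg (by omega) hk.1 (by omega))
      split_ifs <;> norm_num
  have hsum2 : ∑ k ∈ Finset.Icc 1 U.K0, (2 : ℝ) *
      ((1 - s) * ((U.Cl : ℝ) / 2 ^ 44 * ((N : ℝ) * (1 / k)) - U.Dl / 2 ^ 44)
      + s * ((U.Ch : ℝ) / 2 ^ 44 * ((N : ℝ) * (1 / k)) - U.Dh / 2 ^ 44)) ≤ N * c.t ^ 2 / π := by
    rw [← hsum]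
    refine le_trans (Finset.sum_le_sum fun k hk => ?_) hsub
    exact mul_le_mul_of_nonneg_left (hlow k hk) (by norm_num)
  set H : ℝ := ∑ k ∈ Finset.Icc 1 U.K0, (1 : ℝ) / k with hH
  have hexp : ∑ k ∈ Finset.Icc 1 U.K0, (2 : ℝ) *
      ((1 - s) * ((U.Cl : ℝ) / 2 ^ 44 * ((N : ℝ) * (1 / k)) - U.Dl / 2 ^ 44)
      + s * ((U.Ch : ℝ) / 2 ^ 44 * ((N : ℝ) * (1 / k)) - U.Dh / 2 ^ 44)) =
      (1 - s) * (2 * ((U.Cl : ℝ) / 2 ^ 44 * ((N : ℝ) * H) - U.K0 * ((U.Dl : ℝ) / 2 ^ 44)))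
      + s * (2 * ((U.Ch : ℝ) / 2 ^ 44 * ((N : ℝ) * H) - U.K0 * ((U.Dh : ℝ) / 2 ^ 44))) := by
    have e0 : ∀ k ∈ Finset.Icc 1 U.K0, (2 : ℝ) *
      ((1 - s) * ((U.Cl : ℝ) / 2 ^ 44 * ((N : ℝ) * (1 / k)) - U.Dl / 2 ^ 44)
      + s * ((U.Ch : ℝ) / 2 ^ 44 * ((N : ℝ) * (1 / k)) - U.Dh / 2 ^ 44)) =
      (2 * N * ((1 - s) * ((U.Cl : ℝ) / 2 ^ 44) + s * ((U.Ch : ℝ) / 2 ^ 44))) * (1 / k)
        - 2 * ((1 - s) * (U.Dl / 2 ^ 44) + s * (U.Dh / 2 ^ 44)) := by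
      intro k _
      ring
    rw [Finset.sum_congr rfl e0, Finset.sum_sub_distrib, ← Finset.mul_sum, ← hH,
      Finset.sum_const, Nat.card_Icc, nsmul_eq_mul]
    simp only [Nat.add_sub_cancel]
    ring
  rw [hexp] at hsum2
  have f1 := fin_real (by omega) hfl hN1
  have f2 := fin_real (by omega) hfh hN1
  have hs1' : 0 ≤ 1 - s := by linarith
  -- convexity of the square
  have hconv : (N : ℝ) * c.t ^ 2 / π ≤ (1 - s) * ((N : ℝ) * ((U.Tl : ℝ) / 2 ^ 20) ^ 2 / π)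
      + s * ((N : ℝ) * ((U.Th : ℝ) / 2 ^ 20) ^ 2 / π) := by
    have e1 : (1 - s) * ((N : ℝ) * ((U.Tl : ℝ) / 2 ^ 20) ^ 2 / π)
        + s * ((N : ℝ) * ((U.Th : ℝ) / 2 ^ 20) ^ 2 / π) - (N : ℝ) * c.t ^ 2 / π =
        (N : ℝ) / π * (s * (1 - s) * ((U.Tl : ℝ) / 2 ^ 20 - (U.Th : ℝ) / 2 ^ 20) ^ 2) := by
      rw [hs]; ring
    have e2 : 0 ≤ (N : ℝ) / π * (s * (1 - s) * ((U.Tl : ℝ) / 2 ^ 20 - (U.Th : ℝ) / 2 ^ 20) ^ 2) := by
      have := Real.pi_pos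
      positivity
    linarith
  rcases eq_or_lt_of_le hs0 with hz | hz
  · rw [← hz] at hsum2 hconv
    linarith
  · have g1 := mul_le_mul_of_nonneg_left f1.le hs1'
    have g2 := mul_lt_mul_of_pos_left f2 hz
    linarith

/-- the same with a condition on `K0` -/
theorem UD.sound2 {T : Tr} (hT : T.OK) {U : UD} (h : U.chk T = true) (hK : 2 ≤ U.K0)
    {N : ℕ} (hN1 : U.N1 ≤ N) (hN2 : N ≤ U.N2) (c : Cfg N)
    (h1 : (U.Tl : ℝ) / 2 ^ 20 ≤ c.t) (h2 : c.t ≤ (U.Th : ℝ) / 2 ^ 20) : False := by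
  refine UD.sound hT h ?_ hN1 hN2 c h1 h2
  by_contra hlen
  unfold UD.chk at h
  cases hds : U.ds with
  | nil => rw [hds] at h; simp at h
  | cons P l0 =>
  cases l0 with
  | cons Q l => rw [hds] at hlen; simp at hlen
  | nil =>
    rw [hds] at h
    simp only [Bool.and_eq_true] at h
    obtain ⟨⟨⟨⟨⟨⟨⟨_, hKN⟩, hPA2⟩, hPA1⟩, _⟩, hch⟩, _⟩, _⟩ := h
    have hPA2 : P.C.A * U.N2 ≤ 4194304 := Nat.le_of_ble_eq_true hPA2
    unfold UD.chain at hch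
    have hch : U.K0 * 4194304 ≤ P.C.A * U.N1 := Nat.le_of_ble_eq_true hch
    have e1 : P.C.A * U.N1 ≤ P.C.A * U.N2 := Nat.mul_le_mul_left _ (hN1.trans hN2)
    omega

end Pool.Agent.H999.LimCC
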